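import Pool.Agent.SYJ.St
import Pool.Agent.SYB.Bi

/-! # Sylvester problem, free sums of planar bodies: weak continuity from inside (module C1) -/

set_option autoImplicit false

namespace Pool.Agent.SYJ

open MeasureTheory Set Filter Topology Pool.Agent.SYL

theorem Cont_ae {d : ℕ} {K : Set (Fin d → ℝ)} {P : ℕ → Set (Fin d → ℝ)} (hc : Convex ℝ K)
    (hP : ∀ m, P m ⊆ K) (hi : interior K ⊆ ⋃ m, P m) :
    (⋃ m, P m : Set (Fin d → ℝ)) =ᵐ[volume] K := by
  have h0 : volume (frontier K) = 0 := hc.addHaar_frontier volume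
  have h1 : volume (K \ ⋃ m, P m) = 0 := by
    refine measure_mono_null (fun x hx => ?_) h0
    exact ⟨subset_closure hx.1, fun h => hx.2 (hi h)⟩
  have h2 : (⋃ m, P m) ⊆ K := iUnion_subset hP
  exact h2.eventuallyLE.antisymm (ae_le_set.2 h1)

theorem thm_cont : St_cont := by
  intro d K P hK hc hne hmono hP hi M hM
  have hae := Cont_ae hc (fun m => (hP m).2.2) hi
  have hfin : volume K ≠ ⊤ := hK.measure_lt_top.ne
  have hv : Tendsto (fun m => vol (P m)) atTop (𝓝 (vol K)) := by
    have h := tendsto_measure_iUnion_atTop (μ := (volume : Measure (Fin d → ℝ))) hmono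
    rw [measure_congr hae] at h
    exact (ENNReal.tendsto_toReal hfin).comp h
  have hs : Monotone (fun m => Set.pi univ (fun _ : Fin (d + 1) => P m)) :=
    fun m n h x hx i _ => hmono h (hx i trivial)
  have hVc : Continuous (V : (Fin (d + 1) → (Fin d → ℝ)) → ℝ) := (Pool.Agent.SYB.hV d).1
  have hKc : IsCompact (Set.pi univ (fun _ : Fin (d + 1) => K)) := isCompact_univ_pi fun _ => hK
  have hsub : (⋃ m, Set.pi univ (fun _ : Fin (d + 1) => P m)) ⊆
      Set.pi univ (fun _ : Fin (d + 1) => K) :=
    iUnion_subset fun m x hx i hi' => (hP m).2.2 (hx i hi')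
  have hint : IntegrableOn V (Set.pi univ (fun _ : Fin (d + 1) => K)) volume :=
    hVc.continuousOn.integrableOn_compact hKc
  have hu : (⋃ m, Set.pi univ (fun _ : Fin (d + 1) => P m)) =
      Set.pi univ (fun _ : Fin (d + 1) => ⋃ m, P m) := by
    ext x
    simp only [Set.mem_iUnion, Set.mem_pi]
    constructor
    · rintro ⟨m, hm⟩ i hi'
      exact ⟨m, hm i hi'⟩
    · intro h
      choose m hm using h
      exact ⟨Finset.univ.sup (fun i => m i trivial), fun i _ =>
        hmono (Finset.le_sup (f := fun i => m i trivial) (Finset.mem_univ i)) (hm i trivial)⟩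
  have hG : Tendsto (fun m => G d (P m)) atTop (𝓝 (G d K)) := by
    have h := tendsto_setIntegral_of_monotone (μ := volume) (f := V)
      (s := fun m => Set.pi univ (fun _ : Fin (d + 1) => P m))
      (fun m => MeasurableSet.univ_pi fun _ => (hP m).1.measurableSet) hs (hint.mono_set hsub)
    have hpi : (Set.pi univ (fun _ : Fin (d + 1) => ⋃ m, P m)) =ᵐ[volume]
        (Set.pi univ (fun _ : Fin (d + 1) => K)) := Measure.ae_eq_set_pi fun _ _ => hae
    rw [hu, setIntegral_congr_set hpi] at h
    exact h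
  have hpos : 0 < vol K := Pool.Agent.SYB.Bi_volpos ⟨hc, hK, hne⟩
  have hS : Tendsto (fun m => Sylv d (P m)) atTop (𝓝 (Sylv d K)) := by
    unfold Sylv
    exact (tendsto_const_nhds.div (hv.pow (d + 2)) (pow_ne_zero _ hpos.ne')).mul hG
  exact le_of_tendsto' hS hM

end Pool.Agent.SYJ
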