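import Pool.Agent.SYJ.St

/-!
# SYJ: crossing diagonals
-/

set_option autoImplicit false

namespace Pool.Agent.SYJ

open MeasureTheory Set Pool.Agent.SYL

/-- a linear isomorphism of the plane with `d` to `(2, 0)` -/
private noncomputable def Diag_L (d : Fin 2 → ℝ) (hd : d 0 ^ 2 + d 1 ^ 2 ≠ 0) :
    (Fin 2 → ℝ) ≃ₗ[ℝ] (Fin 2 → ℝ) where
  toFun v := ![2 * (d 0 * v 0 + d 1 * v 1) / (d 0 ^ 2 + d 1 ^ 2), d 0 * v 1 - d 1 * v 0]
  map_add' u v := by
    ext i
    fin_cases i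
    · simp only [Fin.zero_eta, Matrix.cons_val_zero, Pi.add_apply]
      ring
    · simp only [Fin.mk_one, Matrix.cons_val_one, Pi.add_apply, Matrix.cons_val_fin_one]
      ring
  map_smul' c v := by
    ext i
    fin_cases i
    · simp only [Fin.zero_eta, Matrix.cons_val_zero, Pi.smul_apply, smul_eq_mul, RingHom.id_apply]
      ring
    · simp only [Fin.mk_one, Matrix.cons_val_one, Pi.smul_apply, smul_eq_mul, RingHom.id_apply,
        Matrix.cons_val_fin_one]
      ring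
  invFun v := ![v 0 / 2 * d 0 - v 1 / (d 0 ^ 2 + d 1 ^ 2) * d 1,
    v 0 / 2 * d 1 + v 1 / (d 0 ^ 2 + d 1 ^ 2) * d 0]
  left_inv v := by
    ext i
    fin_cases i
    · simp only [Fin.zero_eta, Matrix.cons_val_zero, Matrix.cons_val_one, Matrix.cons_val_fin_one]
      field_simp
      ring
    · simp only [Fin.mk_one, Matrix.cons_val_zero, Matrix.cons_val_one, Matrix.cons_val_fin_one]
      field_simp
      ring
  right_inv v := by
    ext i
    fin_cases i
    · simp only [Fin.zero_eta, Matrix.cons_val_zero, Matrix.cons_val_one, Matrix.cons_val_fin_one]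
      field_simp
      ring
    · simp only [Fin.mk_one, Matrix.cons_val_zero, Matrix.cons_val_one, Matrix.cons_val_fin_one]
      field_simp
      ring

private theorem Diag_L_apply (d : Fin 2 → ℝ) (hd : d 0 ^ 2 + d 1 ^ 2 ≠ 0) (v : Fin 2 → ℝ) :
    Diag_L d hd v =
      ![2 * (d 0 * v 0 + d 1 * v 1) / (d 0 ^ 2 + d 1 ^ 2), d 0 * v 1 - d 1 * v 0] := rfl

private theorem Diag_sub {S : Finset (Fin 2 → ℝ)}
    (h : ∀ s ∈ S, s ∉ convexHull ℝ ((S.erase s : Finset (Fin 2 → ℝ)) : Set (Fin 2 → ℝ)))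
    {s : Fin 2 → ℝ} (hs : s ∈ S) {T : Set (Fin 2 → ℝ)} (hT : ∀ x ∈ T, x ∈ S ∧ x ≠ s) :
    s ∉ convexHull ℝ T := by
  intro hc
  apply h s hs
  refine convexHull_mono ?_ hc
  intro x hx
  rw [Finset.mem_coe, Finset.mem_erase]
  exact ⟨(hT x hx).2, (hT x hx).1⟩

private theorem Diag_seg {S : Finset (Fin 2 → ℝ)}
    (h : ∀ s ∈ S, s ∉ convexHull ℝ ((S.erase s : Finset (Fin 2 → ℝ)) : Set (Fin 2 → ℝ)))
    {s a b : Fin 2 → ℝ} (hs : s ∈ S) (ha : a ∈ S) (hb : b ∈ S) (has : a ≠ s) (hbs : b ≠ s) :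
    s ∉ segment ℝ a b := by
  rw [← convexHull_pair]
  refine Diag_sub h hs ?_
  intro x hx
  rcases hx with rfl | hx
  · exact ⟨ha, has⟩
  · rw [mem_singleton_iff] at hx
    subst hx
    exact ⟨hb, hbs⟩

/-- three points of `S` are not on a line -/
private theorem Diag_line {S : Finset (Fin 2 → ℝ)}
    (h : ∀ s ∈ S, s ∉ convexHull ℝ ((S.erase s : Finset (Fin 2 → ℝ)) : Set (Fin 2 → ℝ)))
    {a b c : Fin 2 → ℝ} (ha : a ∈ S) (hb : b ∈ S) (hc : c ∈ S) (hab : a ≠ b) (hac : a ≠ c)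
    (hbc : b ≠ c) (t : ℝ) (e : c = a + t • (a - b)) : False := by
  rcases lt_or_ge 0 t with ht | ht
  · refine Diag_seg h ha hc hb hac.symm hab.symm ⟨1 / (1 + t), t / (1 + t), by positivity,
      by positivity, by field_simp, ?_⟩
    rw [e]
    ext i
    simp only [Pi.add_apply, Pi.smul_apply, Pi.sub_apply, smul_eq_mul]
    field_simp
    ring
  · rcases lt_or_ge t (-1) with ht1 | ht1
    · have ht0 : t ≠ 0 := by linarith
      refine Diag_seg h hb ha hc hab hbc.symm ⟨1 + 1 / t, -(1 / t), ?_, ?_, by ring, ?_⟩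
      · have : -1 ≤ 1 / t := by
          rw [le_div_iff_of_neg (by linarith)]
          linarith
        linarith
      · have : 1 / t ≤ 0 := one_div_nonpos.2 ht
        linarith
      · rw [e]
        ext i
        simp only [Pi.add_apply, Pi.smul_apply, Pi.sub_apply, smul_eq_mul]
        field_simp
        ring
    · refine Diag_seg h hc ha hb hac hbc ⟨1 + t, -t, by linarith, by linarith, by ring, ?_⟩
      rw [e]
      ext i
      simp only [Pi.add_apply, Pi.smul_apply, Pi.sub_apply, smul_eq_mul]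
      ring

private theorem Diag_key {S : Finset (Fin 2 → ℝ)}
    (h : ∀ s ∈ S, s ∉ convexHull ℝ ((S.erase s : Finset (Fin 2 → ℝ)) : Set (Fin 2 → ℝ)))
    {a b c e : Fin 2 → ℝ} (ha : a ∈ S) (hb : b ∈ S) (hc : c ∈ S) (he : e ∈ S) (hab : a ≠ b)
    (hac : a ≠ c) (hae : a ≠ e) (hbc : b ≠ c) (hbe : b ≠ e) {x : Fin 2 → ℝ}
    (hx1 : x ∈ segment ℝ a b) (hx2 : x ∈ segment ℝ c e) :
    ∃ f : (Fin 2 → ℝ) ≃ᵃ[ℝ] (Fin 2 → ℝ), f a = ![1, 0] ∧ f b = ![-1, 0] ∧
      ((0 < f c 1 ∧ f e 1 < 0) ∨ (0 < f e 1 ∧ f c 1 < 0)) := by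
  set d : Fin 2 → ℝ := a - b with hd
  have hN : d 0 ^ 2 + d 1 ^ 2 ≠ 0 := by
    intro h0
    have h1 : d 0 = 0 := by nlinarith [sq_nonneg (d 0), sq_nonneg (d 1)]
    have h2 : d 1 = 0 := by nlinarith [sq_nonneg (d 0), sq_nonneg (d 1)]
    apply hab
    have h3 : d = 0 := by
      ext i
      fin_cases i
      · exact h1
      · exact h2
    exact sub_eq_zero.1 h3
  let f : (Fin 2 → ℝ) ≃ᵃ[ℝ] (Fin 2 → ℝ) :=
    ((AffineEquiv.constVAdd ℝ (Fin 2 → ℝ) (-a)).trans (Diag_L d hN).toAffineEquiv).trans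
      (AffineEquiv.constVAdd ℝ (Fin 2 → ℝ) ![1, 0])
  have hf : ∀ v, f v = ![1, 0] + Diag_L d hN (-a + v) := fun v => rfl
  have hf1 : ∀ v, f v 1 = d 0 * (v 1 - a 1) - d 1 * (v 0 - a 0) := by
    intro v
    rw [hf, Diag_L_apply]
    simp only [Pi.add_apply, Pi.neg_apply, Matrix.cons_val_one, Matrix.cons_val_fin_one]
    ring
  have hne : ∀ v ∈ S, a ≠ v → b ≠ v → f v 1 ≠ 0 := by
    intro v hv hav hbv h0
    rw [hf1] at h0
    refine Diag_line h ha hb hv hab hav hbv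
      ((d 0 * (v 0 - a 0) + d 1 * (v 1 - a 1)) / (d 0 ^ 2 + d 1 ^ 2)) ?_
    rw [← hd]
    ext i
    fin_cases i
    · simp only [Fin.zero_eta, Pi.add_apply, Pi.smul_apply, smul_eq_mul]
      field_simp
      linear_combination (-(d 1)) * h0
    · simp only [Fin.mk_one, Pi.add_apply, Pi.smul_apply, smul_eq_mul]
      field_simp
      linear_combination d 0 * h0
  have h1 := hne c hc hac hbc
  have h2 := hne e he hae hbe
  refine ⟨f, ?_, ?_, ?_⟩
  · rw [hf, neg_add_cancel, map_zero, add_zero]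
  · have e1 : -a + b = -d := by
      rw [hd]
      abel
    rw [hf, e1, map_neg, Diag_L_apply]
    ext i
    fin_cases i
    · simp only [Fin.zero_eta, Pi.add_apply, Pi.neg_apply, Matrix.cons_val_zero]
      field_simp
      ring
    · simp only [Fin.mk_one, Pi.add_apply, Pi.neg_apply, Matrix.cons_val_one,
        Matrix.cons_val_fin_one]
      ring
  · obtain ⟨p, q, hp, hq, hpq, hx⟩ := hx1
    obtain ⟨p', q', hp', hq', hpq', hx'⟩ := hx2
    have hx0 : f x 1 = 0 := by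
      rw [hf1, ← hx]
      simp only [Pi.add_apply, Pi.smul_apply, smul_eq_mul]
      have e0 : p = 1 - q := by linarith
      have e2 : d 0 = a 0 - b 0 := rfl
      have e3 : d 1 = a 1 - b 1 := rfl
      rw [e0, e2, e3]
      ring
    have hx3 : f x 1 = p' * f c 1 + q' * f e 1 := by
      rw [hf1, hf1, hf1, ← hx']
      simp only [Pi.add_apply, Pi.smul_apply, smul_eq_mul]
      have e0 : p' = 1 - q' := by linarith
      rw [e0]
      ring
    rw [hx0] at hx3
    rcases lt_or_gt_of_ne h1 with h3 | h3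
    · right
      refine ⟨?_, h3⟩
      by_contra h4
      have h5 : f e 1 < 0 := lt_of_le_of_ne (not_lt.1 h4) h2
      have h6 : 0 ≤ p' * (-(f c 1)) := mul_nonneg hp' (by linarith)
      have h7 : 0 ≤ q' * (-(f e 1)) := mul_nonneg hq' (by linarith)
      rcases hp'.eq_or_lt with h8 | h8
      · have : q' = 1 := by linarith
        rw [← h8, this] at hx3
        linarith
      · have : 0 < p' * (-(f c 1)) := mul_pos h8 (by linarith)
        linarith
    · left
      refine ⟨h3, ?_⟩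
      by_contra h4
      have h5 : 0 < f e 1 := lt_of_le_of_ne (not_lt.1 h4) (Ne.symm h2)
      have h6 : 0 ≤ p' * f c 1 := mul_nonneg hp' h3.le
      have h7 : 0 ≤ q' * f e 1 := mul_nonneg hq' h5.le
      rcases hp'.eq_or_lt with h8 | h8
      · have : q' = 1 := by linarith
        rw [← h8, this] at hx3
        linarith
      · have : 0 < p' * f c 1 := mul_pos h8 h3
        linarith

private theorem Diag_split : ∀ I : Finset (Fin 4), (∃ i, I ⊆ {i}) ∨ (∃ i, Iᶜ ⊆ {i}) ∨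
    ∃ i j k l, i ≠ j ∧ k ≠ l ∧ i ≠ k ∧ i ≠ l ∧ j ≠ k ∧ j ≠ l ∧ I = {i, j} ∧ Iᶜ = {k, l} := by
  decide

private theorem Diag_one {S : Finset (Fin 2 → ℝ)}
    (h : ∀ s ∈ S, s ∉ convexHull ℝ ((S.erase s : Finset (Fin 2 → ℝ)) : Set (Fin 2 → ℝ)))
    {p : Fin 4 → Fin 2 → ℝ} (hp : Function.Injective p) (hS : ∀ i, p i ∈ S) {I J : Set (Fin 4)}
    (hIJ : ∀ i ∈ I, i ∉ J) {i : Fin 4} (hi : I ⊆ {i}) {x : Fin 2 → ℝ}
    (h1 : x ∈ convexHull ℝ (p '' I)) (h2 : x ∈ convexHull ℝ (p '' J)) : False := by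
  have h3 : p '' I ⊆ {p i} := by
    rintro _ ⟨k, hk, rfl⟩
    have := hi hk
    rw [mem_singleton_iff] at this ⊢
    rw [this]
  have h4 := convexHull_mono (𝕜 := ℝ) h3 h1
  rw [convexHull_singleton, mem_singleton_iff] at h4
  have h5 : I.Nonempty := by
    by_contra hcon
    rw [not_nonempty_iff_eq_empty] at hcon
    rw [hcon, image_empty, convexHull_empty] at h1
    exact h1
  obtain ⟨k, hk⟩ := h5
  have hki : k = i := hi hk
  rw [hki] at hk
  rw [h4] at h2
  refine Diag_sub h (hS i) ?_ h2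
  rintro _ ⟨l, hl, rfl⟩
  refine ⟨hS l, fun hli => ?_⟩
  have := hp hli
  rw [this] at hl
  exact hIJ i hk hl

theorem thm_diag : St_diag := by
  classical
  intro S hS h
  obtain ⟨T, hTS, hT⟩ := Finset.exists_subset_card_eq hS
  let p : Fin 4 → Fin 2 → ℝ := fun i => ((T.equivFinOfCardEq hT).symm i : T).1
  have hp : Function.Injective p := fun i j hij =>
    (T.equivFinOfCardEq hT).symm.injective (Subtype.ext hij)
  have hpS : ∀ i, p i ∈ S := fun i => hTS ((T.equivFinOfCardEq hT).symm i).2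
  have hdep : ¬ AffineIndependent ℝ p := by
    intro hind
    have h1 := hind.card_le_finrank_succ
    have h2 := Submodule.finrank_le (vectorSpan ℝ (Set.range p))
    rw [Module.finrank_fin_fun] at h2
    rw [Fintype.card_fin] at h1
    omega
  obtain ⟨I, x, hx1, hx2⟩ := Convex.radon_partition hdep
  have hI : (I.toFinset : Set (Fin 4)) = I := Set.coe_toFinset I
  rcases Diag_split I.toFinset with ⟨i, hi⟩ | ⟨i, hi⟩ | ⟨i, j, k, l, hij, hkl, hik, hil, hjk, hjl, e1, e2⟩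
  · refine (Diag_one h hp hpS (I := I) (J := Iᶜ) (fun m hm hm' => hm' hm) (i := i) ?_ hx1 hx2).elim
    intro m hm
    have := hi (Set.mem_toFinset.2 hm)
    rwa [Finset.mem_singleton] at this
  · refine (Diag_one h hp hpS (I := Iᶜ) (J := I) (fun m hm hm' => hm hm') (i := i) ?_ hx2 hx1).elim
    intro m hm
    have hm2 : m ∈ I.toFinsetᶜ := by
      rw [Finset.mem_compl, Set.mem_toFinset]
      exact hm
    have := hi hm2
    rwa [Finset.mem_singleton] at this
  · have f1 : I = {i, j} := by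
      rw [← hI, e1]
      simp
    have f2 : Iᶜ = {k, l} := by
      rw [← hI, ← Finset.coe_compl, e2]
      simp
    rw [f1, image_pair, convexHull_pair] at hx1
    rw [f2, image_pair, convexHull_pair] at hx2
    obtain ⟨f, h1, h2, h3⟩ := Diag_key h (hpS i) (hpS j) (hpS k) (hpS l) (hp.ne hij) (hp.ne hik)
      (hp.ne hil) (hp.ne hjk) (hp.ne hjl) hx1 hx2
    refine ⟨f, ⟨p i, hpS i, h1⟩, ⟨p j, hpS j, h2⟩, ?_, ?_⟩
    · rcases h3 with h3 | h3
      · exact ⟨p k, hpS k, h3.1⟩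
      · exact ⟨p l, hpS l, h3.1⟩
    · rcases h3 with h3 | h3
      · exact ⟨p l, hpS l, h3.2⟩
      · exact ⟨p k, hpS k, h3.2⟩

end Pool.Agent.SYJ
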