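import Pool.Agent.SYJ.St

/-! # Sylvester problem, free sums of planar bodies: the end of the shear of a polygon -/

set_option autoImplicit false

namespace Pool.Agent.SYJ

open MeasureTheory Set Pool.Agent.SYL

/-- the shear of the upper half plane -/
private noncomputable def End_A (t : ℝ) : (Fin 2 → ℝ) →ₗ[ℝ] (Fin 2 → ℝ) :=
  LinearMap.id + (t • LinearMap.proj 1).smulRight (![1, 0] : Fin 2 → ℝ)

/-- the movement -/
private noncomputable abbrev End_m (t : ℝ) : (Fin 2 → ℝ) → (Fin 2 → ℝ) :=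
  mv (fun x : Fin 2 → ℝ => max (x 1) 0) ![1, 0] t

private lemma End_m0 (t : ℝ) (x : Fin 2 → ℝ) : End_m t x 0 = x 0 + t * max (x 1) 0 := by
  simp [End_m, mv]

private lemma End_m1 (t : ℝ) (x : Fin 2 → ℝ) : End_m t x 1 = x 1 := by
  simp [End_m, mv]

private lemma End_A0 (t : ℝ) (x : Fin 2 → ℝ) : End_A t x 0 = x 0 + t * x 1 := by
  simp [End_A]

private lemma End_A1 (t : ℝ) (x : Fin 2 → ℝ) : End_A t x 1 = x 1 := by
  simp [End_A]

private lemma End_pos (t : ℝ) (x : Fin 2 → ℝ) (h : 0 ≤ x 1) : End_m t x = End_A t x := by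
  funext i
  fin_cases i
  · show End_m t x 0 = End_A t x 0
    rw [End_m0, End_A0, max_eq_left h]
  · show End_m t x 1 = End_A t x 1
    rw [End_m1, End_A1]

private lemma End_neg (t : ℝ) (x : Fin 2 → ℝ) (h : x 1 ≤ 0) : End_m t x = x := by
  funext i
  fin_cases i
  · show End_m t x 0 = x 0
    rw [End_m0, max_eq_right h]
    ring
  · show End_m t x 1 = x 1
    rw [End_m1]

/-- a segment between two points on different sides of the axis meets the axis -/
private lemma End_cross (p n x : Fin 2 → ℝ) (hp : 0 ≤ p 1) (hn : n 1 ≤ 0)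
    (hx : x ∈ segment ℝ p n) :
    ∃ r ∈ segment ℝ p n, r 1 = 0 ∧ (0 ≤ x 1 → x ∈ segment ℝ p r) ∧
      (x 1 ≤ 0 → x ∈ segment ℝ r n) := by
  rcases lt_trichotomy (x 1) 0 with h | h | h
  · obtain ⟨a, b, ha, hb, hab, rfl⟩ := hx
    simp only [Pi.add_apply, Pi.smul_apply, smul_eq_mul] at h
    have hn' : n 1 < 0 := by
      by_contra hc
      have h0 : n 1 = 0 := le_antisymm hn (not_lt.1 hc)
      rw [h0, mul_zero, add_zero] at h
      exact absurd h (not_lt.2 (mul_nonneg ha hp))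
    have hd : 0 < p 1 - n 1 := by linarith
    have hb' : b = 1 - a := by linarith
    refine ⟨((-n 1) / (p 1 - n 1)) • p + (p 1 / (p 1 - n 1)) • n,
      ⟨_, _, by apply div_nonneg <;> linarith, by positivity, ?_, rfl⟩, ?_, ?_, ?_⟩
    · field_simp; ring
    · simp only [Pi.add_apply, Pi.smul_apply, smul_eq_mul]
      field_simp; ring
    · intro hx
      simp only [Pi.add_apply, Pi.smul_apply, smul_eq_mul] at hx
      linarith
    · intro _
      refine ⟨a * (p 1 - n 1) / (- n 1), 1 - a * (p 1 - n 1) / (- n 1),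
        div_nonneg (mul_nonneg ha hd.le) (by linarith), ?_, by ring, ?_⟩
      · rw [sub_nonneg, div_le_one (by linarith)]
        nlinarith
      · subst hb'
        have hne : n 1 ≠ 0 := hn'.ne
        funext i
        simp only [Pi.add_apply, Pi.smul_apply, smul_eq_mul]
        field_simp
        ring
  · exact ⟨x, hx, h, fun _ => right_mem_segment ℝ p x, fun _ => left_mem_segment ℝ x n⟩
  · obtain ⟨a, b, ha, hb, hab, rfl⟩ := hx
    simp only [Pi.add_apply, Pi.smul_apply, smul_eq_mul] at h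
    have hp' : 0 < p 1 := by
      by_contra hc
      have h0 : p 1 = 0 := le_antisymm (not_lt.1 hc) hp
      rw [h0, mul_zero, zero_add] at h
      exact absurd h (not_lt.2 (mul_nonpos_of_nonneg_of_nonpos hb hn))
    have hd : 0 < p 1 - n 1 := by linarith
    have ha' : a = 1 - b := by linarith
    refine ⟨((-n 1) / (p 1 - n 1)) • p + (p 1 / (p 1 - n 1)) • n,
      ⟨_, _, by apply div_nonneg <;> linarith, by positivity, ?_, rfl⟩, ?_, ?_, ?_⟩
    · field_simp; ring
    · simp only [Pi.add_apply, Pi.smul_apply, smul_eq_mul]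
      field_simp; ring
    · intro _
      refine ⟨1 - b * (p 1 - n 1) / p 1, b * (p 1 - n 1) / p 1, ?_,
        div_nonneg (mul_nonneg hb hd.le) hp'.le, by ring, ?_⟩
      · rw [sub_nonneg, div_le_one hp']
        nlinarith
      · subst ha'
        funext i
        simp only [Pi.add_apply, Pi.smul_apply, smul_eq_mul]
        field_simp
        ring
    · intro hx
      simp only [Pi.add_apply, Pi.smul_apply, smul_eq_mul] at hx
      linarith

private lemma End_axis (r : Fin 2 → ℝ) (h : r 1 = 0) (h1 : -1 ≤ r 0) (h2 : r 0 ≤ 1) :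
    r ∈ segment ℝ (![-1, 0] : Fin 2 → ℝ) ![1, 0] := by
  refine ⟨(1 - r 0) / 2, (1 + r 0) / 2, by linarith, by linarith, by ring, ?_⟩
  funext i
  fin_cases i
  · simp; ring
  · simp [h]

private lemma End_half (g c : ℝ) : Convex ℝ {x : Fin 2 → ℝ | x 0 - c ≤ g * x 1} := by
  intro x hx y hy a b ha hb hab
  simp only [Set.mem_ofPred_eq, Pi.add_apply, Pi.smul_apply, smul_eq_mul] at hx hy ⊢
  have hc : c = a * c + b * c := by rw [← add_mul, hab, one_mul]
  nlinarith [mul_le_mul_of_nonneg_left hx ha, mul_le_mul_of_nonneg_left hy hb]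

private lemma End_half' (g c : ℝ) : Convex ℝ {x : Fin 2 → ℝ | g * x 1 ≤ x 0 + c} := by
  intro x hx y hy a b ha hb hab
  simp only [Set.mem_ofPred_eq, Pi.add_apply, Pi.smul_apply, smul_eq_mul] at hx hy ⊢
  have hc : c = a * c + b * c := by rw [← add_mul, hab, one_mul]
  nlinarith [mul_le_mul_of_nonneg_left hx ha, mul_le_mul_of_nonneg_left hy hb]

private lemma End_up : Convex ℝ {x : Fin 2 → ℝ | 0 ≤ x 1} := by
  intro x hx y hy a b ha hb hab
  simp only [Set.mem_ofPred_eq, Pi.add_apply, Pi.smul_apply, smul_eq_mul] at hx hy ⊢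
  positivity

private lemma End_dn : Convex ℝ {x : Fin 2 → ℝ | x 1 ≤ 0} := by
  intro x hx y hy a b ha hb hab
  simp only [Set.mem_ofPred_eq, Pi.add_apply, Pi.smul_apply, smul_eq_mul] at hx hy ⊢
  nlinarith [mul_nonneg ha (neg_nonneg.2 hx), mul_nonneg hb (neg_nonneg.2 hy)]

/-- the movement of a polygon, as long as it stays between two lines through the two points -/
private lemma End_main (S : Set (Fin 2 → ℝ)) (h1 : ![1, 0] ∈ S) (h2 : ![-1, 0] ∈ S) (t g l : ℝ)
    (hr : ∀ x ∈ convexHull ℝ S, x 0 - 1 ≤ g * x 1) (hl : ∀ x ∈ convexHull ℝ S, l * x 1 ≤ x 0 + 1)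
    (hr' : ∀ x ∈ convexHull ℝ S, 0 ≤ x 1 → x 0 + t * x 1 - 1 ≤ g * x 1)
    (hl' : ∀ x ∈ convexHull ℝ S, 0 ≤ x 1 → l * x 1 ≤ x 0 + t * x 1 + 1) :
    End_m t '' convexHull ℝ S = convexHull ℝ (End_m t '' S) := by
  have hK1 : ![1, 0] ∈ convexHull ℝ S := subset_convexHull ℝ S h1
  have hK2 : ![-1, 0] ∈ convexHull ℝ S := subset_convexHull ℝ S h2
  have hKc : Convex ℝ (convexHull ℝ S) := convex_convexHull ℝ S
  have hseg : segment ℝ (![-1, 0] : Fin 2 → ℝ) ![1, 0] ⊆ convexHull ℝ S := hKc.segment_subset hK2 hK1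
  have hSu : S = (S ∩ {x | 0 ≤ x 1}) ∪ (S ∩ {x | x 1 ≤ 0}) := by
    rw [← Set.inter_union_distrib_left]
    ext x
    simp only [Set.mem_inter_iff, Set.mem_union, Set.mem_ofPred_eq]
    exact ⟨fun h => ⟨h, le_total _ _⟩, fun h => h.1⟩
  have ne1 : (S ∩ {x | 0 ≤ x 1}).Nonempty := ⟨![1, 0], h1, by simp⟩
  have ne2 : (S ∩ {x | x 1 ≤ 0}).Nonempty := ⟨![1, 0], h1, by simp⟩
  have hup : convexHull ℝ (S ∩ {x | 0 ≤ x 1}) ⊆ {x | 0 ≤ x 1} :=
    convexHull_min Set.inter_subset_right End_up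
  have hdn : convexHull ℝ (S ∩ {x | x 1 ≤ 0}) ⊆ {x | x 1 ≤ 0} :=
    convexHull_min Set.inter_subset_right End_dn
  have hsu : segment ℝ (![-1, 0] : Fin 2 → ℝ) ![1, 0] ⊆ convexHull ℝ (S ∩ {x | 0 ≤ x 1}) :=
    (convex_convexHull ℝ _).segment_subset (subset_convexHull ℝ _ ⟨h2, by simp⟩)
      (subset_convexHull ℝ _ ⟨h1, by simp⟩)
  have hsd : segment ℝ (![-1, 0] : Fin 2 → ℝ) ![1, 0] ⊆ convexHull ℝ (S ∩ {x | x 1 ≤ 0}) :=
    (convex_convexHull ℝ _).segment_subset (subset_convexHull ℝ _ ⟨h2, by simp⟩)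
      (subset_convexHull ℝ _ ⟨h1, by simp⟩)
  -- the two parts of the polygon
  have hparts : ∀ x ∈ convexHull ℝ S, (0 ≤ x 1 → x ∈ convexHull ℝ (S ∩ {x | 0 ≤ x 1})) ∧
      (x 1 ≤ 0 → x ∈ convexHull ℝ (S ∩ {x | x 1 ≤ 0})) := by
    intro x hx
    have hx' := hx
    rw [hSu, convexHull_union ne1 ne2, mem_convexJoin] at hx'
    obtain ⟨p, hp, n, hn, hxs⟩ := hx'
    obtain ⟨r, hrs, hr0, hr1, hr2⟩ := End_cross p n x (hup hp) (hdn hn) hxs
    have hrK : r ∈ convexHull ℝ S :=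
      hKc.segment_subset (convexHull_mono Set.inter_subset_left hp)
        (convexHull_mono Set.inter_subset_left hn) hrs
    have hrseg : r ∈ segment ℝ (![-1, 0] : Fin 2 → ℝ) ![1, 0] := by
      refine End_axis r hr0 ?_ ?_
      · have := hl r hrK
        rw [hr0] at this
        linarith
      · have := hr r hrK
        rw [hr0] at this
        linarith
    exact ⟨fun h => (convex_convexHull ℝ _).segment_subset hp (hsu hrseg) (hr1 h),
      fun h => (convex_convexHull ℝ _).segment_subset (hsd hrseg) hn (hr2 h)⟩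
  apply Set.Subset.antisymm
  · rintro _ ⟨x, hx, rfl⟩
    rcases le_total 0 (x 1) with h | h
    · have hx1 := (hparts x hx).1 h
      rw [End_pos t x h]
      have h3 : End_A t x ∈ convexHull ℝ (End_A t '' (S ∩ {x | 0 ≤ x 1})) := by
        rw [← LinearMap.image_convexHull]
        exact ⟨x, hx1, rfl⟩
      refine convexHull_mono ?_ h3
      rintro _ ⟨s, ⟨hs, hs'⟩, rfl⟩
      exact ⟨s, hs, End_pos t s hs'⟩
    · have hx1 := (hparts x hx).2 h
      rw [End_neg t x h]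
      refine convexHull_mono ?_ hx1
      rintro s ⟨hs, hs'⟩
      exact ⟨s, hs, End_neg t s hs'⟩
  · refine convexHull_min (Set.image_mono (subset_convexHull ℝ S)) ?_
    -- convexity of the moved polygon
    have hA : Convex ℝ (End_A t '' (convexHull ℝ S ∩ {x | 0 ≤ x 1})) :=
      (hKc.inter End_up).linear_image (End_A t)
    have hsame1 : ∀ p ∈ End_m t '' convexHull ℝ S, ∀ q ∈ End_m t '' convexHull ℝ S, 0 ≤ p 1 →
        0 ≤ q 1 → segment ℝ p q ⊆ End_m t '' convexHull ℝ S := by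
      rintro _ ⟨p, hp, rfl⟩ _ ⟨q, hq, rfl⟩ hp0 hq0
      rw [End_m1] at hp0 hq0
      have h3 := hA.segment_subset (x := End_m t p) (y := End_m t q)
        ⟨p, ⟨hp, hp0⟩, (End_pos t p hp0).symm⟩ ⟨q, ⟨hq, hq0⟩, (End_pos t q hq0).symm⟩
      refine h3.trans ?_
      rintro _ ⟨z, ⟨hz, hz'⟩, rfl⟩
      exact ⟨z, hz, End_pos t z hz'⟩
    have hsame2 : ∀ p ∈ End_m t '' convexHull ℝ S, ∀ q ∈ End_m t '' convexHull ℝ S, p 1 ≤ 0 →
        q 1 ≤ 0 → segment ℝ p q ⊆ End_m t '' convexHull ℝ S := by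
      rintro _ ⟨p, hp, rfl⟩ _ ⟨q, hq, rfl⟩ hp0 hq0
      rw [End_m1] at hp0 hq0
      have h3 := (hKc.inter End_dn).segment_subset (x := End_m t p) (y := End_m t q)
        (by rw [End_neg t p hp0]; exact ⟨hp, hp0⟩) (by rw [End_neg t q hq0]; exact ⟨hq, hq0⟩)
      refine h3.trans ?_
      rintro z ⟨hz, hz'⟩
      exact ⟨z, hz, End_neg t z hz'⟩
    have hb1 : ∀ p ∈ End_m t '' convexHull ℝ S, p ∈ {x : Fin 2 → ℝ | x 0 - 1 ≤ g * x 1} := by
      rintro _ ⟨p, hp, rfl⟩
      show End_m t p 0 - 1 ≤ g * End_m t p 1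
      rw [End_m0, End_m1]
      rcases le_total 0 (p 1) with h | h
      · rw [max_eq_left h]
        exact hr' p hp h
      · rw [max_eq_right h]
        have := hr p hp
        linarith
    have hb2 : ∀ p ∈ End_m t '' convexHull ℝ S, p ∈ {x : Fin 2 → ℝ | l * x 1 ≤ x 0 + 1} := by
      rintro _ ⟨p, hp, rfl⟩
      show l * End_m t p 1 ≤ End_m t p 0 + 1
      rw [End_m0, End_m1]
      rcases le_total 0 (p 1) with h | h
      · rw [max_eq_left h]
        exact hl' p hp h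
      · rw [max_eq_right h]
        have := hl p hp
        linarith
    have hopp : ∀ p ∈ End_m t '' convexHull ℝ S, ∀ q ∈ End_m t '' convexHull ℝ S, 0 ≤ p 1 →
        q 1 ≤ 0 → segment ℝ p q ⊆ End_m t '' convexHull ℝ S := by
      intro p hp q hq hp0 hq0 z hz
      obtain ⟨r, hrs, hr0, hr1, hr2⟩ := End_cross p q z hp0 hq0 hz
      have h3 : r ∈ {x : Fin 2 → ℝ | x 0 - 1 ≤ g * x 1} :=
        (End_half g 1).segment_subset (hb1 p hp) (hb1 q hq) hrs
      have h4 : r ∈ {x : Fin 2 → ℝ | l * x 1 ≤ x 0 + 1} :=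
        (End_half' l 1).segment_subset (hb2 p hp) (hb2 q hq) hrs
      simp only [Set.mem_ofPred_eq, hr0] at h3 h4
      have hrK : r ∈ End_m t '' convexHull ℝ S :=
        ⟨r, hseg (End_axis r hr0 (by linarith) (by linarith)), End_neg t r hr0.le⟩
      rcases le_total 0 (z 1) with h | h
      · exact hsame1 p hp r hrK hp0 hr0.ge (hr1 h)
      · exact hsame2 r hrK q hq hr0.le hq0 (hr2 h)
    rw [convex_iff_segment_subset]
    intro p hp q hq
    rcases le_total 0 (p 1) with h | h <;> rcases le_total 0 (q 1) with h' | h'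
    · exact hsame1 p hp q hq h h'
    · exact hopp p hp q hq h h'
    · rw [segment_symm]
      exact hopp q hq p hp h' h
    · exact hsame2 p hp q hq h h'

/-- a point of the axis between a point above and a point below on the line through it -/
private lemma End_line (a c w : Fin 2 → ℝ) (k e : ℝ) (ha : 0 < a 1) (hc : c 1 < 0) (hw : w 1 = 0)
    (hw0 : w 0 = e) (hak : a 0 - e = k * a 1) (hck : c 0 - e = k * c 1) : w ∈ segment ℝ a c := by
  have hd : 0 < a 1 - c 1 := by linarith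
  refine ⟨(-c 1) / (a 1 - c 1), a 1 / (a 1 - c 1), by apply div_nonneg <;> linarith,
    by positivity, by field_simp; ring, ?_⟩
  have h0 : a 0 = k * a 1 + e := by linarith
  have h1 : c 0 = k * c 1 + e := by linarith
  funext i
  fin_cases i
  · simp only [Fin.zero_eta, Pi.add_apply, Pi.smul_apply, smul_eq_mul, h0, h1, hw0]
    field_simp
    ring
  · simp only [Fin.mk_one, Pi.add_apply, Pi.smul_apply, smul_eq_mul, hw]
    field_simp
    ring

/-- the extreme slopes at the point `(σ, 0)`, `σ = 1` or `σ = -1` -/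
private lemma End_slopes (S : Finset (Fin 2 → ℝ)) (σ : ℝ) (hσ : σ * σ = 1) (h1 : ![σ, 0] ∈ S)
    (h2 : ![-σ, 0] ∈ S)
    (hext : ∀ s ∈ S, s ∉ convexHull ℝ ((S.erase s : Finset (Fin 2 → ℝ)) : Set (Fin 2 → ℝ)))
    (hab : ∃ s ∈ S, 0 < s 1) (hbe : ∃ s ∈ S, s 1 < 0) :
    ∃ a ∈ S, ∃ c ∈ S, ∃ α γ : ℝ, 0 < a 1 ∧ c 1 < 0 ∧ σ * a 0 - 1 = α * a 1 ∧
      σ * c 0 - 1 = γ * c 1 ∧ α ≤ γ ∧ (∀ s ∈ S, σ * s 0 - 1 ≤ α * s 1) ∧
      (∀ s ∈ S, σ * s 0 - 1 ≤ γ * s 1) := by
  classical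
  have hσ0 : σ ≠ 0 := by
    rintro rfl
    norm_num at hσ
  -- no point of the hull of the other points is on the axis beyond the point
  have hZ : ∀ r ∈ convexHull ℝ ((S.erase ![σ, 0] : Finset (Fin 2 → ℝ)) : Set (Fin 2 → ℝ)),
      r 1 = 0 → σ * r 0 ≤ 1 := by
    intro r hr hr1
    by_contra hc
    push Not at hc
    have hw' : ![-σ, 0] ∈ convexHull ℝ ((S.erase ![σ, 0] : Finset (Fin 2 → ℝ)) : Set (Fin 2 → ℝ)) := by
      refine subset_convexHull ℝ _ ?_
      rw [Finset.mem_coe, Finset.mem_erase]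
      refine ⟨fun h => hσ0 ?_, h2⟩
      have h3 := congrFun h 0
      simp at h3
      linarith
    refine hext _ h1 ((convex_convexHull ℝ _).segment_subset hw' hr ?_)
    have hd : 0 < σ * r 0 + 1 := by linarith
    refine ⟨(σ * r 0 - 1) / (σ * r 0 + 1), 2 / (σ * r 0 + 1), by apply div_nonneg <;> linarith,
      by positivity, by field_simp; ring, ?_⟩
    funext i
    fin_cases i
    · simp
      field_simp
      linear_combination (-2 * r 0) * hσ
    · simp [hr1]
  obtain ⟨a, ha, ha'⟩ := Finset.exists_max_image (S.filter fun s => 0 < s 1)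
    (fun s => (σ * s 0 - 1) / s 1) (by
      obtain ⟨s, hs, hs'⟩ := hab
      exact ⟨s, Finset.mem_filter.2 ⟨hs, hs'⟩⟩)
  obtain ⟨c, hc, hc'⟩ := Finset.exists_min_image (S.filter fun s => s 1 < 0)
    (fun s => (σ * s 0 - 1) / s 1) (by
      obtain ⟨s, hs, hs'⟩ := hbe
      exact ⟨s, Finset.mem_filter.2 ⟨hs, hs'⟩⟩)
  rw [Finset.mem_filter] at ha hc
  obtain ⟨haS, ha1⟩ := ha
  obtain ⟨hcS, hc1⟩ := hc
  have haα : σ * a 0 - 1 = (σ * a 0 - 1) / a 1 * a 1 := by field_simp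
  have hcγ : σ * c 0 - 1 = (σ * c 0 - 1) / c 1 * c 1 := by
    have := hc1.ne
    field_simp
  set α := (σ * a 0 - 1) / a 1 with hα
  set γ := (σ * c 0 - 1) / c 1 with hγ
  have hle : α ≤ γ := by
    have hd : 0 < a 1 - c 1 := by linarith
    have hane : a ≠ ![σ, 0] := by
      rintro rfl
      simp at ha1
    have hcne : c ≠ ![σ, 0] := by
      rintro rfl
      simp at hc1
    have hr : ((-c 1) / (a 1 - c 1)) • a + (a 1 / (a 1 - c 1)) • c ∈
        convexHull ℝ ((S.erase ![σ, 0] : Finset (Fin 2 → ℝ)) : Set (Fin 2 → ℝ)) := by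
      refine (convex_convexHull ℝ _) (subset_convexHull ℝ _ ?_) (subset_convexHull ℝ _ ?_)
        (by apply div_nonneg <;> linarith) (by positivity) (by field_simp; ring)
      · rw [Finset.mem_coe, Finset.mem_erase]
        exact ⟨hane, haS⟩
      · rw [Finset.mem_coe, Finset.mem_erase]
        exact ⟨hcne, hcS⟩
    have h3 := hZ _ hr (by
      simp only [Pi.add_apply, Pi.smul_apply, smul_eq_mul]
      field_simp
      ring)
    simp only [Pi.add_apply, Pi.smul_apply, smul_eq_mul] at h3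
    have h4 : σ * (-c 1 / (a 1 - c 1) * a 0 + a 1 / (a 1 - c 1) * c 0) =
        (-c 1 * (σ * a 0) + a 1 * (σ * c 0)) / (a 1 - c 1) := by
      field_simp
    rw [h4, div_le_one hd] at h3
    have h5 : σ * a 0 = α * a 1 + 1 := by linarith
    have h6 : σ * c 0 = γ * c 1 + 1 := by linarith
    rw [h5, h6] at h3
    have h7 : (a 1 * (-c 1)) * (α - γ) ≤ 0 := by nlinarith
    have h8 : 0 < a 1 * (-c 1) := by
      apply mul_pos ha1
      linarith
    by_contra hcon
    push Not at hcon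
    have h9 : 0 < (a 1 * (-c 1)) * (α - γ) := mul_pos h8 (by linarith)
    linarith
  have hzero : ∀ s ∈ S, s 1 = 0 → σ * s 0 ≤ 1 := by
    intro s hs hs1
    by_cases h : s = ![σ, 0]
    · rw [h]
      simp [hσ]
    · exact hZ s (subset_convexHull ℝ _ (Finset.mem_coe.2 (Finset.mem_erase.2 ⟨h, hs⟩))) hs1
  have hposα : ∀ s ∈ S, 0 < s 1 → σ * s 0 - 1 ≤ α * s 1 := by
    intro s hs hs1
    have h3 := ha' s (Finset.mem_filter.2 ⟨hs, hs1⟩)
    rwa [div_le_iff₀ hs1] at h3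
  have hnegγ : ∀ s ∈ S, s 1 < 0 → σ * s 0 - 1 ≤ γ * s 1 := by
    intro s hs hs1
    have h3 : γ ≤ (σ * s 0 - 1) / s 1 := hc' s (Finset.mem_filter.2 ⟨hs, hs1⟩)
    rwa [le_div_iff_of_neg hs1] at h3
  refine ⟨a, haS, c, hcS, α, γ, ha1, hc1, haα, hcγ, hle, fun s hs => ?_, fun s hs => ?_⟩
  · rcases lt_trichotomy (s 1) 0 with h | h | h
    · have := hnegγ s hs h
      nlinarith
    · have := hzero s hs h
      rw [h]
      linarith
    · exact hposα s hs h
  · rcases lt_trichotomy (s 1) 0 with h | h | h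
    · exact hnegγ s hs h
    · have := hzero s hs h
      rw [h]
      linarith
    · have := hposα s hs h
      nlinarith

/-- L1 -/
theorem thm_end : St_end := by
  intro S h1 h2 hext hab hbe
  obtain ⟨a, haS, c, hcS, α, γ, ha1, hc1, haα, hcγ, hle, hα, hγ⟩ :=
    End_slopes S 1 (by norm_num) h1 h2 hext hab hbe
  obtain ⟨a', ha'S, c', hc'S, α', γ', ha'1, hc'1, haα', hcγ', hle', hα', hγ'⟩ :=
    End_slopes S (-1) (by norm_num) h2 (by simpa using h1) hext hab hbe
  simp only [one_mul] at haα hcγ hα hγ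
  have kα : ∀ x ∈ convexHull ℝ (S : Set (Fin 2 → ℝ)), x 0 - 1 ≤ α * x 1 :=
    fun x hx => convexHull_min (fun s hs => hα s hs) (End_half α 1) hx
  have kγ : ∀ x ∈ convexHull ℝ (S : Set (Fin 2 → ℝ)), x 0 - 1 ≤ γ * x 1 :=
    fun x hx => convexHull_min (fun s hs => hγ s hs) (End_half γ 1) hx
  have kγ' : ∀ x ∈ convexHull ℝ (S : Set (Fin 2 → ℝ)), (-γ') * x 1 ≤ x 0 + 1 := by
    refine fun x hx => convexHull_min (fun s hs => ?_) (End_half' (-γ') 1) hx
    have := hγ' s hs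
    show (-γ') * s 1 ≤ s 0 + 1
    linarith
  refine ⟨γ - α, by linarith, End_main S h1 h2 (γ - α) γ (-γ') kγ kγ' ?_ ?_, ?_⟩
  · intro x hx hx1
    have := kα x hx
    linarith
  · intro x hx hx1
    have h3 := kγ' x hx
    have h4 : 0 ≤ (γ - α) * x 1 := mul_nonneg (by linarith) hx1
    linarith
  · have hmem : ∀ s ∈ S, s 1 ≠ 0 → End_m (γ - α) s ∈ convexHull ℝ
        ((End_m (γ - α) '' (S : Set (Fin 2 → ℝ))) \ {![1, 0]}) := by
      intro s hs hs1
      refine subset_convexHull ℝ _ ⟨⟨s, hs, rfl⟩, fun h => hs1 ?_⟩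
      rw [← End_m1 (γ - α) s, Set.mem_singleton_iff.1 h]
      simp
    refine (convex_convexHull ℝ _).segment_subset (hmem a haS ha1.ne') (hmem c hcS hc1.ne) ?_
    refine End_line _ _ _ γ 1 ?_ ?_ (by simp) (by simp) ?_ ?_
    · rwa [End_m1]
    · rwa [End_m1]
    · rw [End_m0, End_m1, max_eq_left ha1.le]
      linarith
    · rw [End_m0, End_m1, max_eq_right hc1.le]
      linarith

/-- L2 -/
theorem thm_end2 (_h : St_end) : St_end2 := by
  intro S h1 h2 hext hab hbe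
  obtain ⟨a, haS, c, hcS, α, γ, ha1, hc1, haα, hcγ, hle, hα, hγ⟩ :=
    End_slopes S 1 (by norm_num) h1 h2 hext hab hbe
  obtain ⟨a', ha'S, c', hc'S, α', γ', ha'1, hc'1, haα', hcγ', hle', hα', hγ'⟩ :=
    End_slopes S (-1) (by norm_num) h2 (by simpa using h1) hext hab hbe
  simp only [one_mul] at haα hcγ hα hγ
  have kγ : ∀ x ∈ convexHull ℝ (S : Set (Fin 2 → ℝ)), x 0 - 1 ≤ γ * x 1 :=
    fun x hx => convexHull_min (fun s hs => hγ s hs) (End_half γ 1) hx
  have kγ' : ∀ x ∈ convexHull ℝ (S : Set (Fin 2 → ℝ)), (-γ') * x 1 ≤ x 0 + 1 := by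
    refine fun x hx => convexHull_min (fun s hs => ?_) (End_half' (-γ') 1) hx
    have := hγ' s hs
    show (-γ') * s 1 ≤ s 0 + 1
    linarith
  have kα' : ∀ x ∈ convexHull ℝ (S : Set (Fin 2 → ℝ)), (-α') * x 1 ≤ x 0 + 1 := by
    refine fun x hx => convexHull_min (fun s hs => ?_) (End_half' (-α') 1) hx
    have := hα' s hs
    show (-α') * s 1 ≤ s 0 + 1
    linarith
  refine ⟨α' - γ', by linarith, End_main S h1 h2 (α' - γ') γ (-γ') kγ kγ' ?_ ?_, ?_⟩
  · intro x hx hx1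
    have h3 := kγ x hx
    have h4 : (α' - γ') * x 1 ≤ 0 := mul_nonpos_of_nonpos_of_nonneg (by linarith) hx1
    linarith
  · intro x hx hx1
    have := kα' x hx
    linarith
  · have hmem : ∀ s ∈ S, s 1 ≠ 0 → End_m (α' - γ') s ∈ convexHull ℝ
        ((End_m (α' - γ') '' (S : Set (Fin 2 → ℝ))) \ {![-1, 0]}) := by
      intro s hs hs1
      refine subset_convexHull ℝ _ ⟨⟨s, hs, rfl⟩, fun h => hs1 ?_⟩
      rw [← End_m1 (α' - γ') s, Set.mem_singleton_iff.1 h]
      simp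
    refine (convex_convexHull ℝ _).segment_subset (hmem a' ha'S ha'1.ne') (hmem c' hc'S hc'1.ne) ?_
    refine End_line _ _ _ (-γ') (-1) ?_ ?_ (by simp) (by simp) ?_ ?_
    · rwa [End_m1]
    · rwa [End_m1]
    · rw [End_m0, End_m1, max_eq_left ha'1.le]
      linarith
    · rw [End_m0, End_m1, max_eq_right hc'1.le]
      linarith

end Pool.Agent.SYJ
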