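import Pool.Agent.SYJ.Cls

/-! # Pyramids and double pyramids over planar bodies -/

set_option autoImplicit false

namespace Pool.Agent.SYJ

open Set Pool.Agent.SYL

/-- the linear isomorphism -/
noncomputable def Ex_L (v : Fin 3 → ℝ) (hv : v 2 ≠ 0) :
    ((Fin 2 → ℝ) × (Fin 1 → ℝ)) ≃ₗ[ℝ] (Fin 3 → ℝ) where
  toFun z := fun i => (![z.1 0, z.1 1, 0] : Fin 3 → ℝ) i + z.2 0 * v i
  map_add' x y := by
    funext i
    fin_cases i <;> simp <;> ring
  map_smul' c x := by
    funext i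
    fin_cases i <;> simp <;> ring
  invFun y := (![y 0 - y 2 / v 2 * v 0, y 1 - y 2 / v 2 * v 1], ![y 2 / v 2])
  left_inv z := by
    ext i
    · fin_cases i <;> simp <;> field_simp <;> ring
    · fin_cases i
      simp
      field_simp
  right_inv y := by
    funext i
    fin_cases i <;> simp
    field_simp

theorem Ex_seg : IsSimplex (convexHull ℝ {(![0] : Fin 1 → ℝ), ![1]}) := by
  refine ⟨![![0], ![1]], affineIndependent_of_ne ℝ ?_, ?_⟩
  · intro h
    have h1 := congrFun h 0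
    simp at h1
  · congr 1
    rw [Matrix.range_cons, Matrix.range_cons, Matrix.range_empty, union_empty]
    rfl

theorem Ex_main {B : Set (Fin 2 → ℝ)} (hB : IsBody B) {p q : Fin 3 → ℝ} (hpq : p 2 ≠ q 2)
    {o : Fin 2 → ℝ} (ho : o ∈ B) (hs : ![o 0, o 1, 0] ∈ segment ℝ p q) :
    FSClass 3 (convexHull ℝ ((fun x : Fin 2 → ℝ => ![x 0, x 1, 0]) '' B ∪ {p, q})) := by
  have hv : (q - p) 2 ≠ 0 := by
    intro h
    apply hpq
    have : q 2 - p 2 = 0 := h
    linarith
  rw [segment_eq_image'] at hs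
  obtain ⟨s, hs1, hs2⟩ := hs
  have hs3 : ∀ i, p i + s * (q i - p i) = (![o 0, o 1, 0] : Fin 3 → ℝ) i := by
    intro i
    rw [← hs2]
    rfl
  let f : ((Fin 2 → ℝ) × (Fin 1 → ℝ)) ≃ᵃ[ℝ] (Fin 3 → ℝ) :=
    (Ex_L (q - p) hv).toAffineEquiv.trans (AffineEquiv.constVAdd ℝ (Fin 3 → ℝ) (-(s • (q - p))))
  have hf : ∀ z i, f z i = -(s * (q i - p i)) +
      ((![z.1 0, z.1 1, 0] : Fin 3 → ℝ) i + z.2 0 * (q i - p i)) := fun z i => rfl
  have hsT : ![s] ∈ convexHull ℝ {(![0] : Fin 1 → ℝ), ![1]} := by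
    rw [convexHull_pair, segment_eq_image']
    refine ⟨s, hs1, ?_⟩
    ext i
    fin_cases i
    simp
  have h1 := FSClass.sum f (FSClass.planar hB) ho (FSClass.simplex Ex_seg) hsT
  have h2 : f '' convexHull ℝ (B ×ˢ {![s]} ∪ {o} ×ˢ convexHull ℝ {(![0] : Fin 1 → ℝ), ![1]}) =
      convexHull ℝ ((fun x : Fin 2 → ℝ => ![x 0, x 1, 0]) '' B ∪ {p, q}) := by
    have h3 : f '' convexHull ℝ (B ×ˢ {![s]} ∪ {o} ×ˢ convexHull ℝ {(![0] : Fin 1 → ℝ), ![1]}) =
        convexHull ℝ (f '' (B ×ˢ {![s]} ∪ {o} ×ˢ convexHull ℝ {(![0] : Fin 1 → ℝ), ![1]})) :=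
      f.toAffineMap.image_convexHull _
    rw [h3, image_union, prod_singleton, singleton_prod, image_image, image_image]
    have h4 : (fun x : Fin 2 → ℝ => f (x, ![s])) = fun x => ![x 0, x 1, 0] := by
      funext x i
      show -(s * (q i - p i)) + ((![x 0, x 1, 0] : Fin 3 → ℝ) i + s * (q i - p i)) =
        (![x 0, x 1, 0] : Fin 3 → ℝ) i
      ring
    have h5 : (fun x : Fin 1 → ℝ => f (o, x)) '' convexHull ℝ {(![0] : Fin 1 → ℝ), ![1]} =
        convexHull ℝ {p, q} := by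
      let g : (Fin 1 → ℝ) →ᵃ[ℝ] (Fin 3 → ℝ) :=
        f.toAffineMap.comp ((AffineMap.const ℝ (Fin 1 → ℝ) o).prod (AffineMap.id ℝ (Fin 1 → ℝ)))
      have h6 : (fun x : Fin 1 → ℝ => f (o, x)) = g := rfl
      have h7 : g ![0] = p := by
        funext i
        show -(s * (q i - p i)) + ((![o 0, o 1, 0] : Fin 3 → ℝ) i + 0 * (q i - p i)) = p i
        rw [← hs3 i]
        ring
      have h8 : g ![1] = q := by
        funext i
        show -(s * (q i - p i)) + ((![o 0, o 1, 0] : Fin 3 → ℝ) i + 1 * (q i - p i)) = q i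
        rw [← hs3 i]
        ring
      rw [h6, g.image_convexHull, image_pair, h7, h8]
    rw [h4, h5]
    apply Subset.antisymm
    · refine convexHull_min (union_subset ?_ ?_) (convex_convexHull ℝ _)
      · exact subset_union_left.trans (subset_convexHull ℝ _)
      · exact convexHull_mono subset_union_right
    · exact convexHull_mono (union_subset_union_right _ (subset_convexHull ℝ _))
  rwa [h2] at h1

end Pool.Agent.SYJ
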