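import Pool.Agent.SYJ.St
import Pool.Agent.SYL.T0
import Pool.Agent.SYL.Norm
import Pool.Agent.SYL.Aff
import Pool.Agent.SYL.VProp
import Pool.Agent.SYL.Vdet
import Pool.Agent.SYL.Hull
import Pool.Agent.SYL.Dl

/-! # Vertex sets and simplices; all simplices have one value -/

set_option autoImplicit false

namespace Pool.Agent.SYJ

open MeasureTheory Set Pool.Agent.SYL

private theorem Fin_one {d : ℕ} {T : Set (Fin d → ℝ)} (hT : IsSimplex T) :
    ∃ V : Finset (Fin d → ℝ), Simp V ∧ T = convexHull ℝ (V : Set (Fin d → ℝ)) := by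
  classical
  obtain ⟨v, hv, rfl⟩ := hT
  have h1 : ((Finset.univ.image v : Finset (Fin d → ℝ)) : Set (Fin d → ℝ)) = range v := by
    rw [Finset.coe_image, Finset.coe_univ, image_univ]
  refine ⟨Finset.univ.image v, ⟨?_, ?_⟩, ?_⟩
  · refine Finset.card_image_le.trans ?_
    simp
  · rw [h1]
    rw [hv.affineSpan_eq_top_iff_card_eq_finrank_add_one]
    simp
  · rw [h1]

private theorem Fin_two {d : ℕ} {V : Finset (Fin d → ℝ)} (hV : Simp V) :
    IsSimplex (convexHull ℝ (V : Set (Fin d → ℝ))) := by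
  classical
  obtain ⟨h1, h2⟩ := hV
  have hfr : Module.finrank ℝ (Fin d → ℝ) = d := by simp
  rw [hfr] at h1
  have h3 : V.card ≠ 0 := by
    intro h
    rw [Finset.card_eq_zero] at h
    rw [h, Finset.coe_empty, AffineSubspace.span_empty] at h2
    exact AffineSubspace.bot_ne_top ℝ (Fin d → ℝ) (Fin d → ℝ) h2
  have h4 : vectorSpan ℝ (V : Set (Fin d → ℝ)) = ⊤ := by
    rw [← direction_affineSpan, h2, AffineSubspace.direction_top]
  have h5 : Fintype.card V = (V.card - 1) + 1 := by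
    rw [Fintype.card_coe]
    omega
  have hr : range (fun x : V => (x : Fin d → ℝ)) = (V : Set (Fin d → ℝ)) := by
    ext x
    simp
  have h6 := finrank_vectorSpan_range_le ℝ (fun x : V => (x : Fin d → ℝ)) h5
  rw [hr, h4, finrank_top, hfr] at h6
  have h7 : V.card = d + 1 := by omega
  have h8 : Fintype.card V = d + 1 := by rw [Fintype.card_coe, h7]
  have h9 : AffineIndependent ℝ (fun x : V => (x : Fin d → ℝ)) := by
    rw [affineIndependent_iff_le_finrank_vectorSpan ℝ (fun x : V => (x : Fin d → ℝ)) h8, hr, h4,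
      finrank_top, hfr]
  let f : Fin (d + 1) ≃ V := (V.equivFinOfCardEq h7).symm
  refine ⟨fun i => (f i : Fin d → ℝ), ?_, ?_⟩
  · exact h9.comp_embedding f.toEmbedding
  · congr 1
    rw [← hr]
    exact (f.surjective.range_comp (fun x : V => (x : Fin d → ℝ))).symm

theorem thm_IsSimplex : St_IsSimplex :=
  fun _ => ⟨fun _ hT => Fin_one hT, fun _ hV => Fin_two hV⟩

private theorem Fin_T0 (n : ℕ) (T : Set (Fin (n + 1) → ℝ)) (hT : IsSimplex T) :
    Sylv (n + 1) T = Sylv (n + 1) (T0 n) := by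
  have hV : St_V := thm_V (thm_Vdet thm_hull thm_Dl) thm_hull thm_Dl
  obtain ⟨M, b, hM, rfl⟩ := (thm_norm thm_T0 n).1 T hT
  have h0 : MeasurableSet (T0 n) := (thm_T0 n).2.2.1.isClosed.measurableSet
  obtain ⟨h1, h2⟩ := thm_aff hV (n + 1) M b (T0 n) hM h0
  unfold Sylv
  rw [h1, h2, mul_pow]
  have h3 : |LinearMap.det M| ^ (n + 1 + 2) ≠ 0 := pow_ne_zero _ (abs_ne_zero.2 hM)
  rw [div_mul_eq_mul_div, div_mul_eq_mul_div, mul_left_comm, mul_div_mul_left _ _ h3]

theorem thm_same : St_same := by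
  intro d T T' hT hT'
  cases d with
  | zero =>
    obtain ⟨v, -, rfl⟩ := hT
    obtain ⟨v', -, rfl⟩ := hT'
    have h1 : v = v' := Subsingleton.elim _ _
    rw [h1]
  | succ n => rw [Fin_T0 n T hT, Fin_T0 n T' hT']

end Pool.Agent.SYJ
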