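import Pool.Agent.SYJ.St

/-! # Gauge of a compact convex set at one of its points, free sums as convex hulls -/

set_option autoImplicit false

namespace Pool.Agent.SYJ

open MeasureTheory Set Pool.Agent.SYL Filter Topology Pointwise

private theorem Gau_mem {F : Type} [NormedAddCommGroup F] [NormedSpace ℝ F] {C : Set F}
    (hC : IsCompact C) {x : F} (hx : x ∈ C) : x ∈ gauge C x • C := by
  have hne : ({r : ℝ | 0 < r ∧ x ∈ r • C}).Nonempty := ⟨1, one_pos, by rwa [one_smul]⟩
  have hbd : BddBelow {r : ℝ | 0 < r ∧ x ∈ r • C} := ⟨0, fun r hr => hr.1.le⟩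
  obtain ⟨r, -, hr2, hr3⟩ := exists_seq_tendsto_sInf hne hbd
  have hr4 : ∀ n, ∃ c ∈ C, r n • c = x := fun n => (hr3 n).2
  choose c hc1 hc2 using hr4
  obtain ⟨c0, hc0, φ, hφ, hlim⟩ := hC.tendsto_subseq hc1
  have h1 : Tendsto (fun n => r (φ n) • c (φ n)) atTop (𝓝 (gauge C x • c0)) :=
    (hr2.comp hφ.tendsto_atTop).smul hlim
  have h2 : Tendsto (fun n => r (φ n) • c (φ n)) atTop (𝓝 x) := by
    simp only [hc2]
    exact tendsto_const_nhds
  exact ⟨c0, hc0, tendsto_nhds_unique h1 h2⟩

private theorem Gau_mono {F : Type} [NormedAddCommGroup F] [NormedSpace ℝ F] {C : Set F}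
    (hcv : Convex ℝ C) (h0 : (0 : F) ∈ C) {x : F} {s r : ℝ} (hs : 0 ≤ s) (hsr : s ≤ r)
    (hx : x ∈ s • C) : x ∈ r • C := by
  obtain ⟨c, hc, hcx⟩ := hx
  have hcx' : s • c = x := hcx
  rcases (hs.trans hsr).eq_or_lt with h | h
  · have : s = 0 := le_antisymm (h ▸ hsr) hs
    subst this
    rw [← h]
    exact ⟨c, hc, hcx⟩
  · refine ⟨(s / r) • c, ?_, ?_⟩
    · have h1 := hcv h0 hc (a := 1 - s / r) (b := s / r)
        (by rw [sub_nonneg]; exact (div_le_one h).2 hsr) (div_nonneg hs h.le) (by ring)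
      simpa using h1
    · show r • ((s / r) • c) = x
      rw [smul_smul, mul_div_cancel₀ _ h.ne', hcx']

private theorem Gau_shift {F : Type} [AddCommGroup F] {B : Set F} {q y : F} :
    y - q ∈ (fun b => b - q) '' B ↔ y ∈ B := by
  constructor
  · rintro ⟨b, hb, h⟩
    have : b = y := sub_left_injective h
    exact this ▸ hb
  · exact fun h => ⟨y, h, rfl⟩

private theorem Gau_le {F : Type} [NormedAddCommGroup F] [NormedSpace ℝ F] {B : Set F} {q : F}
    (y b : F) (hb : b ∈ B) (l : ℝ) (hl : 0 ≤ l) (h : y - q = l • (b - q)) : gg B q y ≤ l := by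
  unfold gg
  refine gauge_le_of_mem hl ?_
  exact ⟨b - q, ⟨b, hb, rfl⟩, h.symm⟩

private theorem Gau_ex {F : Type} [NormedAddCommGroup F] [NormedSpace ℝ F] {B : Set F} {q : F}
    (hB : IsCompact B) (y : F) (hy : y ∈ B) : ∃ b ∈ B, y - q = gg B q y • (b - q) := by
  have hC : IsCompact ((fun b => b - q) '' B) := hB.image (continuous_id.sub continuous_const)
  obtain ⟨c, ⟨b, hb, hbc⟩, hc2⟩ := Gau_mem hC (Gau_shift.2 hy)
  refine ⟨b, hb, ?_⟩
  have hc3 : gauge ((fun b => b - q) '' B) (y - q) • c = y - q := hc2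
  have hbc' : b - q = c := hbc
  unfold gg
  rw [hbc', hc3]

private theorem Gau_nn {F : Type} [NormedAddCommGroup F] [NormedSpace ℝ F] (B : Set F) (q y : F) :
    0 ≤ gg B q y := gauge_nonneg _

private theorem Gau_one {F : Type} [NormedAddCommGroup F] [NormedSpace ℝ F] {B : Set F} {q y : F}
    (hy : y ∈ B) : gg B q y ≤ 1 := gauge_le_one_of_mem (Gau_shift.2 hy)

theorem thm_gauge : St_gauge := by
  intro F _ _ _ _ _ B q hB hBv hq
  have hC : IsCompact ((fun b => b - q) '' B) := hB.image (continuous_id.sub continuous_const)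
  have hCv : Convex ℝ ((fun b => b - q) '' B) := by
    have := hBv.translate (-q)
    have h2 : (fun b => b - q) '' B = (fun z => -q + z) '' B := by
      refine image_congr fun b _ => ?_
      abel
    rw [h2]
    exact this
  have h0 : (0 : F) ∈ (fun b => b - q) '' B := ⟨q, hq, sub_self q⟩
  refine ⟨fun y hy => ⟨Gau_nn B q y, Gau_one hy⟩, ?_, fun y hy => Gau_ex hB y hy,
    fun y b hb l hl h => Gau_le y b hb l hl h, ?_⟩
  · unfold gg
    rw [sub_self, gauge_zero]
  · refine measurable_of_Iic fun r => ?_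
    by_cases hr : 0 ≤ r
    · have h1 : (B.indicator (gg B q)) ⁻¹' Iic r =
          Bᶜ ∪ (B ∩ (fun y => y - q) ⁻¹' (r • ((fun b => b - q) '' B))) := by
        ext y
        by_cases hy : y ∈ B
        · simp only [mem_preimage, mem_Iic, indicator_of_mem hy, mem_union, mem_compl_iff, hy,
            not_true_eq_false, mem_inter_iff, true_and, false_or]
          constructor
          · intro h
            exact Gau_mono hCv h0 (Gau_nn B q y) h (Gau_mem hC (Gau_shift.2 hy))
          · intro h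
            exact gauge_le_of_mem hr h
        · simp only [mem_preimage, mem_Iic, indicator_of_notMem hy, mem_union, mem_compl_iff, hy,
            not_false_eq_true, true_or, iff_true]
          exact hr
      rw [h1]
      refine hB.measurableSet.compl.union (hB.measurableSet.inter ?_)
      have h2 : IsClosed (r • ((fun b => b - q) '' B)) := (hC.smul r).isClosed
      exact (h2.preimage (continuous_id.sub continuous_const)).measurableSet
    · have h1 : (B.indicator (gg B q)) ⁻¹' Iic r = ∅ := by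
        ext y
        simp only [mem_preimage, mem_Iic, mem_empty_iff_false, iff_false, not_le]
        push Not at hr
        by_cases hy : y ∈ B
        · rw [indicator_of_mem hy]
          exact hr.trans_le (Gau_nn B q y)
        · rw [indicator_of_notMem hy]
          exact hr
      rw [h1]
      exact MeasurableSet.empty

private theorem Gau_join {E F : Type} [NormedAddCommGroup E] [NormedSpace ℝ E]
    [NormedAddCommGroup F] [NormedSpace ℝ F] (A : Set E) (p : E) (B : Set F) (q : F)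
    (hA : Convex ℝ A) (hp : p ∈ A) (hB : Convex ℝ B) (hq : q ∈ B) :
    hs A p B q = (fun z : E × F × ℝ => ((1 - z.2.2) • z.1 + z.2.2 • p,
      (1 - z.2.2) • q + z.2.2 • z.2.1)) '' (A ×ˢ (B ×ˢ Icc (0 : ℝ) 1)) := by
  have h1 : Convex ℝ ((fun a => (a, q)) '' A : Set (E × F)) := by
    rintro _ ⟨a, ha, rfl⟩ _ ⟨a', ha', rfl⟩ s t hs ht hst
    refine ⟨s • a + t • a', hA ha ha' hs ht hst, ?_⟩
    have : s • q + t • q = q := by rw [← add_smul, hst, one_smul]
    simp [this]
  have h2 : Convex ℝ ((fun b => (p, b)) '' B : Set (E × F)) := by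
    rintro _ ⟨a, ha, rfl⟩ _ ⟨a', ha', rfl⟩ s t hs ht hst
    refine ⟨s • a + t • a', hB ha ha' hs ht hst, ?_⟩
    have : s • p + t • p = p := by rw [← add_smul, hst, one_smul]
    simp [this]
  unfold hs
  rw [convexHull_union ⟨_, mem_image_of_mem _ hp⟩ ⟨_, mem_image_of_mem _ hq⟩,
    h1.convexHull_eq, h2.convexHull_eq]
  ext z
  rw [mem_convexJoin]
  constructor
  · rintro ⟨_, ⟨a, ha, rfl⟩, _, ⟨b, hb, rfl⟩, hz⟩
    obtain ⟨s, t, hs, ht, hst, rfl⟩ := hz
    refine ⟨(a, b, t), ⟨ha, hb, ht, by linarith⟩, ?_⟩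
    have : 1 - t = s := by linarith
    simp [this]
  · rintro ⟨⟨a, b, t⟩, ⟨ha, hb, ht0, ht1⟩, rfl⟩
    refine ⟨_, ⟨a, ha, rfl⟩, _, ⟨b, hb, rfl⟩, ?_⟩
    refine ⟨1 - t, t, by simpa using ht1, ht0, by ring, ?_⟩
    simp

theorem thm_hull (h : St_gauge) : St_hull := by
  intro E F _ _ _ _ _ _ _ _ _ _ A p B q hAc hA hp hBc hB hq
  obtain ⟨g1, g2, g3, g4, g5⟩ := h F B q hBc hB hq
  have hj := Gau_join A p B q hA hp hB hq
  constructor
  · rw [hj]
    ext z
    constructor
    · rintro ⟨hz2, a, ha, hz1⟩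
      obtain ⟨b, hb, hb2⟩ := g3 z.2 hz2
      refine ⟨(a, b, gg B q z.2), ⟨ha, hb, (g1 _ hz2).1, (g1 _ hz2).2⟩, ?_⟩
      refine Prod.ext hz1.symm ?_
      show (1 - gg B q z.2) • q + gg B q z.2 • b = z.2
      have h3 : z.2 = q + gg B q z.2 • (b - q) := by rw [← hb2]; abel
      conv_rhs => rw [h3]
      rw [smul_sub, sub_smul, one_smul]
      abel
    · rintro ⟨⟨a, b, l⟩, ⟨ha, hb, hl0, hl1⟩, rfl⟩
      simp only at ha hb hl0 hl1
      have hy : (1 - l) • q + l • b ∈ B := hB hq hb (by linarith) hl0 (by ring)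
      have hyq : (1 - l) • q + l • b - q = l • (b - q) := by
        rw [smul_sub, sub_smul, one_smul]
        abel
      have hgl : gg B q ((1 - l) • q + l • b) ≤ l := g4 _ b hb l hl0 hyq
      have hg0 := (g1 _ hy).1
      refine ⟨hy, ?_⟩
      show ∃ a' ∈ A, (1 - l) • a + l • p = (1 - gg B q ((1 - l) • q + l • b)) • a' +
        gg B q ((1 - l) • q + l • b) • p
      set g := gg B q ((1 - l) • q + l • b) with hg
      rcases (show g ≤ 1 from hgl.trans hl1).eq_or_lt with h1 | h1
      · refine ⟨p, hp, ?_⟩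
        have hl : l = 1 := le_antisymm hl1 (h1 ▸ hgl)
        rw [h1, hl]
        simp
      · have h1' : 0 < 1 - g := by linarith
        refine ⟨((1 - l) / (1 - g)) • a + ((l - g) / (1 - g)) • p, hA ha hp ?_ ?_ ?_, ?_⟩
        · exact div_nonneg (by linarith) h1'.le
        · exact div_nonneg (by linarith) h1'.le
        · rw [← add_div, div_eq_one_iff_eq h1'.ne']
          ring
        · rw [smul_add, smul_smul, smul_smul, mul_div_cancel₀ _ h1'.ne',
            mul_div_cancel₀ _ h1'.ne', add_assoc, ← add_smul]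
          congr 2
          ring
  · rw [hj]
    refine (hAc.prod (hBc.prod isCompact_Icc)).image ?_
    fun_prop

end Pool.Agent.SYJ
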