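import Pool.Agent.SYJ.St
import Pool.Agent.SYL.VProp
import Pool.Agent.SYL.Vdet
import Pool.Agent.SYL.Hull
import Pool.Agent.SYL.Dl

/-! # Sylvester problem, free sums: chord movements preserve the measure, `V` is convex along them,
and so is the Sylvester functional -/

set_option autoImplicit false

namespace Pool.Agent.SYJ

open MeasureTheory Set Pool.Agent.SYL

/-- a determinant is affine along a rank one direction -/
theorem Mov_det {d : ℕ} (D : Fin d → Fin d → ℝ) (w u : Fin d → ℝ) :
    ∃ p q : ℝ, ∀ t : ℝ, Matrix.det (Matrix.of fun i j => D i j + t * w i * u j) = p + t * q := by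
  by_cases hu : ∀ j, u j = 0
  · refine ⟨Matrix.det (Matrix.of fun i j => D i j), 0, fun t => ?_⟩
    rw [mul_zero, add_zero]
    congr 1
    ext i j
    simp [hu j]
  · push Not at hu
    obtain ⟨k, hk⟩ := hu
    set c : Fin d → ℝ := fun j => if j = k then 0 else -(u j / u k) with hc
    set M0 : Matrix (Fin d) (Fin d) ℝ := Matrix.of fun i j => D i j + c j * D i k with hM0
    refine ⟨(M0.updateCol k fun i => D i k).det, (M0.updateCol k fun i => w i * u k).det,
      fun t => ?_⟩
    have h1 : (M0.updateCol k fun i => D i k + t * (w i * u k)).det =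
        (Matrix.of fun i j => D i j + t * w i * u j).det := by
      rw [← Matrix.det_transpose, ← Matrix.det_transpose (Matrix.of fun i j => D i j + t * w i * u j)]
      refine Matrix.det_eq_of_forall_row_eq_smul_add_const c k (by simp [hc]) ?_
      intro j i
      simp only [Matrix.transpose_apply]
      by_cases hj : j = k
      · subst hj
        rw [Matrix.updateCol_self]
        simp [hc]
        ring
      · rw [Matrix.updateCol_ne hj]
        simp only [hM0, hc, Matrix.of_apply, if_neg hj]
        field_simp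
        ring
    rw [← h1]
    have h2 : (fun i => D i k + t * (w i * u k)) =
        (fun i => D i k) + t • (fun i => w i * u k) := by
      ext i
      simp
    rw [h2, Matrix.det_updateCol_add, Matrix.det_updateCol_smul]

theorem thm_Vconv : St_Vconv := by
  intro d x u c
  obtain ⟨p, q, hpq⟩ := Mov_det (fun i j => x i.succ j - x 0 j) (fun i => c i.succ - c 0) u
  have h1 : ∀ t : ℝ, V (fun i => x i + (t * c i) • u) = vol (Dl d) * |p + t * q| := by
    intro t
    rw [thm_Vdet thm_hull thm_Dl d]
    congr 2
    rw [← hpq t]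
    unfold dt
    congr 1
    ext i j
    simp only [Matrix.of_apply, Pi.sub_apply, Pi.add_apply, Pi.smul_apply, smul_eq_mul]
    ring
  have h0 : 0 ≤ vol (Dl d) := ENNReal.toReal_nonneg
  refine ⟨convex_univ, fun s _ t _ a b ha hb hab => ?_⟩
  simp only [smul_eq_mul]
  rw [h1, h1, h1]
  have h2 : p + (a * s + b * t) * q = a * (p + s * q) + b * (p + t * q) := by
    have : b = 1 - a := by linarith
    rw [this]
    ring
  have h3 : |p + (a * s + b * t) * q| ≤ a * |p + s * q| + b * |p + t * q| := by
    rw [h2]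
    refine (abs_add_le _ _).trans ?_
    rw [abs_mul, abs_mul, abs_of_nonneg ha, abs_of_nonneg hb]
  calc vol (Dl d) * |p + (a * s + b * t) * q|
      ≤ vol (Dl d) * (a * |p + s * q| + b * |p + t * q|) := mul_le_mul_of_nonneg_left h3 h0
    _ = a * (vol (Dl d) * |p + s * q|) + b * (vol (Dl d) * |p + t * q|) := by ring

/-- chord movement in a coordinate direction -/
theorem Mov_single {n : ℕ} (k : Fin (n + 1)) (β : (Fin (n + 1) → ℝ) → ℝ) (hβ : Measurable β)
    (hinv : ∀ (x : Fin (n + 1) → ℝ) (s : ℝ), β (x + s • Pi.single k 1) = β x) (t : ℝ) :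
    MeasurePreserving (mv β (Pi.single k 1 : Fin (n + 1) → ℝ) t) volume volume := by
  set e := MeasurableEquiv.piFinSuccAbove (fun _ : Fin (n + 1) => ℝ) k with he
  have hep : MeasurePreserving e volume volume :=
    volume_preserving_piFinSuccAbove (fun _ : Fin (n + 1) => ℝ) k
  set γ : (Fin n → ℝ) → ℝ := fun y => β (e.symm (0, y)) with hγ
  have hγm : Measurable γ := hβ.comp (e.symm.measurable.comp (by fun_prop))
  have hS : MeasurePreserving (fun q : (Fin n → ℝ) × ℝ => (q.1, q.2 + t * γ q.1))
      (volume.prod volume) (volume.prod volume) := by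
    refine MeasurePreserving.skew_product (f := id) (g := fun y s => s + t * γ y)
      (MeasurePreserving.id _) ?_ ?_
    · exact measurable_snd.add ((hγm.comp measurable_fst).const_mul t)
    · exact Filter.Eventually.of_forall fun y => (measurePreserving_add_right volume _).map_eq
  have hsw : MeasurePreserving (Prod.swap : ℝ × (Fin n → ℝ) → (Fin n → ℝ) × ℝ)
      (volume.prod volume) (volume.prod volume) := Measure.measurePreserving_swap
  have hsw' : MeasurePreserving (Prod.swap : (Fin n → ℝ) × ℝ → ℝ × (Fin n → ℝ))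
      (volume.prod volume) (volume.prod volume) := Measure.measurePreserving_swap
  have hT := (hsw'.comp (hS.comp hsw))
  have hfin := (hep.symm e).comp (hT.comp hep)
  have hfun : mv β (Pi.single k 1 : Fin (n + 1) → ℝ) t =
      e.symm ∘ ((Prod.swap ∘ ((fun q : (Fin n → ℝ) × ℝ => (q.1, q.2 + t * γ q.1)) ∘ Prod.swap)) ∘
        e) := by
    funext x
    have hx : β x = γ (e x).2 := by
      have h1 : x = e.symm (0, (e x).2) + x k • (Pi.single k 1 : Fin (n + 1) → ℝ) := by
        ext j
        refine Fin.succAboveCases k ?_ (fun j => ?_) j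
        · simp [he, MeasurableEquiv.piFinSuccAbove]
        · simp [he, MeasurableEquiv.piFinSuccAbove, Fin.removeNth]
      conv_lhs => rw [h1]
      rw [hinv]
    ext j
    simp only [mv, Function.comp_apply]
    rw [hx]
    refine Fin.succAboveCases k ?_ (fun j => ?_) j
    · simp [he, MeasurableEquiv.piFinSuccAbove]
    · simp [he, MeasurableEquiv.piFinSuccAbove, Fin.removeNth]
  rw [hfun]
  exact hfin

theorem thm_pres : St_pres := by
  intro d u β hβ hinv t
  by_cases hu : ∀ j, u j = 0
  · have h0 : u = 0 := funext hu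
    have h1 : mv β u t = id := by
      funext x
      simp [mv, h0]
    rw [h1]
    exact MeasurePreserving.id _
  · push Not at hu
    obtain ⟨k, hk⟩ := hu
    obtain ⟨n, rfl⟩ : ∃ n, d = n + 1 := ⟨d - 1, by have := k.pos; omega⟩
    -- linear map sending the unit vector to `u`
    set L : (Fin (n + 1) → ℝ) →ₗ[ℝ] (Fin (n + 1) → ℝ) :=
      LinearMap.id + (LinearMap.proj k : (Fin (n + 1) → ℝ) →ₗ[ℝ] ℝ).smulRight
        (u - Pi.single k 1) with hL
    set L' : (Fin (n + 1) → ℝ) →ₗ[ℝ] (Fin (n + 1) → ℝ) :=
      LinearMap.id + (LinearMap.proj k : (Fin (n + 1) → ℝ) →ₗ[ℝ] ℝ).smulRight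
        ((u k)⁻¹ • (Pi.single k 1 - u)) with hL'
    have hLa : ∀ y, L y = y + y k • (u - Pi.single k 1) := by
      intro y
      simp [hL]
    have hLa' : ∀ y, L' y = y + y k • ((u k)⁻¹ • (Pi.single k 1 - u)) := by
      intro y
      simp [hL']
    have hk1 : ∀ y, L y k = y k * u k := by
      intro y
      rw [hLa]
      simp
      ring
    have hk2 : ∀ y, L' y k = y k * (u k)⁻¹ := by
      intro y
      rw [hLa']
      simp
      field_simp
      ring
    have hinv1 : ∀ y, L (L' y) = y := by
      intro y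
      rw [hLa, hk2, hLa']
      ext j
      simp only [Pi.add_apply, Pi.smul_apply, Pi.sub_apply, smul_eq_mul]
      ring
    have hinv2 : ∀ y, L' (L y) = y := by
      intro y
      rw [hLa', hk1, hLa]
      ext j
      simp only [Pi.add_apply, Pi.smul_apply, Pi.sub_apply, smul_eq_mul]
      field_simp
      ring
    have hcomp : L ∘ₗ L' = LinearMap.id := LinearMap.ext hinv1
    have hdet : LinearMap.det L * LinearMap.det L' = 1 := by
      rw [← LinearMap.det_comp, hcomp, LinearMap.det_id]
    have hdet0 : LinearMap.det L ≠ 0 := left_ne_zero_of_mul_eq_one hdet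
    have hdet0' : LinearMap.det L' ≠ 0 := right_ne_zero_of_mul_eq_one hdet
    have hLm : Measurable L := L.continuous_of_finiteDimensional.measurable
    have hLm' : Measurable L' := L'.continuous_of_finiteDimensional.measurable
    have hs := Mov_single k (β ∘ L) (hβ.comp hLm) (by
      intro x s
      have h1 : L (x + s • Pi.single k 1) = L x + s • u := by
        rw [map_add, map_smul, hLa (Pi.single k 1)]
        simp
      simp only [Function.comp_apply]
      rw [h1, hinv]) t
    have hfun : mv β u t = L ∘ mv (β ∘ L) (Pi.single k 1 : Fin (n + 1) → ℝ) t ∘ L' := by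
      funext x
      simp only [mv, Function.comp_apply]
      rw [hinv1, map_add, map_smul, hinv1, hLa (Pi.single k 1)]
      simp
    have hm1 : Measure.map L' (volume : Measure (Fin (n + 1) → ℝ)) =
        ENNReal.ofReal |(LinearMap.det L')⁻¹| • volume :=
      Measure.map_linearMap_addHaar_eq_smul_addHaar volume hdet0'
    refine ⟨?_, ?_⟩
    · rw [hfun]
      exact hLm.comp (hs.measurable.comp hLm')
    · rw [hfun, ← Measure.map_map hLm (hs.measurable.comp hLm'),
        ← Measure.map_map hs.measurable hLm', hm1, Measure.map_smul, hs.map_eq, ← hm1,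
        Measure.map_map hLm hLm']
      have : (L ∘ L' : (Fin (n + 1) → ℝ) → (Fin (n + 1) → ℝ)) = id := funext hinv1
      rw [this, Measure.map_id]

/-- chord movements form a one parameter group -/
theorem Mov_add {E : Type} [AddCommGroup E] [Module ℝ E] {β : E → ℝ} {u : E}
    (hinv : ∀ (x : E) (s : ℝ), β (x + s • u) = β x) (s t : ℝ) (x : E) :
    mv β u s (mv β u t x) = mv β u (s + t) x := by
  simp only [mv]
  rw [hinv, add_assoc, ← add_smul]
  have : t * β x + s * β x = (s + t) * β x := by ring
  rw [this]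

theorem Mov_zero {E : Type} [AddCommGroup E] [Module ℝ E] (β : E → ℝ) (u : E) (x : E) :
    mv β u 0 x = x := by
  simp [mv]

theorem Mov_left {E : Type} [AddCommGroup E] [Module ℝ E] {β : E → ℝ} {u : E}
    (hinv : ∀ (x : E) (s : ℝ), β (x + s • u) = β x) (t : ℝ) (x : E) :
    mv β u (-t) (mv β u t x) = x := by
  rw [Mov_add hinv, neg_add_cancel, Mov_zero]

theorem Mov_right {E : Type} [AddCommGroup E] [Module ℝ E] {β : E → ℝ} {u : E}
    (hinv : ∀ (x : E) (s : ℝ), β (x + s • u) = β x) (t : ℝ) (x : E) :
    mv β u t (mv β u (-t) x) = x := by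
  rw [Mov_add hinv, add_neg_cancel, Mov_zero]

/-- the volume of the moved set -/
theorem Mov_vol (h1 : St_pres) {d : ℕ} {K : Set (Fin d → ℝ)} (hK : MeasurableSet K)
    {u : Fin d → ℝ} {β : (Fin d → ℝ) → ℝ} (hβ : Measurable β)
    (hinv : ∀ (x : Fin d → ℝ) (s : ℝ), β (x + s • u) = β x) (t : ℝ) :
    vol (mv β u t '' K) = vol K := by
  have himg : mv β u t '' K = mv β u (-t) ⁻¹' K :=
    congrFun (image_eq_preimage_of_inverse (Mov_left hinv t) (Mov_right hinv t)) K
  unfold vol
  rw [himg, (h1 d u β hβ hinv (-t)).measure_preimage hK.nullMeasurableSet]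

/-- the integral of `V` over the moved set -/
theorem Mov_G (h1 : St_pres) {d : ℕ} (K : Set (Fin d → ℝ))
    {u : Fin d → ℝ} {β : (Fin d → ℝ) → ℝ} (hβ : Measurable β)
    (hinv : ∀ (x : Fin d → ℝ) (s : ℝ), β (x + s • u) = β x) (t : ℝ) :
    G d (mv β u t '' K) = ∫ x in Set.pi univ (fun _ : Fin (d + 1) => K),
      V (fun i => x i + (t * β (x i)) • u) := by
  have hm : ∀ r : ℝ, Measurable fun (x : Fin (d + 1) → (Fin d → ℝ)) (i : Fin (d + 1)) =>
      mv β u r (x i) := fun r =>
    measurable_pi_lambda _ fun i => (h1 d u β hβ hinv r).measurable.comp (measurable_pi_apply i)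
  let eq : (Fin (d + 1) → (Fin d → ℝ)) ≃ᵐ (Fin (d + 1) → (Fin d → ℝ)) :=
    { toFun := fun x i => mv β u t (x i)
      invFun := fun x i => mv β u (-t) (x i)
      left_inv := fun x => funext fun i => Mov_left hinv t (x i)
      right_inv := fun x => funext fun i => Mov_right hinv t (x i)
      measurable_toFun := hm t
      measurable_invFun := hm (-t) }
  have hp : MeasurePreserving (fun (x : Fin (d + 1) → (Fin d → ℝ)) (i : Fin (d + 1)) =>
      mv β u t (x i)) volume volume :=
    volume_preserving_pi (fun _ => h1 d u β hβ hinv t)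
  have hemb : MeasurableEmbedding (fun (x : Fin (d + 1) → (Fin d → ℝ)) (i : Fin (d + 1)) =>
      mv β u t (x i)) := eq.measurableEmbedding
  have hinj : Function.Injective (mv β u t) :=
    Function.LeftInverse.injective (g := mv β u (-t)) (Mov_left hinv t)
  have h := hp.setIntegral_preimage_emb hemb V (Set.pi univ fun _ => mv β u t '' K)
  have hpre : (fun (x : Fin (d + 1) → (Fin d → ℝ)) (i : Fin (d + 1)) => mv β u t (x i)) ⁻¹'
      (Set.pi univ fun _ => mv β u t '' K) = Set.pi univ fun _ => K := by
    ext x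
    simp only [mem_preimage, mem_univ_pi]
    exact forall_congr' fun i => hinj.mem_set_image
  rw [hpre] at h
  unfold G
  rw [← h]
  rfl

theorem thm_mov (h1 : St_pres) (h2 : St_Vconv) : St_mov := by
  intro d K hK hb u β hβ hinv hC
  obtain ⟨C, hC⟩ := hC
  obtain ⟨R, hR⟩ := hb.exists_norm_le
  have hVc : Continuous (V : (Fin (d + 1) → (Fin d → ℝ)) → ℝ) :=
    ((thm_V (thm_Vdet thm_hull thm_Dl) thm_hull thm_Dl) d).1
  have hS : ∀ t : ℝ, Sylv d (mv β u t '' K) = ((d : ℝ) + 2) / vol K ^ (d + 2) *
      ∫ x in Set.pi univ (fun _ : Fin (d + 1) => K), V (fun i => x i + (t * β (x i)) • u) := by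
    intro t
    unfold Sylv
    rw [Mov_vol h1 hK hβ hinv, Mov_G h1 K hβ hinv]
  have hfin : volume (Set.pi univ (fun _ : Fin (d + 1) => K)) < ⊤ := by
    refine lt_of_le_of_lt (measure_mono ?_)
      (isCompact_closedBall (0 : Fin (d + 1) → (Fin d → ℝ)) |R|).measure_lt_top
    intro x hx
    rw [mem_closedBall_zero_iff, pi_norm_le_iff_of_nonneg (abs_nonneg R)]
    exact fun i => (hR _ (hx i (mem_univ i))).trans (le_abs_self R)
  have hint : ∀ t : ℝ, IntegrableOn (fun x : Fin (d + 1) → (Fin d → ℝ) =>
      V (fun i => x i + (t * β (x i)) • u)) (Set.pi univ (fun _ : Fin (d + 1) => K)) volume := by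
    intro t
    have hR0 : 0 ≤ |R| + |t| * |C| * ‖u‖ := by positivity
    obtain ⟨M, hM⟩ := (isCompact_closedBall (0 : Fin (d + 1) → (Fin d → ℝ))
      (|R| + |t| * |C| * ‖u‖)).exists_bound_of_continuousOn hVc.continuousOn
    have hmeas : Measurable (fun x : Fin (d + 1) → (Fin d → ℝ) =>
        V (fun i => x i + (t * β (x i)) • u)) := by
      refine hVc.measurable.comp (measurable_pi_lambda _ fun i => ?_)
      exact (measurable_pi_apply i).add
        (((hβ.comp (measurable_pi_apply i)).const_mul t).smul_const u)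
    refine Measure.integrableOn_of_bounded (M := M) hfin.ne hmeas.aestronglyMeasurable ?_
    rw [ae_restrict_iff' (MeasurableSet.univ_pi fun _ => hK)]
    refine Filter.Eventually.of_forall fun x hx => hM _ ?_
    rw [mem_closedBall_zero_iff, pi_norm_le_iff_of_nonneg hR0]
    intro i
    refine (norm_add_le _ _).trans (add_le_add ((hR _ (hx i (mem_univ i))).trans (le_abs_self R)) ?_)
    rw [norm_smul, Real.norm_eq_abs, abs_mul]
    refine mul_le_mul_of_nonneg_right (mul_le_mul_of_nonneg_left ?_ (abs_nonneg t)) (norm_nonneg u)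
    exact (hC _ (hx i (mem_univ i))).trans (le_abs_self C)
  refine ⟨convex_univ, fun s _ t _ a b ha hb' hab => ?_⟩
  simp only [smul_eq_mul]
  rw [hS, hS, hS]
  have hc : 0 ≤ ((d : ℝ) + 2) / vol K ^ (d + 2) := by
    have : 0 ≤ vol K := ENNReal.toReal_nonneg
    positivity
  have key : ∫ x in Set.pi univ (fun _ : Fin (d + 1) => K),
      V (fun i => x i + ((a * s + b * t) * β (x i)) • u) ≤
      a * (∫ x in Set.pi univ (fun _ : Fin (d + 1) => K), V (fun i => x i + (s * β (x i)) • u)) +
      b * ∫ x in Set.pi univ (fun _ : Fin (d + 1) => K), V (fun i => x i + (t * β (x i)) • u) := by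
    rw [← integral_const_mul, ← integral_const_mul,
      ← integral_add ((hint s).const_mul a) ((hint t).const_mul b)]
    refine setIntegral_mono (hint _) (((hint s).const_mul a).add ((hint t).const_mul b)) ?_
    intro x
    have := (h2 d x u (fun i => β (x i))).2 (mem_univ s) (mem_univ t) ha hb' hab
    simpa [smul_eq_mul] using this
  calc ((d : ℝ) + 2) / vol K ^ (d + 2) * _ ≤ ((d : ℝ) + 2) / vol K ^ (d + 2) * _ :=
        mul_le_mul_of_nonneg_left key hc
    _ = _ := by ring

end Pool.Agent.SYJ
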