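import Pool.Agent.SYJ.St

/-! # Planar bodies are good, by exhaustion with polygons -/

set_option autoImplicit false

namespace Pool.Agent.SYJ

open MeasureTheory Set Pool.Agent.SYL

private theorem Plan_span {K : Set (Fin 2 → ℝ)} (hi : (interior K).Nonempty) :
    ∃ S : Finset (Fin 2 → ℝ), (S : Set (Fin 2 → ℝ)) ⊆ K ∧
      affineSpan ℝ (S : Set (Fin 2 → ℝ)) = ⊤ := by
  obtain ⟨t, ht, hs, hind⟩ := exists_affineIndependent ℝ (Fin 2 → ℝ) K
  have hfin : t.Finite := finite_set_of_fin_dim_affineIndependent ℝ hind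
  refine ⟨hfin.toFinset, ?_, ?_⟩
  · rw [hfin.coe_toFinset]
    exact ht
  · rw [hfin.coe_toFinset, hs]
    have h1 : affineSpan ℝ (interior K) = ⊤ := isOpen_interior.affineSpan_eq_top hi
    rw [eq_top_iff, ← h1]
    exact affineSpan_mono ℝ interior_subset

theorem thm_planar (h : St_poly) : St_planar := by
  classical
  intro K hK
  obtain ⟨hv, hc, hi⟩ := hK
  refine ⟨hc, hv, hi, ?_⟩
  intro n Φ hΦ M hM z hz
  obtain ⟨S0, hS0, hspan⟩ := Plan_span hi
  obtain ⟨x0, hx0⟩ := hi
  have : Nonempty K := ⟨⟨x0, interior_subset hx0⟩⟩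
  let x : ℕ → (Fin 2 → ℝ) := fun m => (TopologicalSpace.denseSeq K m : Fin 2 → ℝ)
  have hxK : ∀ m, x m ∈ K := fun m => (TopologicalSpace.denseSeq K m).2
  have hdense : K ⊆ closure (range x) := by
    intro y hy
    have h1 : (⟨y, hy⟩ : K) ∈ closure (range (TopologicalSpace.denseSeq K)) :=
      TopologicalSpace.denseRange_denseSeq K ⟨y, hy⟩
    have h2 : ((⟨y, hy⟩ : K) : Fin 2 → ℝ) ∈ closure
        ((fun w : K => (w : Fin 2 → ℝ)) '' range (TopologicalSpace.denseSeq K)) :=
      image_closure_subset_closure_image continuous_subtype_val (mem_image_of_mem _ h1)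
    rw [← range_comp] at h2
    exact h2
  let S : ℕ → Finset (Fin 2 → ℝ) := fun m =>
    Finset.univ.image z ∪ S0 ∪ (Finset.range m).image x
  let P : ℕ → Set (Fin 2 → ℝ) := fun m => convexHull ℝ (S m : Set (Fin 2 → ℝ))
  have hSmono : ∀ a b : ℕ, a ≤ b → (S a : Set (Fin 2 → ℝ)) ⊆ (S b : Set (Fin 2 → ℝ)) := by
    intro a b hab
    have h1 : S a ⊆ S b := by
      refine Finset.union_subset_union (Finset.Subset.refl _) ?_
      exact Finset.image_subset_image (Finset.range_subset_range.2 hab)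
    exact Finset.coe_subset.2 h1
  have hPmono : Monotone P := fun a b hab => convexHull_mono (hSmono a b hab)
  have hSK : ∀ m, (S m : Set (Fin 2 → ℝ)) ⊆ K := by
    intro m y hy
    rw [Finset.mem_coe, Finset.mem_union, Finset.mem_union] at hy
    rcases hy with (hy | hy) | hy
    · obtain ⟨i, -, rfl⟩ := Finset.mem_image.1 hy
      exact hz i
    · exact hS0 hy
    · obtain ⟨i, -, rfl⟩ := Finset.mem_image.1 hy
      exact hxK i
  have hPK : ∀ m, P m ⊆ K := fun m => convexHull_min (hSK m) hv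
  have hSspan : ∀ m, affineSpan ℝ (S m : Set (Fin 2 → ℝ)) = ⊤ := by
    intro m
    rw [eq_top_iff, ← hspan]
    refine affineSpan_mono ℝ ?_
    intro y hy
    rw [Finset.mem_coe, Finset.mem_union, Finset.mem_union]
    exact Or.inl (Or.inr hy)
  have hPi : ∀ m, (interior (P m)).Nonempty := fun m =>
    interior_convexHull_nonempty_iff_affineSpan_eq_top.2 (hSspan m)
  have hUconv : Convex ℝ (⋃ m, P m) :=
    (hPmono.directed_le).convex_iUnion fun m => convex_convexHull ℝ _
  have hUi : (interior (⋃ m, P m)).Nonempty :=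
    (hPi 0).mono (interior_mono (subset_iUnion P 0))
  have hU : interior K ⊆ ⋃ m, P m := by
    have h1 : range x ⊆ ⋃ m, P m := by
      rintro _ ⟨m, rfl⟩
      refine mem_iUnion.2 ⟨m + 1, subset_convexHull ℝ _ ?_⟩
      rw [Finset.mem_coe, Finset.mem_union]
      exact Or.inr (Finset.mem_image_of_mem _ (Finset.mem_range.2 (Nat.lt_succ_self m)))
    have h2 : interior K ⊆ interior (closure (⋃ m, P m)) :=
      interior_mono (hdense.trans (closure_mono h1))
    rw [hUconv.interior_closure_eq_interior_of_nonempty_interior hUi] at h2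
    exact h2.trans interior_subset
  have hzP : ∀ i m, z i ∈ P m := by
    intro i m
    refine subset_convexHull ℝ _ ?_
    rw [Finset.mem_coe, Finset.mem_union, Finset.mem_union]
    exact Or.inl (Or.inl (Finset.mem_image_of_mem _ (Finset.mem_univ i)))
  refine hΦ.cont K P hc hv ⟨x0, hx0⟩ hPmono (fun m => ⟨?_, convex_convexHull ℝ _, hPK m⟩) hU z
    hzP M ?_
  · exact (S m).finite_toSet.isCompact_convexHull ℝ
  · intro m
    exact (h (S m) (hSspan m)).2.2.2 n Φ hΦ M hM z fun i => hzP i m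

end Pool.Agent.SYJ
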