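import Pool.Agent.SYJ.Base

/-! # Polygons are good -/

set_option autoImplicit false

namespace Pool.Agent.SYJ

open MeasureTheory Set Pool.Agent.SYL

/-- the speed of the shear -/
noncomputable def Poly_b (x : Fin 2 → ℝ) : ℝ := max (x 1) 0

theorem Poly_b_inv (x : Fin 2 → ℝ) (s : ℝ) : Poly_b (x + s • ![1, 0]) = Poly_b x := by
  unfold Poly_b
  simp

theorem Poly_b_cont : Continuous Poly_b := by
  unfold Poly_b
  fun_prop

theorem Poly_mv_cont (t : ℝ) : Continuous (mv Poly_b ![1, 0] t) := by
  unfold mv
  have := Poly_b_cont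
  fun_prop

theorem Poly_mv_inv (t : ℝ) (x : Fin 2 → ℝ) :
    mv Poly_b ![1, 0] (-t) (mv Poly_b ![1, 0] t x) = x := by
  unfold mv
  rw [Poly_b_inv, add_assoc, ← add_smul]
  simp

/-- the shear as a homeomorphism -/
noncomputable def Poly_H (t : ℝ) : (Fin 2 → ℝ) ≃ₜ (Fin 2 → ℝ) where
  toFun := mv Poly_b ![1, 0] t
  invFun := mv Poly_b ![1, 0] (-t)
  left_inv := Poly_mv_inv t
  right_inv x := by
    have h := Poly_mv_inv (-t) x
    rwa [neg_neg] at h
  continuous_toFun := Poly_mv_cont t
  continuous_invFun := Poly_mv_cont (-t)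

theorem Poly_erase {S : Finset (Fin 2 → ℝ)} {s : Fin 2 → ℝ}
    (h : s ∈ convexHull ℝ ((S.erase s : Finset (Fin 2 → ℝ)) : Set (Fin 2 → ℝ))) :
    convexHull ℝ ((S.erase s : Finset (Fin 2 → ℝ)) : Set (Fin 2 → ℝ)) =
      convexHull ℝ (S : Set (Fin 2 → ℝ)) := by
  apply Subset.antisymm
  · exact convexHull_mono (Finset.coe_subset.2 (Finset.erase_subset s S))
  · refine convexHull_min ?_ (convex_convexHull ℝ _)
    intro x hx
    by_cases hxs : x = s
    · rw [hxs]
      exact h
    · exact subset_convexHull ℝ _ (Finset.mem_coe.2 (Finset.mem_erase.2 ⟨hxs, hx⟩))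

theorem Poly_span {S : Finset (Fin 2 → ℝ)} :
    affineSpan ℝ (S : Set (Fin 2 → ℝ)) = ⊤ ↔
      (interior (convexHull ℝ (S : Set (Fin 2 → ℝ)))).Nonempty :=
  interior_convexHull_nonempty_iff_affineSpan_eq_top.symm

theorem thm_poly (hE : St_extr) (hG : St_goodmap) (hS : St_simp) (h1 : St_end) (h2 : St_end2)
    (hD : St_diag) : St_poly := by
  classical
  have key : ∀ m : ℕ, ∀ S : Finset (Fin 2 → ℝ), S.card ≤ m →
      affineSpan ℝ (S : Set (Fin 2 → ℝ)) = ⊤ →
      Good (Fin 2 → ℝ) (convexHull ℝ (S : Set (Fin 2 → ℝ))) := by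
    intro m
    induction m with
    | zero =>
      intro S hc hs
      refine hS (Fin 2 → ℝ) S ⟨hc.trans (Nat.zero_le _), hs⟩
    | succ m ih =>
      intro S hc hs
      by_cases h3 : S.card ≤ 3
      · refine hS (Fin 2 → ℝ) S ⟨?_, hs⟩
        rw [Module.finrank_fin_fun]
        exact h3
      · by_cases hind : ∃ s ∈ S,
            s ∈ convexHull ℝ ((S.erase s : Finset (Fin 2 → ℝ)) : Set (Fin 2 → ℝ))
        · obtain ⟨s, hsS, hss⟩ := hind
          have h4 := Poly_erase hss
          rw [← h4]
          refine ih _ ?_ ?_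
          · rw [Finset.card_erase_of_mem hsS]
            omega
          · rw [Poly_span, h4, ← Poly_span]
            exact hs
        · push Not at hind
          obtain ⟨f, ⟨s1, hs1, hf1⟩, ⟨s2, hs2, hf2⟩, ⟨s3, hs3, hf3⟩, ⟨s4, hs4, hf4⟩⟩ :=
            hD S (by omega) hind
          let S' : Finset (Fin 2 → ℝ) := S.image f
          have hhull : ∀ R : Set (Fin 2 → ℝ), f '' convexHull ℝ R = convexHull ℝ (f '' R) :=
            fun R => f.toAffineMap.image_convexHull R
          have hc' : S'.card ≤ m + 1 := Finset.card_image_le.trans hc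
          have hs' : affineSpan ℝ (S' : Set (Fin 2 → ℝ)) = ⊤ := by
            show affineSpan ℝ ((S.image f : Finset (Fin 2 → ℝ)) : Set (Fin 2 → ℝ)) = ⊤
            rw [Finset.coe_image]
            exact f.toAffineMap.span_eq_top_of_surjective f.surjective hs
          have hind' : ∀ s ∈ S',
              s ∉ convexHull ℝ ((S'.erase s : Finset (Fin 2 → ℝ)) : Set (Fin 2 → ℝ)) := by
            intro s' hs' hmem
            obtain ⟨s, hsS, rfl⟩ := Finset.mem_image.1 hs'
            refine hind s hsS ?_
            have h5 : ((S'.erase (f s) : Finset (Fin 2 → ℝ)) : Set (Fin 2 → ℝ)) =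
                f '' ((S.erase s : Finset (Fin 2 → ℝ)) : Set (Fin 2 → ℝ)) := by
              rw [← Finset.coe_image, Finset.image_erase f.injective]
            rw [h5, ← hhull] at hmem
            obtain ⟨x, hx, hxs⟩ := hmem
            rwa [f.injective hxs] at hx
          have hG1 : Good (Fin 2 → ℝ) (convexHull ℝ (S' : Set (Fin 2 → ℝ))) := by
            have m1 : ![1, 0] ∈ S' := by
              rw [← hf1]
              exact Finset.mem_image_of_mem f hs1
            have m2 : ![-1, 0] ∈ S' := by
              rw [← hf2]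
              exact Finset.mem_image_of_mem f hs2
            have m3 : ∃ s ∈ S', 0 < s 1 := ⟨f s3, Finset.mem_image_of_mem f hs3, hf3⟩
            have m4 : ∃ s ∈ S', s 1 < 0 := ⟨f s4, Finset.mem_image_of_mem f hs4, hf4⟩
            obtain ⟨t1, ht1, he1, hw1⟩ := h1 S' m1 m2 hind' m3 m4
            obtain ⟨t2, ht2, he2, hw2⟩ := h2 S' m1 m2 hind' m3 m4
            have hKc : IsCompact (convexHull ℝ (S' : Set (Fin 2 → ℝ))) :=
              S'.finite_toSet.isCompact_convexHull ℝ
            have hKi := Poly_span.1 hs'
            refine ⟨hKc, convex_convexHull ℝ _, hKi, ?_⟩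
            intro n Φ hΦ M hM z0 hz0
            refine hE _ n Φ hΦ _ hKc.measurableSet hKc.isBounded _ M ?_ z0 hz0
            clear hz0 z0
            intro z hz
            have hmov := hΦ.mov (convexHull ℝ (S' : Set (Fin 2 → ℝ))) hKc.measurableSet
              hKc.isBounded z ![1, 0] Poly_b Poly_b_cont.measurable Poly_b_inv (by
                obtain ⟨C, hC⟩ := hKc.exists_bound_of_continuousOn Poly_b_cont.continuousOn
                exact ⟨C, fun x hx => hC x hx⟩) (fun i => Poly_b (z i))
            have claim : ∀ (t : ℝ) (w : Fin 2 → ℝ), w ∈ S' → Poly_b w = 0 →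
                mv Poly_b ![1, 0] t '' convexHull ℝ (S' : Set (Fin 2 → ℝ)) =
                  convexHull ℝ (mv Poly_b ![1, 0] t '' (S' : Set (Fin 2 → ℝ))) →
                w ∈ convexHull ℝ ((mv Poly_b ![1, 0] t '' (S' : Set (Fin 2 → ℝ))) \ {w}) →
                Φ (mv Poly_b ![1, 0] t '' convexHull ℝ (S' : Set (Fin 2 → ℝ)))
                  (fun i => z i + (t * Poly_b (z i)) • ![1, 0]) ≤ M := by
              intro t w hw hbw heq hwh
              let R : Finset (Fin 2 → ℝ) := S'.image (mv Poly_b ![1, 0] t)
              have hRc : (R : Set (Fin 2 → ℝ)) = mv Poly_b ![1, 0] t '' (S' : Set (Fin 2 → ℝ)) :=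
                Finset.coe_image
              have hwR : w ∈ R := by
                refine Finset.mem_image.2 ⟨w, hw, ?_⟩
                unfold mv
                rw [hbw]
                simp
              have hwe : w ∈ convexHull ℝ ((R.erase w : Finset (Fin 2 → ℝ)) :
                  Set (Fin 2 → ℝ)) := by
                rw [Finset.coe_erase, hRc]
                exact hwh
              have h5 := Poly_erase hwe
              have h6 : convexHull ℝ ((R.erase w : Finset (Fin 2 → ℝ)) : Set (Fin 2 → ℝ)) =
                  mv Poly_b ![1, 0] t '' convexHull ℝ (S' : Set (Fin 2 → ℝ)) := by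
                rw [h5, hRc, heq]
              have h7 : (R.erase w).card ≤ m := by
                rw [Finset.card_erase_of_mem hwR]
                have h8 : R.card ≤ S'.card := Finset.card_image_le
                omega
              have h9 : affineSpan ℝ ((R.erase w : Finset (Fin 2 → ℝ)) : Set (Fin 2 → ℝ)) = ⊤ := by
                rw [Poly_span, h6]
                have h10 : mv Poly_b ![1, 0] t '' convexHull ℝ (S' : Set (Fin 2 → ℝ)) =
                    Poly_H t '' convexHull ℝ (S' : Set (Fin 2 → ℝ)) := rfl
                rw [h10, ← (Poly_H t).image_interior]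
                exact hKi.image _
              obtain ⟨-, -, -, h11⟩ := ih _ h7 h9
              rw [← h6]
              refine h11 n Φ hΦ M hM _ ?_
              intro i
              rw [h6, heq]
              exact subset_convexHull ℝ _ ⟨z i, hz i, rfl⟩
            have c1 := claim t1 ![1, 0] m1 (by simp [Poly_b]) he1 hw1
            have c2 := claim t2 ![-1, 0] m2 (by simp [Poly_b]) he2 hw2
            have h12 := (hmov.convex_le M).ordConnected.out (x := t2) (y := t1)
              ⟨mem_univ _, c2⟩ ⟨mem_univ _, c1⟩ ⟨ht2, ht1⟩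
            have h13 := h12.2
            have h14 : mv Poly_b ![1, 0] 0 '' convexHull ℝ (S' : Set (Fin 2 → ℝ)) =
                convexHull ℝ (S' : Set (Fin 2 → ℝ)) := by
              have : mv Poly_b ![1, 0] 0 = id := by
                funext x
                simp [mv]
              rw [this, image_id]
            simp only [h14, zero_mul, zero_smul, add_zero] at h13
            exact h13
          have h15 := hG _ _ f.symm _ hG1
          have h16 : f.symm '' convexHull ℝ (S' : Set (Fin 2 → ℝ)) =
              convexHull ℝ (S : Set (Fin 2 → ℝ)) := by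
            have h17 : (S' : Set (Fin 2 → ℝ)) = f '' (S : Set (Fin 2 → ℝ)) := Finset.coe_image
            rw [h17, ← hhull, image_image]
            simp
          rwa [h16] at h15
  intro S hs
  exact key S.card S le_rfl hs

end Pool.Agent.SYJ
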