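import Pool.Agent.SYJ.St

/-! # Sylvester problem, free sums of planar bodies: interior of a free sum, push of a functional -/

set_option autoImplicit false

namespace Pool.Agent.SYJ

open MeasureTheory Set Pool.Agent.SYL

section

variable {E F : Type} [NormedAddCommGroup E] [NormedSpace ℝ E] [NormedAddCommGroup F]
  [NormedSpace ℝ F]

theorem Push_mono {A A' : Set E} (h : A ⊆ A') (p : E) (B : Set F) (q : F) :
    fs A p B q ⊆ fs A' p B q := by
  rintro z ⟨h1, a, ha, h2⟩
  exact ⟨h1, a, h ha, h2⟩

/-- movement of a free sum -/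
theorem Push_image (K : Set E) (p : E) (B : Set F) (q : F) (u : E) (β : E → ℝ)
    (b0 t : ℝ) (γ : E × F → ℝ)
    (hγ : ∀ y ∈ B, ∀ a : E, γ ((1 - gg B q y) • a + gg B q y • p, y) =
      (1 - gg B q y) * β a + gg B q y * b0) :
    fs (mv β u t '' K) (p + (t * b0) • u) B q = mv γ (u, 0) t '' fs K p B q := by
  have key : ∀ y ∈ B, ∀ a : E, mv γ ((u, 0) : E × F) t ((1 - gg B q y) • a + gg B q y • p, y) =
      ((1 - gg B q y) • mv β u t a + gg B q y • (p + (t * b0) • u), y) := by
    intro y hy a
    unfold mv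
    rw [hγ y hy a]
    refine Prod.ext ?_ ?_
    · simp only [Prod.fst_add, Prod.smul_fst]
      rw [smul_add, smul_add, smul_smul, smul_smul]
      have : t * ((1 - gg B q y) * β a + gg B q y * b0) =
          (1 - gg B q y) * (t * β a) + gg B q y * (t * b0) := by ring
      rw [this, add_smul]
      abel
    · simp
  ext w
  constructor
  · rintro ⟨hw, _, ⟨a, ha, rfl⟩, h2⟩
    refine ⟨((1 - gg B q w.2) • a + gg B q w.2 • p, w.2), ⟨hw, a, ha, rfl⟩, ?_⟩
    rw [key w.2 hw a, ← h2]
  · rintro ⟨w', ⟨hw, a, ha, h2⟩, rfl⟩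
    have e : w' = ((1 - gg B q w'.2) • a + gg B q w'.2 • p, w'.2) := Prod.ext h2 rfl
    rw [e, key w'.2 hw a]
    exact ⟨hw, _, ⟨a, ha, rfl⟩, rfl⟩

theorem Push_bdd {K : Set E} (hK : Bornology.IsBounded K) (p : E) {B : Set F}
    (hB : Bornology.IsBounded B) (q : F) (h01 : ∀ y ∈ B, 0 ≤ gg B q y ∧ gg B q y ≤ 1) :
    Bornology.IsBounded (fs K p B q) := by
  obtain ⟨R, hR⟩ := hK.exists_norm_le
  have h1 : fs K p B q ⊆ Metric.closedBall (0 : E) (|R| + ‖p‖) ×ˢ B := by
    rintro z ⟨hz, a, ha, h2⟩
    refine ⟨?_, hz⟩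
    rw [mem_closedBall_zero_iff, h2]
    obtain ⟨g0, g1⟩ := h01 _ hz
    have h3 := norm_add_le ((1 - gg B q z.2) • a) (gg B q z.2 • p)
    rw [norm_smul, norm_smul, Real.norm_eq_abs, Real.norm_eq_abs, abs_of_nonneg g0,
      abs_of_nonneg (by linarith)] at h3
    have h4 := hR a ha
    have h5 := norm_nonneg a
    have h6 := norm_nonneg p
    have h7 := le_abs_self R
    nlinarith
  exact (Metric.isBounded_closedBall.prod hB).subset h1

end

theorem Push_meas {E F : Type} [NormedAddCommGroup E] [NormedSpace ℝ E]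
    [FiniteDimensional ℝ E] [MeasurableSpace E] [BorelSpace E]
    [NormedAddCommGroup F] [NormedSpace ℝ F] [FiniteDimensional ℝ F] [MeasurableSpace F]
    [BorelSpace F] {K : Set E} (hK : MeasurableSet K) (p : E) {B : Set F} (hB : MeasurableSet B)
    (q : F) (h01 : ∀ y ∈ B, 0 ≤ gg B q y ∧ gg B q y ≤ 1)
    (hm : Measurable (B.indicator (gg B q))) : MeasurableSet (fs K p B q) := by
  rcases K.eq_empty_or_nonempty with h0 | hne
  · have : fs K p B q = ∅ := by
      ext z
      constructor
      · rintro ⟨_, a, ha, _⟩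
        rw [h0] at ha
        exact ha
      · intro h
        exact absurd h (notMem_empty z)
    rw [this]
    exact MeasurableSet.empty
  set h : F → ℝ := B.indicator (gg B q) with hh
  have hval : ∀ y ∈ B, h y = gg B q y := fun y hy => indicator_of_mem hy _
  have hms : Measurable fun w : E × F => h w.2 := hm.comp measurable_snd
  have e : fs K p B q =
      (Prod.snd ⁻¹' B ∩ {w : E × F | h w.2 < 1} ∩
        (fun w : E × F => (1 - h w.2)⁻¹ • (w.1 - h w.2 • p)) ⁻¹' K) ∪
      (Prod.snd ⁻¹' B ∩ {w : E × F | h w.2 = 1} ∩ {w : E × F | w.1 = p}) := by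
    ext w
    constructor
    · rintro ⟨hw, a, ha, h2⟩
      rcases lt_or_eq_of_le (h01 _ hw).2 with h3 | h3
      · refine Or.inl ⟨⟨hw, ?_⟩, ?_⟩
        · show h w.2 < 1
          rw [hval _ hw]
          exact h3
        · show (1 - h w.2)⁻¹ • (w.1 - h w.2 • p) ∈ K
          rw [hval _ hw, h2, add_sub_cancel_right, smul_smul, inv_mul_cancel₀ (by linarith),
            one_smul]
          exact ha
      · refine Or.inr ⟨⟨hw, ?_⟩, ?_⟩
        · show h w.2 = 1
          rw [hval _ hw]
          exact h3
        · show w.1 = p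
          rw [h2, h3, sub_self, zero_smul, zero_add, one_smul]
    · rintro (⟨⟨hw, h3⟩, h4⟩ | ⟨⟨hw, h3⟩, h4⟩)
      · have h3' : h w.2 < 1 := h3
        have hw' : w.2 ∈ B := hw
        rw [hval _ hw'] at h3'
        refine ⟨hw', _, h4, ?_⟩
        show w.1 = (1 - gg B q w.2) • ((1 - h w.2)⁻¹ • (w.1 - h w.2 • p)) + gg B q w.2 • p
        rw [hval _ hw', smul_smul, mul_inv_cancel₀ (by linarith), one_smul, sub_add_cancel]
      · have h3' : h w.2 = 1 := h3
        have hw' : w.2 ∈ B := hw
        rw [hval _ hw'] at h3'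
        obtain ⟨a, ha⟩ := hne
        refine ⟨hw', a, ha, ?_⟩
        rw [h3', sub_self, zero_smul, zero_add, one_smul]
        exact h4
  rw [e]
  have hB' : MeasurableSet (Prod.snd ⁻¹' B : Set (E × F)) := measurable_snd hB
  refine MeasurableSet.union ((hB'.inter (measurableSet_lt hms measurable_const)).inter ?_)
    ((hB'.inter (measurableSet_eq_fun hms measurable_const)).inter
      (measurableSet_eq_fun measurable_fst measurable_const))
  have h5 : Measurable fun w : E × F => (1 - h w.2)⁻¹ • (w.1 - h w.2 • p) :=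
    ((measurable_const.sub hms).inv).smul (measurable_fst.sub (hms.smul measurable_const))
  exact h5 hK

theorem thm_int (h1 : St_gauge) (h2 : St_hull) : St_int := by
  intro E F _ _ _ _ _ _ _ _ _ _ A p B q hA hAc hp hAi hB hBc hq hBi
  have hfs := (h2 E F A p B q hA hAc hp hB hBc hq).1
  constructor
  · obtain ⟨a, ha⟩ := hAi
    obtain ⟨b, hb⟩ := hBi
    have ho : IsOpen {w : E × F | (2 : ℝ) • w.1 - p ∈ interior A ∧
        (2 : ℝ) • w.2 - q ∈ interior B} := by
      refine IsOpen.inter ?_ ?_
      · exact isOpen_interior.preimage (by fun_prop : Continuous fun w : E × F =>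
          (2 : ℝ) • w.1 - p)
      · exact isOpen_interior.preimage (by fun_prop : Continuous fun w : E × F =>
          (2 : ℝ) • w.2 - q)
    refine ⟨((1 / 2 : ℝ) • a + (1 / 2 : ℝ) • p, (1 / 2 : ℝ) • q + (1 / 2 : ℝ) • b),
      interior_maximal ?_ ho ?_⟩
    · rintro w ⟨hw1, hw2⟩
      have e1 : w = (1 / 2 : ℝ) • ((2 : ℝ) • w.1 - p, q) + (1 / 2 : ℝ) • (p, (2 : ℝ) • w.2 - q) := by
        refine Prod.ext ?_ ?_
        · simp only [Prod.fst_add, Prod.smul_fst]
          rw [← smul_add, sub_add_cancel, smul_smul]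
          norm_num
        · simp only [Prod.snd_add, Prod.smul_snd]
          rw [← smul_add, add_sub_cancel, smul_smul]
          norm_num
      have m1 : (((2 : ℝ) • w.1 - p, q) : E × F) ∈ hs A p B q :=
        subset_convexHull ℝ _ (Or.inl ⟨_, interior_subset hw1, rfl⟩)
      have m2 : ((p, (2 : ℝ) • w.2 - q) : E × F) ∈ hs A p B q :=
        subset_convexHull ℝ _ (Or.inr ⟨_, interior_subset hw2, rfl⟩)
      have hcx : Convex ℝ (hs A p B q) := convex_convexHull ℝ _
      rw [e1]
      exact hcx m1 m2 (by norm_num) (by norm_num) (by norm_num)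
    · constructor
      · show (2 : ℝ) • ((1 / 2 : ℝ) • a + (1 / 2 : ℝ) • p) - p ∈ interior A
        rw [← smul_add, smul_smul]
        norm_num
        exact ha
      · show (2 : ℝ) • ((1 / 2 : ℝ) • q + (1 / 2 : ℝ) • b) - q ∈ interior B
        rw [← smul_add, smul_smul]
        norm_num
        exact hb
  · rw [← hfs]
    intro z hz
    obtain ⟨hzB, a, ha, hza⟩ := interior_subset hz
    refine ⟨hzB, ?_⟩
    obtain ⟨g0, g1⟩ := (h1 F B q hB hBc hq).1 _ hzB
    rcases lt_or_eq_of_le g1 with h3 | h3
    · refine ⟨a, ?_, hza⟩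
      have ho : IsOpen {x : E | ((1 - gg B q z.2) • x + gg B q z.2 • p, z.2) ∈
          interior (fs A p B q)} :=
        isOpen_interior.preimage (by fun_prop : Continuous fun x : E =>
          (((1 - gg B q z.2) • x + gg B q z.2 • p, z.2) : E × F))
      refine interior_maximal ?_ ho ?_
      · intro x hx
        obtain ⟨_, a', ha', hxa⟩ := interior_subset hx
        have h4 : (1 - gg B q z.2) • x = (1 - gg B q z.2) • a' := add_right_cancel hxa
        have h5 : (1 - gg B q z.2) ≠ 0 := by linarith
        have h6 : x = a' := by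
          have := congrArg (fun v => (1 - gg B q z.2)⁻¹ • v) h4
          simpa [smul_smul, inv_mul_cancel₀ h5] using this
        rw [h6]
        exact ha'
      · show ((1 - gg B q z.2) • a + gg B q z.2 • p, z.2) ∈ interior (fs A p B q)
        rw [← hza]
        exact hz
    · have hzp : z.1 = p := by
        rw [hza, h3, sub_self, zero_smul, zero_add, one_smul]
      refine ⟨p, ?_, by rw [hzp, h3, sub_self, zero_smul, zero_add, one_smul]⟩
      have ho : IsOpen {x : E | (x, z.2) ∈ interior (fs A p B q)} :=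
        isOpen_interior.preimage (by fun_prop : Continuous fun x : E => ((x, z.2) : E × F))
      refine interior_maximal ?_ ho ?_
      · intro x hx
        obtain ⟨_, a', ha', hxa⟩ := interior_subset hx
        have h4 : x = p := by
          have h5 : x = (1 - gg B q z.2) • a' + gg B q z.2 • p := hxa
          rw [h5, h3, sub_self, zero_smul, zero_add, one_smul]
        rw [h4]
        exact hp
      · show (p, z.2) ∈ interior (fs A p B q)
        have e : ((p, z.2) : E × F) = z := Prod.ext hzp.symm rfl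
        rw [e]
        exact hz

theorem thm_push (h1 : St_gauge) (h2 : St_hull) (h3 : St_int) : St_push := by
  intro E F _ _ _ _ _ _ _ _ _ _ n Φ B q c hΦ hB hBc hq hBi hc
  obtain ⟨h01, hgq, -, -, hmeas⟩ := h1 F B q hB hBc hq
  constructor
  · intro K hK hKb z u β hβ hinv hC b
    obtain ⟨C, hC⟩ := hC
    set h : F → ℝ := B.indicator (gg B q) with hh
    have hval : ∀ y ∈ B, h y = gg B q y := fun y hy => indicator_of_mem hy _
    have hms : Measurable fun w : E × F => h w.2 := hmeas.comp measurable_snd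
    set γ : E × F → ℝ := fun w =>
      (1 - h w.2) * β ((1 - h w.2)⁻¹ • (w.1 - h w.2 • z 0)) + h w.2 * b 0 with hγdef
    have hγ : ∀ y ∈ B, ∀ a : E, γ ((1 - gg B q y) • a + gg B q y • z 0, y) =
        (1 - gg B q y) * β a + gg B q y * b 0 := by
      intro y hy a
      simp only [hγdef]
      rw [hval y hy, add_sub_cancel_right, smul_smul]
      rcases lt_or_eq_of_le (h01 y hy).2 with h4 | h4
      · rw [inv_mul_cancel₀ (by linarith), one_smul]
      · rw [h4, sub_self, zero_mul, zero_mul]
    have hγm : Measurable γ :=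
      ((measurable_const.sub hms).mul (hβ.comp (((measurable_const.sub hms).inv).smul
        (measurable_fst.sub (hms.smul measurable_const))))).add (hms.mul measurable_const)
    have hγinv : ∀ (x : E × F) (s : ℝ), γ (x + s • ((u, 0) : E × F)) = γ x := by
      intro x s
      simp only [hγdef]
      have e1 : (x + s • ((u, 0) : E × F)).2 = x.2 := by simp
      have e2 : (x + s • ((u, 0) : E × F)).1 = x.1 + s • u := by simp
      rw [e1, e2]
      have e3 : (1 - h x.2)⁻¹ • (x.1 + s • u - h x.2 • z 0) =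
          (1 - h x.2)⁻¹ • (x.1 - h x.2 • z 0) + ((1 - h x.2)⁻¹ * s) • u := by
        rw [← smul_smul, ← smul_add]
        congr 1
        abel
      rw [e3, hinv]
    have hγb : ∃ C', ∀ x ∈ fs K (z 0) B q, |γ x| ≤ C' := by
      refine ⟨|C| + |b 0|, ?_⟩
      rintro x ⟨hx, a, ha, hxa⟩
      have e : x = ((1 - gg B q x.2) • a + gg B q x.2 • z 0, x.2) := Prod.ext hxa rfl
      rw [e, hγ x.2 hx a]
      obtain ⟨g0, g1⟩ := h01 _ hx
      have h5 := abs_add_le ((1 - gg B q x.2) * β a) (gg B q x.2 * b 0)
      rw [abs_mul, abs_mul, abs_of_nonneg g0,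
        abs_of_nonneg (show 0 ≤ 1 - gg B q x.2 by linarith)] at h5
      have h6 := hC a ha
      have h7 := le_abs_self C
      have h8 := abs_nonneg (β a)
      have h9 := abs_nonneg (b 0)
      nlinarith
    have hmain := hΦ.mov (fs K (z 0) B q) (Push_meas hK (z 0) hB.measurableSet q h01 hmeas)
      (Push_bdd hKb (z 0) hB.isBounded q h01)
      (fun i => match c i with
        | none => (z i.succ, q)
        | some y => (z 0, y)) (u, 0) γ hγm hγinv hγb
      (fun i => match c i with
        | none => b i.succ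
        | some _ => b 0)
    have hfun : (fun t : ℝ => push Φ B q c (mv β u t '' K) (fun i => z i + (t * b i) • u)) =
        fun t : ℝ => Φ (mv γ (u, 0) t '' fs K (z 0) B q) (fun i => (match c i with
          | none => (z i.succ, q)
          | some y => (z 0, y)) + (t * (match c i with
          | none => b i.succ
          | some _ => b 0)) • ((u, 0) : E × F)) := by
      funext t
      unfold push
      rw [Push_image K (z 0) B q u β (b 0) t γ hγ]
      congr 1
      funext i
      cases c i with
      | none => simp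
      | some y => simp
    rw [hfun]
    exact hmain
  · intro K P hK hKc hKi hP hPc hKP z hz M hM
    have hPi : ∀ m, fs (P m) (z 0) B q = hs (P m) (z 0) B q ∧ IsCompact (hs (P m) (z 0) B q) :=
      fun m => h2 E F (P m) (z 0) B q (hPc m).1 (hPc m).2.1 (hz 0 m) hB hBc hq
    have hz0 : z 0 ∈ K := (hPc 0).2.2 (hz 0 0)
    obtain ⟨hKe, hKcp⟩ := h2 E F K (z 0) B q hK hKc hz0 hB hBc hq
    obtain ⟨hi1, hi2⟩ := h3 E F K (z 0) B q hK hKc hz0 hKi hB hBc hq hBi
    unfold push
    refine hΦ.cont (fs K (z 0) B q) (fun m => fs (P m) (z 0) B q) ?_ ?_ ?_ ?_ ?_ ?_ _ ?_ M ?_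
    · rw [hKe]
      exact hKcp
    · rw [hKe]
      exact convex_convexHull ℝ _
    · rw [hKe]
      exact hi1
    · intro m m' hmm
      exact Push_mono (hP hmm) _ _ _
    · intro m
      refine ⟨?_, ?_, Push_mono (hPc m).2.2 _ _ _⟩
      · rw [(hPi m).1]
        exact (hPi m).2
      · rw [(hPi m).1]
        exact convex_convexHull ℝ _
    · intro w hw
      rw [hKe] at hw
      obtain ⟨hwB, a, ha, hwa⟩ := hi2 w hw
      obtain ⟨m, hm⟩ := mem_iUnion.1 (hKP ha)
      exact mem_iUnion.2 ⟨m, hwB, a, hm, hwa⟩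
    · intro i m
      cases hci : c i with
      | none =>
        refine ⟨hq, z i.succ, hz _ m, ?_⟩
        show z i.succ = (1 - gg B q q) • z i.succ + gg B q q • z 0
        rw [hgq]
        simp
      | some y =>
        refine ⟨hc i y hci, z 0, hz 0 m, ?_⟩
        show z 0 = (1 - gg B q y) • z 0 + gg B q y • z 0
        rw [← add_smul]
        simp
    · intro m
      exact hM m

end Pool.Agent.SYJ
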