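import Pool.Agent.SYJ.St

/-! # Sylvester problem, free sums of planar bodies: the free sum of two simplices at vertices -/

set_option autoImplicit false

namespace Pool.Agent.SYJ

open MeasureTheory Set Pool.Agent.SYL

theorem Simpsum_left {E F : Type} [AddCommGroup E] [Module ℝ E] [AddCommGroup F] [Module ℝ F]
    (q : F) : ∃ f : E →ᵃ[ℝ] E × F, ∀ a, f a = (a, q) :=
  ⟨(AffineMap.id ℝ E).prod (AffineMap.const ℝ E q), fun _ => rfl⟩

theorem Simpsum_right {E F : Type} [AddCommGroup E] [Module ℝ E] [AddCommGroup F] [Module ℝ F]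
    (p : E) : ∃ f : F →ᵃ[ℝ] E × F, ∀ b, f b = (p, b) :=
  ⟨(AffineMap.const ℝ F p).prod (AffineMap.id ℝ F), fun _ => rfl⟩

theorem thm_simpsum : St_simpsum := by
  classical
  intro E F _ _ _ _ _ _ V W p q hV hW hp hq
  obtain ⟨f, hf⟩ := Simpsum_left (E := E) (F := F) q
  obtain ⟨g, hg⟩ := Simpsum_right (E := E) (F := F) p
  have hU : ((V.image f ∪ W.image g : Finset (E × F)) : Set (E × F)) =
      (f '' (V : Set E)) ∪ (g '' (W : Set F)) := by
    rw [Finset.coe_union, Finset.coe_image, Finset.coe_image]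
  refine ⟨V.image f ∪ W.image g, ⟨?_, ?_⟩, ?_, ?_, ?_⟩
  · have h1 : (V.image f ∩ W.image g).Nonempty := by
      refine ⟨(p, q), Finset.mem_inter.2 ⟨?_, ?_⟩⟩
      · exact Finset.mem_image.2 ⟨p, hp, hf p⟩
      · exact Finset.mem_image.2 ⟨q, hq, hg q⟩
    have h2 := Finset.card_union_add_card_inter (V.image f) (W.image g)
    have h3 : 1 ≤ (V.image f ∩ W.image g).card := Finset.card_pos.2 h1
    have h4 : (V.image f).card ≤ V.card := Finset.card_image_le
    have h5 : (W.image g).card ≤ W.card := Finset.card_image_le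
    have h6 := hV.1
    have h7 := hW.1
    rw [Module.finrank_prod]
    omega
  · rw [hU]
    have hE : ∀ x : E, (x, q) ∈ affineSpan ℝ ((f '' (V : Set E)) ∪ (g '' (W : Set F))) := by
      intro x
      have h1 : x ∈ affineSpan ℝ (V : Set E) := by rw [hV.2]; trivial
      have h2 : f x ∈ (affineSpan ℝ (V : Set E)).map f := (AffineSubspace.mem_map).2 ⟨x, h1, rfl⟩
      rw [AffineSubspace.map_span, hf] at h2
      exact affineSpan_mono ℝ subset_union_left h2
    have hF : ∀ y : F, (p, y) ∈ affineSpan ℝ ((f '' (V : Set E)) ∪ (g '' (W : Set F))) := by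
      intro y
      have h1 : y ∈ affineSpan ℝ (W : Set F) := by rw [hW.2]; trivial
      have h2 : g y ∈ (affineSpan ℝ (W : Set F)).map g := (AffineSubspace.mem_map).2 ⟨y, h1, rfl⟩
      rw [AffineSubspace.map_span, hg] at h2
      exact affineSpan_mono ℝ subset_union_right h2
    rw [eq_top_iff]
    rintro ⟨x, y⟩ _
    have h := AffineSubspace.smul_vsub_vadd_mem _ (1 : ℝ) (hE x) (hE p) (hF y)
    have h' : (1 : ℝ) • ((x, q) -ᵥ (p, q)) +ᵥ (p, y) = (x, y) := by
      ext <;> simp
    rw [h'] at h
    exact h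
  · intro v hv
    exact Finset.mem_union_left _ (Finset.mem_image.2 ⟨v, hv, hf v⟩)
  · intro w hw
    exact Finset.mem_union_right _ (Finset.mem_image.2 ⟨w, hw, hg w⟩)
  · unfold hs
    rw [hU]
    have h1 : (fun a : E => (a, q)) = f := by
      funext a
      exact (hf a).symm
    have h2 : (fun b : F => (p, b)) = g := by
      funext b
      exact (hg b).symm
    rw [h1, h2, AffineMap.image_convexHull, AffineMap.image_convexHull,
      convexHull_convexHull_union_left, convexHull_convexHull_union_right]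

end Pool.Agent.SYJ
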