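import Pool.Agent.SYJ.St

/-! # The free sum of good bodies is good -/

set_option autoImplicit false

namespace Pool.Agent.SYJ

open MeasureTheory Set Pool.Agent.SYL

/-- the exchange of the factors -/
noncomputable def Sum_sw (E F : Type) [AddCommGroup E] [Module ℝ E] [AddCommGroup F] [Module ℝ F] :
    (F × E) ≃ᵃ[ℝ] (E × F) := (LinearEquiv.prodComm ℝ F E).toAffineEquiv

theorem Sum_sw_apply {E F : Type} [AddCommGroup E] [Module ℝ E] [AddCommGroup F] [Module ℝ F]
    (z : F × E) : Sum_sw E F z = (z.2, z.1) := rfl

theorem Sum_sw_hs {E F : Type} [AddCommGroup E] [Module ℝ E] [AddCommGroup F] [Module ℝ F]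
    (A : Set E) (p : E) (B : Set F) (q : F) :
    Sum_sw E F '' hs B q A p = hs A p B q := by
  unfold hs
  have h1 : Sum_sw E F '' convexHull ℝ ((fun a => (a, p)) '' B ∪ (fun b => (q, b)) '' A) =
      convexHull ℝ (Sum_sw E F '' ((fun a => (a, p)) '' B ∪ (fun b => (q, b)) '' A)) :=
    (Sum_sw E F).toAffineMap.image_convexHull _
  rw [h1, image_union, image_image, image_image, union_comm]
  rfl

theorem thm_sum (hE : St_extr) (hF : St_funmap) (hS : St_simp) (hH : St_hull) (hI : St_int)
    (hP : St_push) (hSS : St_simpsum) : St_sum := by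
  classical
  intro E F _ _ _ _ _ _ _ _ _ _ A p B q hA hp hB hq
  have : ProperSpace E := FiniteDimensional.proper ℝ E
  have : ProperSpace F := FiniteDimensional.proper ℝ F
  obtain ⟨hAc, hAv, hAi, hAg⟩ := hA
  obtain ⟨hBc, hBv, hBi, hBg⟩ := hB
  obtain ⟨hfs, hcp⟩ := hH E F A p B q hAc hAv hp hBc hBv hq
  refine ⟨hcp, convex_convexHull ℝ _, (hI E F A p B q hAc hAv hp hAi hBc hBv hq hBi).1, ?_⟩
  intro n Φ hΦ M hM z0 hz0
  refine hE (E × F) n Φ hΦ (hs A p B q) hcp.measurableSet hcp.isBounded _ M ?_ z0 hz0
  clear hz0 z0
  intro z hz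
  have hz' : ∀ i, ∃ (c : Option F) (a : E), a ∈ A ∧ (∀ y, c = some y → y ∈ B) ∧
      z i = (match c with
        | none => (a, q)
        | some y => (p, y)) := by
    intro i
    rcases hz i with ⟨a, ha, h⟩ | ⟨b, hb, h⟩
    · refine ⟨none, a, ha, ?_, h.symm⟩
      intro y hy
      exact absurd hy (by simp)
    · refine ⟨some b, p, hp, ?_, h.symm⟩
      intro y hy
      rw [← Option.some.inj hy]
      exact hb
  choose c a ha hc hza using hz'
  have key : push Φ B q c A (Fin.cons p a : Fin (n + 1) → E) ≤ M := by
    refine hAg (n + 1) (push Φ B q c) (hP E F n Φ B q c hΦ hBc hBv hq hBi hc) M ?_ _ ?_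
    · intro V hV v hv
      obtain ⟨hTc, hTv, hTi, -⟩ := hS E V hV
      have hv' : ∀ i, v i ∈ convexHull ℝ (V : Set E) := fun i => subset_convexHull ℝ _ (hv i)
      have h1 := hH E F (convexHull ℝ (V : Set E)) (v 0) B q hTc hTv (hv' 0) hBc hBv hq
      have hΨ := hF (F × E) (E × F) n Φ (Sum_sw E F) hΦ
      have h2 : push (fun (K : Set (F × E)) (z : Fin n → F × E) =>
          Φ (Sum_sw E F '' K) (fun i => Sum_sw E F (z i))) (convexHull ℝ (V : Set E)) (v 0)
          (fun i => match c i with
            | none => some (v i.succ)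
            | some _ => none) B
          (Fin.cons q (fun i => match c i with
            | none => q
            | some y => y) : Fin (n + 1) → F) ≤ M := by
        refine hBg (n + 1) _ (hP F E n _ (convexHull ℝ (V : Set E)) (v 0) _ hΨ hTc hTv (hv' 0)
          hTi ?_) M ?_ _ ?_
        · intro i y hy
          rcases hci : c i with _ | y'
          · simp only [hci] at hy
            rw [← Option.some.inj hy]
            exact hv' _
          · simp only [hci] at hy
            exact absurd hy (by simp)
        · intro W hW w hw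
          obtain ⟨hXc, hXv, hXi, -⟩ := hS F W hW
          have hw' : ∀ i, w i ∈ convexHull ℝ (W : Set F) := fun i => subset_convexHull ℝ _ (hw i)
          obtain ⟨U, hU, hU1, hU2, hU3⟩ := hSS E F V W (v 0) (w 0) hV hW (hv 0) (hw 0)
          have h3 := hH F E (convexHull ℝ (W : Set F)) (w 0) (convexHull ℝ (V : Set E)) (v 0)
            hXc hXv (hw' 0) hTc hTv (hv' 0)
          show Φ (Sum_sw E F '' fs (convexHull ℝ (W : Set F)) (w 0) (convexHull ℝ (V : Set E)) (v 0))
            _ ≤ M
          rw [h3.1, Sum_sw_hs, ← hU3]
          refine hM U hU _ ?_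
          intro i
          rcases hci : c i with _ | y'
          · simp only [hci, Sum_sw_apply]
            exact hU1 _ (hv _)
          · simp only [hci, Sum_sw_apply]
            exact hU2 _ (hw _)
        · intro i
          refine Fin.cases ?_ (fun j => ?_) i
          · exact hq
          · show (match c j with
              | none => q
              | some y => y) ∈ B
            rcases hcj : c j with _ | y'
            · exact hq
            · exact hc j y' hcj
      have h4 := hH F E B q (convexHull ℝ (V : Set E)) (v 0) hBc hBv hq hTc hTv (hv' 0)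
      have h5 : Φ (Sum_sw E F '' fs B q (convexHull ℝ (V : Set E)) (v 0))
          (fun i => match c i with
            | none => (v i.succ, q)
            | some y => (v 0, y)) ≤ M := by
        refine le_of_eq_of_le ?_ h2
        show _ = Φ (Sum_sw E F '' fs B q (convexHull ℝ (V : Set E)) (v 0)) _
        congr 1
        funext i
        rcases hci : c i with _ | y'
        · simp only [hci]
          rfl
        · simp only [hci, Sum_sw_apply, Fin.cons_succ]
      rw [h4.1, Sum_sw_hs, ← h1.1] at h5
      exact h5
    · intro i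
      refine Fin.cases ?_ (fun j => ?_) i
      · exact hp
      · exact ha j
  have h6 : Φ (hs A p B q) z = push Φ B q c A (Fin.cons p a : Fin (n + 1) → E) := by
    rw [← hfs]
    show _ = Φ (fs A p B q) _
    congr 1
    funext i
    rw [hza i]
    rfl
  rw [h6]
  exact key

end Pool.Agent.SYJ
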