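import Pool.Agent.SYJ.Main0
import Pool.Agent.SYJ.Ex
import Pool.Agent.SYJ.Gau
import Pool.Agent.SYJ.Push
import Pool.Agent.SYJ.Sum
import Pool.Agent.SYJ.Simpsum
import Pool.Agent.SYJ.Mov
import Pool.Agent.SYJ.Cont
import Pool.Agent.SYJ.End
import Pool.Agent.SYJ.Diag
import Pool.Agent.SYJ.Plan
import Pool.Agent.SYJ.Poly
import Pool.Agent.SYJ.Fin

/-! # The inequality, assembled -/

set_option autoImplicit false

namespace Pool.Agent.SYJ

open MeasureTheory Set Pool.Agent.SYL

theorem All0_simp : St_simp := thm_simp thm_extr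

theorem All0_goodmap : St_goodmap := thm_goodmap thm_funmap

theorem All0_hull : St_hull := thm_hull thm_gauge

theorem All0_int : St_int := thm_int thm_gauge All0_hull

theorem All0_push : St_push := thm_push thm_gauge All0_hull All0_int

theorem All0_sum : St_sum :=
  thm_sum thm_extr thm_funmap All0_simp All0_hull All0_int All0_push thm_simpsum

theorem All0_poly : St_poly :=
  thm_poly thm_extr All0_goodmap All0_simp thm_end (thm_end2 thm_end) thm_diag

theorem All0_planar : St_planar := thm_planar All0_poly

theorem All0_mov : St_mov := thm_mov thm_pres thm_Vconv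

theorem All0_main {d : ℕ} {D : Set (Fin d → ℝ)} (h : FSClass d D) :
    IsBody D ∧ ∀ T : Set (Fin d → ℝ), IsSimplex T → Sylv d D ≤ Sylv d T :=
  Main0_main All0_goodmap All0_simp All0_sum All0_planar thm_IsSimplex All0_mov thm_cont
    thm_same h

end Pool.Agent.SYJ
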