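import Pool.Agent.SYJ.St

/-! # Marked points, transport along affine isomorphisms, simplices are good -/

set_option autoImplicit false

namespace Pool.Agent.SYJ

open MeasureTheory Set Pool.Agent.SYL

theorem Base_mv_zero {E : Type} [AddCommGroup E] [Module ℝ E] (u : E) (t : ℝ) (K : Set E) :
    mv (fun _ => (0 : ℝ)) u t '' K = K := by
  have h : mv (fun _ : E => (0 : ℝ)) u t = id := by
    funext x
    simp [mv]
  rw [h, image_id]

theorem Base_conv {E : Type} [NormedAddCommGroup E] [NormedSpace ℝ E] [MeasurableSpace E]
    {n : ℕ} {Φ : Set E → (Fin n → E) → ℝ} (hΦ : Fun Φ) {K : Set E} (hK : MeasurableSet K)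
    (hb : Bornology.IsBounded K) (M : ℝ) (z : Fin n → E) (i : Fin n) :
    Convex ℝ {x : E | Φ K (Function.update z i x) ≤ M} := by
  intro x hx y hy a b ha hb' hab
  have h1 := hΦ.mov K hK hb (Function.update z i x) (y - x) (fun _ => 0) measurable_const
    (fun _ _ => rfl) ⟨0, by simp⟩ (Pi.single i 1)
  have h2 := h1.2 (mem_univ (0 : ℝ)) (mem_univ (1 : ℝ)) ha hb' hab
  have key : ∀ t : ℝ, (fun j => Function.update z i x j +
      (t * (Pi.single i (1 : ℝ) : Fin n → ℝ) j) • (y - x)) =
      Function.update z i (x + t • (y - x)) := by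
    intro t
    funext j
    by_cases hj : j = i
    · subst hj
      simp
    · simp [Function.update_of_ne hj, Pi.single_eq_of_ne hj]
  simp only [Base_mv_zero, key, smul_eq_mul, mul_zero, zero_add, mul_one, zero_smul, add_zero,
    one_smul] at h2
  have h3 : x + b • (y - x) = a • x + b • y := by
    have : a = 1 - b := by linarith
    rw [this, smul_sub, sub_smul, one_smul]
    abel
  rw [h3, show x + (y - x) = y by abel] at h2
  show Φ K (Function.update z i (a • x + b • y)) ≤ M
  have hx' : Φ K (Function.update z i x) ≤ M := hx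
  have hy' : Φ K (Function.update z i y) ≤ M := hy
  have h4 : a * Φ K (Function.update z i x) + b * Φ K (Function.update z i y) ≤ M := by
    have h5 := mul_le_mul_of_nonneg_left hx' ha
    have h6 := mul_le_mul_of_nonneg_left hy' hb'
    have h7 : a * M + b * M = M := by rw [← add_mul, hab, one_mul]
    linarith
  exact h2.trans h4

theorem thm_extr : St_extr := by
  intro E _ _ _ n Φ hΦ K hK hb S M h
  have key : ∀ s : Finset (Fin n), ∀ z : Fin n → E, (∀ i ∈ s, z i ∈ convexHull ℝ S) →
      (∀ i, i ∉ s → z i ∈ S) → Φ K z ≤ M := by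
    intro s
    induction s using Finset.induction_on with
    | empty =>
      intro z _ hz
      exact h z fun i => hz i (Finset.notMem_empty i)
    | insert i s hi ih =>
      intro z hz1 hz2
      have h1 : S ⊆ {x : E | Φ K (Function.update z i x) ≤ M} := by
        intro x hx
        refine ih _ ?_ ?_
        · intro j hj
          have hji : j ≠ i := fun h => hi (h ▸ hj)
          rw [Function.update_of_ne hji]
          exact hz1 j (Finset.mem_insert_of_mem hj)
        · intro j hj
          by_cases hji : j = i
          · subst hji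
            rw [Function.update_self]
            exact hx
          · rw [Function.update_of_ne hji]
            refine hz2 j ?_
            rw [Finset.mem_insert]
            push Not
            exact ⟨hji, hj⟩
      have h2 := convexHull_min h1 (Base_conv hΦ hK hb M z i)
      have h3 := h2 (hz1 i (Finset.mem_insert_self i s))
      have h4 : Φ K (Function.update z i (z i)) ≤ M := h3
      rwa [Function.update_eq_self] at h4
  intro z hz
  exact key Finset.univ z (fun i _ => hz i) (fun i hi => absurd (Finset.mem_univ i) hi)

theorem Base_aff {E E' : Type} [AddCommGroup E] [Module ℝ E] [AddCommGroup E'] [Module ℝ E']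
    (f : E ≃ᵃ[ℝ] E') (x v : E) : f (x + v) = f x + f.linear v := by
  have h := f.map_vadd x v
  rw [vadd_eq_add, vadd_eq_add] at h
  rw [add_comm x v, h, add_comm]

theorem Base_mv_map {E E' : Type} [AddCommGroup E] [Module ℝ E] [AddCommGroup E'] [Module ℝ E']
    (f : E ≃ᵃ[ℝ] E') (β : E → ℝ) (u : E) (t : ℝ) (K : Set E) :
    f '' (mv β u t '' K) = mv (fun y => β (f.symm y)) (f.linear u) t '' (f '' K) := by
  rw [image_image, image_image]
  refine image_congr fun x _ => ?_
  unfold mv
  simp only [Base_aff, map_smul, AffineEquiv.symm_apply_apply]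

theorem Base_bdd {E E' : Type} [NormedAddCommGroup E] [NormedSpace ℝ E]
    [FiniteDimensional ℝ E] [NormedAddCommGroup E'] [NormedSpace ℝ E'] [FiniteDimensional ℝ E']
    (f : E ≃ᵃ[ℝ] E') {K : Set E} (hb : Bornology.IsBounded K) : Bornology.IsBounded (f '' K) := by
  haveI : ProperSpace E := FiniteDimensional.proper ℝ E
  have h1 : IsCompact (closure K) := hb.isCompact_closure
  have h2 : Continuous f := f.continuous_of_finiteDimensional
  exact (h1.image h2).isBounded.subset (image_mono subset_closure)

theorem thm_funmap : St_funmap := by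
  intro E E' _ _ _ _ _ _ _ _ _ _ n Φ f hΦ
  have hfc : Continuous f := f.continuous_of_finiteDimensional
  have hgc : Continuous f.symm := f.symm.continuous_of_finiteDimensional
  let H : E ≃ₜ E' := (AffineEquiv.toContinuousAffineEquiv f).toHomeomorph
  have hH : ∀ K : Set E, f '' K = H '' K := fun K => rfl
  constructor
  · intro K hK hb z u β hβ hu hC b
    have h1 : MeasurableSet (f '' K) := by
      rw [hH]
      exact H.measurableEmbedding.measurableSet_image.2 hK
    obtain ⟨C, hC⟩ := hC
    have h2 := hΦ.mov (f '' K) h1 (Base_bdd f hb) (fun i => f (z i)) (f.linear u)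
      (fun y => β (f.symm y)) (hβ.comp hgc.measurable) (by
        intro y s
        have h3 : f.symm (y + s • f.linear u) = f.symm y + s • u := by
          apply f.injective
          rw [f.apply_symm_apply, Base_aff, f.apply_symm_apply, map_smul]
        show β (f.symm (y + s • f.linear u)) = β (f.symm y)
        rw [h3, hu]) ⟨C, by
        rintro _ ⟨x, hx, rfl⟩
        show |β (f.symm (f x))| ≤ C
        rw [f.symm_apply_apply]
        exact hC x hx⟩ b
    have h4 : (fun t : ℝ => Φ (f '' (mv β u t '' K)) (fun i => f (z i + (t * b i) • u))) =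
        (fun t : ℝ => Φ (mv (fun y => β (f.symm y)) (f.linear u) t '' (f '' K))
          (fun i => f (z i) + (t * b i) • f.linear u)) := by
      funext t
      rw [Base_mv_map]
      congr 1
      funext i
      rw [Base_aff, map_smul]
    show ConvexOn ℝ univ
      (fun t : ℝ => Φ (f '' (mv β u t '' K)) (fun i => f (z i + (t * b i) • u)))
    rw [h4]
    exact h2
  · intro K P hKc hKv hKi hP hPm hU z hz M hM
    refine hΦ.cont (f '' K) (fun m => f '' P m) (hKc.image hfc) (hKv.affine_image f.toAffineMap)
      ?_ ?_ ?_ ?_ (fun i => f (z i)) ?_ M hM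
    · rw [hH, ← H.image_interior]
      exact hKi.image _
    · intro a b hab
      exact image_mono (hP hab)
    · intro m
      obtain ⟨h1, h2, h3⟩ := hPm m
      exact ⟨h1.image hfc, h2.affine_image f.toAffineMap, image_mono h3⟩
    · rw [hH, ← H.image_interior, ← image_iUnion]
      exact image_mono hU
    · intro i m
      exact mem_image_of_mem f (hz i m)

theorem Base_simp_map {E E' : Type} [AddCommGroup E] [Module ℝ E] [AddCommGroup E'] [Module ℝ E']
    [DecidableEq E'] (f : E ≃ᵃ[ℝ] E') {V : Finset E} (hV : Simp V) : Simp (V.image f) := by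
  obtain ⟨h1, h2⟩ := hV
  constructor
  · refine Finset.card_image_le.trans (h1.trans (le_of_eq ?_))
    rw [f.linear.finrank_eq]
  · rw [Finset.coe_image]
    exact f.toAffineMap.span_eq_top_of_surjective f.surjective h2

theorem thm_simp (h1 : St_extr) : St_simp := by
  intro E _ _ _ _ _ V hV
  have hc : IsCompact (convexHull ℝ (V : Set E)) := V.finite_toSet.isCompact_convexHull ℝ
  refine ⟨hc, convex_convexHull ℝ _, ?_, ?_⟩
  · exact interior_convexHull_nonempty_iff_affineSpan_eq_top.2 hV.2
  · intro n Φ hΦ M hM z hz
    exact h1 E n Φ hΦ _ hc.measurableSet hc.isBounded (V : Set E) M (fun v hv => hM V hV v hv) z hz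

theorem thm_goodmap (h1 : St_funmap) : St_goodmap := by
  classical
  intro E E' _ _ _ _ _ _ _ _ _ _ f K hK
  obtain ⟨hc, hv, hi, hg⟩ := hK
  have hfc : Continuous f := f.continuous_of_finiteDimensional
  let H : E ≃ₜ E' := (AffineEquiv.toContinuousAffineEquiv f).toHomeomorph
  have hH : ∀ K : Set E, f '' K = H '' K := fun K => rfl
  refine ⟨hc.image hfc, hv.affine_image f.toAffineMap, ?_, ?_⟩
  · rw [hH, ← H.image_interior]
    exact hi.image _
  · intro n Φ hΦ M hM z hz
    choose y hy hyz using hz
    have h2 := hg n _ (h1 E E' n Φ f hΦ) M (by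
      intro V hV v hv
      have h3 := hM (V.image f) (Base_simp_map f hV) (fun i => f (v i))
        (fun i => Finset.mem_image_of_mem f (hv i))
      rw [Finset.coe_image] at h3
      have h4 : f '' convexHull ℝ (V : Set E) = convexHull ℝ (f '' (V : Set E)) :=
        f.toAffineMap.image_convexHull (V : Set E)
      show Φ (f '' convexHull ℝ (V : Set E)) (fun i => f (v i)) ≤ M
      rw [h4]
      exact h3) y hy
    have h5 : (fun i => f (y i)) = z := funext hyz
    have h6 : Φ (f '' K) (fun i => f (y i)) ≤ M := h2
    rwa [h5] at h6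

end Pool.Agent.SYJ
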