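import Pool.Agent.SYJ.StE
import Pool.Agent.SYJ.Base

/-! # Strict versions: marked points, transport along affine isomorphisms -/

set_option autoImplicit false

namespace Pool.Agent.SYJ

open MeasureTheory Set Filter Topology Pool.Agent.SYL

theorem BaseS_conv {E : Type} [NormedAddCommGroup E] [NormedSpace ℝ E] [MeasurableSpace E]
    {n : ℕ} {Φ : Set E → (Fin n → E) → ℝ} (hΦ : Fun Φ) {K : Set E} (hK : MeasurableSet K)
    (hb : Bornology.IsBounded K) (M : ℝ) (z : Fin n → E) (i : Fin n) :
    Convex ℝ {x : E | Φ K (Function.update z i x) < M} := by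
  intro x hx y hy a b ha hb' hab
  have hx' : Φ K (Function.update z i x) < M := hx
  have hy' : Φ K (Function.update z i y) < M := hy
  have h1 := Base_conv hΦ hK hb
    (max (Φ K (Function.update z i x)) (Φ K (Function.update z i y))) z i
  have hxm : x ∈ {w : E | Φ K (Function.update z i w) ≤
      max (Φ K (Function.update z i x)) (Φ K (Function.update z i y))} := by
    show Φ K (Function.update z i x) ≤ _
    exact le_max_left _ _
  have hym : y ∈ {w : E | Φ K (Function.update z i w) ≤
      max (Φ K (Function.update z i x)) (Φ K (Function.update z i y))} := by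
    show Φ K (Function.update z i y) ≤ _
    exact le_max_right _ _
  have h2 := h1 hxm hym ha hb' hab
  have h3 : Φ K (Function.update z i (a • x + b • y)) ≤
    max (Φ K (Function.update z i x)) (Φ K (Function.update z i y)) := h2
  exact lt_of_le_of_lt h3 (max_lt hx' hy')

theorem thm_extrS : St_extrS := by
  intro E _ _ _ n Φ hΦ K hK hb S M h
  have key : ∀ s : Finset (Fin n), ∀ z : Fin n → E, (∀ i ∈ s, z i ∈ convexHull ℝ S) →
      (∀ i, i ∉ s → z i ∈ S) → Φ K z < M := by
    intro s
    induction s using Finset.induction_on with
    | empty =>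
      intro z _ hz
      exact h z fun i => hz i (Finset.notMem_empty i)
    | insert i s hi ih =>
      intro z hz1 hz2
      have h1 : S ⊆ {x : E | Φ K (Function.update z i x) < M} := by
        intro x hx
        refine ih _ ?_ ?_
        · intro j hj
          have hji : j ≠ i := fun h => hi (h ▸ hj)
          rw [Function.update_of_ne hji]
          exact hz1 j (Finset.mem_insert_of_mem hj)
        · intro j hj
          by_cases hji : j = i
          · subst hji
            rw [Function.update_self]
            exact hx
          · rw [Function.update_of_ne hji]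
            refine hz2 j ?_
            rw [Finset.mem_insert]
            push Not
            exact ⟨hji, hj⟩
      have h2 := convexHull_min h1 (BaseS_conv hΦ hK hb M z i)
      have h3 := h2 (hz1 i (Finset.mem_insert_self i s))
      have h4 : Φ K (Function.update z i (z i)) < M := h3
      rwa [Function.update_eq_self] at h4
  intro z hz
  exact key Finset.univ z (fun i _ => hz i) (fun i hi => absurd (Finset.mem_univ i) hi)

theorem BaseS_symm {E E' : Type} [AddCommGroup E] [Module ℝ E] [AddCommGroup E'] [Module ℝ E']
    (f : E ≃ᵃ[ℝ] E') (y : E') (s : ℝ) (u : E) :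
    f.symm (y + s • f.linear u) = f.symm y + s • u := by
  apply f.injective
  rw [f.apply_symm_apply, Base_aff, f.apply_symm_apply, map_smul]

theorem thm_funmapS : St_funmapS := by
  intro E E' _ _ _ _ _ _ _ _ _ _ n Φ f hΦ
  have hfc : Continuous f := f.continuous_of_finiteDimensional
  have hgc : Continuous f.symm := f.symm.continuous_of_finiteDimensional
  let H : E ≃ₜ E' := (AffineEquiv.toContinuousAffineEquiv f).toHomeomorph
  have hH : ∀ K : Set E, f '' K = H '' K := fun K => rfl
  have hint : ∀ K : Set E, interior (f '' K) = f '' interior K := fun K => by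
    rw [hH, hH, ← H.image_interior]
  refine ⟨thm_funmap E E' n Φ f hΦ.fn, ?_, ?_⟩
  · intro K hKc hKv hKi z hz u β hu hβ hβu hC hcont hna b t₁ t₂ ht₁ ht₂
    obtain ⟨C, hC⟩ := hC
    have h2 := hΦ.strict (f '' K) (hKc.image hfc) (hKv.affine_image f.toAffineMap)
      (by rw [hint]; exact hKi.image _) (fun i => f (z i))
      (fun i => mem_image_of_mem f (hz i)) (f.linear u)
      (fun y => β (f.symm y))
      (by
        intro h0
        apply hu
        exact f.linear.injective (by rw [h0, map_zero]))
      (hβ.comp hgc.measurable)
      (by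
        intro y s
        show β (f.symm (y + s • f.linear u)) = β (f.symm y)
        rw [BaseS_symm, hβu])
      ⟨C, by
        rintro _ ⟨x, hx, rfl⟩
        show |β (f.symm (f x))| ≤ C
        rw [f.symm_apply_apply]
        exact hC x hx⟩
      (by
        rw [hint]
        refine hcont.comp hgc.continuousOn ?_
        rintro _ ⟨x, hx, rfl⟩
        show f.symm (f x) ∈ interior K
        rw [f.symm_apply_apply]
        exact hx)
      (by
        rintro ⟨h1, h2⟩
        apply hna
        have e1 : (f.toAffineMap ⁻¹' interior (f '' K)) = interior K := by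
          rw [hint]
          exact f.injective.preimage_image _
        have e2 : ((fun y => β (f.symm y)) ∘ f.toAffineMap) = β := by
          funext x
          show β (f.symm (f x)) = β x
          rw [f.symm_apply_apply]
        have c1 := h1.comp_affineMap f.toAffineMap
        have c2 := h2.comp_affineMap f.toAffineMap
        rw [e1, e2] at c1 c2
        exact ⟨c1, c2⟩) b t₁ t₂ ht₁ ht₂
    have h4 : ∀ t : ℝ, Φ (f '' (mv β u t '' K)) (fun i => f (z i + (t * b i) • u)) =
        Φ (mv (fun y => β (f.symm y)) (f.linear u) t '' (f '' K))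
          (fun i => f (z i) + (t * b i) • f.linear u) := by
      intro t
      rw [Base_mv_map]
      congr 1
      funext i
      rw [Base_aff, map_smul]
    show Φ (f '' K) (fun i => f (z i)) <
      max (Φ (f '' (mv β u t₁ '' K)) (fun i => f (z i + (t₁ * b i) • u)))
        (Φ (f '' (mv β u t₂ '' K)) (fun i => f (z i + (t₂ * b i) • u)))
    rw [h4, h4]
    exact h2
  · intro K P hKc hKv hKi hPm hR hin hout z hz hzP
    obtain ⟨R, hR⟩ := hR
    refine hΦ.lim (f '' K) (fun m => f '' P m) (hKc.image hfc) (hKv.affine_image f.toAffineMap)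
      ?_ ?_ ?_ ?_ ?_ (fun i => f (z i)) ?_ ?_
    · rw [hint]
      exact hKi.image _
    · intro m
      obtain ⟨h1, h2⟩ := hPm m
      exact ⟨h1.image hfc, h2.affine_image f.toAffineMap⟩
    · have hB : Bornology.IsBounded (Metric.closedBall (0 : E) R) := Metric.isBounded_closedBall
      obtain ⟨R', hR'⟩ := (Base_bdd f hB).exists_norm_le
      refine ⟨R', ?_⟩
      rintro m _ ⟨x, hx, rfl⟩
      exact hR' _ (mem_image_of_mem f (by rw [mem_closedBall_zero_iff]; exact hR m x hx))
    · intro y hy
      rw [hint] at hy
      obtain ⟨x, hx, rfl⟩ := hy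
      exact (hin x hx).mono fun m hm => mem_image_of_mem f hm
    · intro y hy
      have h1 : f.symm y ∉ K := fun h => hy ⟨f.symm y, h, f.apply_symm_apply y⟩
      refine (hout _ h1).mono fun m hm => ?_
      rintro ⟨x, hx, hxy⟩
      apply hm
      rw [← hxy, f.symm_apply_apply]
      exact hx
    · intro i
      exact mem_image_of_mem f (hz i)
    · intro i m
      exact mem_image_of_mem f (hzP i m)

theorem thm_sgoodmap : St_sgoodmap := by
  classical
  intro E E' _ _ _ _ _ _ _ _ _ _ f K hK
  obtain ⟨hg, hs⟩ := hK
  refine ⟨thm_goodmap thm_funmap E E' f K hg, ?_⟩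
  intro hns n Φ hΦ M hM z hz
  choose y hy hyz using hz
  have hns' : ¬ ∃ V : Finset E, Simp V ∧ K = convexHull ℝ (V : Set E) := by
    rintro ⟨V, hV, rfl⟩
    refine hns ⟨V.image f, Base_simp_map f hV, ?_⟩
    rw [Finset.coe_image]
    exact f.toAffineMap.image_convexHull (V : Set E)
  have h2 := hs hns' n _ (thm_funmapS E E' n Φ f hΦ) M (by
    intro V hV v hv
    have h3 := hM (V.image f) (Base_simp_map f hV) (fun i => f (v i))
      (fun i => Finset.mem_image_of_mem f (hv i))
    rw [Finset.coe_image] at h3
    have h4 : f '' convexHull ℝ (V : Set E) = convexHull ℝ (f '' (V : Set E)) :=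
      f.toAffineMap.image_convexHull (V : Set E)
    show Φ (f '' convexHull ℝ (V : Set E)) (fun i => f (v i)) ≤ M
    rw [h4]
    exact h3) y hy
  have h5 : (fun i => f (y i)) = z := funext hyz
  have h6 : Φ (f '' K) (fun i => f (y i)) < M := h2
  rwa [h5] at h6

end Pool.Agent.SYJ
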