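import Pool.Agent.SYJ.StE
import Pool.Agent.SYL.Vdet
import Pool.Agent.SYL.Hull
import Pool.Agent.SYL.Dl
import Pool.Agent.SYB.Geo

/-! # Bounded volume bounds the added point -/

set_option autoImplicit false

namespace Pool.Agent.SYJ

open MeasureTheory Set Filter Topology Pool.Agent.SYL

theorem Bdv_tri {R : Set (Fin 2 → ℝ)} (hR : IsCompact R) {c v : Fin 2 → ℝ} (hc : c ∈ R)
    {w : Fin 2 → ℝ} (hw : w ∈ R) :
    vol (Dl 2) * |(w 0 - c 0) * (v 1 - c 1) - (w 1 - c 1) * (v 0 - c 0)| ≤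
      vol (convexHull ℝ (R ∪ {v})) := by
  have h1 := Pool.Agent.SYL.thm_Vdet Pool.Agent.SYL.thm_hull Pool.Agent.SYL.thm_Dl 2 ![c, w, v]
  have h2 : dt ![c, w, v] = (w 0 - c 0) * (v 1 - c 1) - (w 1 - c 1) * (v 0 - c 0) := by
    unfold dt
    rw [Matrix.det_fin_two]
    simp
  rw [h2] at h1
  rw [← h1]
  unfold V vol
  apply ENNReal.toReal_mono
  · have h3 : IsCompact (convexHull ℝ (R ∪ {v})) :=
      Pool.Agent.SYB.Geo_hull_compact (hR.union isCompact_singleton)
    exact h3.measure_lt_top.ne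
  · apply measure_mono
    apply convexHull_mono
    rintro _ ⟨i, rfl⟩
    fin_cases i
    · exact Or.inl hc
    · exact Or.inl hw
    · exact Or.inr rfl

theorem thm_bddvol : St_bddvol := by
  intro R A hR
  obtain ⟨hconv, hcomp, c, hc⟩ := hR
  obtain ⟨r, hr, hball⟩ := Metric.mem_nhds_iff.1 (mem_interior_iff_mem_nhds.1 hc)
  have hcR : c ∈ R := interior_subset hc
  have hk : 0 < vol (Dl 2) := (Pool.Agent.SYL.thm_Dl 2).2.2
  have hw : ∀ i : Fin 2, c + Pi.single i (r / 2) ∈ R := by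
    intro i
    apply hball
    rw [Metric.mem_ball, dist_eq_norm, add_sub_cancel_left, Pi.norm_single, Real.norm_eq_abs,
      abs_of_pos (by linarith)]
    linarith
  refine ⟨‖c‖ + A / (vol (Dl 2) * (r / 2)), ?_⟩
  intro v hv
  have hb : ∀ i, |v i - c i| ≤ A / (vol (Dl 2) * (r / 2)) := by
    have h0 := Bdv_tri hcomp (v := v) hcR (hw 0)
    have h1 := Bdv_tri hcomp (v := v) hcR (hw 1)
    simp at h0 h1
    rw [union_singleton] at hv
    rw [abs_of_pos (by linarith : (0 : ℝ) < r / 2)] at h0 h1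
    intro i
    rw [le_div_iff₀ (by positivity)]
    fin_cases i
    · show |v 0 - c 0| * (vol (Dl 2) * (r / 2)) ≤ A
      nlinarith [h0.trans hv, h1.trans hv]
    · show |v 1 - c 1| * (vol (Dl 2) * (r / 2)) ≤ A
      nlinarith [h0.trans hv, h1.trans hv]
  have h2 : ‖v - c‖ ≤ A / (vol (Dl 2) * (r / 2)) := by
    have hA : 0 ≤ A / (vol (Dl 2) * (r / 2)) := (abs_nonneg _).trans (hb 0)
    exact (pi_norm_le_iff_of_nonneg hA).2 fun i => hb i
  have h3 : ‖v‖ ≤ ‖v - c‖ + ‖c‖ := by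
    have := norm_add_le (v - c) c
    rwa [sub_add_cancel] at this
  linarith

end Pool.Agent.SYJ
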