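import Pool.Agent.SYJ.StE
import Pool.Agent.SYJ.Sum

/-! # The bound on simplices passes to the push -/

set_option autoImplicit false

namespace Pool.Agent.SYJ

open MeasureTheory Set Filter Topology Pool.Agent.SYL

theorem thm_bound (hF : St_funmap) (hS : St_simp) (hH : St_hull) (hP : St_push)
    (hSS : St_simpsum) : St_bound := by
  classical
  intro E F _ _ _ _ _ _ _ _ _ _ n Φ B q c M hΦ hB hq hc hM
  have : ProperSpace E := FiniteDimensional.proper ℝ E
  have : ProperSpace F := FiniteDimensional.proper ℝ F
  obtain ⟨hBc, hBv, hBi, hBg⟩ := hB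
  intro V hV v hv
  obtain ⟨hTc, hTv, hTi, -⟩ := hS E V hV
  have hv' : ∀ i, v i ∈ convexHull ℝ (V : Set E) := fun i => subset_convexHull ℝ _ (hv i)
  have h1 := hH E F (convexHull ℝ (V : Set E)) (v 0) B q hTc hTv (hv' 0) hBc hBv hq
  have hΨ := hF (F × E) (E × F) n Φ (Sum_sw E F) hΦ
  have h2 : push (fun (K : Set (F × E)) (z : Fin n → F × E) =>
      Φ (Sum_sw E F '' K) (fun i => Sum_sw E F (z i))) (convexHull ℝ (V : Set E)) (v 0)
      (fun i => match c i with
        | none => some (v i.succ)
        | some _ => none) B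
      (Fin.cons q (fun i => match c i with
        | none => q
        | some y => y) : Fin (n + 1) → F) ≤ M := by
    refine hBg (n + 1) _ (hP F E n _ (convexHull ℝ (V : Set E)) (v 0) _ hΨ hTc hTv (hv' 0)
      hTi ?_) M ?_ _ ?_
    · intro i y hy
      rcases hci : c i with _ | y'
      · simp only [hci] at hy
        rw [← Option.some.inj hy]
        exact hv' _
      · simp only [hci] at hy
        exact absurd hy (by simp)
    · intro W hW w hw
      obtain ⟨hXc, hXv, hXi, -⟩ := hS F W hW
      have hw' : ∀ i, w i ∈ convexHull ℝ (W : Set F) := fun i => subset_convexHull ℝ _ (hw i)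
      obtain ⟨U, hU, hU1, hU2, hU3⟩ := hSS E F V W (v 0) (w 0) hV hW (hv 0) (hw 0)
      have h3 := hH F E (convexHull ℝ (W : Set F)) (w 0) (convexHull ℝ (V : Set E)) (v 0)
        hXc hXv (hw' 0) hTc hTv (hv' 0)
      show Φ (Sum_sw E F '' fs (convexHull ℝ (W : Set F)) (w 0) (convexHull ℝ (V : Set E)) (v 0))
        _ ≤ M
      rw [h3.1, Sum_sw_hs, ← hU3]
      refine hM U hU _ ?_
      intro i
      rcases hci : c i with _ | y'
      · simp only [hci, Sum_sw_apply]
        exact hU1 _ (hv _)
      · simp only [hci, Sum_sw_apply]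
        exact hU2 _ (hw _)
    · intro i
      refine Fin.cases ?_ (fun j => ?_) i
      · exact hq
      · show (match c j with
          | none => q
          | some y => y) ∈ B
        rcases hcj : c j with _ | y'
        · exact hq
        · exact hc j y' hcj
  have h4 := hH F E B q (convexHull ℝ (V : Set E)) (v 0) hBc hBv hq hTc hTv (hv' 0)
  have h5 : Φ (Sum_sw E F '' fs B q (convexHull ℝ (V : Set E)) (v 0))
      (fun i => match c i with
        | none => (v i.succ, q)
        | some y => (v 0, y)) ≤ M := by
    refine le_of_eq_of_le ?_ h2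
    show _ = Φ (Sum_sw E F '' fs B q (convexHull ℝ (V : Set E)) (v 0)) _
    congr 1
    funext i
    rcases hci : c i with _ | y'
    · simp only [hci]
      rfl
    · simp only [hci, Sum_sw_apply, Fin.cons_succ]
  rw [h4.1, Sum_sw_hs, ← h1.1] at h5
  exact h5

end Pool.Agent.SYJ
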