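import Pool.Agent.SYJ.StE
import Pool.Agent.SYB.Geo

/-! # Equality case: a cap can be replaced by one with a corner -/

set_option autoImplicit false

namespace Pool.Agent.SYJ

open MeasureTheory Set Filter Topology Pool.Agent.SYL

private theorem CapL_cont (l : (Fin 2 → ℝ) →ₗ[ℝ] ℝ) : Continuous l :=
  LinearMap.continuous_of_finiteDimensional l

private theorem CapL_exh {K : Set (Fin 2 → ℝ)} (hK : IsBody K) {l : (Fin 2 → ℝ) →ₗ[ℝ] ℝ} {c : ℝ}
    (hi : (interior {x | x ∈ K ∧ l x ≤ c}).Nonempty) (hx : ∃ x ∈ K, c < l x) :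
    ∃ F : ℕ → Finset (Fin 2 → ℝ), (∀ m, (F m).Nonempty) ∧ (∀ m, ∀ x ∈ F m, x ∈ K ∧ c < l x) ∧
      ∀ x ∈ interior K, ∀ᶠ m in atTop,
        x ∈ convexHull ℝ ({x | x ∈ K ∧ l x ≤ c} ∪ (F m : Set (Fin 2 → ℝ))) := by
  classical
  set R : Set (Fin 2 → ℝ) := {x | x ∈ K ∧ l x ≤ c} with hR
  set T : Set (Fin 2 → ℝ) := {x | x ∈ K ∧ c < l x} with hT
  obtain ⟨x0, hx0K, hx0c⟩ := hx
  have : Nonempty T := ⟨⟨x0, hx0K, hx0c⟩⟩
  let x : ℕ → (Fin 2 → ℝ) := fun m => (TopologicalSpace.denseSeq T m : Fin 2 → ℝ)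
  have hxT : ∀ m, x m ∈ T := fun m => (TopologicalSpace.denseSeq T m).2
  have hdense : T ⊆ closure (range x) := by
    intro y hy
    have h1 : (⟨y, hy⟩ : T) ∈ closure (range (TopologicalSpace.denseSeq T)) :=
      TopologicalSpace.denseRange_denseSeq T ⟨y, hy⟩
    have h2 : ((⟨y, hy⟩ : T) : Fin 2 → ℝ) ∈ closure
        ((fun w : T => (w : Fin 2 → ℝ)) '' range (TopologicalSpace.denseSeq T)) :=
      image_closure_subset_closure_image continuous_subtype_val (mem_image_of_mem _ h1)
    rw [← range_comp] at h2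
    exact h2
  let F : ℕ → Finset (Fin 2 → ℝ) := fun m => (Finset.range (m + 1)).image x
  have hFmono : ∀ a b : ℕ, a ≤ b → (F a : Set (Fin 2 → ℝ)) ⊆ (F b : Set (Fin 2 → ℝ)) := by
    intro a b hab
    exact Finset.coe_subset.2 (Finset.image_subset_image (Finset.range_subset_range.2 (by omega)))
  have hPmono : Monotone fun m => convexHull ℝ (R ∪ (F m : Set (Fin 2 → ℝ))) :=
    fun a b hab => convexHull_mono (union_subset_union_right _ (hFmono a b hab))
  refine ⟨F, ?_, ?_, ?_⟩
  · intro m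
    exact ⟨x 0, Finset.mem_image_of_mem _ (Finset.mem_range.2 (Nat.succ_pos m))⟩
  · intro m y hy
    obtain ⟨i, -, rfl⟩ := Finset.mem_image.1 hy
    exact hxT i
  · have hUconv : Convex ℝ (⋃ m, convexHull ℝ (R ∪ (F m : Set (Fin 2 → ℝ)))) :=
      (hPmono.directed_le).convex_iUnion fun m => convex_convexHull ℝ _
    have hRU : R ⊆ ⋃ m, convexHull ℝ (R ∪ (F m : Set (Fin 2 → ℝ))) := fun y hy =>
      mem_iUnion.2 ⟨0, subset_convexHull ℝ _ (Or.inl hy)⟩
    have hUi : (interior (⋃ m, convexHull ℝ (R ∪ (F m : Set (Fin 2 → ℝ))))).Nonempty :=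
      hi.mono (interior_mono hRU)
    have h1 : range x ⊆ ⋃ m, convexHull ℝ (R ∪ (F m : Set (Fin 2 → ℝ))) := by
      rintro _ ⟨m, rfl⟩
      refine mem_iUnion.2 ⟨m, subset_convexHull ℝ _ (Or.inr ?_)⟩
      exact Finset.mem_coe.2 (Finset.mem_image_of_mem _ (Finset.mem_range.2 (Nat.lt_succ_self m)))
    have h2 : K ⊆ closure (⋃ m, convexHull ℝ (R ∪ (F m : Set (Fin 2 → ℝ)))) := by
      intro y hy
      rcases le_or_gt (l y) c with h | h
      · exact subset_closure (hRU ⟨hy, h⟩)
      · exact closure_mono h1 (hdense ⟨hy, h⟩)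
    have h3 : interior K ⊆ ⋃ m, convexHull ℝ (R ∪ (F m : Set (Fin 2 → ℝ))) := by
      have h4 := interior_mono h2
      rw [hUconv.interior_closure_eq_interior_of_nonempty_interior hUi] at h4
      exact h4.trans interior_subset
    intro y hy
    obtain ⟨m, hm⟩ := mem_iUnion.1 (h3 hy)
    filter_upwards [eventually_ge_atTop m] with k hk
    exact hPmono hk hm

private theorem CapL_corner (h5 : St_cornerhull) {R : Set (Fin 2 → ℝ)} (hR : IsBody R)
    {l : (Fin 2 → ℝ) →ₗ[ℝ] ℝ} {c : ℝ} (hRc : ∀ x ∈ R, l x ≤ c) {w w' : Fin 2 → ℝ}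
    (hw : c < l w) (hle : l w' ≤ l w) : Corner (convexHull ℝ (R ∪ {w, w'})) w := by
  have hne : R.Nonempty := hR.2.2.mono interior_subset
  by_cases hww : w' = w
  · subst hww
    rw [pair_eq_singleton]
    exact h5 R w' hR.2.1 hR.1 hne fun h => absurd (hRc _ h) (not_le.2 hw)
  · have hc2 : IsCompact (convexHull ℝ (R ∪ {w'})) :=
      Pool.Agent.SYB.Geo_hull_compact (hR.2.1.union isCompact_singleton)
    have hn2 : (convexHull ℝ (R ∪ {w'})).Nonempty :=
      hne.mono (subset_union_left.trans (subset_convexHull ℝ _))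
    have hnot : w ∉ convexHull ℝ (R ∪ {w'}) := by
      intro h
      rw [union_singleton, convexHull_insert hne, hR.1.convexHull_eq,
        convexJoin_singleton_left] at h
      obtain ⟨r, hr, h2⟩ := mem_iUnion₂.1 h
      obtain ⟨a, b, ha, hb, hab, hwe⟩ := h2
      have h3 : l w = a * l w' + b * l r := by
        rw [← hwe, map_add, map_smul, map_smul, smul_eq_mul, smul_eq_mul]
      have h4 := hRc r hr
      have h5' : b = 0 := by
        by_contra hb0
        have hb1 : 0 < b := lt_of_le_of_ne hb (Ne.symm hb0)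
        have ha' : a = 1 - b := by linarith
        have h6 : a * l w' ≤ a * l w := mul_le_mul_of_nonneg_left hle ha
        have h7 : b * l r ≤ b * c := mul_le_mul_of_nonneg_left h4 hb
        have h8 : b * c < b * l w := mul_lt_mul_of_pos_left hw hb1
        rw [ha'] at h3 h6
        nlinarith
      have ha1 : a = 1 := by linarith
      rw [h5', ha1, one_smul, zero_smul, add_zero] at hwe
      exact hww hwe
    have h6 := h5 _ w hc2 (convex_convexHull ℝ _) hn2 hnot
    have h7 : convexHull ℝ (convexHull ℝ (R ∪ {w'}) ∪ {w}) = convexHull ℝ (R ∪ {w, w'}) := by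
      refine Subset.antisymm (convexHull_min ?_ (convex_convexHull ℝ _)) (convexHull_mono ?_)
      · refine union_subset (convexHull_mono (union_subset_union_right _ ?_)) ?_
        · intro y hy
          exact Or.inr hy
        · intro y hy
          rw [mem_singleton_iff] at hy
          subst hy
          exact subset_convexHull ℝ _ (Or.inr (Or.inl rfl))
      · rintro y (hy | hy | hy)
        · exact Or.inl (subset_convexHull ℝ _ (Or.inl hy))
        · exact Or.inr hy
        · exact Or.inl (subset_convexHull ℝ _ (Or.inr hy))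
    rw [h7] at h6
    exact h6

private theorem CapL_volmono {A B : Set (Fin 2 → ℝ)} (hB : IsCompact B) (h : A ⊆ B) :
    vol A ≤ vol B :=
  ENNReal.toReal_mono hB.measure_lt_top.ne (measure_mono h)

theorem thm_caplim (h1 : St_cap) (h2 : St_bddvol) (h3 : St_hullconv) (h4 : St_slim)
    (h5 : St_cornerhull) : St_caplim := by
  intro K l c hK hi hx n Φ hΦ z hz
  have hlc := CapL_cont l
  obtain ⟨F, hFne, hF, hexh⟩ := CapL_exh hK hi hx
  set R : Set (Fin 2 → ℝ) := {x | x ∈ K ∧ l x ≤ c} with hRdef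
  have hR : IsBody R := by
    refine ⟨?_, ?_, hi⟩
    · exact hK.1.inter (convex_halfSpace_le l.isLinear c)
    · exact hK.2.1.inter_right (isClosed_le hlc continuous_const)
  have hRc : ∀ x ∈ R, l x ≤ c := fun x hx => hx.2
  have hPK : ∀ m, convexHull ℝ (R ∪ (F m : Set (Fin 2 → ℝ))) ⊆ K := by
    intro m
    refine convexHull_min ?_ hK.1
    rintro y (hy | hy)
    · exact hy.1
    · exact (hF m y hy).1
  have hPc : ∀ m, IsCompact (convexHull ℝ (R ∪ (F m : Set (Fin 2 → ℝ)))) := fun m =>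
    Pool.Agent.SYB.Geo_hull_compact (hR.2.1.union (F m).finite_toSet.isCompact)
  have hQc : ∀ a b : Fin 2 → ℝ, IsCompact (convexHull ℝ (R ∪ {a, b})) := fun a b =>
    Pool.Agent.SYB.Geo_hull_compact (hR.2.1.union (toFinite _).isCompact)
  have hcap := fun m => h1 R l c hR hRc n Φ hΦ.fn z (fun i => hz i) (F m) (hFne m)
    (fun x hx => (hF m x hx).2) (fun x hx1 hx2 => ⟨hPK m hx1, hx2⟩)
  choose v v' hv hv' hvR hvol hΦv using hcap
  obtain ⟨ρ, hρ⟩ := h2 R (vol K) hR
  have hvolle : ∀ m, vol (convexHull ℝ (R ∪ {v m, v' m})) ≤ vol K := fun m => by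
    rw [hvol m]
    exact CapL_volmono hK.2.1 (hPK m)
  have hρv : ∀ m, ‖v m‖ ≤ ρ := fun m => hρ _ ((CapL_volmono (hQc _ _)
    (convexHull_mono (union_subset_union_right _ (by
      intro y hy
      exact Or.inl hy)))).trans (hvolle m))
  have hρv' : ∀ m, ‖v' m‖ ≤ ρ := fun m => hρ _ ((CapL_volmono (hQc _ _)
    (convexHull_mono (union_subset_union_right _ (by
      intro y hy
      exact Or.inr hy)))).trans (hvolle m))
  have hcpt : IsCompact (Metric.closedBall (0 : Fin 2 → ℝ) ρ ×ˢ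
      Metric.closedBall (0 : Fin 2 → ℝ) ρ) :=
    (isCompact_closedBall _ _).prod (isCompact_closedBall _ _)
  obtain ⟨⟨w, w'⟩, -, φ, hφ, hlim⟩ := hcpt.tendsto_subseq (x := fun m => (v m, v' m)) (fun m =>
    ⟨mem_closedBall_zero_iff.2 (hρv m), mem_closedBall_zero_iff.2 (hρv' m)⟩)
  have hlv : Tendsto (fun m => v (φ m)) atTop (𝓝 w) :=
    (continuous_fst.tendsto _).comp hlim
  have hlv' : Tendsto (fun m => v' (φ m)) atTop (𝓝 w') :=
    (continuous_snd.tendsto _).comp hlim
  obtain ⟨hb, hin, hout⟩ := h3 R (fun m => v (φ m)) (fun m => v' (φ m)) w w' hR hlv hlv'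
  set K' : Set (Fin 2 → ℝ) := convexHull ℝ (R ∪ {w, w'}) with hK'def
  have hRK' : R ⊆ K' := subset_union_left.trans (subset_convexHull ℝ _)
  have hK' : IsBody K' := ⟨convex_convexHull ℝ _, hQc _ _, hi.mono (interior_mono hRK')⟩
  have hbK : ∃ r : ℝ, ∀ m, ∀ x ∈ convexHull ℝ (R ∪ (F m : Set (Fin 2 → ℝ))), ‖x‖ ≤ r := by
    obtain ⟨r, hr⟩ := hK.2.1.isBounded.exists_norm_le
    exact ⟨r, fun m x hx => hr x (hPK m hx)⟩
  have houtK : ∀ x, x ∉ K → ∀ᶠ m in atTop, x ∉ convexHull ℝ (R ∪ (F m : Set (Fin 2 → ℝ))) :=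
    fun x hx => Eventually.of_forall fun m h => hx (hPK m h)
  have hPcc : ∀ m, IsCompact (convexHull ℝ (R ∪ (F m : Set (Fin 2 → ℝ)))) ∧
      Convex ℝ (convexHull ℝ (R ∪ (F m : Set (Fin 2 → ℝ)))) :=
    fun m => ⟨hPc m, convex_convexHull ℝ _⟩
  have hQcc : ∀ m, IsCompact (convexHull ℝ (R ∪ {v (φ m), v' (φ m)})) ∧
      Convex ℝ (convexHull ℝ (R ∪ {v (φ m), v' (φ m)})) :=
    fun m => ⟨hQc _ _, convex_convexHull ℝ _⟩
  have hvolK := (h4 2 K (fun m => convexHull ℝ (R ∪ (F m : Set (Fin 2 → ℝ)))) hK.2.1 hK.1 hK.2.2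
    hPcc hbK hexh houtK).1
  have hvolK' := (h4 2 K' (fun m => convexHull ℝ (R ∪ {v (φ m), v' (φ m)})) hK'.2.1 hK'.1 hK'.2.2
    hQcc hb hin hout).1
  have hvolE : vol K' = vol K := by
    refine tendsto_nhds_unique hvolK' ?_
    have h6 := hvolK.comp hφ.tendsto_atTop
    refine h6.congr fun m => ?_
    exact (hvol (φ m)).symm
  have hΦK := hΦ.lim K (fun m => convexHull ℝ (R ∪ (F m : Set (Fin 2 → ℝ)))) hK.2.1 hK.1 hK.2.2
    hPcc hbK hexh houtK z (fun i => (hz i).1) (fun i m => subset_convexHull ℝ _ (Or.inl (hz i)))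
  have hΦK' := hΦ.lim K' (fun m => convexHull ℝ (R ∪ {v (φ m), v' (φ m)})) hK'.2.1 hK'.1 hK'.2.2
    hQcc hb hin hout z (fun i => hRK' (hz i)) (fun i m => subset_convexHull ℝ _ (Or.inl (hz i)))
  have hΦE : Φ K z ≤ Φ K' z :=
    le_of_tendsto_of_tendsto' (hΦK.comp hφ.tendsto_atTop) hΦK' fun m => hΦv (φ m)
  -- points below the level
  obtain ⟨x0, hx0K, hx0c⟩ := hx
  obtain ⟨r1, hr1R, hr1c⟩ : ∃ r ∈ R, l r < c := by
    obtain ⟨r0, hr0⟩ := hi
    have hr0R : r0 ∈ R := interior_subset hr0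
    rcases lt_or_eq_of_le (hRc r0 hr0R) with h | h
    · exact ⟨r0, hr0R, h⟩
    · have h6 : Tendsto (fun s : ℝ => r0 - s • (x0 - r0)) (𝓝[>] 0) (𝓝 r0) := by
        have h7 : Continuous (fun s : ℝ => r0 - s • (x0 - r0)) := by fun_prop
        have h8 := (h7.tendsto 0).mono_left (nhdsWithin_le_nhds (s := Ioi (0 : ℝ)))
        simpa using h8
      have h7 := h6.eventually (isOpen_interior.mem_nhds hr0)
      obtain ⟨s, hs1, hs2⟩ := (h7.and self_mem_nhdsWithin).exists
      refine ⟨_, interior_subset hs1, ?_⟩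
      rw [map_sub, map_smul, map_sub, smul_eq_mul, h]
      have h9 : 0 < s * (l x0 - c) := mul_pos hs2 (by linarith)
      linarith
  have hlow : ∀ x ∈ K', l x < c → x ∈ R := by
    intro x hxK' hxc
    by_contra hxR
    have hO : IsOpen ({y | l y < c} ∩ Rᶜ) :=
      (isOpen_lt hlc continuous_const).inter hR.2.1.isClosed.isOpen_compl
    have hcl : x ∈ closure (interior K') := by
      rw [hK'.1.closure_interior_eq_closure_of_nonempty_interior hK'.2.2]
      exact subset_closure hxK'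
    obtain ⟨y, hy1, hy2⟩ := mem_closure_iff.1 hcl _ hO ⟨hxc, hxR⟩
    obtain ⟨m, hm⟩ := (hin y hy2).exists
    exact hy1.2 (hvR (φ m) y hm (show l y ≤ c from (show l y < c from hy1.1).le))
  have hlow2 : ∀ x ∈ K', l x ≤ c → x ∈ R := by
    intro x hxK' hxc
    have h6 : Tendsto (fun s : ℝ => x + s • (r1 - x)) (𝓝[>] 0) (𝓝 x) := by
      have h7 : Continuous (fun s : ℝ => x + s • (r1 - x)) := by fun_prop
      have h8 := (h7.tendsto 0).mono_left (nhdsWithin_le_nhds (s := Ioi (0 : ℝ)))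
      simpa using h8
    refine hR.2.1.isClosed.mem_of_tendsto h6 ?_
    have h9 : ∀ᶠ s : ℝ in 𝓝[>] 0, s < 1 :=
      nhdsWithin_le_nhds (gt_mem_nhds (show (0 : ℝ) < 1 by norm_num))
    filter_upwards [h9, self_mem_nhdsWithin] with s hs1 hs2
    have hs0 : (0 : ℝ) < s := hs2
    refine hlow _ ?_ ?_
    · have h10 := hK'.1 hxK' (hRK' hr1R) (show 0 ≤ 1 - s by linarith) hs0.le (by ring)
      have e : (1 - s) • x + s • r1 = x + s • (r1 - x) := by
        rw [sub_smul, one_smul, smul_sub]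
        abel
      rwa [e] at h10
    · rw [map_add, map_smul, map_sub, smul_eq_mul]
      have h11 : s * (l r1 - l x) < s * (c - l x) := mul_lt_mul_of_pos_left (by linarith) hs0
      nlinarith
  -- one of the two points is above the level
  have habove : c < l w ∨ c < l w' := by
    by_contra hcon
    push Not at hcon
    have hwR : w ∈ R := hlow2 w (subset_convexHull ℝ _ (Or.inr (Or.inl rfl))) hcon.1
    have hwR' : w' ∈ R := hlow2 w' (subset_convexHull ℝ _ (Or.inr (Or.inr rfl))) hcon.2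
    have h6 : K' ⊆ R := by
      refine convexHull_min ?_ hR.1
      rintro y (hy | hy | hy)
      · exact hy
      · rw [hy]
        exact hwR
      · rw [mem_singleton_iff] at hy
        rw [hy]
        exact hwR'
    have h7 : vol K' = vol R := by rw [Subset.antisymm h6 hRK']
    have hO : IsOpen (interior K ∩ {y | c < l y}) :=
      isOpen_interior.inter (isOpen_lt continuous_const hlc)
    have hOne : (interior K ∩ {y | c < l y}).Nonempty := by
      have hcl : x0 ∈ closure (interior K) := by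
        rw [hK.1.closure_interior_eq_closure_of_nonempty_interior hK.2.2]
        exact subset_closure hx0K
      obtain ⟨y, hy1, hy2⟩ := mem_closure_iff.1 hcl _ (isOpen_lt continuous_const hlc) hx0c
      exact ⟨y, hy2, hy1⟩
    have hpos : 0 < volume (interior K ∩ {y | c < l y}) := hO.measure_pos volume hOne
    have hdis : Disjoint R (interior K ∩ {y | c < l y}) := by
      rw [Set.disjoint_left]
      intro y hy1 hy2
      exact absurd (hRc y hy1) (not_le.2 hy2.2)
    have hsub : R ∪ (interior K ∩ {y | c < l y}) ⊆ K := by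
      rintro y (hy | hy)
      · exact hy.1
      · exact interior_subset hy.1
    have h8 : volume R + volume (interior K ∩ {y | c < l y}) ≤ volume K := by
      rw [← measure_union hdis hO.measurableSet]
      exact measure_mono hsub
    have h9 : volume R < volume K :=
      lt_of_lt_of_le (ENNReal.lt_add_right hR.2.1.measure_lt_top.ne hpos.ne') h8
    have h10 : vol R < vol K :=
      (ENNReal.toReal_lt_toReal hR.2.1.measure_lt_top.ne hK.2.1.measure_lt_top.ne).2 h9
    linarith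
  refine ⟨K', hK', fun x hxc => ⟨fun h => (hlow2 x h hxc).1, fun h => hRK' ⟨h, hxc⟩⟩, hΦE, ?_⟩
  rcases le_total (l w') (l w) with hle | hle
  · have hw : c < l w := by
      rcases habove with h | h
      · exact h
      · exact h.trans_le hle
    exact ⟨w, hw, CapL_corner h5 hR hRc hw hle⟩
  · have hw : c < l w' := by
      rcases habove with h | h
      · exact h.trans_le hle
      · exact h
    refine ⟨w', hw, ?_⟩
    have h6 := CapL_corner h5 hR hRc hw hle
    rw [pair_comm] at h6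
    exact h6

end Pool.Agent.SYJ
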