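import Pool.Agent.SYJ.StE
import Pool.Agent.SYB.Geo

/-! # Sylvester problem, equality case: four disjoint caps -/

set_option autoImplicit false

namespace Pool.Agent.SYJ

open MeasureTheory Set Filter Topology Pool.Agent.SYL

theorem thm_caps4 : St_caps4 := by
  intro K hK hinf Z hZ
  obtain ⟨hKv, hKc, p0, hp0⟩ := hK
  classical
  set Y : Finset (Fin 2 → ℝ) := insert p0 Z with hY
  have hinf2 : (extremePoints ℝ K \ (Y : Set (Fin 2 → ℝ))).Infinite :=
    hinf.sdiff Y.finite_toSet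
  obtain ⟨T, hT, hTc⟩ := hinf2.exists_subset_card_eq 4
  have eqv : Fin 4 ≃ T := (Finset.equivFinOfCardEq hTc).symm
  set e : Fin 4 → (Fin 2 → ℝ) := fun j => (eqv j : Fin 2 → ℝ) with he
  have heinj : Function.Injective e := fun a b h => eqv.injective (Subtype.ext h)
  have heT : ∀ j, e j ∈ extremePoints ℝ K ∧ e j ∉ Y := by
    intro j
    have h1 := hT (eqv j).2
    exact ⟨h1.1, fun h => h1.2 (by exact_mod_cast h)⟩
  have hr : ∃ r : ℝ, 0 < r ∧ (∀ j k, j ≠ k → 2 * r ≤ dist (e j) (e k)) ∧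
      ∀ j, ∀ y ∈ Y, r ≤ dist y (e j) := by
    have h1 : ∀ p : Fin 4 × Fin 4, ∃ r : ℝ, 0 < r ∧ (p.1 ≠ p.2 → 2 * r ≤ dist (e p.1) (e p.2)) := by
      intro p
      by_cases h : p.1 = p.2
      · exact ⟨1, one_pos, fun h2 => absurd h h2⟩
      · have h3 : 0 < dist (e p.1) (e p.2) := dist_pos.2 fun h4 => h (heinj h4)
        exact ⟨dist (e p.1) (e p.2) / 2, by positivity, fun _ => by linarith⟩
    choose r1 hr1 hr1' using h1
    have h2 : ∀ p : Fin 4 × Y, 0 < dist (p.2 : Fin 2 → ℝ) (e p.1) := by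
      intro p
      refine dist_pos.2 fun h4 => (heT p.1).2 ?_
      rw [← h4]
      exact p.2.2
    have hne : Nonempty Y := ⟨⟨p0, Finset.mem_insert_self _ _⟩⟩
    obtain ⟨a, ha⟩ := Finite.exists_min r1
    obtain ⟨b, hb⟩ := Finite.exists_min fun p : Fin 4 × Y => dist (p.2 : Fin 2 → ℝ) (e p.1)
    refine ⟨min (r1 a) (dist (b.2 : Fin 2 → ℝ) (e b.1)), lt_min (hr1 a) (h2 b), ?_, ?_⟩
    · intro j k hjk
      have h3 := hr1' (j, k) hjk
      have h4 := ha (j, k)
      have h5 := min_le_left (r1 a) (dist (b.2 : Fin 2 → ℝ) (e b.1))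
      simp only at h3
      linarith
    · intro j y hy
      exact (min_le_right _ _).trans (hb (j, ⟨y, hy⟩))
  obtain ⟨r, hr0, hr1, hr2⟩ := hr
  have hcap : ∀ j, ∃ (f : (Fin 2 → ℝ) →L[ℝ] ℝ) (u : ℝ), f (e j) < u ∧
      ∀ y ∈ K, f y ≤ u → dist y (e j) < r := fun j =>
    SYB.Geo_cap hKc hKv (heT j).1 hr0
  choose f u hfu hfK using hcap
  have hYK : ∀ y ∈ Y, y ∈ K := by
    intro y hy
    rcases Finset.mem_insert.1 hy with h | h
    · rw [h]
      exact interior_subset hp0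
    · exact hZ y h
  have hYf : ∀ y ∈ Y, ∀ j, u j < f j y := by
    intro y hy j
    by_contra hcon
    exact absurd (hfK j y (hYK y hy) (not_lt.1 hcon)) (not_lt.2 (hr2 j y hy))
  refine ⟨fun j => -(f j : (Fin 2 → ℝ) →ₗ[ℝ] ℝ), fun j => -u j, ?_, ?_, ?_, ?_⟩
  · intro j
    refine ⟨e j, (heT j).1.1, ?_⟩
    show -u j < -(f j (e j))
    exact neg_lt_neg (hfu j)
  · rintro j k hjk x hx ⟨h1, h2⟩
    have h3 : f j x ≤ u j := neg_le_neg_iff.1 h1
    have h4 : f k x ≤ u k := neg_le_neg_iff.1 h2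
    have h5 := hfK j x hx h3
    have h6 := hfK k x hx h4
    have h7 := hr1 j k hjk
    have h8 := dist_triangle_left (e j) (e k) x
    linarith
  · intro z hz j
    show -(f j z) < -u j
    exact neg_lt_neg (hYf z (Finset.mem_insert_of_mem hz) j)
  · refine ⟨p0, mem_interior.2 ⟨interior K ∩ ⋂ j, {x | u j < f j x}, ?_, ?_, ?_⟩⟩
    · rintro x ⟨hx1, hx2⟩
      refine ⟨interior_subset hx1, fun j => ?_⟩
      show -(f j x) ≤ -u j
      exact neg_le_neg (le_of_lt (mem_iInter.1 hx2 j))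
    · exact isOpen_interior.inter (isOpen_iInter_of_finite fun j =>
        isOpen_lt continuous_const (f j).continuous)
    · exact ⟨hp0, mem_iInter.2 fun j => hYf p0 (Finset.mem_insert_self _ _) j⟩

end Pool.Agent.SYJ
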