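import Pool.Agent.SYJ.StE

/-! # A point outside a compact convex planar set is a corner of the hull -/

set_option autoImplicit false

namespace Pool.Agent.SYJ

open MeasureTheory Set Filter Topology Pool.Agent.SYL

private theorem CorH_coord (f : (Fin 2 → ℝ) →ₗ[ℝ] ℝ) (x : Fin 2 → ℝ) :
    f x = x 0 * f ![1, 0] + x 1 * f ![0, 1] := by
  have h : x = x 0 • ![1, 0] + x 1 • ![0, 1] := by
    funext i
    fin_cases i <;> simp
  conv_lhs => rw [h]
  rw [map_add, map_smul, map_smul, smul_eq_mul, smul_eq_mul]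

/-- EL4. -/
theorem thm_cornerhull : St_cornerhull := by
  intro R w hR hRc hne hw
  obtain ⟨F, c, hF1, hF2⟩ := geometric_hahn_banach_closed_point hRc hR.isClosed hw
  set f : (Fin 2 → ℝ) →ₗ[ℝ] ℝ := (F : (Fin 2 → ℝ) →ₗ[ℝ] ℝ) with hf
  have hfx : ∀ x, f x = F x := fun x => rfl
  set α : ℝ := f ![1, 0] with hα
  set β : ℝ := f ![0, 1] with hβ
  have hfc : ∀ x, f x = x 0 * α + x 1 * β := fun x => CorH_coord f x
  obtain ⟨a₀, ha₀⟩ := hne
  have hN : 0 < α ^ 2 + β ^ 2 := by
    rcases (add_nonneg (sq_nonneg α) (sq_nonneg β)).lt_or_eq with h | h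
    · exact h
    · exfalso
      have h1 : α = 0 := by nlinarith [sq_nonneg α, sq_nonneg β]
      have h2 : β = 0 := by nlinarith [sq_nonneg α, sq_nonneg β]
      have h3 := hF1 a₀ ha₀
      rw [← hfx, hfc, h1, h2] at h3
      rw [← hfx, hfc, h1, h2] at hF2
      simp only [mul_zero, add_zero] at h3 hF2
      linarith
  set g : (Fin 2 → ℝ) →ₗ[ℝ] ℝ :=
    α • (LinearMap.proj 1 : (Fin 2 → ℝ) →ₗ[ℝ] ℝ) - β • (LinearMap.proj 0 : (Fin 2 → ℝ) →ₗ[ℝ] ℝ)
    with hg
  have hgc : ∀ x, g x = α * x 1 - β * x 0 := fun x => by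
    simp [hg]
  have hcont : Continuous (fun x : Fin 2 → ℝ => g x) := by
    simp only [hgc]
    fun_prop
  obtain ⟨C, hC⟩ := hR.exists_bound_of_continuousOn (f := fun x => g x - g w)
    ((hcont.sub continuous_const).continuousOn)
  have hC0 : 0 ≤ C := (norm_nonneg _).trans (hC a₀ ha₀)
  set ε : ℝ := (f w - c) / (C + 1) with hε
  have hfw : 0 < f w - c := by
    rw [hfx]
    linarith
  have hε0 : 0 < ε := div_pos hfw (by linarith)
  have hεC : ε * C ≤ f w - c := by
    rw [hε, div_mul_eq_mul_div, div_le_iff₀ (by linarith)]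
    nlinarith
  have hsub : convexHull ℝ (R ∪ {w}) ⊆ {x | f x ≤ f w} ∩ {x | (f + ε • g) x ≤ (f + ε • g) w} := by
    apply convexHull_min
    · intro x hx
      rcases hx with hx | hx
      · have h1 := hF1 x hx
        rw [← hfx] at h1
        refine ⟨?_, ?_⟩
        · change f x ≤ f w
          linarith
        · change f x + ε * g x ≤ f w + ε * g w
          have h2 := hC x hx
          rw [Real.norm_eq_abs] at h2
          have h3 : g x - g w ≤ C := (le_abs_self _).trans h2
          have h4 : ε * (g x - g w) ≤ ε * C := mul_le_mul_of_nonneg_left h3 hε0.le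
          nlinarith
      · rw [mem_singleton_iff] at hx
        subst hx
        exact ⟨(le_refl (f x) : f x ≤ f x),
          (le_refl ((f + ε • g) x) : (f + ε • g) x ≤ (f + ε • g) x)⟩
    · exact (convex_halfSpace_le f.isLinear _).inter (convex_halfSpace_le (f + ε • g).isLinear _)
  refine ⟨subset_convexHull ℝ _ (Or.inr rfl), f, f + ε • g, ?_, fun x hx => hsub hx⟩
  rw [LinearIndependent.pair_iff]
  intro s t hst
  have h1 := congrArg (fun φ : (Fin 2 → ℝ) →ₗ[ℝ] ℝ => φ ![α, β]) hst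
  have h2 := congrArg (fun φ : (Fin 2 → ℝ) →ₗ[ℝ] ℝ => φ ![-β, α]) hst
  simp only [LinearMap.add_apply, LinearMap.smul_apply, smul_eq_mul, LinearMap.zero_apply, hfc, hgc,
    Matrix.cons_val_zero, Matrix.cons_val_one] at h1 h2
  have h3 : t * (ε * (α ^ 2 + β ^ 2)) = 0 := by linarith
  have ht : t = 0 := by
    rcases mul_eq_zero.1 h3 with h | h
    · exact h
    · exact absurd h (mul_pos hε0 hN).ne'
  subst ht
  have h4 : s * (α ^ 2 + β ^ 2) = 0 := by linarith
  refine ⟨?_, rfl⟩
  rcases mul_eq_zero.1 h4 with h | h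
  · exact h
  · exact absurd h hN.ne'

end Pool.Agent.SYJ
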