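import Pool.Agent.SYJ.StE

/-!
# SYJ: crossing diagonals in a cap
-/

set_option autoImplicit false

namespace Pool.Agent.SYJ

open MeasureTheory Set Filter Topology Pool.Agent.SYL

/-- a linear isomorphism of the plane with `d` to `(2, 0)`, of the orientation `σ` -/
private noncomputable def DiagR_L (σ : ℝ) (hσ : σ * σ = 1) (d : Fin 2 → ℝ)
    (hd : d 0 ^ 2 + d 1 ^ 2 ≠ 0) : (Fin 2 → ℝ) ≃ₗ[ℝ] (Fin 2 → ℝ) where
  toFun v := ![2 * (d 0 * v 0 + d 1 * v 1) / (d 0 ^ 2 + d 1 ^ 2), σ * (d 0 * v 1 - d 1 * v 0)]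
  map_add' u v := by
    ext i
    fin_cases i
    · simp only [Fin.zero_eta, Matrix.cons_val_zero, Pi.add_apply]
      ring
    · simp only [Fin.mk_one, Matrix.cons_val_one, Pi.add_apply, Matrix.cons_val_fin_one]
      ring
  map_smul' c v := by
    ext i
    fin_cases i
    · simp only [Fin.zero_eta, Matrix.cons_val_zero, Pi.smul_apply, smul_eq_mul, RingHom.id_apply]
      ring
    · simp only [Fin.mk_one, Matrix.cons_val_one, Pi.smul_apply, smul_eq_mul, RingHom.id_apply,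
        Matrix.cons_val_fin_one]
      ring
  invFun v := ![v 0 / 2 * d 0 - σ * v 1 / (d 0 ^ 2 + d 1 ^ 2) * d 1,
    v 0 / 2 * d 1 + σ * v 1 / (d 0 ^ 2 + d 1 ^ 2) * d 0]
  left_inv v := by
    ext i
    fin_cases i
    · simp only [Fin.zero_eta, Matrix.cons_val_zero, Matrix.cons_val_one, Matrix.cons_val_fin_one]
      field_simp
      linear_combination (-(d 1 * (d 0 * v 1 - d 1 * v 0))) * hσ
    · simp only [Fin.mk_one, Matrix.cons_val_zero, Matrix.cons_val_one, Matrix.cons_val_fin_one]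
      field_simp
      linear_combination (d 0 * (d 0 * v 1 - d 1 * v 0)) * hσ
  right_inv v := by
    ext i
    fin_cases i
    · simp only [Fin.zero_eta, Matrix.cons_val_zero, Matrix.cons_val_one, Matrix.cons_val_fin_one]
      field_simp
      ring
    · simp only [Fin.mk_one, Matrix.cons_val_zero, Matrix.cons_val_one, Matrix.cons_val_fin_one]
      field_simp
      linear_combination (2 * v 1 * (d 0 ^ 2 + d 1 ^ 2)) * hσ

private theorem DiagR_L_apply (σ : ℝ) (hσ : σ * σ = 1) (d : Fin 2 → ℝ)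
    (hd : d 0 ^ 2 + d 1 ^ 2 ≠ 0) (v : Fin 2 → ℝ) : DiagR_L σ hσ d hd v =
      ![2 * (d 0 * v 0 + d 1 * v 1) / (d 0 ^ 2 + d 1 ^ 2), σ * (d 0 * v 1 - d 1 * v 0)] := rfl

/-- the signed area of `v`, `a`, `b` -/
private def DiagR_g (a b v : Fin 2 → ℝ) : ℝ :=
  (a 0 - b 0) * (v 1 - a 1) - (a 1 - b 1) * (v 0 - a 0)

private theorem DiagR_comb (a b v w : Fin 2 → ℝ) (p q : ℝ) (hpq : p + q = 1) :
    DiagR_g a b (p • v + q • w) = p * DiagR_g a b v + q * DiagR_g a b w := by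
  have e : p = 1 - q := by linarith
  unfold DiagR_g
  simp only [Pi.add_apply, Pi.smul_apply, smul_eq_mul]
  rw [e]
  ring

/-- a point of the line through `a`, `b` -/
private theorem DiagR_line {a b v : Fin 2 → ℝ} (hab : a ≠ b) (h : DiagR_g a b v = 0) :
    a ∈ segment ℝ v b ∨ b ∈ segment ℝ v a ∨ v ∈ segment ℝ a b := by
  have hN : (a 0 - b 0) ^ 2 + (a 1 - b 1) ^ 2 ≠ 0 := by
    intro h0
    have h1 : a 0 - b 0 = 0 := by nlinarith [sq_nonneg (a 0 - b 0), sq_nonneg (a 1 - b 1)]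
    have h2 : a 1 - b 1 = 0 := by nlinarith [sq_nonneg (a 0 - b 0), sq_nonneg (a 1 - b 1)]
    apply hab
    ext i
    fin_cases i
    · exact sub_eq_zero.1 h1
    · exact sub_eq_zero.1 h2
  obtain ⟨t, ht⟩ : ∃ t : ℝ, v = a + t • (a - b) := by
    refine ⟨((a 0 - b 0) * (v 0 - a 0) + (a 1 - b 1) * (v 1 - a 1)) /
      ((a 0 - b 0) ^ 2 + (a 1 - b 1) ^ 2), ?_⟩
    unfold DiagR_g at h
    ext i
    fin_cases i
    · simp only [Fin.zero_eta, Pi.add_apply, Pi.smul_apply, Pi.sub_apply, smul_eq_mul]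
      field_simp
      linear_combination (-(a 1 - b 1)) * h
    · simp only [Fin.mk_one, Pi.add_apply, Pi.smul_apply, Pi.sub_apply, smul_eq_mul]
      field_simp
      linear_combination (a 0 - b 0) * h
  rcases lt_or_ge 0 t with h1 | h1
  · left
    refine ⟨1 / (1 + t), t / (1 + t), by positivity, by positivity, by field_simp, ?_⟩
    rw [ht]
    ext i
    simp only [Pi.add_apply, Pi.smul_apply, Pi.sub_apply, smul_eq_mul]
    field_simp
    ring
  · rcases lt_or_ge t (-1) with h2 | h2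
    · right; left
      have ht0 : t ≠ 0 := by linarith
      refine ⟨-(1 / t), 1 + 1 / t, ?_, ?_, by ring, ?_⟩
      · have : 1 / t ≤ 0 := one_div_nonpos.2 h1
        linarith
      · have : -1 ≤ 1 / t := by
          rw [le_div_iff_of_neg (by linarith)]
          linarith
        linarith
      · rw [ht]
        ext i
        simp only [Pi.add_apply, Pi.smul_apply, Pi.sub_apply, smul_eq_mul]
        field_simp
        ring
    · right; right
      refine ⟨1 + t, -t, by linarith, by linarith, by ring, ?_⟩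
      rw [ht]
      ext i
      simp only [Pi.add_apply, Pi.smul_apply, Pi.sub_apply, smul_eq_mul]
      ring

private theorem DiagR_seg {R : Set (Fin 2 → ℝ)} {F : Finset (Fin 2 → ℝ)}
    (h : ∀ s ∈ F, s ∉ convexHull ℝ (R ∪ ((F.erase s : Finset (Fin 2 → ℝ)) : Set (Fin 2 → ℝ))))
    {s a b : Fin 2 → ℝ} (hs : s ∈ F) (ha : a ∈ R ∨ a ∈ F.erase s) (hb : b ∈ R ∨ b ∈ F.erase s)
    (hc : s ∈ segment ℝ a b) : False := by
  apply h s hs
  rw [← convexHull_pair] at hc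
  refine convexHull_mono ?_ hc
  rintro x (rfl | hx)
  · rcases ha with ha | ha
    · exact Or.inl ha
    · exact Or.inr (Finset.mem_coe.2 ha)
  · rw [mem_singleton_iff] at hx
    subst hx
    rcases hb with hb | hb
    · exact Or.inl hb
    · exact Or.inr (Finset.mem_coe.2 hb)

private theorem DiagR_key {R : Set (Fin 2 → ℝ)} {F : Finset (Fin 2 → ℝ)}
    {l : (Fin 2 → ℝ) →ₗ[ℝ] ℝ} {c : ℝ} (hconv : Convex ℝ R) (hR : ∀ x ∈ R, l x ≤ c)
    (hF : ∀ x ∈ F, c < l x)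
    (h : ∀ s ∈ F, s ∉ convexHull ℝ (R ∪ ((F.erase s : Finset (Fin 2 → ℝ)) : Set (Fin 2 → ℝ))))
    {a w₁ w₂ w₃ : Fin 2 → ℝ} (ha : a ∈ R) (h1 : w₁ ∈ F) (h2 : w₂ ∈ F) (h3 : w₃ ∈ F)
    (h12 : w₁ ≠ w₂) (h13 : w₁ ≠ w₃) (h23 : w₂ ≠ w₃) {x : Fin 2 → ℝ}
    (hx1 : x ∈ segment ℝ w₁ w₂) (hx2 : x ∈ segment ℝ a w₃) :
    ∃ f : (Fin 2 → ℝ) ≃ᵃ[ℝ] (Fin 2 → ℝ), (∃ s ∈ F, f s = ![1, 0]) ∧ (∃ s ∈ F, f s = ![-1, 0]) ∧
      (∃ s ∈ F, 0 < f s 1) ∧ ∀ x ∈ R, f x 1 < 0 := by
  have e21 : w₂ ∈ F.erase w₁ := Finset.mem_erase.2 ⟨h12.symm, h2⟩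
  have e12 : w₁ ∈ F.erase w₂ := Finset.mem_erase.2 ⟨h12, h1⟩
  have e31 : w₃ ∈ F.erase w₁ := Finset.mem_erase.2 ⟨h13.symm, h3⟩
  have e32 : w₃ ∈ F.erase w₂ := Finset.mem_erase.2 ⟨h23.symm, h3⟩
  have e13 : w₁ ∈ F.erase w₃ := Finset.mem_erase.2 ⟨h13, h1⟩
  have e23 : w₂ ∈ F.erase w₃ := Finset.mem_erase.2 ⟨h23, h2⟩
  have hgR : ∀ v ∈ R, DiagR_g w₁ w₂ v ≠ 0 := by
    intro v hv h0
    rcases DiagR_line h12 h0 with h4 | h4 | h4
    · exact DiagR_seg h h1 (Or.inl hv) (Or.inr e21) h4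
    · exact DiagR_seg h h2 (Or.inl hv) (Or.inr e12) h4
    · obtain ⟨p, q, hp, hq, hpq, hv2⟩ := h4
      have h5 : l v = p * l w₁ + q * l w₂ := by
        rw [← hv2, map_add, map_smul, map_smul, smul_eq_mul, smul_eq_mul]
      have h6 := hR v hv
      have h7 := hF w₁ h1
      have h8 := hF w₂ h2
      have e : p = 1 - q := by linarith
      rw [e] at h5 hp
      rcases hq.eq_or_lt with h9 | h9
      · rw [← h9] at h5
        linarith
      · have h10 : 0 < q * (l w₂ - c) := mul_pos h9 (by linarith)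
        have h11 : 0 ≤ (1 - q) * (l w₁ - c) := mul_nonneg hp (by linarith)
        linarith
  have hg3 : DiagR_g w₁ w₂ w₃ ≠ 0 := by
    intro h0
    rcases DiagR_line h12 h0 with h4 | h4 | h4
    · exact DiagR_seg h h1 (Or.inr e31) (Or.inr e21) h4
    · exact DiagR_seg h h2 (Or.inr e32) (Or.inr e12) h4
    · exact DiagR_seg h h3 (Or.inr e13) (Or.inr e23) h4
  have hgx : DiagR_g w₁ w₂ x = 0 := by
    obtain ⟨p, q, hp, hq, hpq, hx⟩ := hx1
    rw [← hx, DiagR_comb _ _ _ _ _ _ hpq]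
    unfold DiagR_g
    ring
  obtain ⟨σ, hσ, hσ3⟩ : ∃ σ : ℝ, σ * σ = 1 ∧ 0 < σ * DiagR_g w₁ w₂ w₃ := by
    rcases lt_or_gt_of_ne hg3 with h4 | h4
    · exact ⟨-1, by norm_num, by linarith⟩
    · exact ⟨1, by norm_num, by linarith⟩
  have hσ0 : σ ≠ 0 := by
    intro h0
    rw [h0] at hσ
    norm_num at hσ
  have hsa : σ * DiagR_g w₁ w₂ a < 0 := by
    obtain ⟨p, q, hp, hq, hpq, hx⟩ := hx2
    rw [← hx, DiagR_comb _ _ _ _ _ _ hpq] at hgx
    have h5 : p * (σ * DiagR_g w₁ w₂ a) + q * (σ * DiagR_g w₁ w₂ w₃) = 0 := by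
      linear_combination σ * hgx
    have h6 : σ * DiagR_g w₁ w₂ a ≠ 0 := mul_ne_zero hσ0 (hgR a ha)
    by_contra h7
    have h8 : 0 < σ * DiagR_g w₁ w₂ a := lt_of_le_of_ne (not_lt.1 h7) (Ne.symm h6)
    rcases hp.eq_or_lt with h9 | h9
    · have : q = 1 := by linarith
      rw [← h9, this] at h5
      linarith
    · have h10 := mul_pos h9 h8
      have h11 := mul_nonneg hq hσ3.le
      linarith
  have hsR : ∀ v ∈ R, σ * DiagR_g w₁ w₂ v < 0 := by
    intro v hv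
    by_contra h4
    have h6 : σ * DiagR_g w₁ w₂ v ≠ 0 := mul_ne_zero hσ0 (hgR v hv)
    have h5 : 0 < σ * DiagR_g w₁ w₂ v := lt_of_le_of_ne (not_lt.1 h4) (Ne.symm h6)
    set A := σ * DiagR_g w₁ w₂ a with hA
    set B := σ * DiagR_g w₁ w₂ v with hB
    have hBA : 0 < B - A := by linarith
    have hpq : B / (B - A) + -A / (B - A) = 1 := by
      field_simp
      ring
    have hz : (B / (B - A)) • a + (-A / (B - A)) • v ∈ R :=
      hconv ha hv (div_nonneg h5.le hBA.le) (div_nonneg (by linarith) hBA.le) hpq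
    apply hgR _ hz
    rw [DiagR_comb _ _ _ _ _ _ hpq]
    have h7 : σ * (B / (B - A) * DiagR_g w₁ w₂ a + -A / (B - A) * DiagR_g w₁ w₂ v) = 0 := by
      have : σ * (B / (B - A) * DiagR_g w₁ w₂ a + -A / (B - A) * DiagR_g w₁ w₂ v) =
          B / (B - A) * A + -A / (B - A) * B := by
        rw [hA, hB]
        ring
      rw [this]
      field_simp
      ring
    exact (mul_eq_zero.1 h7).resolve_left hσ0
  set d : Fin 2 → ℝ := w₁ - w₂ with hd
  have hN : d 0 ^ 2 + d 1 ^ 2 ≠ 0 := by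
    intro h0
    have h4 : d 0 = 0 := by nlinarith [sq_nonneg (d 0), sq_nonneg (d 1)]
    have h5 : d 1 = 0 := by nlinarith [sq_nonneg (d 0), sq_nonneg (d 1)]
    apply h12
    have h6 : d = 0 := by
      ext i
      fin_cases i
      · exact h4
      · exact h5
    exact sub_eq_zero.1 h6
  let f : (Fin 2 → ℝ) ≃ᵃ[ℝ] (Fin 2 → ℝ) :=
    ((AffineEquiv.constVAdd ℝ (Fin 2 → ℝ) (-w₁)).trans (DiagR_L σ hσ d hN).toAffineEquiv).trans
      (AffineEquiv.constVAdd ℝ (Fin 2 → ℝ) ![1, 0])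
  have hf : ∀ v, f v = ![1, 0] + DiagR_L σ hσ d hN (-w₁ + v) := fun v => rfl
  have hf1 : ∀ v, f v 1 = σ * DiagR_g w₁ w₂ v := by
    intro v
    rw [hf, DiagR_L_apply]
    unfold DiagR_g
    have e0 : d 0 = w₁ 0 - w₂ 0 := rfl
    have e1 : d 1 = w₁ 1 - w₂ 1 := rfl
    rw [e0, e1]
    simp only [Pi.add_apply, Pi.neg_apply, Matrix.cons_val_one, Matrix.cons_val_fin_one]
    ring
  refine ⟨f, ⟨w₁, h1, ?_⟩, ⟨w₂, h2, ?_⟩, ⟨w₃, h3, ?_⟩, ?_⟩
  · rw [hf, neg_add_cancel, map_zero, add_zero]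
  · have e1 : -w₁ + w₂ = -d := by
      rw [hd]
      abel
    rw [hf, e1, map_neg, DiagR_L_apply]
    ext i
    fin_cases i
    · simp only [Fin.zero_eta, Pi.add_apply, Pi.neg_apply, Matrix.cons_val_zero]
      field_simp
      ring
    · simp only [Fin.mk_one, Pi.add_apply, Pi.neg_apply, Matrix.cons_val_one,
        Matrix.cons_val_fin_one]
      ring
  · rw [hf1]
    exact hσ3
  · intro v hv
    rw [hf1]
    exact hsR v hv

private theorem DiagR_split : ∀ I : Finset (Fin 4), (∃ i, I ⊆ {i}) ∨ (∃ i, Iᶜ ⊆ {i}) ∨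
    ∃ j k m : Fin 3, j ≠ k ∧ j ≠ m ∧ k ≠ m ∧
      ((I = {0, j.succ} ∧ Iᶜ = {k.succ, m.succ}) ∨
        (I = {k.succ, m.succ} ∧ Iᶜ = {0, j.succ})) := by
  decide

private theorem DiagR_one {R : Set (Fin 2 → ℝ)} {F : Finset (Fin 2 → ℝ)}
    {l : (Fin 2 → ℝ) →ₗ[ℝ] ℝ} {c : ℝ} (hR : ∀ x ∈ R, l x ≤ c) (hF : ∀ x ∈ F, c < l x)
    (h : ∀ s ∈ F, s ∉ convexHull ℝ (R ∪ ((F.erase s : Finset (Fin 2 → ℝ)) : Set (Fin 2 → ℝ))))
    {a : Fin 2 → ℝ} (ha : a ∈ R) {w : Fin 3 → Fin 2 → ℝ} (hw : Function.Injective w)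
    (hwF : ∀ i, w i ∈ F) {I J : Set (Fin 4)} (hIJ : ∀ i ∈ I, i ∉ J) {i : Fin 4} (hi : I ⊆ {i})
    {x : Fin 2 → ℝ} (h1 : x ∈ convexHull ℝ ((Fin.cons a w : Fin 4 → Fin 2 → ℝ) '' I))
    (h2 : x ∈ convexHull ℝ ((Fin.cons a w : Fin 4 → Fin 2 → ℝ) '' J)) : False := by
  set p : Fin 4 → Fin 2 → ℝ := Fin.cons a w with hp
  have h3 : p '' I ⊆ {p i} := by
    rintro _ ⟨k, hk, rfl⟩
    have := hi hk
    rw [mem_singleton_iff] at this ⊢
    rw [this]
  have h4 := convexHull_mono (𝕜 := ℝ) h3 h1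
  rw [convexHull_singleton, mem_singleton_iff] at h4
  have h5 : I.Nonempty := by
    by_contra hcon
    rw [not_nonempty_iff_eq_empty] at hcon
    rw [hcon, image_empty, convexHull_empty] at h1
    exact h1
  obtain ⟨k, hk⟩ := h5
  have hki : k = i := hi hk
  rw [hki] at hk
  have hiJ : i ∉ J := hIJ i hk
  rw [h4] at h2
  rcases Fin.eq_zero_or_eq_succ i with h0 | ⟨j, hj⟩
  · subst h0
    have h6 : p '' J ⊆ {y | c < l y} := by
      rintro _ ⟨m, hm, rfl⟩
      rcases Fin.eq_zero_or_eq_succ m with h7 | ⟨m', hm'⟩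
      · subst h7
        exact absurd hm hiJ
      · subst hm'
        rw [hp, Fin.cons_succ]
        exact hF _ (hwF m')
    have h7 : convexHull ℝ (p '' J) ⊆ {y | c < l y} :=
      convexHull_min h6 (convex_halfSpace_gt l.isLinear c)
    have h8 : c < l (p 0) := h7 h2
    rw [hp, Fin.cons_zero] at h8
    exact absurd (hR a ha) (not_le.2 h8)
  · subst hj
    have e : p j.succ = w j := by rw [hp, Fin.cons_succ]
    rw [e] at h2
    apply h (w j) (hwF j)
    refine convexHull_mono ?_ h2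
    rintro _ ⟨m, hm, rfl⟩
    rcases Fin.eq_zero_or_eq_succ m with h7 | ⟨m', hm'⟩
    · subst h7
      left
      rw [hp, Fin.cons_zero]
      exact ha
    · subst hm'
      right
      rw [hp, Fin.cons_succ, Finset.mem_coe, Finset.mem_erase]
      refine ⟨fun hc => ?_, hwF m'⟩
      have := hw hc
      subst this
      exact hiJ hm

theorem thm_diagR : St_diagR := by
  classical
  intro R F l c hcomp hconv hne hR hF hcard h
  obtain ⟨a, ha⟩ := hne
  obtain ⟨T, hTF, hT⟩ := Finset.exists_subset_card_eq hcard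
  let w : Fin 3 → Fin 2 → ℝ := fun i => ((T.equivFinOfCardEq hT).symm i : T).1
  have hw : Function.Injective w := fun i j hij =>
    (T.equivFinOfCardEq hT).symm.injective (Subtype.ext hij)
  have hwF : ∀ i, w i ∈ F := fun i => hTF ((T.equivFinOfCardEq hT).symm i).2
  have hdep : ¬ AffineIndependent ℝ (Fin.cons a w : Fin 4 → Fin 2 → ℝ) := by
    intro hind
    have h1 := hind.card_le_finrank_succ
    have h2 := Submodule.finrank_le (vectorSpan ℝ (Set.range (Fin.cons a w : Fin 4 → Fin 2 → ℝ)))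
    rw [Module.finrank_fin_fun] at h2
    rw [Fintype.card_fin] at h1
    omega
  obtain ⟨I, x, hx1, hx2⟩ := Convex.radon_partition hdep
  have hI : (I.toFinset : Set (Fin 4)) = I := Set.coe_toFinset I
  rcases DiagR_split I.toFinset with ⟨i, hi⟩ | ⟨i, hi⟩ | ⟨j, k, m, hjk, hjm, hkm, e⟩
  · refine (DiagR_one hR hF h ha hw hwF (I := I) (J := Iᶜ) (fun m hm hm' => hm' hm) (i := i) ?_
      hx1 hx2).elim
    intro m hm
    have := hi (Set.mem_toFinset.2 hm)
    rwa [Finset.mem_singleton] at this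
  · refine (DiagR_one hR hF h ha hw hwF (I := Iᶜ) (J := I) (fun m hm hm' => hm hm') (i := i) ?_
      hx2 hx1).elim
    intro m hm
    have hm2 : m ∈ I.toFinsetᶜ := by
      rw [Finset.mem_compl, Set.mem_toFinset]
      exact hm
    have := hi hm2
    rwa [Finset.mem_singleton] at this
  · have i1 : ∀ j : Fin 3, (Fin.cons a w : Fin 4 → Fin 2 → ℝ) '' {0, j.succ} = {a, w j} := by
      intro j
      rw [image_pair, Fin.cons_zero, Fin.cons_succ]
    have i2 : ∀ k m : Fin 3, (Fin.cons a w : Fin 4 → Fin 2 → ℝ) '' {k.succ, m.succ} =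
        {w k, w m} := by
      intro k m
      rw [image_pair, Fin.cons_succ, Fin.cons_succ]
    rcases e with ⟨e1, e2⟩ | ⟨e1, e2⟩
    · have f1 : I = {0, j.succ} := by
        rw [← hI, e1]
        simp
      have f2 : Iᶜ = {k.succ, m.succ} := by
        rw [← hI, ← Finset.coe_compl, e2]
        simp
      rw [f1, i1, convexHull_pair] at hx1
      rw [f2, i2, convexHull_pair] at hx2
      exact DiagR_key hconv hR hF h ha (hwF k) (hwF m) (hwF j) (hw.ne hkm) (hw.ne hjk.symm)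
        (hw.ne hjm.symm) hx2 hx1
    · have f1 : I = {k.succ, m.succ} := by
        rw [← hI, e1]
        simp
      have f2 : Iᶜ = {0, j.succ} := by
        rw [← hI, ← Finset.coe_compl, e2]
        simp
      rw [f1, i2, convexHull_pair] at hx1
      rw [f2, i1, convexHull_pair] at hx2
      exact DiagR_key hconv hR hF h ha (hwF k) (hwF m) (hwF j) (hw.ne hkm) (hw.ne hjk.symm)
        (hw.ne hjm.symm) hx1 hx2

end Pool.Agent.SYJ
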