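import Pool.Agent.SYJ.StE
import Pool.Agent.SYJ.Base

/-! # Equality case: four corners (helper58) -/

set_option autoImplicit false

namespace Pool.Agent.SYJ

open MeasureTheory Set Filter Topology Pool.Agent.SYL

private theorem Four_inj (f₁ f₂ : (Fin 2 → ℝ) →ₗ[ℝ] ℝ) (h : LinearIndependent ℝ ![f₁, f₂])
    (y : Fin 2 → ℝ) (h1 : f₁ y = 0) (h2 : f₂ y = 0) : y = 0 := by
  have hs : Submodule.span ℝ (Set.range ![f₁, f₂]) = ⊤ := by
    refine h.span_eq_top_of_card_eq_finrank ?_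
    have : Module.finrank ℝ ((Fin 2 → ℝ) →ₗ[ℝ] ℝ) = 2 := by
      rw [Module.finrank_linearMap]
      simp
    rw [this]
    simp
  let P : Submodule ℝ ((Fin 2 → ℝ) →ₗ[ℝ] ℝ) := LinearMap.ker (LinearMap.applyₗ (R := ℝ) y)
  have hP : ∀ g : (Fin 2 → ℝ) →ₗ[ℝ] ℝ, g ∈ P ↔ g y = 0 := by
    intro g
    exact LinearMap.mem_ker
  have hle : Submodule.span ℝ (Set.range ![f₁, f₂]) ≤ P := by
    rw [Submodule.span_le]
    rintro g ⟨i, rfl⟩
    fin_cases i
    · exact (hP f₁).2 h1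
    · exact (hP f₂).2 h2
  rw [hs] at hle
  funext i
  exact (hP (LinearMap.proj i)).1 (hle Submodule.mem_top)

private theorem Four_ext {K : Set (Fin 2 → ℝ)} {v : Fin 2 → ℝ} (hv : Corner K v)
    {T : Set (Fin 2 → ℝ)} (hT : T ⊆ K) (hvT : v ∉ T) : v ∉ convexHull ℝ T := by
  obtain ⟨_, f₁, f₂, hf, hle⟩ := hv
  have h1 : T ⊆ {x | (f₁ + f₂) x < (f₁ + f₂) v} := by
    intro x hx
    obtain ⟨a1, a2⟩ := hle x (hT hx)
    show (f₁ + f₂) x < (f₁ + f₂) v
    rw [LinearMap.add_apply, LinearMap.add_apply]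
    rcases lt_or_eq_of_le a1 with b1 | b1
    · linarith
    · rcases lt_or_eq_of_le a2 with b2 | b2
      · linarith
      · exfalso
        have h3 := Four_inj f₁ f₂ hf (x - v) (by rw [map_sub, b1, sub_self])
          (by rw [map_sub, b2, sub_self])
        rw [sub_eq_zero] at h3
        rw [h3] at hx
        exact hvT hx
  have h2 : Convex ℝ {x | (f₁ + f₂) x < (f₁ + f₂) v} :=
    convex_halfSpace_lt (f₁ + f₂).isLinear _
  intro h
  have h3 : (f₁ + f₂) v < (f₁ + f₂) v := convexHull_min h1 h2 h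
  exact lt_irrefl _ h3

private theorem Four_corner {K : Set (Fin 2 → ℝ)} {v : Fin 2 → ℝ} (hv : Corner K v)
    (f : (Fin 2 → ℝ) ≃ᵃ[ℝ] (Fin 2 → ℝ)) : Corner (f '' K) (f v) := by
  obtain ⟨hK, f₁, f₂, hf, hle⟩ := hv
  refine ⟨mem_image_of_mem f hK, f₁ ∘ₗ (f.linear.symm : (Fin 2 → ℝ) →ₗ[ℝ] (Fin 2 → ℝ)),
    f₂ ∘ₗ (f.linear.symm : (Fin 2 → ℝ) →ₗ[ℝ] (Fin 2 → ℝ)), ?_, ?_⟩
  · rw [LinearIndependent.pair_iff] at hf ⊢
    intro s t hst
    refine hf s t ?_
    ext1 x
    have h1 := LinearMap.congr_fun hst (f.linear (Pi.single x 1))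
    ext
    simp only [LinearMap.add_apply, LinearMap.smul_apply, LinearMap.comp_apply,
      LinearEquiv.coe_coe, LinearEquiv.symm_apply_apply, LinearMap.zero_apply] at h1
    simpa using h1
  · rintro _ ⟨x, hx, rfl⟩
    obtain ⟨a1, a2⟩ := hle x hx
    have e : f x = f v + f.linear (x - v) := by
      rw [← Base_aff]
      congr 1
      abel
    have e1 : f.linear.symm (f x) = f.linear.symm (f v) + (x - v) := by
      rw [e, map_add, f.linear.symm_apply_apply]
    constructor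
    · show f₁ (f.linear.symm (f x)) ≤ f₁ (f.linear.symm (f v))
      rw [e1, map_add, map_sub]
      linarith
    · show f₂ (f.linear.symm (f x)) ≤ f₂ (f.linear.symm (f v))
      rw [e1, map_add, map_sub]
      linarith

private theorem Four_body {K : Set (Fin 2 → ℝ)} (hK : IsBody K)
    (f : (Fin 2 → ℝ) ≃ᵃ[ℝ] (Fin 2 → ℝ)) : IsBody (f '' K) := by
  obtain ⟨hv, hc, hi⟩ := hK
  have hfc : Continuous f := f.continuous_of_finiteDimensional
  let H : (Fin 2 → ℝ) ≃ₜ (Fin 2 → ℝ) := (AffineEquiv.toContinuousAffineEquiv f).toHomeomorph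
  have hH : ∀ K : Set (Fin 2 → ℝ), f '' K = H '' K := fun K => rfl
  refine ⟨hv.affine_image f.toAffineMap, hc.image hfc, ?_⟩
  rw [hH, ← H.image_interior]
  exact hi.image _

/-- four corners -/
theorem thm_four (h1 : St_two) (h2 : St_diag) (h3 : St_funmapS) : St_four := by
  classical
  intro K hK v hvi hvc n Φ hΦ M hM z hz
  have hS : 4 ≤ (Finset.univ.image v).card := by
    rw [Finset.card_image_of_injective _ hvi, Finset.card_univ, Fintype.card_fin]
  have hc : ∀ s ∈ Finset.univ.image v, Corner K s := by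
    intro s hs
    obtain ⟨i, _, rfl⟩ := Finset.mem_image.1 hs
    exact hvc i
  obtain ⟨f, ⟨s1, hs1, e1⟩, ⟨s2, hs2, e2⟩, ⟨s3, hs3, e3⟩, ⟨s4, hs4, e4⟩⟩ :=
    h2 (Finset.univ.image v) hS (by
      intro s hs
      refine Four_ext (hc s hs) ?_ ?_
      · intro x hx
        exact (hc x (Finset.mem_of_mem_erase (Finset.mem_coe.1 hx))).1
      · intro hx
        exact Finset.notMem_erase s _ (Finset.mem_coe.1 hx))
  have c1 := Four_corner (hc s1 hs1) f
  have c2 := Four_corner (hc s2 hs2) f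
  rw [e1] at c1
  rw [e2] at c2
  have key := h1 (f '' K) (Four_body hK f) c1 c2
    ⟨f s3, mem_image_of_mem f (hc s3 hs3).1, e3⟩ ⟨f s4, mem_image_of_mem f (hc s4 hs4).1, e4⟩ n _
    (h3 (Fin 2 → ℝ) (Fin 2 → ℝ) n Φ f.symm hΦ) M (by
      intro V hV w hw
      have h4 := hM (V.image f.symm) (Base_simp_map f.symm hV) (fun i => f.symm (w i))
        (fun i => Finset.mem_image_of_mem f.symm (hw i))
      rw [Finset.coe_image] at h4
      have h5 : f.symm '' convexHull ℝ (V : Set (Fin 2 → ℝ)) =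
          convexHull ℝ (f.symm '' (V : Set (Fin 2 → ℝ))) :=
        f.symm.toAffineMap.image_convexHull (V : Set (Fin 2 → ℝ))
      show Φ (f.symm '' convexHull ℝ (V : Set (Fin 2 → ℝ))) (fun i => f.symm (w i)) ≤ M
      rw [h5]
      exact h4) (fun i => f (z i)) (fun i => mem_image_of_mem f (hz i))
  have key' : Φ (f.symm '' (f '' K)) (fun i => f.symm (f (z i))) < M := key
  have e5 : f.symm '' (f '' K) = K := by
    rw [image_image]
    simp only [f.symm_apply_apply, image_id']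
  simp only [f.symm_apply_apply] at key'
  rwa [e5] at key'

end Pool.Agent.SYJ
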