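import Pool.Agent.SYJ.StE

/-! # More on the gauge of a compact convex set at one of its points -/

set_option autoImplicit false

namespace Pool.Agent.SYJ

open MeasureTheory Set Filter Topology Pool.Agent.SYL

theorem thm_gcont (h : St_gauge) : St_gcont := by
  intro F _ _ _ _ _ B q hB hBv hq
  obtain ⟨g1, g2, g3, g4, _⟩ := h F B q hB hBv hq
  have hcv : ConvexOn ℝ B (gg B q) := by
    refine ⟨hBv, fun y hy y' hy' a b ha hb hab => ?_⟩
    obtain ⟨b1, hb1, e1⟩ := g3 y hy
    obtain ⟨b2, hb2, e2⟩ := g3 y' hy'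
    have hg := (g1 y hy).1
    have hg' := (g1 y' hy').1
    rw [smul_eq_mul, smul_eq_mul]
    obtain ⟨g, hgg⟩ : ∃ g, g = gg B q y := ⟨_, rfl⟩
    obtain ⟨g', hgg'⟩ : ∃ g', g' = gg B q y' := ⟨_, rfl⟩
    rw [← hgg] at hg e1 ⊢
    rw [← hgg'] at hg' e2 ⊢
    have hag : 0 ≤ a * g := mul_nonneg ha hg
    have hbg : 0 ≤ b * g' := mul_nonneg hb hg'
    have e3 : a • y + b • y' - q = (a * g) • (b1 - q) + (b * g') • (b2 - q) := by
      rw [← smul_smul, ← smul_smul, ← e1, ← e2, smul_sub, smul_sub]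
      have e4 : q = a • q + b • q := by rw [← add_smul, hab, one_smul]
      conv_lhs => rw [e4]
      abel
    rcases (add_nonneg hag hbg).eq_or_lt with h0 | h0
    · have ha0 : a * g = 0 := by linarith
      have hb0 : b * g' = 0 := by linarith
      refine g4 _ q hq _ (add_nonneg hag hbg) ?_
      rw [e3, ha0, hb0]
      simp
    · refine g4 _ ((a * g / (a * g + b * g')) • b1 + (b * g' / (a * g + b * g')) • b2)
        (hBv hb1 hb2 (div_nonneg hag h0.le) (div_nonneg hbg h0.le) ?_) _ h0.le ?_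
      · rw [← add_div, div_self h0.ne']
      · rw [e3, smul_sub (a * g + b * g'), smul_add (a * g + b * g'), smul_smul, smul_smul,
          mul_div_cancel₀ _ h0.ne', mul_div_cancel₀ _ h0.ne', smul_sub, smul_sub, add_smul]
        abel
  refine ⟨hcv, hcv.continuousOn_interior, ?_, ?_⟩
  · intro y hy
    have hc : Tendsto (fun t : ℝ => y + t • (y - q)) (𝓝 0) (𝓝 (y + (0 : ℝ) • (y - q))) := by
      apply Continuous.tendsto
      fun_prop
    rw [zero_smul, add_zero] at hc
    have h1 : ∀ᶠ t : ℝ in 𝓝 0, y + t • (y - q) ∈ B :=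
      hc.eventually (mem_interior_iff_mem_nhds.1 hy)
    have h2 : ∀ᶠ t : ℝ in 𝓝[>] 0, y + t • (y - q) ∈ B := h1.filter_mono nhdsWithin_le_nhds
    obtain ⟨t, ht1, ht2⟩ := (h2.and self_mem_nhdsWithin).exists
    have ht0 : (0 : ℝ) < t := ht2
    have h3 : gg B q y ≤ (1 + t)⁻¹ := by
      refine g4 y _ ht1 _ (by positivity) ?_
      have e1 : y + t • (y - q) - q = (1 + t) • (y - q) := by
        rw [add_smul, one_smul]
        abel
      rw [e1, smul_smul, inv_mul_cancel₀ (by positivity), one_smul]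
    refine h3.trans_lt ?_
    exact inv_lt_one_of_one_lt₀ (by linarith)
  · rintro ⟨c, hc⟩ hqe hcc
    have hex : ∃ y1 ∈ B, ∃ y2 ∈ B, q ∈ openSegment ℝ y1 y2 ∧ y1 ≠ q := by
      by_contra hcon
      push Not at hcon
      apply hqe
      rw [mem_extremePoints]
      refine ⟨hq, fun y1 hy1 y2 hy2 hs => ⟨hcon y1 hy1 y2 hy2 hs, ?_⟩⟩
      exact hcon y2 hy2 y1 hy1 (by rwa [openSegment_symm])
    obtain ⟨y1, hy1, y2, hy2, ⟨l, m, hl, hm, hlm, hq'⟩, hne⟩ := hex
    obtain ⟨R, hR0, hR⟩ : ∃ R : ℝ, 0 ≤ R ∧ ∀ b ∈ B, ‖b - q‖ ≤ R := by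
      obtain ⟨R, hR⟩ := hB.isBounded.exists_norm_le
      refine ⟨R + R, ?_, fun b hb => ?_⟩
      · have := (norm_nonneg q).trans (hR q hq)
        linarith
      · exact (norm_sub_le _ _).trans (add_le_add (hR b hb) (hR q hq))
    have hgR : ∀ y ∈ B, ‖y - q‖ ≤ gg B q y * R := by
      intro y hy
      obtain ⟨b, hb, e⟩ := g3 y hy
      conv_lhs => rw [e]
      rw [norm_smul, Real.norm_of_nonneg (g1 y hy).1]
      exact mul_le_mul_of_nonneg_left (hR b hb) (g1 y hy).1
    have key : ∀ ε : ℝ, 0 < ε → ε ≤ 1 → l * ‖y1 - q‖ ≤ ε * (R + l * ‖c - y1‖) := by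
      intro ε hε hε1
      have i1 : (1 - ε) • y1 + ε • c ∈ interior B :=
        hBv.combo_self_interior_mem_interior hy1 hc (by linarith) hε (by ring)
      have i2 : (1 - ε) • y2 + ε • c ∈ interior B :=
        hBv.combo_self_interior_mem_interior hy2 hc (by linarith) hε (by ring)
      have h1 := hcc.2 i1 i2 hl.le hm.le hlm
      have e1 : l • ((1 - ε) • y1 + ε • c) + m • ((1 - ε) • y2 + ε • c) =
          (1 - ε) • q + ε • c := by
        rw [← hq', smul_add, smul_add, smul_add, smul_smul, smul_smul, smul_smul, smul_smul,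
          smul_smul, smul_smul]
        have e2 : ε • c = (l * ε) • c + (m * ε) • c := by
          rw [← add_smul, ← add_mul, hlm, one_mul]
        rw [e2, mul_comm l (1 - ε), mul_comm m (1 - ε)]
        abel
      rw [e1, smul_eq_mul, smul_eq_mul] at h1
      have hcB := interior_subset hc
      have h2 : gg B q ((1 - ε) • q + ε • c) ≤ ε := by
        have h3 := hcv.2 hq hcB (show (0 : ℝ) ≤ 1 - ε by linarith) hε.le (by ring)
        rw [smul_eq_mul, smul_eq_mul, g2, mul_zero, zero_add] at h3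
        refine h3.trans ?_
        exact mul_le_of_le_one_right hε.le (g1 c hcB).2
      have h3 := hgR _ (interior_subset i1)
      have h4 : 0 ≤ m * gg B q ((1 - ε) • y2 + ε • c) :=
        mul_nonneg hm.le (g1 _ (interior_subset i2)).1
      have h5 : ‖y1 - q‖ ≤ ‖(1 - ε) • y1 + ε • c - q‖ + ε * ‖c - y1‖ := by
        have e3 : y1 - q = ((1 - ε) • y1 + ε • c - q) - ε • (c - y1) := by
          rw [sub_smul, one_smul, smul_sub]
          abel
        calc ‖y1 - q‖ = ‖((1 - ε) • y1 + ε • c - q) - ε • (c - y1)‖ := by rw [← e3]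
          _ ≤ ‖(1 - ε) • y1 + ε • c - q‖ + ‖ε • (c - y1)‖ := norm_sub_le _ _
          _ = _ := by rw [norm_smul, Real.norm_of_nonneg hε.le]
      have h6 : l * gg B q ((1 - ε) • y1 + ε • c) ≤ ε := by linarith
      have h7 : l * ‖(1 - ε) • y1 + ε • c - q‖ ≤ ε * R := by
        calc l * ‖(1 - ε) • y1 + ε • c - q‖ ≤ l * (gg B q ((1 - ε) • y1 + ε • c) * R) :=
              mul_le_mul_of_nonneg_left h3 hl.le
          _ = (l * gg B q ((1 - ε) • y1 + ε • c)) * R := by ring
          _ ≤ ε * R := mul_le_mul_of_nonneg_right h6 hR0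
      have h8 := mul_le_mul_of_nonneg_left h5 hl.le
      linarith
    have hδ : 0 < l * ‖y1 - q‖ := mul_pos hl (norm_pos_iff.2 (sub_ne_zero.2 hne))
    obtain ⟨K, hK⟩ : ∃ K : ℝ, K = R + l * ‖c - y1‖ := ⟨_, rfl⟩
    have hK0 : 0 ≤ K := by
      rw [hK]
      have := mul_nonneg hl.le (norm_nonneg (c - y1))
      linarith
    obtain ⟨δ, hδ'⟩ : ∃ δ : ℝ, δ = l * ‖y1 - q‖ := ⟨_, rfl⟩
    rw [← hδ'] at hδ
    have h1 := key (min 1 (δ / (K + 1))) (lt_min one_pos (by positivity)) (min_le_left _ _)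
    rw [← hδ', ← hK] at h1
    have h2 : min 1 (δ / (K + 1)) * K ≤ δ / (K + 1) * K :=
      mul_le_mul_of_nonneg_right (min_le_right _ _) hK0
    have h3 : δ / (K + 1) * K < δ := by
      rw [div_mul_eq_mul_div, div_lt_iff₀ (by linarith)]
      linarith
    linarith

end Pool.Agent.SYJ
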