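import Pool.Agent.SYJ.StE
import Pool.Agent.SYB.Geo

/-! # Convergence of hulls with two moving points -/

set_option autoImplicit false

namespace Pool.Agent.SYJ

open MeasureTheory Set Filter Topology Pool.Agent.SYL

private theorem Hcv_near {R : Set (Fin 2 → ℝ)} {v v' w w' : Fin 2 → ℝ} {δ : ℝ}
    (h1 : ‖w - v‖ ≤ δ) (h2 : ‖w' - v'‖ ≤ δ) :
    ∀ y ∈ convexHull ℝ (R ∪ {w, w'}), ∃ y' ∈ convexHull ℝ (R ∪ {v, v'}), ‖y - y'‖ ≤ δ := by
  have h0 : 0 ≤ δ := (norm_nonneg _).trans h1
  have hsub : convexHull ℝ (R ∪ {w, w'}) ⊆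
      {y | ∃ y' ∈ convexHull ℝ (R ∪ {v, v'}), ‖y - y'‖ ≤ δ} := by
    refine convexHull_min ?_ ?_
    · rintro y (hy | hy | hy)
      · exact ⟨y, subset_convexHull ℝ _ (Or.inl hy), by simpa using h0⟩
      · rw [hy]
        exact ⟨v, subset_convexHull ℝ _ (Or.inr (Or.inl rfl)), h1⟩
      · rw [Set.mem_singleton_iff.1 hy]
        exact ⟨v', subset_convexHull ℝ _ (Or.inr (Or.inr rfl)), h2⟩
    · rintro x ⟨x', hx', hx⟩ y ⟨y', hy', hy⟩ a b ha hb hab
      refine ⟨a • x' + b • y', (convex_convexHull ℝ _) hx' hy' ha hb hab, ?_⟩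
      have e : a • x + b • y - (a • x' + b • y') = a • (x - x') + b • (y - y') := by
        simp only [smul_sub]
        abel
      rw [e]
      refine (norm_add_le _ _).trans ?_
      rw [norm_smul, norm_smul, Real.norm_of_nonneg ha, Real.norm_of_nonneg hb]
      calc a * ‖x - x'‖ + b * ‖y - y'‖ ≤ a * δ + b * δ :=
            add_le_add (mul_le_mul_of_nonneg_left hx ha) (mul_le_mul_of_nonneg_left hy hb)
        _ = δ := by rw [← add_mul, hab, one_mul]
  exact fun y hy => hsub hy

theorem thm_hullconv : St_hullconv := by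
  intro R v v' w w' hR hv hv'
  obtain ⟨hRc, hRk, hRi⟩ := hR
  refine ⟨?_, ?_, ?_⟩
  · -- boundedness
    obtain ⟨ρ₁, h1⟩ := hRk.isBounded.exists_norm_le
    obtain ⟨ρ₂, h2⟩ := (Metric.isBounded_range_of_tendsto v hv).exists_norm_le
    obtain ⟨ρ₃, h3⟩ := (Metric.isBounded_range_of_tendsto v' hv').exists_norm_le
    refine ⟨max ρ₁ (max ρ₂ ρ₃), fun m x hx => ?_⟩
    have hsub : convexHull ℝ (R ∪ {v m, v' m}) ⊆
        Metric.closedBall (0 : Fin 2 → ℝ) (max ρ₁ (max ρ₂ ρ₃)) := by
      refine convexHull_min ?_ (convex_closedBall _ _)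
      rintro y (hy | hy | hy)
      · rw [mem_closedBall_zero_iff]
        exact (h1 y hy).trans (le_max_left _ _)
      · rw [mem_closedBall_zero_iff, hy]
        exact (h2 _ (mem_range_self m)).trans ((le_max_left _ _).trans (le_max_right _ _))
      · rw [mem_closedBall_zero_iff, Set.mem_singleton_iff.1 hy]
        exact (h3 _ (mem_range_self m)).trans ((le_max_right _ _).trans (le_max_right _ _))
    exact mem_closedBall_zero_iff.1 (hsub hx)
  · -- interior points
    intro x hx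
    obtain ⟨r₀, hr₀⟩ := hRi
    obtain ⟨s, hs, hsR⟩ := Metric.mem_nhds_iff.1 (mem_interior_iff_mem_nhds.1 hr₀)
    obtain ⟨ε, hε, hεK⟩ := Metric.mem_nhds_iff.1 (mem_interior_iff_mem_nhds.1 hx)
    set lam : ℝ := ε / (2 * (‖x - r₀‖ + 1)) with hlam
    have hn : 0 < ‖x - r₀‖ + 1 := by positivity
    have hl : 0 < lam := by positivity
    have hx' : x + lam • (x - r₀) ∈ convexHull ℝ (R ∪ {w, w'}) := by
      apply hεK
      rw [Metric.mem_ball, dist_eq_norm, add_sub_cancel_left, norm_smul, Real.norm_of_nonneg hl.le]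
      have h1 : lam * ‖x - r₀‖ ≤ lam * (‖x - r₀‖ + 1) :=
        mul_le_mul_of_nonneg_left (by linarith) hl.le
      have h2 : lam * (‖x - r₀‖ + 1) = ε / 2 := by
        rw [hlam]
        field_simp
      linarith
    have hd : 0 < lam * s / 2 := by positivity
    have e1 : ∀ᶠ m in atTop, ‖w - v m‖ ≤ lam * s / 2 := by
      have := (Metric.tendsto_nhds.1 hv) _ hd
      filter_upwards [this] with m hm
      rw [← dist_eq_norm, dist_comm]
      exact hm.le
    have e2 : ∀ᶠ m in atTop, ‖w' - v' m‖ ≤ lam * s / 2 := by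
      have := (Metric.tendsto_nhds.1 hv') _ hd
      filter_upwards [this] with m hm
      rw [← dist_eq_norm, dist_comm]
      exact hm.le
    filter_upwards [e1, e2] with m h1 h2
    obtain ⟨y, hy, hyn⟩ := Hcv_near (R := R) h1 h2 _ hx'
    have hr : r₀ + lam⁻¹ • (x + lam • (x - r₀) - y) ∈ R := by
      apply hsR
      rw [Metric.mem_ball, dist_eq_norm, add_sub_cancel_left, norm_smul,
        Real.norm_of_nonneg (inv_nonneg.2 hl.le)]
      calc lam⁻¹ * ‖x + lam • (x - r₀) - y‖ ≤ lam⁻¹ * (lam * s / 2) :=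
            mul_le_mul_of_nonneg_left hyn (inv_nonneg.2 hl.le)
        _ = s / 2 := by field_simp
        _ < s := by linarith
    have hp : 0 < 1 + lam := by linarith
    have key := (convex_convexHull ℝ (R ∪ {v m, v' m})) hy
      (subset_convexHull ℝ _ (Or.inl hr)) (a := (1 + lam)⁻¹) (b := lam * (1 + lam)⁻¹)
      (inv_nonneg.2 hp.le) (mul_nonneg hl.le (inv_nonneg.2 hp.le))
      (by field_simp)
    have e : (1 + lam)⁻¹ • y + (lam * (1 + lam)⁻¹) •
        (r₀ + lam⁻¹ • (x + lam • (x - r₀) - y)) = x := by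
      ext i
      simp only [Pi.add_apply, Pi.smul_apply, Pi.sub_apply, smul_eq_mul]
      field_simp
      ring
    rwa [e] at key
  · -- outer points
    intro x hx
    have hKc : IsClosed (convexHull ℝ (R ∪ {w, w'})) :=
      (SYB.Geo_hull_compact (hRk.union
        ((Set.finite_singleton w').insert w).isCompact)).isClosed
    obtain ⟨ε, hε, hεK⟩ := Metric.mem_nhds_iff.1 (hKc.isOpen_compl.mem_nhds hx)
    have e1 : ∀ᶠ m in atTop, ‖v m - w‖ ≤ ε / 2 := by
      have := (Metric.tendsto_nhds.1 hv) _ (half_pos hε)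
      filter_upwards [this] with m hm
      rw [← dist_eq_norm]
      exact hm.le
    have e2 : ∀ᶠ m in atTop, ‖v' m - w'‖ ≤ ε / 2 := by
      have := (Metric.tendsto_nhds.1 hv') _ (half_pos hε)
      filter_upwards [this] with m hm
      rw [← dist_eq_norm]
      exact hm.le
    filter_upwards [e1, e2] with m h1 h2 hxm
    obtain ⟨y, hy, hyn⟩ := Hcv_near (R := R) h1 h2 _ hxm
    have : y ∈ Metric.ball x ε := by
      rw [Metric.mem_ball, dist_comm, dist_eq_norm]
      linarith
    exact hεK this hy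

end Pool.Agent.SYJ
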