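import Pool.Agent.SYJ.StE

/-! # Equality case: interior of a free sum, both directions -/

set_option autoImplicit false

namespace Pool.Agent.SYJ

open MeasureTheory Set Filter Topology Pool.Agent.SYL

theorem thm_int2 (_h1 : St_gauge) (h2 : St_hull) (h3 : St_gcont) : St_int2 := by
  intro E F _ _ _ _ _ _ _ _ _ _ A p B q hA hAc hp hB hBc hq
  obtain ⟨hfs, -⟩ := h2 E F A p B q hA hAc hp hB hBc hq
  constructor
  · intro z hz
    have hsub : Prod.snd '' interior (hs A p B q) ⊆ B := by
      rintro _ ⟨w, hw, rfl⟩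
      have h4 := interior_subset hw
      rw [← hfs] at h4
      exact h4.1
    have hopen : IsOpen (Prod.snd '' interior (hs A p B q)) := isOpenMap_snd _ isOpen_interior
    exact interior_maximal hsub hopen ⟨z, hz, rfl⟩
  · intro y hy a ha
    obtain ⟨-, hcont, hlt, -⟩ := h3 F B q hB hBc hq
    have hg1 : gg B q y < 1 := hlt y hy
    obtain ⟨x₀, hx₀⟩ : ∃ x₀ : E, x₀ = (1 - gg B q y) • a + gg B q y • p := ⟨_, rfl⟩
    rw [← hx₀, mem_interior_iff_mem_nhds, ← hfs]
    have hc : ContinuousAt (gg B q) y := hcont.continuousAt (isOpen_interior.mem_nhds hy)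
    have hc2 : ContinuousAt (fun w : E × F => gg B q w.2) (x₀, y) :=
      ContinuousAt.comp (f := Prod.snd) (x := (x₀, y)) hc continuousAt_snd
    have hc3 : ContinuousAt
        (fun w : E × F => (1 - gg B q w.2)⁻¹ • (w.1 - gg B q w.2 • p)) (x₀, y) :=
      ((continuousAt_const.sub hc2).inv₀ (by
        show 1 - gg B q y ≠ 0
        linarith)).smul (continuousAt_fst.sub (hc2.smul continuousAt_const))
    have hne : (1 - gg B q y) ≠ 0 := by linarith
    have hval : (1 - gg B q y)⁻¹ • (x₀ - gg B q y • p) = a := by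
      rw [hx₀, add_sub_cancel_right, smul_smul, inv_mul_cancel₀ hne, one_smul]
    have e1 : ∀ᶠ w in 𝓝 ((x₀, y) : E × F),
        (1 - gg B q w.2)⁻¹ • (w.1 - gg B q w.2 • p) ∈ interior A := by
      refine hc3.eventually ?_
      show ∀ᶠ v in 𝓝 ((1 - gg B q y)⁻¹ • (x₀ - gg B q y • p)), v ∈ interior A
      rw [hval]
      exact isOpen_interior.mem_nhds ha
    have e2 : ∀ᶠ w in 𝓝 ((x₀, y) : E × F), w.2 ∈ interior B :=
      continuousAt_snd.eventually (isOpen_interior.mem_nhds hy)
    filter_upwards [e1, e2] with w hw1 hw2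
    have hw3 : (1 - gg B q w.2) ≠ 0 := by
      have := hlt _ hw2
      linarith
    refine ⟨interior_subset hw2, _, interior_subset hw1, ?_⟩
    rw [smul_smul, mul_inv_cancel₀ hw3, one_smul, sub_add_cancel]

end Pool.Agent.SYJ
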