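import Pool.Agent.SYJ.StE

/-! # Equality case: the four caps one after another -/

set_option autoImplicit false

namespace Pool.Agent.SYJ

open MeasureTheory Set Filter Topology Pool.Agent.SYL

/-- a segment between two points on the two sides of a line crosses it -/
private lemma Iter_cross (K : Set (Fin 2 → ℝ)) (hK : Convex ℝ K) (l : (Fin 2 → ℝ) →ₗ[ℝ] ℝ) (c : ℝ)
    (x y : Fin 2 → ℝ) (hx : x ∈ K) (hy : y ∈ K) (h1 : l y < c) (h2 : c < l x) :
    ∃ t : ℝ, 0 < t ∧ t < 1 ∧ (1 - t) • y + t • x ∈ K ∧ l ((1 - t) • y + t • x) = c := by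
  have hd : 0 < l x - l y := by linarith
  refine ⟨(c - l y) / (l x - l y), ?_, ?_, ?_, ?_⟩
  · apply div_pos
    · linarith
    · exact hd
  · rw [div_lt_one hd]
    linarith
  · apply hK hy hx
    · rw [sub_nonneg, div_le_one hd]
      linarith
    · apply div_nonneg
      · linarith
      · exact hd.le
    · ring
  · rw [map_add, map_smul, map_smul, smul_eq_mul, smul_eq_mul]
    field_simp
    ring

/-- the invariants after `m` steps -/
private def Iter_Inv (K : Set (Fin 2 → ℝ)) (l : Fin 4 → ((Fin 2 → ℝ) →ₗ[ℝ] ℝ)) (c : Fin 4 → ℝ)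
    (m : ℕ) (K' : Set (Fin 2 → ℝ)) (v : Fin 4 → (Fin 2 → ℝ)) : Prop :=
  IsBody K' ∧ (∀ j k, j ≠ k → ∀ x ∈ K', ¬ (c j ≤ l j x ∧ c k ≤ l k x)) ∧
    (∀ j, v j ∈ K' ∧ c j < l j (v j)) ∧ (∀ j : Fin 4, (j : ℕ) < m → Corner K' (v j)) ∧
    (∀ x, (∀ j, l j x ≤ c j) → (x ∈ K' ↔ x ∈ K))

/-- one step -/
private lemma Iter_step (K : Set (Fin 2 → ℝ)) (l : Fin 4 → ((Fin 2 → ℝ) →ₗ[ℝ] ℝ)) (c : Fin 4 → ℝ)
    (m : ℕ) (hm : m < 4) (K₁ K₂ : Set (Fin 2 → ℝ)) (v : Fin 4 → (Fin 2 → ℝ)) (w : Fin 2 → ℝ)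
    (h : Iter_Inv K l c m K₁ v) (hb : IsBody K₂)
    (he : ∀ x, l ⟨m, hm⟩ x ≤ c ⟨m, hm⟩ → (x ∈ K₂ ↔ x ∈ K₁)) (hw : c ⟨m, hm⟩ < l ⟨m, hm⟩ w)
    (hc : Corner K₂ w) :
    Iter_Inv K l c (m + 1) K₂ (Function.update v ⟨m, hm⟩ w) := by
  obtain ⟨h1, h2, h3, h4, h5⟩ := h
  set j : Fin 4 := ⟨m, hm⟩ with hj
  have hlow : ∀ k, k ≠ j → l j (v k) < c j := by
    intro k hk
    by_contra hcon
    exact h2 j k (Ne.symm hk) (v k) (h3 k).1 ⟨not_lt.mp hcon, (h3 k).2.le⟩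
  have hin : ∀ k, k ≠ j → v k ∈ K₂ := by
    intro k hk
    exact (he _ (hlow k hk).le).2 (h3 k).1
  have hkey : ∀ k, k ≠ j → ∀ x ∈ K₂, c j < l j x → l k x < c k := by
    intro k hk x hx hlx
    by_contra hcon
    have hcon' : c k ≤ l k x := not_lt.mp hcon
    obtain ⟨t, ht0, ht1, hp, hlp⟩ :=
      Iter_cross K₂ hb.1 (l j) (c j) x (v k) hx (hin k hk) (hlow k hk) hlx
    have hp1 : (1 - t) • v k + t • x ∈ K₁ := (he _ hlp.le).1 hp
    refine h2 j k (Ne.symm hk) _ hp1 ⟨hlp.ge, ?_⟩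
    rw [map_add, map_smul, map_smul, smul_eq_mul, smul_eq_mul]
    have e1 : (1 - t) * c k ≤ (1 - t) * l k (v k) :=
      mul_le_mul_of_nonneg_left (h3 k).2.le (by linarith)
    have e2 : t * c k ≤ t * l k x := mul_le_mul_of_nonneg_left hcon' ht0.le
    linarith
  refine ⟨hb, ?_, ?_, ?_, ?_⟩
  · intro a b hab x hx hax
    by_cases hlx : l j x ≤ c j
    · exact h2 a b hab x ((he x hlx).1 hx) hax
    · have hlx' : c j < l j x := not_le.mp hlx
      by_cases ha : a = j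
      · have hbj : b ≠ j := fun hbj => hab (ha.trans hbj.symm)
        exact absurd hax.2 (not_le.mpr (hkey b hbj x hx hlx'))
      · exact absurd hax.1 (not_le.mpr (hkey a ha x hx hlx'))
  · intro k
    by_cases hk : k = j
    · rw [hk, Function.update_self]
      exact ⟨hc.1, hw⟩
    · rw [Function.update_of_ne hk]
      exact ⟨hin k hk, (h3 k).2⟩
  · intro k hkm
    by_cases hk : k = j
    · rw [hk, Function.update_self]
      exact hc
    · rw [Function.update_of_ne hk]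
      have hkm' : (k : ℕ) < m := by
        have : (k : ℕ) ≠ m := fun hh => hk (Fin.ext hh)
        omega
      obtain ⟨_, f₁, f₂, hli, hsup⟩ := h4 k hkm'
      refine ⟨hin k hk, f₁, f₂, hli, ?_⟩
      intro x hx
      by_cases hlx : l j x ≤ c j
      · exact hsup x ((he x hlx).1 hx)
      · obtain ⟨t, ht0, ht1, hp, hlp⟩ :=
          Iter_cross K₂ hb.1 (l j) (c j) x (v k) hx (hin k hk) (hlow k hk) (not_le.mp hlx)
        have hp1 : (1 - t) • v k + t • x ∈ K₁ := (he _ hlp.le).1 hp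
        have hs := hsup _ hp1
        rw [map_add, map_smul, map_smul, smul_eq_mul, smul_eq_mul, map_add, map_smul, map_smul,
          smul_eq_mul, smul_eq_mul] at hs
        constructor
        · have : t * f₁ x ≤ t * f₁ (v k) := by linarith [hs.1]
          exact le_of_mul_le_mul_left this ht0
        · have : t * f₂ x ≤ t * f₂ (v k) := by linarith [hs.2]
          exact le_of_mul_le_mul_left this ht0
  · intro x hx
    exact (he x (hx j)).trans (h5 x hx)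

/-- the four caps one after another -/
theorem thm_iter (h : St_caplim) : St_iter := by
  intro K hK l c hcap hdisj hint n Φ hΦ z hz
  have key : ∀ m : ℕ, m ≤ 4 → ∃ (K' : Set (Fin 2 → ℝ)) (v : Fin 4 → (Fin 2 → ℝ)),
      Iter_Inv K l c m K' v ∧ Φ K z ≤ Φ K' z := by
    intro m
    induction m with
    | zero =>
      intro _
      choose v hv using hcap
      exact ⟨K, v, ⟨hK, hdisj, hv, fun j hj => absurd hj (Nat.not_lt_zero _),
        fun x _ => Iff.rfl⟩, le_rfl⟩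
    | succ m ih =>
      intro hm
      obtain ⟨K₁, v, hI, hle⟩ := ih (by omega)
      have hm4 : m < 4 := by omega
      have hz1 : ∀ i, z i ∈ K₁ ∧ l ⟨m, hm4⟩ (z i) ≤ c ⟨m, hm4⟩ := by
        intro i
        exact ⟨(hI.2.2.2.2 (z i) (hz i).2).2 (hz i).1, (hz i).2 _⟩
      have hi1 : (interior {x | x ∈ K₁ ∧ l ⟨m, hm4⟩ x ≤ c ⟨m, hm4⟩}).Nonempty := by
        apply hint.mono
        apply interior_mono
        intro x hx
        exact ⟨(hI.2.2.2.2 x hx.2).2 hx.1, hx.2 _⟩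
      obtain ⟨K₂, hb, he, hle2, w, hw, hc⟩ := h K₁ (l ⟨m, hm4⟩) (c ⟨m, hm4⟩) hI.1 hi1
        ⟨v ⟨m, hm4⟩, (hI.2.2.1 _).1, (hI.2.2.1 _).2⟩ n Φ hΦ z hz1
      exact ⟨K₂, Function.update v ⟨m, hm4⟩ w,
        Iter_step K l c m hm4 K₁ K₂ v w hI hb he hw hc, hle.trans hle2⟩
  obtain ⟨K', v, hI, hle⟩ := key 4 le_rfl
  refine ⟨K', hI.1, fun i => (hI.2.2.2.2 (z i) (hz i).2).2 (hz i).1, hle, v, ?_, ?_⟩
  · intro a b hab
    by_contra hne
    refine hI.2.1 a b hne (v a) (hI.2.2.1 a).1 ⟨(hI.2.2.1 a).2.le, ?_⟩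
    rw [hab]
    exact (hI.2.2.1 b).2.le
  · intro i
    exact hI.2.2.2.1 i i.isLt

end Pool.Agent.SYJ
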