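import Pool.Agent.SYJ.StE
import Pool.Agent.SYB.Bi

/-! # Sylvester problem, equality case: continuity of the volume and of the Sylvester functional
(module EC1) -/

set_option autoImplicit false

namespace Pool.Agent.SYJ

open MeasureTheory Set Filter Topology Pool.Agent.SYL

private theorem LimS_gen {X : Type} [MeasurableSpace X] {μ : Measure X} {f : X → ℝ}
    {A B : Set X} {P : ℕ → Set X} (hB : MeasurableSet B) (hA : MeasurableSet A)
    (hP : ∀ m, MeasurableSet (P m)) (hf : IntegrableOn f B μ) (hPB : ∀ m, P m ⊆ B)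
    (h : ∀ᵐ x ∂μ, (x ∈ A → ∀ᶠ m in atTop, x ∈ P m) ∧ (x ∉ A → ∀ᶠ m in atTop, x ∉ P m)) :
    Tendsto (fun m => ∫ x in P m, f x ∂μ) atTop (𝓝 (∫ x in A, f x ∂μ)) := by
  have e1 : ∀ m, ∫ x in P m, f x ∂μ = ∫ x, (P m).indicator f x ∂μ :=
    fun m => (integral_indicator (hP m)).symm
  have e2 : ∫ x in A, f x ∂μ = ∫ x, A.indicator f x ∂μ := (integral_indicator hA).symm
  rw [e2]
  simp_rw [e1]
  refine tendsto_integral_of_dominated_convergence (B.indicator fun x => ‖f x‖) ?_ ?_ ?_ ?_
  · intro m
    exact ((hf.mono_set (hPB m)).integrable_indicator (hP m)).aestronglyMeasurable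
  · exact IntegrableOn.integrable_indicator hf.norm hB
  · intro m
    refine Eventually.of_forall fun x => ?_
    by_cases hx : x ∈ P m
    · rw [indicator_of_mem hx, indicator_of_mem (hPB m hx)]
    · rw [indicator_of_notMem hx, norm_zero]
      exact indicator_nonneg (fun _ _ => norm_nonneg _) x
  · filter_upwards [h] with x hx
    by_cases hA' : x ∈ A
    · rw [indicator_of_mem hA']
      refine tendsto_const_nhds.congr' ?_
      filter_upwards [hx.1 hA'] with m hm
      rw [indicator_of_mem hm]
    · rw [indicator_of_notMem hA']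
      refine tendsto_const_nhds.congr' ?_
      filter_upwards [hx.2 hA'] with m hm
      rw [indicator_of_notMem hm]

theorem thm_slim : St_slim := by
  rintro d K P hK hc hne hP ⟨R, hR⟩ hin hout
  have hfr : volume (frontier K) = 0 := hc.addHaar_frontier volume
  have hae : ∀ᵐ x : Fin d → ℝ, x ∉ frontier K := measure_eq_zero_iff_ae_notMem.1 hfr
  have hpt : ∀ x : Fin d → ℝ, x ∉ frontier K →
      (x ∈ K → ∀ᶠ m in atTop, x ∈ P m) ∧ (x ∉ K → ∀ᶠ m in atTop, x ∉ P m) := by
    intro x hx
    refine ⟨fun h => hin x ?_, hout x⟩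
    by_contra h'
    exact hx ⟨subset_closure h, h'⟩
  obtain ⟨B, hBdef⟩ : ∃ B : Set (Fin d → ℝ), B = Metric.closedBall 0 R := ⟨_, rfl⟩
  have hPB : ∀ m, P m ⊆ B := fun m x hx => by
    rw [hBdef, mem_closedBall_zero_iff]
    exact hR m x hx
  have hBc : IsCompact B := by
    rw [hBdef]
    exact isCompact_closedBall _ _
  have hv : Tendsto (fun m => vol (P m)) atTop (𝓝 (vol K)) := by
    have h := LimS_gen (μ := (volume : Measure (Fin d → ℝ))) (f := fun _ => (1 : ℝ))
      hBc.measurableSet hK.measurableSet (fun m => (hP m).1.measurableSet)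
      (continuousOn_const.integrableOn_compact hBc) hPB (hae.mono hpt)
    simpa [vol, Measure.real] using h
  have hVc : Continuous (V : (Fin (d + 1) → (Fin d → ℝ)) → ℝ) := (Pool.Agent.SYB.hV d).1
  have hG : Tendsto (fun m => G d (P m)) atTop (𝓝 (G d K)) := by
    have hBB : IsCompact (Set.pi univ (fun _ : Fin (d + 1) => B)) :=
      isCompact_univ_pi fun _ => hBc
    refine LimS_gen (B := Set.pi univ (fun _ : Fin (d + 1) => B)) hBB.measurableSet
      (MeasurableSet.univ_pi fun _ => hK.measurableSet)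
      (fun m => MeasurableSet.univ_pi fun _ => (hP m).1.measurableSet)
      (hVc.continuousOn.integrableOn_compact hBB) (fun m => Set.pi_mono fun _ _ => hPB m) ?_
    have h1 : ∀ᵐ x : Fin (d + 1) → (Fin d → ℝ), ∀ i, x i ∉ frontier K := by
      rw [ae_all_iff]
      intro i
      exact (Measure.tendsto_eval_ae_ae (μ := fun _ : Fin (d + 1) =>
        (volume : Measure (Fin d → ℝ))) (i := i)).eventually hae
    filter_upwards [h1] with x hx
    constructor
    · intro h
      have h2 : ∀ᶠ m in atTop, ∀ i, x i ∈ P m :=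
        eventually_all.2 fun i => (hpt (x i) (hx i)).1 (h i trivial)
      exact h2.mono fun m hm i _ => hm i
    · intro h
      have h3 : ∃ i, x i ∉ K := by
        by_contra h4
        push Not at h4
        exact h fun i _ => h4 i
      obtain ⟨i, hi⟩ := h3
      exact ((hpt (x i) (hx i)).2 hi).mono fun m hm h5 => hm (h5 i trivial)
  have hpos : 0 < vol K := Pool.Agent.SYB.Bi_volpos ⟨hc, hK, hne⟩
  refine ⟨hv, ?_⟩
  unfold Sylv
  exact (tendsto_const_nhds.div (hv.pow (d + 2)) (pow_ne_zero _ hpos.ne')).mul hG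

end Pool.Agent.SYJ
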