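import Pool.Agent.SYL.Defs

/-! # The class generated by simplices and planar bodies under free sums -/

set_option autoImplicit false

namespace Pool.Agent.SYJ

open Set Pool.Agent.SYL

/-- The smallest class of subsets `D` of the spaces `Fin d → ℝ` which contains all simplices
(`IsSimplex`, points and segments included) and all planar convex bodies (`IsBody`, `d = 2`) and is
closed under affine isomorphisms and under free sums: for `A`, `B` in the class, `p ∈ A`, `q ∈ B` and
an affine isomorphism `f` of the product space onto `Fin d → ℝ`, the image under `f` of the convex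
hull of `A × {q} ∪ {p} × B` is in the class. -/
inductive FSClass : (d : ℕ) → Set (Fin d → ℝ) → Prop
  | simplex {d : ℕ} {T : Set (Fin d → ℝ)} (hT : IsSimplex T) : FSClass d T
  | planar {K : Set (Fin 2 → ℝ)} (hK : IsBody K) : FSClass 2 K
  | affine {d : ℕ} {K : Set (Fin d → ℝ)} (f : (Fin d → ℝ) ≃ᵃ[ℝ] (Fin d → ℝ))
      (hK : FSClass d K) : FSClass d (f '' K)
  | sum {a b d : ℕ} {A : Set (Fin a → ℝ)} {B : Set (Fin b → ℝ)} {p : Fin a → ℝ}
      {q : Fin b → ℝ} (f : ((Fin a → ℝ) × (Fin b → ℝ)) ≃ᵃ[ℝ] (Fin d → ℝ))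
      (hA : FSClass a A) (hp : p ∈ A) (hB : FSClass b B) (hq : q ∈ B) :
      FSClass d (f '' convexHull ℝ (A ×ˢ {q} ∪ {p} ×ˢ B))

end Pool.Agent.SYJ
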