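import Pool.Agent.SYJ.Base
import Pool.Agent.SYJ.Cls

/-! # Assembly, with the modules as hypotheses -/

set_option autoImplicit false

namespace Pool.Agent.SYJ

open MeasureTheory Set Pool.Agent.SYL

theorem Main0_good (hG : St_goodmap) (hS : St_simp) (hU : St_sum) (hP : St_planar)
    (hI : St_IsSimplex) {d : ℕ} {D : Set (Fin d → ℝ)} (h : FSClass d D) :
    Good (Fin d → ℝ) D := by
  induction h with
  | @simplex d T hT =>
    obtain ⟨V, hV, rfl⟩ := (hI d).1 T hT
    exact hS _ V hV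
  | @planar K hK => exact hP K hK
  | @affine d K f _ ih => exact hG _ _ f K ih
  | @sum a b d A B p q f _ hp _ hq ih1 ih2 =>
    have h1 := hG _ _ f _ (hU (Fin a → ℝ) (Fin b → ℝ) A p B q ih1 hp ih2 hq)
    have h2 : hs A p B q = convexHull ℝ (A ×ˢ {q} ∪ {p} ×ˢ B) := by
      unfold hs
      rw [prod_singleton, singleton_prod]
    rwa [h2] at h1

theorem Main0_fun (hM : St_mov) (hC : St_cont) (d : ℕ) :
    Fun (n := 0) (fun (K : Set (Fin d → ℝ)) (_ : Fin 0 → (Fin d → ℝ)) => Sylv d K) := by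
  constructor
  · intro K hK hb _ u β hβ hu hc _
    exact hM d K hK hb u β hβ hu hc
  · intro K P h1 h2 h3 h4 h5 h6 _ _ M h7
    exact hC d K P h1 h2 h3 h4 h5 h6 M h7

theorem Main0_main (hG : St_goodmap) (hS : St_simp) (hU : St_sum) (hP : St_planar)
    (hI : St_IsSimplex) (hM : St_mov) (hC : St_cont) (hE : St_same) {d : ℕ}
    {D : Set (Fin d → ℝ)} (h : FSClass d D) :
    IsBody D ∧ ∀ T : Set (Fin d → ℝ), IsSimplex T → Sylv d D ≤ Sylv d T := by
  obtain ⟨h1, h2, h3, h4⟩ := Main0_good hG hS hU hP hI h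
  refine ⟨⟨h2, h1, h3⟩, fun T hT => ?_⟩
  exact h4 0 _ (Main0_fun hM hC d) (Sylv d T) (fun V hV _ _ =>
    (hE d _ T ((hI d).2 V hV) hT).le) (fun i => i.elim0) (fun i => i.elim0)

end Pool.Agent.SYJ
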