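import Pool.Agent.SYJ.StE
import Pool.Agent.SYJ.Main0

/-! # Assembly with the equality case, with the modules as hypotheses -/

set_option autoImplicit false

namespace Pool.Agent.SYJ

open MeasureTheory Set Filter Topology Pool.Agent.SYL

theorem Main1_good (hG : St_sgoodmap) (hS : St_simp) (hU : St_sumS) (hP : St_planarS)
    (hI : St_IsSimplex) {d : ℕ} {D : Set (Fin d → ℝ)} (h : FSClass d D) :
    SGood (Fin d → ℝ) D := by
  induction h with
  | @simplex d T hT =>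
    obtain ⟨V, hV, rfl⟩ := (hI d).1 T hT
    exact ⟨hS _ V hV, fun hn => absurd ⟨V, hV, rfl⟩ hn⟩
  | @planar K hK => exact hP K hK
  | @affine d K f _ ih => exact hG _ _ f K ih
  | @sum a b d A B p q f _ hp _ hq ih1 ih2 =>
    have h1 := hG _ _ f _ (hU (Fin a → ℝ) (Fin b → ℝ) A p B q ih1 hp ih2 hq)
    have h2 : hs A p B q = convexHull ℝ (A ×ˢ {q} ∪ {p} ×ˢ B) := by
      unfold hs
      rw [prod_singleton, singleton_prod]
    rwa [h2] at h1

theorem Main1_fun (hM : St_mov) (hC : St_cont) (hSt : St_sstrict) (hL : St_slim) (d : ℕ) :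
    FunS (n := 0) (fun (K : Set (Fin d → ℝ)) (_ : Fin 0 → (Fin d → ℝ)) => Sylv d K) := by
  constructor
  · exact Main0_fun hM hC d
  · intro K h1 h2 h3 _ _ u β h4 h5 h6 h7 h8 h9 _ t₁ t₂ h10 h11
    exact hSt d K h1 h2 h3 u β h4 h5 h6 h7 h8 h9 t₁ t₂ h10 h11
  · intro K P h1 h2 h3 h4 h5 h6 h7 _ _ _
    exact (hL d K P h1 h2 h3 h4 h5 h6 h7).2

theorem Main1_main (hG : St_sgoodmap) (hS : St_simp) (hU : St_sumS) (hP : St_planarS)
    (hI : St_IsSimplex) (hM : St_mov) (hC : St_cont) (hSt : St_sstrict) (hL : St_slim)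
    (hE : St_same) {d : ℕ} {D : Set (Fin d → ℝ)} (h : FSClass d D) :
    IsBody D ∧ ∀ T : Set (Fin d → ℝ), IsSimplex T →
      Sylv d D ≤ Sylv d T ∧ (Sylv d D = Sylv d T ↔ IsSimplex D) := by
  obtain ⟨⟨h1, h2, h3, h4⟩, h5⟩ := Main1_good hG hS hU hP hI h
  refine ⟨⟨h2, h1, h3⟩, fun T hT => ?_⟩
  have hb : Bd (n := 0) (fun (K : Set (Fin d → ℝ)) (_ : Fin 0 → (Fin d → ℝ)) => Sylv d K)
      (Sylv d T) := fun V hV _ _ => (hE d _ T ((hI d).2 V hV) hT).le
  refine ⟨h4 0 _ (Main0_fun hM hC d) (Sylv d T) hb (fun i => i.elim0) (fun i => i.elim0), ?_, ?_⟩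
  · intro h6
    by_contra hn
    have h7 := h5 (by
      rintro ⟨V, hV, rfl⟩
      exact hn ((hI d).2 V hV)) 0 _ (Main1_fun hM hC hSt hL d) (Sylv d T) hb
      (fun i => i.elim0) (fun i => i.elim0)
    exact absurd h6 h7.ne
  · intro h6
    exact hE d D T h6 hT

end Pool.Agent.SYJ
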