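import Pool.Agent.SYJ.StE

/-! # Equality case: planar bodies are strictly good -/

set_option autoImplicit false

namespace Pool.Agent.SYJ

open MeasureTheory Set Filter Topology Pool.Agent.SYL

/-- A planar body with finitely many extreme points is the convex hull of them. -/
private theorem PlanS_hull {K : Set (Fin 2 → ℝ)} (hK : IsBody K)
    (hf : (extremePoints ℝ K).Finite) :
    convexHull ℝ ((hf.toFinset : Finset (Fin 2 → ℝ)) : Set (Fin 2 → ℝ)) = K := by
  obtain ⟨hv, hc, hi⟩ := hK
  rw [hf.coe_toFinset]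
  have h1 := closure_convexHull_extremePoints hc hv
  have h2 : IsClosed (convexHull ℝ (extremePoints ℝ K)) :=
    (hf.isCompact_convexHull ℝ).isClosed
  rw [h2.closure_eq] at h1
  exact h1

/-- Its extreme points are corners. -/
private theorem PlanS_corner (h5 : St_cornerhull) {K : Set (Fin 2 → ℝ)} (hK : IsBody K)
    (hf : (extremePoints ℝ K).Finite) (h4 : 4 ≤ hf.toFinset.card) {s : Fin 2 → ℝ}
    (hs : s ∈ hf.toFinset) : Corner K s := by
  classical
  have hh := PlanS_hull hK hf
  obtain ⟨hv, hc, hi⟩ := hK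
  have hse : s ∈ extremePoints ℝ K := hf.mem_toFinset.1 hs
  have hnot : s ∉ convexHull ℝ (K \ {s}) := by
    have h1 := (hv.mem_extremePoints_iff_mem_sdiff_convexHull_sdiff).1 hse
    exact h1.2
  have hsub : ((hf.toFinset.erase s : Finset (Fin 2 → ℝ)) : Set (Fin 2 → ℝ)) ⊆ K \ {s} := by
    intro y hy
    rw [Finset.mem_coe, Finset.mem_erase] at hy
    exact ⟨extremePoints_subset (hf.mem_toFinset.1 hy.2), fun h => hy.1 h⟩
  have hne : (hf.toFinset.erase s).Nonempty := by
    rw [← Finset.card_pos, Finset.card_erase_of_mem hs]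
    omega
  have h1 := h5 (convexHull ℝ ((hf.toFinset.erase s : Finset (Fin 2 → ℝ)) : Set (Fin 2 → ℝ))) s
    ((Finset.finite_toSet _).isCompact_convexHull ℝ) (convex_convexHull ℝ _)
    (by
      rw [convexHull_nonempty_iff]
      exact hne)
    (fun h => hnot (convexHull_mono hsub h))
  have h2 : convexHull ℝ (convexHull ℝ
      ((hf.toFinset.erase s : Finset (Fin 2 → ℝ)) : Set (Fin 2 → ℝ)) ∪ {s}) = K := by
    refine Subset.antisymm (convexHull_min ?_ hv) ?_
    · refine union_subset ?_ ?_
      · refine convexHull_min (fun y hy => (hsub hy).1) hv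
      · rw [singleton_subset_iff]
        exact hse.1
    · conv_lhs => rw [← hh]
      refine convexHull_mono ?_
      intro y hy
      by_cases hys : y = s
      · right
        exact hys
      · left
        refine subset_convexHull ℝ _ ?_
        rw [Finset.mem_coe, Finset.mem_erase]
        exact ⟨hys, hy⟩
  rw [h2] at h1
  exact h1

theorem thm_planarS (h1 : St_planar) (h2 : St_four) (h3 : St_caps4) (h4 : St_iter)
    (h5 : St_cornerhull) : St_planarS := by
  classical
  intro K hK
  refine ⟨h1 K hK, ?_⟩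
  intro hns n Φ hΦ M hM z hz
  by_cases hinf : (extremePoints ℝ K).Infinite
  · obtain ⟨l, c, ha, hb, hc, hd⟩ := h3 K hK hinf (Finset.univ.image z) (by
      intro w hw
      obtain ⟨i, -, rfl⟩ := Finset.mem_image.1 hw
      exact hz i)
    obtain ⟨K', hK', hz', hle, v, hvi, hvc⟩ := h4 K hK l c ha hb hd n Φ hΦ z (fun i =>
      ⟨hz i, fun j => (hc (z i) (Finset.mem_image_of_mem _ (Finset.mem_univ i)) j).le⟩)
    exact lt_of_le_of_lt hle (h2 K' hK' v hvi hvc n Φ hΦ M hM z hz')
  · have hf : (extremePoints ℝ K).Finite := not_infinite.1 hinf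
    have hh := PlanS_hull hK hf
    have h4c : 4 ≤ hf.toFinset.card := by
      by_contra hlt
      refine hns ⟨hf.toFinset, ⟨?_, ?_⟩, hh.symm⟩
      · rw [Module.finrank_fin_fun]
        omega
      · rw [← interior_convexHull_nonempty_iff_affineSpan_eq_top, hh]
        exact hK.2.2
    obtain ⟨t, ht, htc⟩ := Finset.exists_subset_card_eq h4c
    let e := t.equivFinOfCardEq htc
    refine h2 K hK (fun i => (e.symm i : Fin 2 → ℝ)) ?_ ?_ n Φ hΦ M hM z hz
    · intro i j hij
      exact e.symm.injective (Subtype.ext hij)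
    · intro i
      exact PlanS_corner h5 hK hf h4c (ht (e.symm i).2)

end Pool.Agent.SYJ
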