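import Pool.Agent.SYJ.StE

/-! # Equality case: a point with determinant zero which is moved off (module EM1) -/

set_option autoImplicit false

namespace Pool.Agent.SYJ

open MeasureTheory Set Filter Topology Pool.Agent.SYL

/-- a failure of affinity on a convex set -/
private theorem Pt_fail {E : Type} [AddCommGroup E] [Module ℝ E] (U : Set E) (hU : Convex ℝ U)
    (β : E → ℝ) (h : ¬ (ConvexOn ℝ U β ∧ ConcaveOn ℝ U β)) :
    ∃ y ∈ U, ∃ z ∈ U, ∃ a b : ℝ, 0 ≤ a ∧ 0 ≤ b ∧ a + b = 1 ∧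
      β (a • y + b • z) ≠ a * β y + b * β z := by
  by_contra hcon
  push Not at hcon
  apply h
  constructor
  · refine ⟨hU, fun y hy z hz a b ha hb hab => ?_⟩
    rw [hcon y hy z hz a b ha hb hab]
    simp
  · refine ⟨hU, fun y hy z hz a b ha hb hab => ?_⟩
    rw [hcon y hy z hz a b ha hb hab]
    simp

/-- the direction of the failure is independent of the direction of the movement -/
private theorem Pt_indep {E : Type} [AddCommGroup E] [Module ℝ E] (u : E) (hu : u ≠ 0)
    (β : E → ℝ) (hβ : ∀ (x : E) (s : ℝ), β (x + s • u) = β x) (y z : E) (a b : ℝ)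
    (hab : a + b = 1) (h : β (a • y + b • z) ≠ a * β y + b * β z) :
    LinearIndependent ℝ ![z - y, u] := by
  rw [LinearIndependent.pair_iff]
  intro s t hst
  have hs : s = 0 := by
    by_contra hs
    apply h
    have h1 : z = y + (-(s⁻¹ * t)) • u := by
      have h2 : s⁻¹ • (s • (z - y) + t • u) = 0 := by rw [hst, smul_zero]
      rw [smul_add, smul_smul, smul_smul, inv_mul_cancel₀ hs, one_smul] at h2
      have h3 : z - y = -((s⁻¹ * t) • u) := eq_neg_of_add_eq_zero_left h2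
      rw [neg_smul, ← h3]
      abel
    have h4 : a • y + b • z = y + (b * (-(s⁻¹ * t))) • u := by
      rw [h1, smul_add, smul_smul, ← add_assoc, ← add_smul, hab, one_smul]
    rw [h4, hβ, h1, hβ]
    rw [← add_mul, hab, one_mul]
  refine ⟨hs, ?_⟩
  rw [hs, zero_smul, zero_add] at hst
  rcases smul_eq_zero.1 hst with h1 | h1
  · exact h1
  · exact absurd h1 hu

/-- vectors which complete an independent pair to a spanning set -/
private theorem Pt_ext {m : ℕ} (w u : Fin (m + 2) → ℝ) (h : LinearIndependent ℝ ![w, u]) :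
    ∃ v : Fin m → (Fin (m + 2) → ℝ),
      ∀ S : Submodule ℝ (Fin (m + 2) → ℝ), w ∈ S → u ∈ S → (∀ k, v k ∈ S) → S = ⊤ := by
  classical
  obtain ⟨Q, hQ⟩ := Submodule.exists_isCompl (Submodule.span ℝ (Set.range ![w, u]))
  have h1 : Module.finrank ℝ (Submodule.span ℝ (Set.range ![w, u])) = 2 := by
    rw [finrank_span_eq_card h, Fintype.card_fin]
  have h2 := Submodule.finrank_add_eq_of_isCompl hQ
  rw [h1, Module.finrank_fin_fun] at h2
  have h3 : Module.finrank ℝ Q = m := by omega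
  obtain ⟨bQ⟩ : Nonempty (Module.Basis (Fin m) ℝ Q) := ⟨Module.finBasisOfFinrankEq ℝ Q h3⟩
  refine ⟨fun k => (bQ k : Fin (m + 2) → ℝ), fun S hw hu hv => ?_⟩
  rw [eq_top_iff, ← hQ.sup_eq_top, sup_le_iff]
  constructor
  · rw [Submodule.span_le]
    rintro _ ⟨i, rfl⟩
    fin_cases i
    · exact hw
    · exact hu
  · intro q hq
    have h4 : (⟨q, hq⟩ : Q) ∈ Submodule.span ℝ (Set.range bQ) := by
      rw [bQ.span_eq]
      exact Submodule.mem_top
    have h5 : Submodule.map Q.subtype (Submodule.span ℝ (Set.range bQ)) ≤ S := by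
      rw [Submodule.map_span, Submodule.span_le]
      rintro _ ⟨_, ⟨k, rfl⟩, rfl⟩
      exact hv k
    exact h5 ⟨_, h4, rfl⟩

/-- the points -/
private noncomputable def Pt_x {m : ℕ} (a b ε : ℝ) (y z : Fin (m + 2) → ℝ) (v : Fin m → (Fin (m + 2) → ℝ)) :
    Fin (m + 2 + 1) → (Fin (m + 2) → ℝ) :=
  Fin.cons (a • y + b • z) (Fin.cons y (Fin.cons z (fun k => y + ε • v k) :
    Fin (m + 1) → (Fin (m + 2) → ℝ)) : Fin (m + 2) → (Fin (m + 2) → ℝ))

private theorem Pt_zero {m : ℕ} (a b ε : ℝ) (hab : a + b = 1) (y z : Fin (m + 2) → ℝ)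
    (v : Fin m → (Fin (m + 2) → ℝ)) : dt (Pt_x a b ε y z v) = 0 := by
  unfold dt
  rw [← Matrix.exists_vecMul_eq_zero_iff]
  refine ⟨Fin.cons a (Fin.cons b (fun _ : Fin m => (0 : ℝ)) : Fin (m + 1) → ℝ), ?_, ?_⟩
  · intro h
    have h0 := congrFun h 0
    have h1 := congrFun h 1
    have h2 : a = 0 := h0
    have h3 : b = 0 := h1
    rw [h2, h3] at hab
    norm_num at hab
  · ext j
    rw [Matrix.vecMul, dotProduct, Fin.sum_univ_succ, Fin.sum_univ_succ, Finset.sum_eq_zero]
    · have e1 : (Pt_x a b ε y z v) (Fin.succ 0) = y := rfl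
      have e2 : (Pt_x a b ε y z v) (Fin.succ (Fin.succ 0)) = z := rfl
      have e3 : (Pt_x a b ε y z v) 0 = a • y + b • z := rfl
      have f1 : (Fin.cons a (Fin.cons b (fun _ : Fin m => (0 : ℝ)) : Fin (m + 1) → ℝ) :
        Fin (m + 2) → ℝ) 0 = a := rfl
      have f2 : (Fin.cons a (Fin.cons b (fun _ : Fin m => (0 : ℝ)) : Fin (m + 1) → ℝ) :
        Fin (m + 2) → ℝ) (Fin.succ 0) = b := rfl
      rw [f1, f2, Matrix.of_apply, Matrix.of_apply, e1, e2, e3]
      simp only [Pi.sub_apply, Pi.add_apply, Pi.smul_apply, smul_eq_mul, Pi.zero_apply, add_zero]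
      have hb : b = 1 - a := by linarith
      rw [hb]
      ring
    · intro i _
      have f3 : (Fin.cons a (Fin.cons b (fun _ : Fin m => (0 : ℝ)) : Fin (m + 1) → ℝ) :
        Fin (m + 2) → ℝ) (Fin.succ (Fin.succ i)) = 0 := rfl
      rw [f3, zero_mul]

private theorem Pt_ne {m : ℕ} (a b ε : ℝ) (hab : a + b = 1) (hε : ε ≠ 0) (y z : Fin (m + 2) → ℝ)
    (v : Fin m → (Fin (m + 2) → ℝ)) (u : Fin (m + 2) → ℝ) (β : (Fin (m + 2) → ℝ) → ℝ)
    (hv : ∀ S : Submodule ℝ (Fin (m + 2) → ℝ), z - y ∈ S → u ∈ S → (∀ k, v k ∈ S) → S = ⊤)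
    (h : β (a • y + b • z) ≠ a * β y + b * β z) :
    dt (fun i => Pt_x a b ε y z v i + β (Pt_x a b ε y z v i) • u) ≠ 0 := by
  have hspan : Submodule.span ℝ (Set.range fun i : Fin (m + 2) =>
      (Pt_x a b ε y z v i.succ + β (Pt_x a b ε y z v i.succ) • u) -
      (Pt_x a b ε y z v 0 + β (Pt_x a b ε y z v 0) • u)) = ⊤ := by
    obtain ⟨r, hr⟩ : ∃ r : Fin (m + 2) → (Fin (m + 2) → ℝ), r = fun i : Fin (m + 2) =>
      (Pt_x a b ε y z v i.succ + β (Pt_x a b ε y z v i.succ) • u) -
      (Pt_x a b ε y z v 0 + β (Pt_x a b ε y z v 0) • u) := ⟨_, rfl⟩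
    rw [← hr]
    obtain ⟨c, hc⟩ : ∃ c, c = β (a • y + b • z) := ⟨_, rfl⟩
    have hb : b = 1 - a := by linarith
    have r0 : r 0 = (-b) • (z - y) + (β y - c) • u := by
      rw [hr, hc]
      show (y + β y • u) - ((a • y + b • z) + β (a • y + b • z) • u) = _
      ext j
      simp only [Pi.sub_apply, Pi.add_apply, Pi.smul_apply, smul_eq_mul, hb]
      ring
    have r1 : r 1 = a • (z - y) + (β z - c) • u := by
      rw [hr, hc]
      show (z + β z • u) - ((a • y + b • z) + β (a • y + b • z) • u) = _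
      ext j
      simp only [Pi.sub_apply, Pi.add_apply, Pi.smul_apply, smul_eq_mul, hb]
      ring
    have r2 : ∀ k : Fin m, r k.succ.succ = ε • v k + (-b) • (z - y) +
        (β (y + ε • v k) - c) • u := by
      intro k
      rw [hr, hc]
      show (y + ε • v k + β (y + ε • v k) • u) - ((a • y + b • z) + β (a • y + b • z) • u) = _
      ext j
      simp only [Pi.sub_apply, Pi.add_apply, Pi.smul_apply, smul_eq_mul, hb]
      ring
    obtain ⟨D, hD⟩ : ∃ D, D = c - (a * β y + b * β z) := ⟨_, rfl⟩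
    have hD0 : D ≠ 0 := by
      rw [hD, hc]
      exact sub_ne_zero.2 h
    have hmem : ∀ i, r i ∈ Submodule.span ℝ (Set.range r) := fun i =>
      Submodule.subset_span ⟨i, rfl⟩
    -- combination for `u`
    have hu : u ∈ Submodule.span ℝ (Set.range r) := by
      have h1 : u = (-D⁻¹ * a) • r 0 + (-D⁻¹ * b) • r 1 := by
        have h2 : (-D) • u = a • r 0 + b • r 1 := by
          rw [r0, r1, hD]
          ext j
          simp only [Pi.sub_apply, Pi.add_apply, Pi.smul_apply, smul_eq_mul]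
          have : c = (a + b) * c := by rw [hab, one_mul]
          linear_combination (-(u j)) * this
        have h3 : u = (-D⁻¹) • ((-D) • u) := by
          rw [smul_smul, neg_mul_neg, inv_mul_cancel₀ hD0, one_smul]
        rw [h2, smul_add, smul_smul, smul_smul] at h3
        exact h3
      rw [h1]
      exact Submodule.add_mem _ (Submodule.smul_mem _ _ (hmem 0)) (Submodule.smul_mem _ _ (hmem 1))
    have hw : z - y ∈ Submodule.span ℝ (Set.range r) := by
      have h1 : z - y = (r 1 - r 0) - (β z - β y) • u := by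
        rw [r0, r1]
        ext j
        simp only [Pi.sub_apply, Pi.add_apply, Pi.smul_apply, smul_eq_mul, hb]
        ring
      rw [h1]
      exact Submodule.sub_mem _ (Submodule.sub_mem _ (hmem 1) (hmem 0)) (Submodule.smul_mem _ _ hu)
    refine hv _ hw hu (fun k => ?_)
    have h1 : v k = ε⁻¹ • (r k.succ.succ - (-b) • (z - y) - (β (y + ε • v k) - c) • u) := by
      rw [r2 k]
      have h2 : ε • v k + (-b) • (z - y) + (β (y + ε • v k) - c) • u - (-b) • (z - y) -
          (β (y + ε • v k) - c) • u = ε • v k := by abel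
      rw [h2, smul_smul, inv_mul_cancel₀ hε, one_smul]
    rw [h1]
    exact Submodule.smul_mem _ _ (Submodule.sub_mem _ (Submodule.sub_mem _ (hmem _)
      (Submodule.smul_mem _ _ hw)) (Submodule.smul_mem _ _ hu))
  have hli := linearIndependent_of_top_le_span_of_card_eq_finrank (le_of_eq hspan.symm)
    (by rw [Fintype.card_fin, Module.finrank_fin_fun])
  unfold dt
  have h1 : LinearIndependent ℝ (Matrix.of fun i : Fin (m + 2) =>
      (Pt_x a b ε y z v i.succ + β (Pt_x a b ε y z v i.succ) • u) -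
      (Pt_x a b ε y z v 0 + β (Pt_x a b ε y z v 0) • u)).row := hli
  rw [Matrix.linearIndependent_rows_iff_isUnit, Matrix.isUnit_iff_isUnit_det] at h1
  exact h1.ne_zero

theorem thm_point : St_point := by
  intro d U hUo hUc u β hu hβ hcc
  obtain ⟨y, hy, z, hz, a, b, ha, hb, hab, hne⟩ := Pt_fail U hUc β hcc
  have hli := Pt_indep u hu β hβ y z a b hab hne
  have hd : 2 ≤ d := by
    have := hli.fintype_card_le_finrank
    rwa [Fintype.card_fin, Module.finrank_fin_fun] at this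
  obtain ⟨m, rfl⟩ : ∃ m, d = m + 2 := ⟨d - 2, by omega⟩
  obtain ⟨v, hv⟩ := Pt_ext (z - y) u hli
  obtain ⟨ε, hε, hεU⟩ : ∃ ε : ℝ, ε ≠ 0 ∧ ∀ k, y + ε • v k ∈ U := by
    have h1 : ∀ᶠ ε : ℝ in 𝓝[≠] 0, ∀ k, y + ε • v k ∈ U := by
      rw [Filter.eventually_all]
      intro k
      have h2 : Tendsto (fun ε : ℝ => y + ε • v k) (𝓝 0) (𝓝 (y + (0 : ℝ) • v k)) :=
        (Continuous.tendsto (by fun_prop) 0)
      rw [zero_smul, add_zero] at h2
      exact (h2.mono_left nhdsWithin_le_nhds) (hUo.mem_nhds hy)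
    obtain ⟨ε, h3, h4⟩ := (h1.and self_mem_nhdsWithin).exists
    exact ⟨ε, h4, h3⟩
  refine ⟨Pt_x a b ε y z v, ?_, Pt_zero a b ε hab y z v, Pt_ne a b ε hab hε y z v u β hv hne⟩
  intro i
  refine Fin.cases ?_ (fun i => Fin.cases ?_ (fun i => Fin.cases ?_ (fun i => ?_) i) i) i
  · exact hUc hy hz ha hb hab
  · exact hy
  · exact hz
  · exact hεU i

end Pool.Agent.SYJ
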