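import Pool.Agent.SYJ.StE
import Pool.Agent.SYJ.Push

/-! # Equality case: the push of a strict functional -/

set_option autoImplicit false

namespace Pool.Agent.SYJ

open MeasureTheory Set Filter Topology Pool.Agent.SYL

/-- the speed of the movement of the free sum -/
noncomputable def PushS_speed {E F : Type} [AddCommGroup E] [Module ℝ E] [AddCommGroup F]
    [Module ℝ F] (B : Set F) (q : F) (p : E) (b0 : ℝ) (β : E → ℝ) : E × F → ℝ := fun w =>
  (1 - B.indicator (gg B q) w.2) * β ((1 - B.indicator (gg B q) w.2)⁻¹ •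
    (w.1 - B.indicator (gg B q) w.2 • p)) + B.indicator (gg B q) w.2 * b0

section

variable {E F : Type} [NormedAddCommGroup E] [NormedSpace ℝ E]
  [FiniteDimensional ℝ E] [MeasurableSpace E] [BorelSpace E]
  [NormedAddCommGroup F] [NormedSpace ℝ F] [FiniteDimensional ℝ F] [MeasurableSpace F]
  [BorelSpace F]

theorem PushS_val {B : Set F} {q : F} (h01 : ∀ y ∈ B, 0 ≤ gg B q y ∧ gg B q y ≤ 1) (p : E)
    (b0 : ℝ) (β : E → ℝ) (y : F) (hy : y ∈ B) (a : E) :
    PushS_speed B q p b0 β ((1 - gg B q y) • a + gg B q y • p, y) =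
      (1 - gg B q y) * β a + gg B q y * b0 := by
  unfold PushS_speed
  simp only []
  rw [indicator_of_mem hy, add_sub_cancel_right, smul_smul]
  rcases lt_or_eq_of_le (h01 y hy).2 with h4 | h4
  · rw [inv_mul_cancel₀ (by linarith), one_smul]
  · rw [h4, sub_self, zero_mul, zero_mul]

theorem PushS_meas {B : Set F} {q : F} (hmeas : Measurable (B.indicator (gg B q))) (p : E)
    (b0 : ℝ) {β : E → ℝ} (hβ : Measurable β) : Measurable (PushS_speed B q p b0 β) := by
  have hms : Measurable fun w : E × F => B.indicator (gg B q) w.2 := hmeas.comp measurable_snd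
  exact ((measurable_const.sub hms).mul (hβ.comp (((measurable_const.sub hms).inv).smul
        (measurable_fst.sub (hms.smul measurable_const))))).add (hms.mul measurable_const)

theorem PushS_inv (B : Set F) (q : F) (p : E) (b0 : ℝ) {β : E → ℝ} {u : E}
    (hinv : ∀ (x : E) (s : ℝ), β (x + s • u) = β x) (x : E × F) (s : ℝ) :
    PushS_speed B q p b0 β (x + s • ((u, 0) : E × F)) = PushS_speed B q p b0 β x := by
  unfold PushS_speed
  have e1 : (x + s • ((u, 0) : E × F)).2 = x.2 := by simp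
  have e2 : (x + s • ((u, 0) : E × F)).1 = x.1 + s • u := by simp
  rw [e1, e2]
  have e3 : (1 - B.indicator (gg B q) x.2)⁻¹ • (x.1 + s • u - B.indicator (gg B q) x.2 • p) =
      (1 - B.indicator (gg B q) x.2)⁻¹ • (x.1 - B.indicator (gg B q) x.2 • p) +
        ((1 - B.indicator (gg B q) x.2)⁻¹ * s) • u := by
    rw [← smul_smul, ← smul_add]
    congr 1
    abel
  rw [e3, hinv]

theorem PushS_bdd {K : Set E} {B : Set F} {q : F}
    (h01 : ∀ y ∈ B, 0 ≤ gg B q y ∧ gg B q y ≤ 1) (p : E) (b0 : ℝ) {β : E → ℝ} {C : ℝ}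
    (hC : ∀ x ∈ K, |β x| ≤ C) : ∃ C', ∀ x ∈ fs K p B q, |PushS_speed B q p b0 β x| ≤ C' := by
  refine ⟨|C| + |b0|, ?_⟩
  rintro x ⟨hx, a, ha, hxa⟩
  have e : x = ((1 - gg B q x.2) • a + gg B q x.2 • p, x.2) := Prod.ext hxa rfl
  rw [e, PushS_val h01 p b0 β x.2 hx a]
  obtain ⟨g0, g1⟩ := h01 _ hx
  have h5 := abs_add_le ((1 - gg B q x.2) * β a) (gg B q x.2 * b0)
  rw [abs_mul, abs_mul, abs_of_nonneg g0,
    abs_of_nonneg (show 0 ≤ 1 - gg B q x.2 by linarith)] at h5
  have h6 := hC a ha
  have h7 := le_abs_self C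
  have h8 := abs_nonneg (β a)
  have h9 := abs_nonneg b0
  nlinarith

theorem PushS_arg {g : ℝ} {x a p : E} (hg : g < 1) (h : x = (1 - g) • a + g • p) :
    (1 - g)⁻¹ • (x - g • p) = a := by
  rw [h, add_sub_cancel_right, smul_smul, inv_mul_cancel₀ (by linarith), one_smul]

theorem PushS_cont (h3 : St_int) (h5 : St_gcont) (h6 : St_int2) {K : Set E} {B : Set F} {q : F}
    {p : E} (hK : IsCompact K) (hKc : Convex ℝ K) (hKi : (interior K).Nonempty) (hp : p ∈ K)
    (hB : IsCompact B) (hBc : Convex ℝ B) (hq : q ∈ B) (hBi : (interior B).Nonempty) (b0 : ℝ)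
    {β : E → ℝ} (hβ : ContinuousOn β (interior K)) :
    ContinuousOn (PushS_speed B q p b0 β) (interior (hs K p B q)) := by
  obtain ⟨-, hgc, hg1, -⟩ := h5 F B q hB hBc hq
  have hi2 := (h3 E F K p B q hK hKc hp hKi hB hBc hq hBi).2
  have hj1 := (h6 E F K p B q hK hKc hp hB hBc hq).1
  have hind : ∀ w ∈ interior (hs K p B q), B.indicator (gg B q) w.2 = gg B q w.2 :=
    fun w hw => indicator_of_mem (interior_subset (hj1 w hw)) _
  have hh : ContinuousOn (fun w : E × F => B.indicator (gg B q) w.2)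
      (interior (hs K p B q)) := by
    have h7 : ContinuousOn (fun w : E × F => gg B q w.2) (interior (hs K p B q)) :=
      hgc.comp continuous_snd.continuousOn hj1
    exact h7.congr hind
  have harg : ContinuousOn (fun w : E × F => (1 - B.indicator (gg B q) w.2)⁻¹ •
      (w.1 - B.indicator (gg B q) w.2 • p)) (interior (hs K p B q)) := by
    refine ContinuousOn.smul (ContinuousOn.inv₀ (continuousOn_const.sub hh) ?_)
      (continuous_fst.continuousOn.sub (hh.smul continuousOn_const))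
    intro w hw
    rw [hind w hw]
    have := hg1 _ (hj1 w hw)
    linarith
  have hmaps : MapsTo (fun w : E × F => (1 - B.indicator (gg B q) w.2)⁻¹ •
      (w.1 - B.indicator (gg B q) w.2 • p)) (interior (hs K p B q)) (interior K) := by
    intro w hw
    obtain ⟨-, a, ha, hwa⟩ := hi2 w hw
    simp only []
    rw [hind w hw, PushS_arg (hg1 _ (hj1 w hw)) hwa]
    exact ha
  exact ((continuousOn_const.sub hh).mul (hβ.comp harg hmaps)).add (hh.mul continuousOn_const)

theorem PushS_naff (h5 : St_gcont) (h6 : St_int2) {K : Set E} {B : Set F} {q : F}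
    (h01 : ∀ y ∈ B, 0 ≤ gg B q y ∧ gg B q y ≤ 1) {p : E} (hK : IsCompact K)
    (hKc : Convex ℝ K) (hp : p ∈ K) (hB : IsCompact B) (hBc : Convex ℝ B) (hq : q ∈ B)
    (hBi : (interior B).Nonempty) (b0 : ℝ) {β : E → ℝ}
    (h : ConvexOn ℝ (interior (hs K p B q)) (PushS_speed B q p b0 β)) :
    ConvexOn ℝ (interior K) β := by
  obtain ⟨y, hy⟩ := hBi
  have hyB := interior_subset hy
  have hg1 := (h5 F B q hB hBc hq).2.2.1 y hy
  have hj2 := (h6 E F K p B q hK hKc hp hB hBc hq).2 y hy
  refine ⟨hKc.interior, fun a ha a' ha' l m hl hm hlm => ?_⟩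
  have h7 := h.2 (hj2 a ha) (hj2 a' ha') hl hm hlm
  have e : l • (((1 - gg B q y) • a + gg B q y • p, y) : E × F) +
      m • (((1 - gg B q y) • a' + gg B q y • p, y) : E × F) =
      ((1 - gg B q y) • (l • a + m • a') + gg B q y • p, y) := by
    have hm' : m = 1 - l := by linarith
    subst hm'
    refine Prod.ext ?_ ?_
    · simp only [Prod.fst_add, Prod.smul_fst]
      module
    · simp only [Prod.snd_add, Prod.smul_snd]
      module
  rw [e, PushS_val h01, PushS_val h01, PushS_val h01] at h7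
  all_goals first | exact hyB | skip
  simp only [smul_eq_mul] at h7 ⊢
  have h8 : 0 < 1 - gg B q y := by linarith
  have h9 : (1 - gg B q y) * β (l • a + m • a') ≤
      (1 - gg B q y) * (l * β a + m * β a') := by
    have hm' : m = 1 - l := by linarith
    subst hm'
    nlinarith
  exact le_of_mul_le_mul_left h9 h8

theorem PushS_naff' (h5 : St_gcont) (h6 : St_int2) {K : Set E} {B : Set F} {q : F}
    (h01 : ∀ y ∈ B, 0 ≤ gg B q y ∧ gg B q y ≤ 1) {p : E} (hK : IsCompact K)
    (hKc : Convex ℝ K) (hp : p ∈ K) (hB : IsCompact B) (hBc : Convex ℝ B) (hq : q ∈ B)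
    (hBi : (interior B).Nonempty) (b0 : ℝ) {β : E → ℝ}
    (h : ConcaveOn ℝ (interior (hs K p B q)) (PushS_speed B q p b0 β)) :
    ConcaveOn ℝ (interior K) β := by
  have h7 : ConvexOn ℝ (interior (hs K p B q)) (PushS_speed B q p (-b0) (fun x => -β x)) := by
    have e : PushS_speed B q p (-b0) (fun x => -β x) = -PushS_speed B q p b0 β := by
      funext w
      unfold PushS_speed
      simp only [Pi.neg_apply]
      ring
    rw [e]
    exact h.neg
  have h8 := PushS_naff h5 h6 h01 hK hKc hp hB hBc hq hBi (-b0) h7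
  have h9 := h8.neg
  have e : (-fun x => -β x) = β := by
    funext x
    simp
  rwa [e] at h9

end

theorem thm_pushS (h1 : St_gauge) (h2 : St_hull) (h3 : St_int) (h4 : St_push) (h5 : St_gcont)
    (h6 : St_int2) : St_pushS := by
  intro E F _ _ _ _ _ _ _ _ _ _ n Φ B q c hΦ hB hBc hq hBi hc
  obtain ⟨h01, hgq, -, -, hmeas⟩ := h1 F B q hB hBc hq
  have hpts : ∀ (K : Set E) (z : Fin (n + 1) → E), (∀ i, z i ∈ K) → ∀ i : Fin n,
      (match c i with
        | none => ((z i.succ, q) : E × F)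
        | some y => (z 0, y)) ∈ fs K (z 0) B q := by
    intro K z hz i
    cases hci : c i with
    | none =>
      refine ⟨hq, z i.succ, hz _, ?_⟩
      show z i.succ = (1 - gg B q q) • z i.succ + gg B q q • z 0
      rw [hgq]
      simp
    | some y =>
      refine ⟨hc i y hci, z 0, hz 0, ?_⟩
      show z 0 = (1 - gg B q y) • z 0 + gg B q y • z 0
      rw [← add_smul]
      simp
  refine ⟨h4 E F n Φ B q c hΦ.fn hB hBc hq hBi hc, ?_, ?_⟩
  · intro K hK hKc hKi z hz u β hu hβ hinv hC hβc hna b t₁ t₂ ht₁ ht₂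
    obtain ⟨C, hC⟩ := hC
    obtain ⟨hKe, hKcp⟩ := h2 E F K (z 0) B q hK hKc (hz 0) hB hBc hq
    obtain ⟨hi1, hi2⟩ := h3 E F K (z 0) B q hK hKc (hz 0) hKi hB hBc hq hBi
    have hfun : ∀ t : ℝ, push Φ B q c (mv β u t '' K) (fun i => z i + (t * b i) • u) =
        Φ (mv (PushS_speed B q (z 0) (b 0) β) (u, 0) t '' fs K (z 0) B q)
          (fun i => (match c i with
          | none => (z i.succ, q)
          | some y => (z 0, y)) + (t * (match c i with
          | none => b i.succ
          | some _ => b 0)) • ((u, 0) : E × F)) := by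
      intro t
      unfold push
      rw [Push_image K (z 0) B q u β (b 0) t _ (fun y hy a => PushS_val h01 (z 0) (b 0) β y hy a)]
      congr 1
      funext i
      cases c i with
      | none => simp
      | some y => simp
    rw [hfun t₁, hfun t₂]
    unfold push
    rw [hKe]
    have hpt := hpts K z hz
    rw [hKe] at hpt
    refine hΦ.strict (hs K (z 0) B q) hKcp (convex_convexHull ℝ _) hi1 _ hpt (u, 0)
      (PushS_speed B q (z 0) (b 0) β) ?_ (PushS_meas hmeas _ _ hβ)
      (fun x s => PushS_inv B q (z 0) (b 0) hinv x s) ?_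
      (PushS_cont h3 h5 h6 hK hKc hKi (hz 0) hB hBc hq hBi (b 0) hβc) ?_ _ t₁ t₂ ht₁ ht₂
    · intro h
      exact hu (congrArg Prod.fst h)
    · have := PushS_bdd (K := K) h01 (z 0) (b 0) hC
      rwa [hKe] at this
    · rintro ⟨h7, h8⟩
      exact hna ⟨PushS_naff h5 h6 h01 hK hKc (hz 0) hB hBc hq hBi (b 0) h7,
        PushS_naff' h5 h6 h01 hK hKc (hz 0) hB hBc hq hBi (b 0) h8⟩
  · intro K P hK hKc hKi hP hR hin hout z hz hzP
    obtain ⟨R, hR⟩ := hR
    obtain ⟨hKe, hKcp⟩ := h2 E F K (z 0) B q hK hKc (hz 0) hB hBc hq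
    obtain ⟨hi1, hi2⟩ := h3 E F K (z 0) B q hK hKc (hz 0) hKi hB hBc hq hBi
    have hPi : ∀ m, fs (P m) (z 0) B q = hs (P m) (z 0) B q ∧ IsCompact (hs (P m) (z 0) B q) :=
      fun m => h2 E F (P m) (z 0) B q (hP m).1 (hP m).2 (hzP 0 m) hB hBc hq
    unfold push
    refine hΦ.lim (fs K (z 0) B q) (fun m => fs (P m) (z 0) B q) ?_ ?_ ?_ ?_ ?_ ?_ ?_ _
      (hpts K z hz) (fun i m => hpts (P m) z (fun j => hzP j m) i)
    · rw [hKe]
      exact hKcp
    · rw [hKe]
      exact convex_convexHull ℝ _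
    · rw [hKe]
      exact hi1
    · intro m
      rw [(hPi m).1]
      exact ⟨(hPi m).2, convex_convexHull ℝ _⟩
    · obtain ⟨RB, hRB⟩ := hB.isBounded.exists_norm_le
      refine ⟨|R| + ‖z 0‖ + |RB|, ?_⟩
      rintro m w ⟨hw, a, ha, h7⟩
      obtain ⟨g0, g1⟩ := h01 _ hw
      have h8 := norm_add_le ((1 - gg B q w.2) • a) (gg B q w.2 • z 0)
      rw [norm_smul, norm_smul, Real.norm_eq_abs, Real.norm_eq_abs, abs_of_nonneg g0,
        abs_of_nonneg (by linarith)] at h8
      have h9 := hR m a ha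
      have h10 := hRB _ hw
      have h11 := norm_nonneg a
      have h12 := norm_nonneg (z 0)
      have h13 := le_abs_self R
      have h14 := le_abs_self RB
      have h15 := abs_nonneg RB
      have h16 := abs_nonneg R
      rw [Prod.norm_def]
      refine max_le ?_ (by linarith)
      rw [h7]
      nlinarith
    · intro w hw
      rw [hKe] at hw
      obtain ⟨hwB, a, ha, hwa⟩ := hi2 w hw
      filter_upwards [hin a ha] with m hm
      exact ⟨hwB, a, hm, hwa⟩
    · intro w hw
      by_cases hwB : w.2 ∈ B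
      · rcases lt_or_eq_of_le (h01 _ hwB).2 with h7 | h7
        · have h8 : (1 - gg B q w.2)⁻¹ • (w.1 - gg B q w.2 • z 0) ∉ K := by
            intro h
            refine hw ⟨hwB, _, h, ?_⟩
            rw [smul_smul, mul_inv_cancel₀ (by linarith), one_smul, sub_add_cancel]
          filter_upwards [hout _ h8] with m hm
          rintro ⟨_, a, ha, hwa⟩
          apply hm
          rw [PushS_arg h7 hwa]
          exact ha
        · refine Eventually.of_forall fun m => ?_
          rintro ⟨_, a, ha, hwa⟩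
          refine hw ⟨hwB, z 0, hz 0, ?_⟩
          rw [hwa, h7, sub_self, zero_smul, zero_smul]
      · exact Eventually.of_forall fun m h => hwB h.1

end Pool.Agent.SYJ
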