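import Pool.Agent.SYJ.StE
import Pool.Agent.SYJ.Simpsum

/-! # Equality case: free sum of two simplices glued at a vertex of the first one -/

set_option autoImplicit false

namespace Pool.Agent.SYJ

open MeasureTheory Set Filter Topology Pool.Agent.SYL

theorem thm_simp2 : St_simp2 := by
  classical
  intro E F _ _ _ _ _ _ V W p q hV hW hp hq
  obtain ⟨f, hf⟩ := Simpsum_left (E := E) (F := F) q
  obtain ⟨g, hg⟩ := Simpsum_right (E := E) (F := F) p
  have hU : (((V.erase p).image f ∪ W.image g : Finset (E × F)) : Set (E × F)) =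
      (f '' ((V.erase p : Finset E) : Set E)) ∪ (g '' (W : Set F)) := by
    rw [Finset.coe_union, Finset.coe_image, Finset.coe_image]
  have hhull : convexHull ℝ (((V.erase p).image f ∪ W.image g : Finset (E × F)) : Set (E × F)) =
      convexHull ℝ ((f '' (V : Set E)) ∪ (g '' (W : Set F))) := by
    rw [hU]
    refine subset_antisymm ?_ ?_
    · refine convexHull_mono (union_subset_union_left _ (image_mono ?_))
      exact Finset.coe_subset.2 (Finset.erase_subset _ _)
    · refine convexHull_min ?_ (convex_convexHull ℝ _)
      have hgW : g '' (W : Set F) ⊆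
          convexHull ℝ ((f '' ((V.erase p : Finset E) : Set E)) ∪ (g '' (W : Set F))) :=
        subset_union_right.trans (subset_convexHull ℝ _)
      have hgq : g q ∈
          convexHull ℝ ((f '' ((V.erase p : Finset E) : Set E)) ∪ (g '' (W : Set F))) := by
        have h1 : g q ∈ g '' (convexHull ℝ (W : Set F)) := mem_image_of_mem g hq
        rw [AffineMap.image_convexHull] at h1
        exact convexHull_min hgW (convex_convexHull ℝ _) h1
      refine union_subset ?_ hgW
      rintro _ ⟨a, ha, rfl⟩
      by_cases hap : a = p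
      · rw [hap, hf, ← hg]
        exact hgq
      · refine subset_convexHull ℝ _ (Or.inl ⟨a, ?_, rfl⟩)
        exact Finset.mem_coe.2 (Finset.mem_erase.2 ⟨hap, ha⟩)
  refine ⟨(V.erase p).image f ∪ W.image g, ⟨?_, ?_⟩, ?_⟩
  · have h2 := Finset.card_union_le ((V.erase p).image f) (W.image g)
    have h4 : ((V.erase p).image f).card ≤ (V.erase p).card := Finset.card_image_le
    have h5 : (W.image g).card ≤ W.card := Finset.card_image_le
    have h8 : (V.erase p).card = V.card - 1 := Finset.card_erase_of_mem hp
    have h9 : 1 ≤ V.card := Finset.card_pos.2 ⟨p, hp⟩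
    have h6 := hV.1
    have h7 := hW.1
    rw [Module.finrank_prod]
    omega
  · rw [← affineSpan_convexHull, hhull, affineSpan_convexHull]
    have hE : ∀ x : E, (x, q) ∈ affineSpan ℝ ((f '' (V : Set E)) ∪ (g '' (W : Set F))) := by
      intro x
      have h1 : x ∈ affineSpan ℝ (V : Set E) := by rw [hV.2]; trivial
      have h2 : f x ∈ (affineSpan ℝ (V : Set E)).map f := (AffineSubspace.mem_map).2 ⟨x, h1, rfl⟩
      rw [AffineSubspace.map_span, hf] at h2
      exact affineSpan_mono ℝ subset_union_left h2
    have hF : ∀ y : F, (p, y) ∈ affineSpan ℝ ((f '' (V : Set E)) ∪ (g '' (W : Set F))) := by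
      intro y
      have h1 : y ∈ affineSpan ℝ (W : Set F) := by rw [hW.2]; trivial
      have h2 : g y ∈ (affineSpan ℝ (W : Set F)).map g := (AffineSubspace.mem_map).2 ⟨y, h1, rfl⟩
      rw [AffineSubspace.map_span, hg] at h2
      exact affineSpan_mono ℝ subset_union_right h2
    rw [eq_top_iff]
    rintro ⟨x, y⟩ _
    have h := AffineSubspace.smul_vsub_vadd_mem _ (1 : ℝ) (hE x) (hE p) (hF y)
    have h' : (1 : ℝ) • ((x, q) -ᵥ (p, q)) +ᵥ (p, y) = (x, y) := by
      ext <;> simp
    rw [h'] at h
    exact h
  · rw [hhull]
    unfold hs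
    have h1 : (fun a : E => (a, q)) = f := by
      funext a
      exact (hf a).symm
    have h2 : (fun b : F => (p, b)) = g := by
      funext b
      exact (hg b).symm
    rw [h1, h2, AffineMap.image_convexHull, AffineMap.image_convexHull,
      convexHull_convexHull_union_left, convexHull_convexHull_union_right]

end Pool.Agent.SYJ
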