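import Pool.Agent.SYJ.StE

/-! # Small shears of a planar body with two corners are convex -/

set_option autoImplicit false

namespace Pool.Agent.SYJ

open MeasureTheory Set Filter Topology Pool.Agent.SYL

private theorem Small_fun (f : (Fin 2 → ℝ) →ₗ[ℝ] ℝ) (x : Fin 2 → ℝ) :
    f x = f ![1, 0] * x 0 + f ![0, 1] * x 1 := by
  have h : x = x 0 • (![1, 0] : Fin 2 → ℝ) + x 1 • (![0, 1] : Fin 2 → ℝ) := by
    funext i
    fin_cases i <;> simp
  conv_lhs => rw [h]
  rw [map_add, map_smul, map_smul, smul_eq_mul, smul_eq_mul]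
  ring

private theorem Small_one (K : Set (Fin 2 → ℝ)) (e : ℝ) (he : e * e = 1) (hm : ![-e, 0] ∈ K)
    (hup : ∃ x ∈ K, 0 < x 1) (hdn : ∃ x ∈ K, x 1 < 0) (f : (Fin 2 → ℝ) →ₗ[ℝ] ℝ) (hf0 : f ≠ 0)
    (hf : ∀ x ∈ K, f x ≤ f ![e, 0]) :
    0 < f ![1, 0] * e ∧
      ∀ x ∈ K, e * x 0 ≤ 1 + (-(f ![0, 1]) / (f ![1, 0] * e)) * x 1 := by
  have hv : f ![e, 0] = f ![1, 0] * e := by
    rw [Small_fun f ![e, 0]]; simp
  have h1 : ∀ x ∈ K, f ![1, 0] * x 0 + f ![0, 1] * x 1 ≤ f ![1, 0] * e := by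
    intro x hx
    have := hf x hx
    rwa [Small_fun f x, hv] at this
  have h2 : 0 ≤ f ![1, 0] * e := by
    have := h1 _ hm
    simp at this
    linarith
  have h3 : 0 < f ![1, 0] * e := by
    rcases h2.lt_or_eq with h | h
    · exact h
    · exfalso
      have he0 : e ≠ 0 := by rintro rfl; simp at he
      have ha : f ![1, 0] = 0 := by
        rcases mul_eq_zero.1 h.symm with h | h
        · exact h
        · exact absurd h he0
      obtain ⟨x, hx, hx1⟩ := hup
      obtain ⟨y, hy, hy1⟩ := hdn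
      have h4 := h1 x hx
      have h5 := h1 y hy
      rw [ha] at h4 h5
      have hb : f ![0, 1] = 0 := by nlinarith
      apply hf0
      ext i
      fin_cases i
      · have e1 : (Pi.single 0 1 : Fin 2 → ℝ) = ![1, 0] := by
          funext j; fin_cases j <;> simp
        simp only [LinearMap.coe_comp, LinearMap.coe_single, Function.comp_apply,
          LinearMap.zero_comp, LinearMap.zero_apply]
        exact (congrArg f e1).trans ha
      · have e1 : (Pi.single 1 1 : Fin 2 → ℝ) = ![0, 1] := by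
          funext j; fin_cases j <;> simp
        simp only [LinearMap.coe_comp, LinearMap.coe_single, Function.comp_apply,
          LinearMap.zero_comp, LinearMap.zero_apply]
        exact (congrArg f e1).trans hb
  refine ⟨h3, fun x hx => ?_⟩
  have h4 := h1 x hx
  have h5 : e * x 0 = (f ![1, 0] * x 0) / (f ![1, 0] * e) := by
    rw [eq_div_iff h3.ne']
    calc e * x 0 * (f ![1, 0] * e) = (e * e) * (f ![1, 0] * x 0) := by ring
      _ = f ![1, 0] * x 0 := by rw [he, one_mul]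
  rw [h5]
  generalize f ![1, 0] * e = d at h3 h4 ⊢
  have h6 : (1 : ℝ) + (-(f ![0, 1]) / d) * x 1 = (d - f ![0, 1] * x 1) / d := by
    have hd := h3.ne'
    field_simp
    ring
  rw [h6]
  apply div_le_div_of_nonneg_right _ h3.le
  linarith

private theorem Small_slope (K : Set (Fin 2 → ℝ)) (e : ℝ) (he : e * e = 1)
    (hc : Corner K ![e, 0]) (hm : ![-e, 0] ∈ K)
    (hup : ∃ x ∈ K, 0 < x 1) (hdn : ∃ x ∈ K, x 1 < 0) :
    ∃ s₁ s₂ : ℝ, s₁ < s₂ ∧ ∀ x ∈ K, e * x 0 ≤ 1 + s₁ * x 1 ∧ e * x 0 ≤ 1 + s₂ * x 1 := by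
  obtain ⟨-, f₁, f₂, hli, hf⟩ := hc
  have hn1 : f₁ ≠ 0 := hli.ne_zero 0
  have hn2 : f₂ ≠ 0 := hli.ne_zero 1
  obtain ⟨p1, q1⟩ := Small_one K e he hm hup hdn f₁ hn1 (fun x hx => (hf x hx).1)
  obtain ⟨p2, q2⟩ := Small_one K e he hm hup hdn f₂ hn2 (fun x hx => (hf x hx).2)
  have hne : -(f₁ ![0, 1]) / (f₁ ![1, 0] * e) ≠ -(f₂ ![0, 1]) / (f₂ ![1, 0] * e) := by
    intro h
    rw [div_eq_div_iff p1.ne' p2.ne'] at h
    rw [LinearIndependent.pair_iff] at hli
    have he0 : e ≠ 0 := by rintro rfl; simp at he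
    have h' : f₁ ![0, 1] * f₂ ![1, 0] = f₂ ![0, 1] * f₁ ![1, 0] := by
      have : e * (f₁ ![0, 1] * f₂ ![1, 0] - f₂ ![0, 1] * f₁ ![1, 0]) = 0 := by linarith
      rcases mul_eq_zero.1 this with h | h
      · exact absurd h he0
      · linarith
    have h1 := (hli (f₂ ![1, 0]) (-(f₁ ![1, 0])) (by
      refine LinearMap.ext fun x => ?_
      simp only [LinearMap.add_apply, LinearMap.smul_apply, smul_eq_mul, LinearMap.zero_apply]
      rw [Small_fun f₁ x, Small_fun f₂ x]
      linear_combination x 1 * h')).1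
    rw [h1] at p2
    simp at p2
  rcases lt_or_gt_of_ne hne with h | h
  · exact ⟨_, _, h, fun x hx => ⟨q1 x hx, q2 x hx⟩⟩
  · exact ⟨_, _, h, fun x hx => ⟨q2 x hx, q1 x hx⟩⟩

/-- the inverse of the shear -/
private noncomputable def Small_g (t : ℝ) (y : Fin 2 → ℝ) : Fin 2 → ℝ :=
  ![y 0 - t * max (y 1) 0, y 1]

private theorem Small_mem (K : Set (Fin 2 → ℝ)) (t : ℝ) (y : Fin 2 → ℝ) :
    y ∈ mv bb ![1, 0] t '' K ↔ Small_g t y ∈ K := by
  constructor
  · rintro ⟨x, hx, rfl⟩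
    have : Small_g t (mv bb ![1, 0] t x) = x := by
      funext i
      fin_cases i <;> simp [Small_g, mv, bb]
    rw [this]; exact hx
  · intro h
    refine ⟨_, h, ?_⟩
    funext i
    fin_cases i <;> simp [Small_g, mv, bb]

private theorem Small_cross (K : Set (Fin 2 → ℝ)) (hK : Convex ℝ K) (h1 : ![1, 0] ∈ K)
    (h2 : ![-1, 0] ∈ K) (t s r : ℝ) (p q : Fin 2 → ℝ) (hp : Small_g t p ∈ K)
    (hq : Small_g t q ∈ K) (hp1 : p 1 < 0) (hq1 : 0 < q 1) (p1 : p 0 ≤ 1 + s * p 1)
    (p2 : -p 0 ≤ 1 + r * p 1) (q1 : q 0 ≤ 1 + s * q 1) (q2 : -q 0 ≤ 1 + r * q 1)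
    (a b : ℝ) (ha : 0 ≤ a) (hb : 0 ≤ b) (hab : a + b = 1) :
    Small_g t (a • p + b • q) ∈ K := by
  have hd : 0 < q 1 - p 1 := by linarith
  obtain ⟨c, hc⟩ : ∃ c : ℝ, c = (q 1 * p 0 - p 1 * q 0) / (q 1 - p 1) := ⟨_, rfl⟩
  have hc1 : c ≤ 1 := by
    rw [hc, div_le_one hd]
    nlinarith
  have hc2 : -1 ≤ c := by
    rw [hc, le_div_iff₀ hd]
    nlinarith
  have hcd : c * (q 1 - p 1) = q 1 * p 0 - p 1 * q 0 := by
    rw [hc]; field_simp
  have hcK : (![c, 0] : Fin 2 → ℝ) ∈ K := by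
    have := hK h1 h2 (by linarith : 0 ≤ (1 + c) / 2) (by linarith : 0 ≤ (1 - c) / 2) (by ring)
    convert this using 1
    funext i
    fin_cases i
    · simp; ring
    · simp
  have z1 : (a • p + b • q) 1 = a * p 1 + b * q 1 := by simp
  have z0 : (a • p + b • q) 0 = a * p 0 + b * q 0 := by simp
  have hP0 : p 1 ≠ 0 := hp1.ne
  have hQ0 : q 1 ≠ 0 := hq1.ne'
  rcases le_or_gt 0 (a * p 1 + b * q 1) with hz | hz
  · obtain ⟨m, hm⟩ : ∃ m : ℝ, m = (a * p 1 + b * q 1) / q 1 := ⟨_, rfl⟩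
    have hm1 : m * q 1 = a * p 1 + b * q 1 := by rw [hm]; field_simp
    have hm2 : 0 ≤ m := by rw [hm]; positivity
    have hm3 : (1 - m) * q 1 = a * (q 1 - p 1) := by linear_combination q 1 * (-hab) - hm1
    have hm4 : 0 ≤ 1 - m := by
      by_contra hneg
      push Not at hneg
      have h5 : (1 - m) * q 1 < 0 := mul_neg_of_neg_of_pos hneg hq1
      have h6 : 0 ≤ a * (q 1 - p 1) := by positivity
      linarith
    have h := hK hcK hq hm4 hm2 (by ring)
    convert h using 1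
    funext i
    fin_cases i
    · simp only [Small_g, z1, z0, Fin.zero_eta, Fin.isValue, Matrix.cons_val_zero, Pi.add_apply,
        Pi.smul_apply, smul_eq_mul]
      rw [max_eq_left hz, max_eq_left hq1.le]
      apply mul_left_cancel₀ hQ0
      linear_combination (-c) * hm3 - a * hcd + (t * q 1 - q 0) * hm1
    · simp only [Small_g, z1, z0, Fin.mk_one, Fin.isValue, Matrix.cons_val_one, Pi.add_apply,
        Pi.smul_apply, smul_eq_mul]
      simp
      linear_combination -hm1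
  · obtain ⟨m, hm⟩ : ∃ m : ℝ, m = (a * p 1 + b * q 1) / p 1 := ⟨_, rfl⟩
    have hm1 : m * p 1 = a * p 1 + b * q 1 := by rw [hm]; field_simp
    have hm2 : 0 ≤ m := by rw [hm]; exact div_nonneg_of_nonpos hz.le hp1.le
    have hm3 : (1 - m) * p 1 = -(b * (q 1 - p 1)) := by linear_combination p 1 * (-hab) - hm1
    have hm4 : 0 ≤ 1 - m := by
      by_contra hneg
      push Not at hneg
      have h5 : 0 < (1 - m) * p 1 := mul_pos_of_neg_of_neg hneg hp1
      have h6 : 0 ≤ b * (q 1 - p 1) := by positivity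
      linarith
    have h := hK hcK hp hm4 hm2 (by ring)
    convert h using 1
    funext i
    fin_cases i
    · simp only [Small_g, z1, z0, Fin.zero_eta, Fin.isValue, Matrix.cons_val_zero, Pi.add_apply,
        Pi.smul_apply, smul_eq_mul]
      rw [max_eq_right hz.le, max_eq_right hp1.le]
      apply mul_left_cancel₀ hP0
      linear_combination (-c) * hm3 + b * hcd - p 0 * hm1
    · simp only [Small_g, z1, z0, Fin.mk_one, Fin.isValue, Matrix.cons_val_one, Pi.add_apply,
        Pi.smul_apply, smul_eq_mul]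
      simp
      linear_combination -hm1

theorem thm_small : St_small := by
  intro K _ hK hc1 hc2 hup hdn
  have h1 : ![1, 0] ∈ K := hc1.1
  have h2 : ![-1, 0] ∈ K := hc2.1
  obtain ⟨s₁, s₂, hs, hs'⟩ := Small_slope K 1 (by norm_num) hc1 h2 hup hdn
  obtain ⟨r₁, r₂, hr, hr'⟩ := Small_slope K (-1) (by norm_num) hc2 (by simpa using h1) hup hdn
  refine ⟨min (s₂ - s₁) (r₂ - r₁), lt_min (by linarith) (by linarith), fun t ht => ?_⟩
  have ht1 : t ≤ s₂ - s₁ := (le_abs_self t).trans (ht.trans (min_le_left _ _))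
  have ht2 : -t ≤ r₂ - r₁ := (neg_le_abs t).trans (ht.trans (min_le_right _ _))
  -- the supporting lines of the moved set
  have hS : ∀ y : Fin 2 → ℝ, Small_g t y ∈ K → y 0 ≤ 1 + s₂ * y 1 ∧ -y 0 ≤ 1 + r₂ * y 1 := by
    intro y hy
    have h3 := hs' _ hy
    have h4 := hr' _ hy
    simp only [Small_g, Matrix.cons_val_zero, Matrix.cons_val_one] at h3 h4
    rcases le_or_gt 0 (y 1) with h | h
    · rw [max_eq_left h] at h3 h4
      constructor
      · nlinarith [h3.1]
      · nlinarith [h4.1]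
    · rw [max_eq_right h.le] at h3 h4
      constructor
      · nlinarith [h3.2]
      · nlinarith [h4.2]
  intro p hp q hq a b ha hb hab
  rw [Small_mem] at hp hq ⊢
  have hp' := hS p hp
  have hq' := hS q hq
  rcases lt_or_ge (p 1) 0 with hp1 | hp1
  · rcases lt_or_ge 0 (q 1) with hq1 | hq1
    · exact Small_cross K hK h1 h2 t s₂ r₂ p q hp hq hp1 hq1 hp'.1 hp'.2 hq'.1 hq'.2 a b ha hb hab
    · have h := hK hp hq ha hb hab
      convert h using 1
      have hz : a * p 1 + b * q 1 ≤ 0 := by nlinarith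
      funext i
      fin_cases i
      · simp [Small_g, max_eq_right hp1.le, max_eq_right hq1, max_eq_right hz]
      · simp [Small_g]
  · rcases lt_or_ge (q 1) 0 with hq1 | hq1
    · rcases lt_or_ge 0 (p 1) with hp2 | hp2
      · have h := Small_cross K hK h1 h2 t s₂ r₂ q p hq hp hq1 hp2 hq'.1 hq'.2 hp'.1 hp'.2
          b a hb ha (by linarith)
        rwa [add_comm] at h
      · have h := hK hp hq ha hb hab
        convert h using 1
        have hz : a * p 1 + b * q 1 ≤ 0 := by nlinarith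
        funext i
        fin_cases i
        · simp [Small_g, max_eq_right hp2, max_eq_right hq1.le, max_eq_right hz]
        · simp [Small_g]
    · have h := hK hp hq ha hb hab
      convert h using 1
      have hz : 0 ≤ a * p 1 + b * q 1 := by positivity
      funext i
      fin_cases i
      · simp [Small_g, max_eq_left hp1, max_eq_left hq1, max_eq_left hz]
        ring
      · simp [Small_g]

end Pool.Agent.SYJ
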