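import Pool.Agent.SYJ.StE
import Pool.Agent.SYJ.Mov

/-! # Equality case, module StrS: strictness for the Sylvester functional -/

set_option autoImplicit false

namespace Pool.Agent.SYJ

open MeasureTheory Set Filter Topology Pool.Agent.SYL

private theorem StrS_dt {d : ℕ} (x : Fin (d + 1) → (Fin d → ℝ)) (u : Fin d → ℝ)
    (c : Fin (d + 1) → ℝ) :
    ∃ p q : ℝ, ∀ t : ℝ, dt (fun i => x i + (t * c i) • u) = p + t * q := by
  obtain ⟨p, q, hpq⟩ := Mov_det (fun i j => x i.succ j - x 0 j) (fun i => c i.succ - c 0) u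
  refine ⟨p, q, fun t => ?_⟩
  rw [← hpq t]
  unfold dt
  congr 1
  ext i j
  simp only [Matrix.of_apply, Pi.sub_apply, Pi.add_apply, Pi.smul_apply, smul_eq_mul]
  ring

private theorem StrS_abs {a b A B : ℝ} (ha : 0 < a) (hb : 0 < b) (h : A * B < 0) :
    |a * A + b * B| < a * |A| + b * |B| := by
  rcases mul_neg_iff.1 h with ⟨h1, h2⟩ | ⟨h1, h2⟩
  · rw [abs_of_pos h1, abs_of_neg h2, abs_lt]
    have e1 : 0 < a * A := mul_pos ha h1
    have e2 : b * B < 0 := mul_neg_of_pos_of_neg hb h2
    constructor <;> nlinarith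
  · rw [abs_of_neg h1, abs_of_pos h2, abs_lt]
    have e1 : a * A < 0 := mul_neg_of_pos_of_neg ha h1
    have e2 : 0 < b * B := mul_pos hb h2
    constructor <;> nlinarith

theorem thm_sstrict (h : St_point) : St_sstrict := by
  intro d K hKc hKv hKi u β hu hβ hinv hC hcont hna t₁ t₂ ht₁ ht₂
  obtain ⟨C, hC⟩ := hC
  have hK : MeasurableSet K := hKc.measurableSet
  obtain ⟨R, hR⟩ := hKc.isBounded.exists_norm_le
  have hVc : Continuous (V : (Fin (d + 1) → (Fin d → ℝ)) → ℝ) :=
    ((thm_V (thm_Vdet thm_hull thm_Dl) thm_hull thm_Dl) d).1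
  have hS : ∀ t : ℝ, Sylv d (mv β u t '' K) = ((d : ℝ) + 2) / vol K ^ (d + 2) *
      ∫ x in Set.pi univ (fun _ : Fin (d + 1) => K), V (fun i => x i + (t * β (x i)) • u) := by
    intro t
    unfold Sylv
    rw [Mov_vol thm_pres hK hβ hinv, Mov_G thm_pres K hβ hinv]
  have hS0 : Sylv d K = Sylv d (mv β u 0 '' K) := by
    congr 1
    ext x
    simp [Mov_zero]
  have hfin : volume (Set.pi univ (fun _ : Fin (d + 1) => K)) < ⊤ := by
    refine lt_of_le_of_lt (measure_mono ?_)
      (isCompact_closedBall (0 : Fin (d + 1) → (Fin d → ℝ)) |R|).measure_lt_top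
    intro x hx
    rw [mem_closedBall_zero_iff, pi_norm_le_iff_of_nonneg (abs_nonneg R)]
    exact fun i => (hR _ (hx i (mem_univ i))).trans (le_abs_self R)
  have hint : ∀ t : ℝ, IntegrableOn (fun x : Fin (d + 1) → (Fin d → ℝ) =>
      V (fun i => x i + (t * β (x i)) • u)) (Set.pi univ (fun _ : Fin (d + 1) => K)) volume := by
    intro t
    have hR0 : 0 ≤ |R| + |t| * |C| * ‖u‖ := by positivity
    obtain ⟨M, hM⟩ := (isCompact_closedBall (0 : Fin (d + 1) → (Fin d → ℝ))
      (|R| + |t| * |C| * ‖u‖)).exists_bound_of_continuousOn hVc.continuousOn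
    have hmeas : Measurable (fun x : Fin (d + 1) → (Fin d → ℝ) =>
        V (fun i => x i + (t * β (x i)) • u)) := by
      refine hVc.measurable.comp (measurable_pi_lambda _ fun i => ?_)
      exact (measurable_pi_apply i).add
        (((hβ.comp (measurable_pi_apply i)).const_mul t).smul_const u)
    refine Measure.integrableOn_of_bounded (M := M) hfin.ne hmeas.aestronglyMeasurable ?_
    rw [ae_restrict_iff' (MeasurableSet.univ_pi fun _ => hK)]
    refine Filter.Eventually.of_forall fun x hx => hM _ ?_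
    rw [mem_closedBall_zero_iff, pi_norm_le_iff_of_nonneg hR0]
    intro i
    refine (norm_add_le _ _).trans (add_le_add ((hR _ (hx i (mem_univ i))).trans (le_abs_self R)) ?_)
    rw [norm_smul, Real.norm_eq_abs, abs_mul]
    refine mul_le_mul_of_nonneg_right (mul_le_mul_of_nonneg_left ?_ (abs_nonneg t)) (norm_nonneg u)
    exact (hC _ (hx i (mem_univ i))).trans (le_abs_self C)
  -- weights
  have ht : 0 < t₂ - t₁ := by linarith
  set a : ℝ := t₂ / (t₂ - t₁) with ha
  set b : ℝ := -t₁ / (t₂ - t₁) with hb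
  have ha0 : 0 < a := div_pos ht₂ ht
  have hb0 : 0 < b := div_pos (by linarith) ht
  have hab : a + b = 1 := by
    rw [ha, hb, ← add_div]
    rw [show t₂ + -t₁ = t₂ - t₁ by ring]
    exact div_self ht.ne'
  have habt : a * t₁ + b * t₂ = 0 := by
    rw [ha, hb]
    field_simp
    ring
  have hDl : 0 < vol (Dl d) := (thm_Dl d).2.2
  have hVd : ∀ x : Fin (d + 1) → (Fin d → ℝ), V x = vol (Dl d) * |dt x| :=
    thm_Vdet thm_hull thm_Dl d
  -- pointwise
  have hpt : ∀ x : Fin (d + 1) → (Fin d → ℝ),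
      dt (fun i => x i + (0 * β (x i)) • u) =
        a * dt (fun i => x i + (t₁ * β (x i)) • u) + b * dt (fun i => x i + (t₂ * β (x i)) • u) := by
    intro x
    obtain ⟨p, q, hpq⟩ := StrS_dt x u (fun i => β (x i))
    rw [hpq 0, hpq t₁, hpq t₂]
    have : a * (p + t₁ * q) + b * (p + t₂ * q) = (a + b) * p + (a * t₁ + b * t₂) * q := by ring
    rw [this, hab, habt]
    ring
  set F : (Fin (d + 1) → (Fin d → ℝ)) → ℝ := fun x =>
    (a * V (fun i => x i + (t₁ * β (x i)) • u) + b * V (fun i => x i + (t₂ * β (x i)) • u)) -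
      V (fun i => x i + (0 * β (x i)) • u) with hF
  have hF0 : ∀ x, 0 ≤ F x := by
    intro x
    simp only [hF]
    rw [hVd, hVd, hVd, hpt x]
    have h1 := abs_add_le (a * dt (fun i => x i + (t₁ * β (x i)) • u))
      (b * dt (fun i => x i + (t₂ * β (x i)) • u))
    rw [abs_mul, abs_mul, abs_of_pos ha0, abs_of_pos hb0] at h1
    have h2 := mul_le_mul_of_nonneg_left h1 hDl.le
    nlinarith [h2]
  have hFs : ∀ x, dt (fun i => x i + (t₁ * β (x i)) • u) *
      dt (fun i => x i + (t₂ * β (x i)) • u) < 0 → F x ≠ 0 := by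
    intro x hx
    refine ne_of_gt ?_
    simp only [hF]
    rw [hVd, hVd, hVd, hpt x]
    have h2 := mul_lt_mul_of_pos_left (StrS_abs ha0 hb0 hx) hDl
    nlinarith [h2]
  obtain ⟨x₀, hx₀, hd0, hd1⟩ := h d (interior K) isOpen_interior hKv.interior u β hu hinv hna
  have hnear : Function.support F ∩ Set.pi univ (fun _ : Fin (d + 1) => K) ∈ 𝓝 x₀ := by
    have hDc : ∀ t : ℝ, Tendsto (fun x : Fin (d + 1) → (Fin d → ℝ) =>
        dt (fun i => x i + (t * β (x i)) • u)) (𝓝 x₀)
        (𝓝 (dt (fun i => x₀ i + (t * β (x₀ i)) • u))) := by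
      intro t
      have hin : ContinuousAt (fun x : Fin (d + 1) → (Fin d → ℝ) =>
          (fun i => x i + (t * β (x i)) • u)) x₀ := by
        refine continuousAt_pi.2 fun i => ?_
        have hev : ContinuousAt (fun x : Fin (d + 1) → (Fin d → ℝ) => x i) x₀ :=
          (continuous_apply i).continuousAt
        have hb' : ContinuousAt β (x₀ i) :=
          hcont.continuousAt (isOpen_interior.mem_nhds (hx₀ i))
        have hbb : ContinuousAt (fun x : Fin (d + 1) → (Fin d → ℝ) => β (x i)) x₀ :=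
          ContinuousAt.comp (f := fun x : Fin (d + 1) → (Fin d → ℝ) => x i) hb' hev
        exact hev.add ((continuousAt_const.mul hbb).smul continuousAt_const)
      exact (VProp_cont.continuousAt (x := fun i => x₀ i + (t * β (x₀ i)) • u)).tendsto.comp hin
    have hval : dt (fun i => x₀ i + (t₁ * β (x₀ i)) • u) *
        dt (fun i => x₀ i + (t₂ * β (x₀ i)) • u) < 0 := by
      obtain ⟨p, q, hpq⟩ := StrS_dt x₀ u (fun i => β (x₀ i))
      have h0 := hpq 0
      have h1 := hpq 1
      simp only [zero_mul, zero_smul, add_zero, one_mul] at h0 h1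
      have hp : p = 0 := by rw [← h0]; exact hd0
      rw [hp, zero_add] at h1
      have hq : q ≠ 0 := by rw [← h1]; exact hd1
      rw [hpq t₁, hpq t₂, hp, zero_add, zero_add]
      have hq2 : 0 < q * q := mul_self_pos.2 hq
      have h3 : t₁ * t₂ < 0 := mul_neg_of_neg_of_pos ht₁ ht₂
      have h4 : t₁ * q * (t₂ * q) = (t₁ * t₂) * (q * q) := by ring
      rw [h4]
      exact mul_neg_of_neg_of_pos h3 hq2
    have hev1 : ∀ᶠ x in 𝓝 x₀, dt (fun i => x i + (t₁ * β (x i)) • u) *
        dt (fun i => x i + (t₂ * β (x i)) • u) < 0 :=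
      ((hDc t₁).mul (hDc t₂)).eventually_lt_const hval
    have hev2 : ∀ᶠ x in 𝓝 x₀, ∀ i : Fin (d + 1), x i ∈ K := by
      refine Filter.eventually_all.2 fun i => ?_
      have h5 : K ∈ 𝓝 (x₀ i) := mem_interior_iff_mem_nhds.1 (hx₀ i)
      exact (continuous_apply i).continuousAt.tendsto.eventually h5
    filter_upwards [hev1, hev2] with x h1 h2
    exact ⟨hFs x h1, fun i _ => h2 i⟩
  have hFi : IntegrableOn F (Set.pi univ (fun _ : Fin (d + 1) => K)) volume :=
    (((hint t₁).const_mul a).add ((hint t₂).const_mul b)).sub (hint 0)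
  have hFpos : 0 < ∫ x in Set.pi univ (fun _ : Fin (d + 1) => K), F x := by
    rw [setIntegral_pos_iff_support_of_nonneg_ae (Filter.Eventually.of_forall hF0) hFi]
    exact Measure.measure_pos_of_mem_nhds volume hnear
  have hsplit : ∫ x in Set.pi univ (fun _ : Fin (d + 1) => K), F x =
      (a * (∫ x in Set.pi univ (fun _ : Fin (d + 1) => K), V (fun i => x i + (t₁ * β (x i)) • u)) +
      b * ∫ x in Set.pi univ (fun _ : Fin (d + 1) => K), V (fun i => x i + (t₂ * β (x i)) • u)) -
      ∫ x in Set.pi univ (fun _ : Fin (d + 1) => K), V (fun i => x i + (0 * β (x i)) • u) := by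
    simp only [hF]
    rw [← integral_const_mul, ← integral_const_mul,
      ← integral_add ((hint t₁).const_mul a) ((hint t₂).const_mul b)]
    exact integral_sub (((hint t₁).const_mul a).add ((hint t₂).const_mul b)) (hint 0)
  rw [hsplit] at hFpos
  have hvK : 0 < vol K := by
    unfold vol
    exact ENNReal.toReal_pos (Measure.measure_pos_of_nonempty_interior volume hKi).ne'
      hKc.measure_lt_top.ne
  have hc : 0 < ((d : ℝ) + 2) / vol K ^ (d + 2) := by positivity
  rw [hS0]
  by_contra hcon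
  have hcon' := not_lt.1 hcon
  have c1 := (le_max_left _ _).trans hcon'
  have c2 := (le_max_right _ _).trans hcon'
  rw [hS, hS] at c1
  rw [hS, hS] at c2
  have d1 := le_of_mul_le_mul_left c1 hc
  have d2 := le_of_mul_le_mul_left c2 hc
  have e1 := mul_le_mul_of_nonneg_left d1 ha0.le
  have e2 := mul_le_mul_of_nonneg_left d2 hb0.le
  have e3 : a * (∫ x in Set.pi univ (fun _ : Fin (d + 1) => K), V (fun i => x i + (0 * β (x i)) • u)) +
      b * (∫ x in Set.pi univ (fun _ : Fin (d + 1) => K), V (fun i => x i + (0 * β (x i)) • u)) =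
      ∫ x in Set.pi univ (fun _ : Fin (d + 1) => K), V (fun i => x i + (0 * β (x i)) • u) := by
    rw [← add_mul, hab, one_mul]
  linarith

end Pool.Agent.SYJ
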