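import Pool.Agent.SYJ.StE
import Pool.Agent.SYJ.Base
import Pool.Agent.SYJ.Sum

/-! # The free sum of strictly good bodies is strictly good -/

set_option autoImplicit false

namespace Pool.Agent.SYJ

open MeasureTheory Set Filter Topology Pool.Agent.SYL

theorem SumS_open {E : Type} [AddCommGroup E] [Module ℝ E] {A : Set E} {p : E} (hp : p ∈ A)
    (h : p ∉ extremePoints ℝ A) : ∃ (u : E) (t₁ t₂ : ℝ), u ≠ 0 ∧ t₁ < 0 ∧ 0 < t₂ ∧
      p + t₁ • u ∈ A ∧ p + t₂ • u ∈ A := by
  rw [mem_extremePoints] at h
  push Not at h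
  obtain ⟨x, hx, y, hy, hxy, hne⟩ := h hp
  obtain ⟨a, b, ha, hb, hab, rfl⟩ := hxy
  have hxy' : x ≠ y := by
    rintro rfl
    have h1 : a • x + b • x = x := by rw [← add_smul, hab, one_smul]
    exact hne h1.symm h1.symm
  refine ⟨y - x, -b, a, sub_ne_zero.2 hxy'.symm, by linarith, ha, ?_, ?_⟩
  · have h1 : a • x + b • y + (-b) • (y - x) = x := by
      have : a = 1 - b := by linarith
      rw [this, smul_sub, sub_smul, one_smul, neg_smul, neg_smul]
      abel
    rw [h1]
    exact hx
  · have h1 : a • x + b • y + a • (y - x) = y := by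
      have : b = 1 - a := by linarith
      rw [this, smul_sub, sub_smul, one_smul]
      abel
    rw [h1]
    exact hy

/-- the speed of the movement of the gluing point -/
noncomputable def SumS_g {E F : Type} [AddCommGroup F] [Module ℝ F] (B : Set F) (q : F)
    (z : E × F) : ℝ := B.indicator (gg B q) z.2

theorem SumS_mv {E F : Type} [AddCommGroup E] [Module ℝ E] [AddCommGroup F] [Module ℝ F]
    (A : Set E) (p u : E) (B : Set F) (q : F) (t : ℝ) :
    mv (SumS_g B q) (u, (0 : F)) t '' fs A p B q = fs A (p + t • u) B q := by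
  have key : ∀ (a : E) (y : F), y ∈ B →
      mv (SumS_g B q) (u, (0 : F)) t ((1 - gg B q y) • a + gg B q y • p, y) =
        ((1 - gg B q y) • a + gg B q y • (p + t • u), y) := by
    intro a y hy
    unfold mv SumS_g
    simp only [indicator_of_mem hy, Prod.smul_mk, smul_zero, Prod.mk_add_mk, add_zero]
    rw [smul_add, smul_smul, mul_comm t, add_assoc]
  ext ⟨x, y⟩
  constructor
  · rintro ⟨⟨x', y'⟩, ⟨hy, a, ha, hx⟩, h⟩
    simp only at hx hy
    subst hx
    rw [key a y' hy] at h
    rw [← h]
    exact ⟨hy, a, ha, rfl⟩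
  · rintro ⟨hy, a, ha, hx⟩
    simp only at hx hy
    subst hx
    exact ⟨_, ⟨hy, a, ha, rfl⟩, key a y hy⟩

theorem thm_sumS (hES : St_extrS) (hFS : St_funmapS) (hU : St_sum) (hH : St_hull) (hI2 : St_int2)
    (hPS : St_pushS) (hBd : St_bound) (h2 : St_simp2) (hG : St_gauge) (hGC : St_gcont) :
    St_sumS := by
  classical
  intro E F _ _ _ _ _ _ _ _ _ _ A p B q hA hp hB hq
  have : ProperSpace E := FiniteDimensional.proper ℝ E
  have : ProperSpace F := FiniteDimensional.proper ℝ F
  have hgood : Good (E × F) (hs A p B q) := hU E F A p B q hA.1 hp hB.1 hq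
  refine ⟨hgood, fun hns n Φ hΦ M hM z0 hz0 => ?_⟩
  obtain ⟨⟨hAc, hAv, hAi, hAg⟩, hAs⟩ := hA
  obtain ⟨⟨hBc, hBv, hBi, hBg⟩, hBs⟩ := hB
  obtain ⟨hfs, hcp⟩ := hH E F A p B q hAc hAv hp hBc hBv hq
  refine hES (E × F) n Φ hΦ.fn (hs A p B q) hcp.measurableSet hcp.isBounded _ M ?_ z0 hz0
  clear hz0 z0
  intro z hz
  have hzD : ∀ i, z i ∈ hs A p B q := fun i => subset_convexHull ℝ _ (hz i)
  have hz' : ∀ i, ∃ (c : Option F) (a : E), a ∈ A ∧ (∀ y, c = some y → y ∈ B) ∧
      z i = (match c with
        | none => (a, q)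
        | some y => (p, y)) := by
    intro i
    rcases hz i with ⟨a, ha, h⟩ | ⟨b, hb, h⟩
    · refine ⟨none, a, ha, ?_, h.symm⟩
      intro y hy
      exact absurd hy (by simp)
    · refine ⟨some b, p, hp, ?_, h.symm⟩
      intro y hy
      rw [← Option.some.inj hy]
      exact hb
  choose c a ha hc hza using hz'
  by_cases hA1 : ∃ V : Finset E, Simp V ∧ A = convexHull ℝ (V : Set E)
  swap
  · have key := hAs hA1 (n + 1) (push Φ B q c) (hPS E F n Φ B q c hΦ hBc hBv hq hBi hc) M
      (hBd E F n Φ B q c M hΦ.fn ⟨hBc, hBv, hBi, hBg⟩ hq hc hM) (Fin.cons p a) (by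
        intro i
        refine Fin.cases ?_ (fun j => ?_) i
        · exact hp
        · exact ha j)
    have h6 : Φ (hs A p B q) z = push Φ B q c A (Fin.cons p a : Fin (n + 1) → E) := by
      rw [← hfs]
      show _ = Φ (fs A p B q) _
      congr 1
      funext i
      rw [hza i]
      rfl
    rw [h6]
    exact key
  by_cases hB1 : ∃ W : Finset F, Simp W ∧ B = convexHull ℝ (W : Set F)
  swap
  · have hΨ := hFS (F × E) (E × F) n Φ (Sum_sw E F) hΦ
    have hΨb : Bd (fun (K : Set (F × E)) (z : Fin n → F × E) =>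
        Φ (Sum_sw E F '' K) (fun i => Sum_sw E F (z i))) M := by
      intro V hV v hv
      have h3 := hM (V.image (Sum_sw E F)) (Base_simp_map (Sum_sw E F) hV)
        (fun i => Sum_sw E F (v i)) (fun i => Finset.mem_image_of_mem _ (hv i))
      rw [Finset.coe_image] at h3
      have h4 : Sum_sw E F '' convexHull ℝ (V : Set (F × E)) =
          convexHull ℝ (Sum_sw E F '' (V : Set (F × E))) :=
        (Sum_sw E F).toAffineMap.image_convexHull (V : Set (F × E))
      show Φ (Sum_sw E F '' convexHull ℝ (V : Set (F × E))) _ ≤ M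
      rw [h4]
      exact h3
    have hcA : ∀ (i : Fin n) (y : E), (match c i with
        | none => some (a i)
        | some _ => none) = some y → y ∈ A := by
      intro i y hy
      rcases hci : c i with _ | y'
      · simp only [hci] at hy
        rw [← Option.some.inj hy]
        exact ha i
      · simp only [hci] at hy
        exact absurd hy (by simp)
    have key := hBs hB1 (n + 1) _ (hPS F E n _ A p (fun i => match c i with
        | none => some (a i)
        | some _ => none) hΨ hAc hAv hp hAi hcA) M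
      (hBd F E n _ A p _ M hΨ.fn ⟨hAc, hAv, hAi, hAg⟩ hp hcA hΨb)
      (Fin.cons q (fun i => match c i with
        | none => q
        | some y => y)) (by
        intro i
        refine Fin.cases ?_ (fun j => ?_) i
        · exact hq
        · show (match c j with
            | none => q
            | some y => y) ∈ B
          rcases hcj : c j with _ | y'
          · exact hq
          · exact hc j y' hcj)
    have h4 := hH F E B q A p hBc hBv hq hAc hAv hp
    have h5 : Φ (Sum_sw E F '' fs B q A p) z < M := by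
      refine lt_of_eq_of_lt ?_ key
      show _ = Φ (Sum_sw E F '' fs B q A p) _
      congr 1
      funext i
      rw [hza i]
      rcases hci : c i with _ | y'
      · simp only [hci]
        rfl
      · simp only [hci, Sum_sw_apply, Fin.cons_succ]
    rw [h4.1, Sum_sw_hs] at h5
    exact h5
  obtain ⟨V, hV, hAV⟩ := hA1
  obtain ⟨W, hW, hBW⟩ := hB1
  by_cases hpV : p ∈ V
  · exfalso
    apply hns
    obtain ⟨U, hU1, hU2⟩ := h2 E F V W p q hV hW hpV (by rw [← hBW]; exact hq)
    exact ⟨U, hU1, by rw [hU2, ← hAV, ← hBW]⟩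
  by_cases hqW : q ∈ W
  · exfalso
    apply hns
    obtain ⟨U, hU1, hU2⟩ := h2 F E W V q p hW hV hqW (by rw [← hAV]; exact hp)
    refine ⟨U.image (Sum_sw E F), Base_simp_map (Sum_sw E F) hU1, ?_⟩
    have h4 : Sum_sw E F '' convexHull ℝ (U : Set (F × E)) =
        convexHull ℝ (Sum_sw E F '' (U : Set (F × E))) :=
      (Sum_sw E F).toAffineMap.image_convexHull (U : Set (F × E))
    rw [Finset.coe_image, ← h4, hU2, Sum_sw_hs, ← hAV, ← hBW]
  have hpe : p ∉ extremePoints ℝ A := by
    intro h
    rw [hAV] at h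
    exact hpV (extremePoints_convexHull_subset h)
  have hqe : q ∉ extremePoints ℝ B := by
    intro h
    rw [hBW] at h
    exact hqW (extremePoints_convexHull_subset h)
  obtain ⟨u, t₁, t₂, hu, ht1, ht2, hm1, hm2⟩ := SumS_open hp hpe
  obtain ⟨hg1, hg2, hg3, hg4, hg5⟩ := hG F B q hBc hBv hq
  obtain ⟨hc1, hc2, hc3, hc4⟩ := hGC F B q hBc hBv hq
  obtain ⟨hi1, hi2⟩ := hI2 E F A p B q hAc hAv hp hBc hBv hq
  have hDi : (interior (hs A p B q)).Nonempty := hgood.2.2.1
  have hstr := hΦ.strict (hs A p B q) hcp (convex_convexHull ℝ _) hDi z hzD (u, (0 : F))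
    (SumS_g B q) (by
      intro h
      exact hu (congrArg Prod.fst h)) (hg5.comp measurable_snd) (by
      intro x s
      unfold SumS_g
      simp) ⟨1, by
      intro x _
      unfold SumS_g
      by_cases hx : x.2 ∈ B
      · rw [indicator_of_mem hx, abs_of_nonneg (hg1 _ hx).1]
        exact (hg1 _ hx).2
      · rw [indicator_of_notMem hx]
        simp⟩ (by
      have h7 : ContinuousOn (fun x : E × F => gg B q x.2) (interior (hs A p B q)) :=
        hc2.comp continuous_snd.continuousOn hi1
      refine h7.congr ?_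
      intro x hx
      unfold SumS_g
      exact indicator_of_mem (interior_subset (hi1 x hx)) _) (by
      rintro ⟨-, hcc⟩
      refine hc4 hBi hqe ⟨hBv.interior, ?_⟩
      intro y1 hy1 y2 hy2 α β hα hβ hαβ
      obtain ⟨a0, ha0⟩ := hAi
      have h8 := hcc.2 (hi2 y1 hy1 a0 ha0) (hi2 y2 hy2 a0 ha0) hα hβ hαβ
      have h9 : α • y1 + β • y2 ∈ interior B := hBv.interior hy1 hy2 hα hβ hαβ
      unfold SumS_g at h8
      simp only [Prod.smul_mk, Prod.mk_add_mk] at h8
      rw [indicator_of_mem (interior_subset hy1), indicator_of_mem (interior_subset hy2),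
        indicator_of_mem (interior_subset h9)] at h8
      exact h8) (fun i => match c i with
        | none => 0
        | some _ => 1) t₁ t₂ ht1 ht2
  have hend : ∀ t : ℝ, p + t • u ∈ A →
      Φ (mv (SumS_g B q) (u, (0 : F)) t '' hs A p B q)
        (fun i => z i + (t * (match c i with
          | none => 0
          | some _ => 1)) • (u, (0 : F))) ≤ M := by
    intro t ht
    obtain ⟨h10, -⟩ := hH E F A (p + t • u) B q hAc hAv ht hBc hBv hq
    rw [← hfs, SumS_mv, h10]
    refine (hU E F A (p + t • u) B q ⟨hAc, hAv, hAi, hAg⟩ ht ⟨hBc, hBv, hBi, hBg⟩ hq).2.2.2 n Φ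
      hΦ.fn M hM _ ?_
    intro i
    apply subset_convexHull ℝ _
    rw [hza i]
    rcases hci : c i with _ | y'
    · left
      refine ⟨a i, ha i, ?_⟩
      simp
    · right
      refine ⟨y', hc i y' hci, ?_⟩
      simp
  exact hstr.trans_le (max_le (hend t₁ hm1) (hend t₂ hm2))

end Pool.Agent.SYJ
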