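import Pool.Agent.SYJ.StE
import Pool.Agent.SYJ.Poly

/-! # Two corners: strict inequality -/

set_option autoImplicit false

namespace Pool.Agent.SYJ

open MeasureTheory Set Filter Topology Pool.Agent.SYL

private theorem Two_bb_cont : Continuous bb := by
  unfold bb
  fun_prop

private theorem Two_bb_inv (x : Fin 2 → ℝ) (s : ℝ) : bb (x + s • ![1, 0]) = bb x := by
  unfold bb
  simp

private theorem Two_body {K : Set (Fin 2 → ℝ)} (hK : IsBody K) (t : ℝ)
    (h : Convex ℝ (mv bb ![1, 0] t '' K)) : IsBody (mv bb ![1, 0] t '' K) := by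
  have e : mv bb ![1, 0] t '' K = Poly_H t '' K := rfl
  obtain ⟨h2, h1, h3⟩ := hK
  refine ⟨h, ?_, ?_⟩
  · rw [e]
    exact h1.image (Poly_H t).continuous
  · rw [e, ← (Poly_H t).image_interior]
    exact h3.image _

private theorem Two_near {K : Set (Fin 2 → ℝ)} (hK : IsBody K) {U : Set (Fin 2 → ℝ)}
    (hU : IsOpen U) (h : ∃ x ∈ K, x ∈ U) : ∃ x ∈ interior K, x ∈ U := by
  obtain ⟨h2, h1, h3⟩ := hK
  obtain ⟨x, hx, hxU⟩ := h
  have h4 : x ∈ closure (interior K) := by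
    rw [h2.closure_interior_eq_closure_of_nonempty_interior h3]
    exact subset_closure hx
  obtain ⟨y, hy1, hy2⟩ := mem_closure_iff.1 h4 U hU hxU
  exact ⟨y, hy2, hy1⟩

private theorem Two_notconc {K : Set (Fin 2 → ℝ)} (hK : IsBody K) (hp : ∃ x ∈ K, 0 < x 1)
    (hn : ∃ x ∈ K, x 1 < 0) : ¬ ConcaveOn ℝ (interior K) bb := by
  intro hc
  obtain ⟨x, hx, hx1⟩ := Two_near hK (U := {x : Fin 2 → ℝ | 0 < x 1})
    (isOpen_lt continuous_const (continuous_apply 1)) hp
  obtain ⟨y, hy, hy1⟩ := Two_near hK (U := {x : Fin 2 → ℝ | x 1 < 0})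
    (isOpen_lt (continuous_apply 1) continuous_const) hn
  simp only [mem_ofPred_eq] at hx1 hy1
  have hd : 0 < x 1 - y 1 := by linarith
  have hl : 0 < -y 1 / (x 1 - y 1) := div_pos (by linarith) hd
  have hm : 0 < x 1 / (x 1 - y 1) := div_pos hx1 hd
  have hs : -y 1 / (x 1 - y 1) + x 1 / (x 1 - y 1) = 1 := by
    field_simp
    ring
  have h := hc.2 hx hy hl.le hm.le hs
  have e1 : bb x = x 1 := max_eq_left hx1.le
  have e2 : bb y = 0 := max_eq_right hy1.le
  have e3 : bb ((-y 1 / (x 1 - y 1)) • x + (x 1 / (x 1 - y 1)) • y) = 0 := by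
    apply max_eq_right
    have : ((-y 1 / (x 1 - y 1)) • x + (x 1 / (x 1 - y 1)) • y) 1 = 0 := by
      simp only [Pi.add_apply, Pi.smul_apply, smul_eq_mul]
      field_simp
      ring
    exact this.le
  rw [e1, e2, e3, smul_zero, add_zero, smul_eq_mul] at h
  have := mul_pos hl hx1
  linarith

theorem thm_two (h1 : St_small) (h2 : St_planar) : St_two := by
  intro K hK hc1 hc2 hp hn n Φ hΦ M hM z hz
  obtain ⟨t₀, ht0, ht⟩ := h1 K hK.2.1 hK.1 hc1 hc2 hp hn
  have key : ∀ t : ℝ, |t| ≤ t₀ → Φ (mv bb ![1, 0] t '' K)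
      (fun i => z i + (t * bb (z i)) • ![1, 0]) ≤ M := by
    intro t h
    have hb := Two_body hK t (ht t h)
    obtain ⟨_, _, _, hg⟩ := h2 _ hb
    exact hg n Φ hΦ.fn M hM _ (fun i => ⟨z i, hz i, rfl⟩)
  have hne : (![1, 0] : Fin 2 → ℝ) ≠ 0 := by
    intro h
    have := congrFun h 0
    simp at this
  have hbd : ∃ C, ∀ x ∈ K, |bb x| ≤ C := by
    obtain ⟨C, hC⟩ := hK.2.1.exists_bound_of_continuousOn Two_bb_cont.continuousOn
    exact ⟨C, fun x hx => hC x hx⟩
  have hst := hΦ.strict K hK.2.1 hK.1 hK.2.2 z hz ![1, 0] bb hne Two_bb_cont.measurable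
    Two_bb_inv hbd Two_bb_cont.continuousOn (fun h => Two_notconc hK hp hn h.2)
    (fun i => bb (z i)) (-t₀) t₀ (by linarith) ht0
  refine lt_of_lt_of_le hst (max_le ?_ ?_)
  · exact key (-t₀) (by rw [abs_neg, abs_of_pos ht0])
  · exact key t₀ (by rw [abs_of_pos ht0])

end Pool.Agent.SYJ
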