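import Pool.Agent.SYJ.All0
import Pool.Agent.SYJ.Main1
import Pool.Agent.SYJ.BaseS
import Pool.Agent.SYJ.Pt
import Pool.Agent.SYJ.StrS
import Pool.Agent.SYJ.LimS
import Pool.Agent.SYJ.GauS
import Pool.Agent.SYJ.IntS
import Pool.Agent.SYJ.PushS
import Pool.Agent.SYJ.Bound
import Pool.Agent.SYJ.Simp2
import Pool.Agent.SYJ.SumS
import Pool.Agent.SYJ.Small
import Pool.Agent.SYJ.Two
import Pool.Agent.SYJ.Four
import Pool.Agent.SYJ.CorH
import Pool.Agent.SYJ.EndR
import Pool.Agent.SYJ.DiagR
import Pool.Agent.SYJ.Cap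
import Pool.Agent.SYJ.Bdv
import Pool.Agent.SYJ.Hcv
import Pool.Agent.SYJ.CapL
import Pool.Agent.SYJ.Caps4
import Pool.Agent.SYJ.Iter
import Pool.Agent.SYJ.PlanS

/-! # The equality case, assembled -/

set_option autoImplicit false

namespace Pool.Agent.SYJ

open MeasureTheory Set Pool.Agent.SYL

theorem All1_gcont : St_gcont := thm_gcont thm_gauge

theorem All1_int2 : St_int2 := thm_int2 thm_gauge All0_hull All1_gcont

theorem All1_pushS : St_pushS :=
  thm_pushS thm_gauge All0_hull All0_int All0_push All1_gcont All1_int2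

theorem All1_bound : St_bound :=
  thm_bound thm_funmap All0_simp All0_hull All0_push thm_simpsum

theorem All1_sumS : St_sumS :=
  thm_sumS thm_extrS thm_funmapS All0_sum All0_hull All1_int2 All1_pushS All1_bound thm_simp2
    thm_gauge All1_gcont

theorem All1_two : St_two := thm_two thm_small All0_planar

theorem All1_four : St_four := thm_four All1_two thm_diag thm_funmapS

theorem All1_cap : St_cap := thm_cap thm_diagR thm_endR thm_endR2

theorem All1_caplim : St_caplim :=
  thm_caplim All1_cap thm_bddvol thm_hullconv thm_slim thm_cornerhull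

theorem All1_iter : St_iter := thm_iter All1_caplim

theorem All1_planarS : St_planarS :=
  thm_planarS All0_planar All1_four thm_caps4 All1_iter thm_cornerhull

theorem All1_main {d : ℕ} {D : Set (Fin d → ℝ)} (h : FSClass d D) :
    IsBody D ∧ ∀ T : Set (Fin d → ℝ), IsSimplex T →
      Sylv d D ≤ Sylv d T ∧ (Sylv d D = Sylv d T ↔ IsSimplex D) :=
  Main1_main thm_sgoodmap All0_simp All1_sumS All1_planarS thm_IsSimplex All0_mov thm_cont
    (thm_sstrict thm_point) thm_slim thm_same h

end Pool.Agent.SYJ
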