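import Pool.Agent.SYJ.StE
import Pool.Agent.SYJ.Base
import Pool.Agent.SYJ.Mov

/-! # Reduction of a cap to at most two points -/

set_option autoImplicit false

namespace Pool.Agent.SYJ

open MeasureTheory Set Filter Topology Pool.Agent.SYL

theorem Cap_bb_inv (x : Fin 2 → ℝ) (s : ℝ) : bb (x + s • ![1, 0]) = bb x := by
  unfold bb
  simp

theorem Cap_bb_cont : Continuous bb := by
  unfold bb
  fun_prop

theorem Cap_bb_zero {x : Fin 2 → ℝ} (h : x 1 ≤ 0) : bb x = 0 := max_eq_right h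

theorem Cap_mv_one (t : ℝ) (x : Fin 2 → ℝ) : mv bb ![1, 0] t x 1 = x 1 := by
  unfold mv
  simp

theorem Cap_mv_low {t : ℝ} {x : Fin 2 → ℝ} (h : x 1 ≤ 0) : mv bb ![1, 0] t x = x := by
  unfold mv
  rw [Cap_bb_zero h]
  simp

/-- affine isomorphisms multiply the volume by a constant -/
theorem Cap_vol (g : (Fin 2 → ℝ) ≃ᵃ[ℝ] (Fin 2 → ℝ)) :
    ∃ k : ℝ, ∀ A : Set (Fin 2 → ℝ), vol (g '' A) = k * vol A := by
  refine ⟨|LinearMap.det (g.linear : (Fin 2 → ℝ) →ₗ[ℝ] (Fin 2 → ℝ))|, fun A => ?_⟩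
  have h1 : g '' A = (fun x => g 0 + x) ''
      ((g.linear : (Fin 2 → ℝ) →ₗ[ℝ] (Fin 2 → ℝ)) '' A) := by
    rw [image_image]
    refine image_congr fun x _ => ?_
    have h := Base_aff g 0 x
    rw [zero_add] at h
    exact h
  unfold vol
  rw [h1, image_add_left, measure_preimage_add, Measure.addHaar_image_linearMap,
    ENNReal.toReal_mul, ENNReal.toReal_ofReal (abs_nonneg _)]

/-- the hull of a compact convex set and a finite set is compact -/
theorem Cap_compact {R : Set (Fin 2 → ℝ)} (hR : IsCompact R) (hRc : Convex ℝ R)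
    (hRn : R.Nonempty) (F : Finset (Fin 2 → ℝ)) (hF : F.Nonempty) :
    IsCompact (convexHull ℝ (R ∪ (F : Set (Fin 2 → ℝ)))) := by
  have hC : IsCompact (convexHull ℝ (F : Set (Fin 2 → ℝ))) := F.finite_toSet.isCompact_convexHull ℝ
  have h1 : convexHull ℝ (R ∪ (F : Set (Fin 2 → ℝ))) =
      (fun p : ((Fin 2 → ℝ) × (Fin 2 → ℝ)) × ℝ => (1 - p.2) • p.1.1 + p.2 • p.1.2) ''
        ((R ×ˢ convexHull ℝ (F : Set (Fin 2 → ℝ))) ×ˢ Icc (0 : ℝ) 1) := by
    rw [convexHull_union hRn hF, hRc.convexHull_eq]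
    ext x
    rw [mem_convexJoin]
    constructor
    · rintro ⟨a, ha, b, hb, hx⟩
      rw [segment_eq_image] at hx
      obtain ⟨θ, hθ, rfl⟩ := hx
      exact ⟨((a, b), θ), ⟨⟨ha, hb⟩, hθ⟩, rfl⟩
    · rintro ⟨⟨⟨a, b⟩, θ⟩, ⟨⟨ha, hb⟩, hθ⟩, rfl⟩
      refine ⟨a, ha, b, hb, ?_⟩
      rw [segment_eq_image]
      exact ⟨θ, hθ, rfl⟩
  rw [h1]
  exact ((hR.prod hC).prod isCompact_Icc).image (by fun_prop)

theorem Cap_hull {R : Set (Fin 2 → ℝ)} {S : Finset (Fin 2 → ℝ)} {s : Fin 2 → ℝ}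
    (h : s ∈ convexHull ℝ (R ∪ ((S.erase s : Finset (Fin 2 → ℝ)) : Set (Fin 2 → ℝ)))) :
    convexHull ℝ (R ∪ ((S.erase s : Finset (Fin 2 → ℝ)) : Set (Fin 2 → ℝ))) =
      convexHull ℝ (R ∪ (S : Set (Fin 2 → ℝ))) := by
  apply Subset.antisymm
  · exact convexHull_mono (union_subset_union_right R
      (Finset.coe_subset.2 (Finset.erase_subset s S)))
  · refine convexHull_min ?_ (convex_convexHull ℝ _)
    rintro x (hx | hx)
    · exact subset_convexHull ℝ _ (Or.inl hx)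
    · by_cases hxs : x = s
      · rw [hxs]
        exact h
      · exact subset_convexHull ℝ _ (Or.inr (Finset.mem_coe.2 (Finset.mem_erase.2 ⟨hxs, hx⟩)))

/-- the new finite set after a movement -/
theorem Cap_key {R : Set (Fin 2 → ℝ)} {l : (Fin 2 → ℝ) →ₗ[ℝ] ℝ} {c : ℝ} (hRn : R.Nonempty)
    (hRl : ∀ x ∈ R, l x ≤ c) {F : Finset (Fin 2 → ℝ)} (hF : ∀ x ∈ F, c < l x)
    (hcap : ∀ x ∈ convexHull ℝ (R ∪ (F : Set (Fin 2 → ℝ))), l x ≤ c → x ∈ R)
    (f : (Fin 2 → ℝ) ≃ᵃ[ℝ] (Fin 2 → ℝ)) (hf : ∀ x ∈ R, f x 1 < 0) (t : ℝ) (w w' : Fin 2 → ℝ)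
    (hw : w ∈ F.image f) (hw' : w' ∈ F.image f) (hw1 : w 1 = 0) (hw1' : w' 1 = 0) (hne : w' ≠ w)
    (heq : mv bb ![1, 0] t ''
        convexHull ℝ (f '' R ∪ ((F.image f : Finset (Fin 2 → ℝ)) : Set (Fin 2 → ℝ))) =
      convexHull ℝ (f '' R ∪
        mv bb ![1, 0] t '' ((F.image f : Finset (Fin 2 → ℝ)) : Set (Fin 2 → ℝ))))
    (hwm : w ∈ convexHull ℝ (f '' R ∪
      (mv bb ![1, 0] t '' ((F.image f : Finset (Fin 2 → ℝ)) : Set (Fin 2 → ℝ))) \ {w})) :
    ∃ G : Finset (Fin 2 → ℝ), G.card < F.card ∧ G.Nonempty ∧ (∀ x ∈ G, c < l x) ∧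
      (∀ x ∈ convexHull ℝ (R ∪ (G : Set (Fin 2 → ℝ))), l x ≤ c → x ∈ R) ∧
      convexHull ℝ (R ∪ (G : Set (Fin 2 → ℝ))) = f.symm '' (mv bb ![1, 0] t ''
        (f '' convexHull ℝ (R ∪ (F : Set (Fin 2 → ℝ))))) := by
  classical
  have hhull : ∀ A : Set (Fin 2 → ℝ), f '' convexHull ℝ A = convexHull ℝ (f '' A) :=
    fun A => f.toAffineMap.image_convexHull A
  have hhull' : ∀ A : Set (Fin 2 → ℝ), f.symm '' convexHull ℝ A = convexHull ℝ (f.symm '' A) :=
    fun A => f.symm.toAffineMap.image_convexHull A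
  obtain ⟨T, hT⟩ : ∃ T : Finset (Fin 2 → ℝ), T = (F.image f).image (mv bb ![1, 0] t) := ⟨_, rfl⟩
  have hTc : (T : Set (Fin 2 → ℝ)) =
      mv bb ![1, 0] t '' ((F.image f : Finset (Fin 2 → ℝ)) : Set (Fin 2 → ℝ)) := by
    rw [hT]
    exact Finset.coe_image
  have hwT : w ∈ T := by
    rw [hT]
    exact Finset.mem_image.2 ⟨w, hw, Cap_mv_low hw1.le⟩
  have hwT' : w' ∈ T := by
    rw [hT]
    exact Finset.mem_image.2 ⟨w', hw', Cap_mv_low hw1'.le⟩
  have hTcard : T.card ≤ F.card := by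
    rw [hT]
    exact Finset.card_image_le.trans Finset.card_image_le
  obtain ⟨G, hG⟩ : ∃ G : Finset (Fin 2 → ℝ), G = (T.erase w).image f.symm := ⟨_, rfl⟩
  have hGc : (G : Set (Fin 2 → ℝ)) = f.symm '' ((T.erase w : Finset (Fin 2 → ℝ)) :
      Set (Fin 2 → ℝ)) := by
    rw [hG]
    exact Finset.coe_image
  have hGcard : G.card < F.card := by
    have h1 : G.card ≤ (T.erase w).card := by
      rw [hG]
      exact Finset.card_image_le
    have h2 := Finset.card_erase_lt_of_mem hwT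
    omega
  have hGne : G.Nonempty := by
    rw [hG]
    exact ⟨f.symm w', Finset.mem_image_of_mem _ (Finset.mem_erase.2 ⟨hne, hwT'⟩)⟩
  have hconv : convexHull ℝ (R ∪ (G : Set (Fin 2 → ℝ))) = f.symm '' (mv bb ![1, 0] t ''
      (f '' convexHull ℝ (R ∪ (F : Set (Fin 2 → ℝ))))) := by
    have h1 : R ∪ (G : Set (Fin 2 → ℝ)) = f.symm '' (f '' R ∪
        ((T.erase w : Finset (Fin 2 → ℝ)) : Set (Fin 2 → ℝ))) := by
      rw [image_union, ← hGc, image_image]
      simp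
    have h2 : w ∈ convexHull ℝ (f '' R ∪
        ((T.erase w : Finset (Fin 2 → ℝ)) : Set (Fin 2 → ℝ))) := by
      rw [Finset.coe_erase, hTc]
      exact hwm
    rw [h1, ← hhull', Cap_hull h2, hTc, ← heq, hhull, image_union, Finset.coe_image]
  have hcap' : ∀ x ∈ convexHull ℝ (R ∪ (G : Set (Fin 2 → ℝ))), l x ≤ c → x ∈ R := by
    have hmem : ∀ x ∈ convexHull ℝ (R ∪ (G : Set (Fin 2 → ℝ))), f x 1 ≤ 0 →
        x ∈ convexHull ℝ (R ∪ (F : Set (Fin 2 → ℝ))) := by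
      intro x hx hx0
      rw [hconv] at hx
      obtain ⟨y, ⟨k, ⟨p, hp, rfl⟩, rfl⟩, rfl⟩ := hx
      rw [f.apply_symm_apply, Cap_mv_one] at hx0
      rw [Cap_mv_low hx0, f.symm_apply_apply]
      exact hp
    intro x hx hxl
    by_cases hx0 : f x 1 ≤ 0
    · exact hcap x (hmem x hx hx0) hxl
    · exfalso
      push Not at hx0
      obtain ⟨r, hr⟩ := hRn
      have hr0 := hf r hr
      have hrl := hRl r hr
      have hD : 0 < f x 1 - f r 1 := by linarith
      obtain ⟨θ, hθ⟩ : ∃ θ : ℝ, θ = f x 1 / (f x 1 - f r 1) := ⟨_, rfl⟩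
      have hθ0 : 0 ≤ θ := by
        rw [hθ]
        exact div_nonneg hx0.le hD.le
      have hθ1 : θ ≤ 1 := by
        rw [hθ, div_le_one hD]
        linarith
      have hθD : θ * (f x 1 - f r 1) = f x 1 := by
        rw [hθ]
        exact div_mul_cancel₀ _ hD.ne'
      obtain ⟨q, hq⟩ : ∃ q : Fin 2 → ℝ, q = (1 - θ) • x + θ • r := ⟨_, rfl⟩
      have hqm : q ∈ convexHull ℝ (R ∪ (G : Set (Fin 2 → ℝ))) := by
        rw [hq]
        exact convex_convexHull ℝ _ hx (subset_convexHull ℝ _ (Or.inl hr)) (by linarith) hθ0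
          (by ring)
      have hfq : f q 1 = 0 := by
        have h1 : q = x + θ • (r - x) := by
          rw [hq, sub_smul, one_smul, smul_sub]
          abel
        have h2 : f r = f x + f.linear (r - x) := by
          rw [← Base_aff]
          congr 1
          abel
        rw [h1, Base_aff, map_smul]
        have h3 : f r 1 = f x 1 + f.linear (r - x) 1 := by
          rw [h2]
          rfl
        show f x 1 + θ * f.linear (r - x) 1 = 0
        have h4 : f.linear (r - x) 1 = f r 1 - f x 1 := by linarith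
        rw [h4]
        linarith
      have hlq : l q ≤ c := by
        rw [hq, map_add, map_smul, map_smul, smul_eq_mul, smul_eq_mul]
        have h1 : 0 ≤ 1 - θ := by linarith
        have h2 := mul_le_mul_of_nonneg_left hxl h1
        have h3 := mul_le_mul_of_nonneg_left hrl hθ0
        linarith
      have hqR := hcap q (hmem q hqm hfq.le) hlq
      have h5 := hf q hqR
      linarith
  refine ⟨G, hGcard, hGne, ?_, hcap', hconv⟩
  intro x hx
  by_contra hxl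
  push Not at hxl
  have hxR := hcap' x (subset_convexHull ℝ _ (Or.inr hx)) hxl
  have hx0 := hf x hxR
  rw [hG] at hx
  obtain ⟨y, hy, rfl⟩ := Finset.mem_image.1 hx
  have hyT := (Finset.mem_erase.1 hy).2
  rw [hT] at hyT
  obtain ⟨k, hk, rfl⟩ := Finset.mem_image.1 hyT
  obtain ⟨s, hs, rfl⟩ := Finset.mem_image.1 hk
  rw [f.apply_symm_apply, Cap_mv_one] at hx0
  rw [Cap_mv_low hx0.le, f.symm_apply_apply] at hxl
  exact absurd (hF s hs) (not_lt.2 hxl)

/-- one step: the value does not decrease and the volume is constant -/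
theorem Cap_step (h1 : St_diagR) (h2 : St_endR) (h3 : St_endR2) {R : Set (Fin 2 → ℝ)}
    {l : (Fin 2 → ℝ) →ₗ[ℝ] ℝ} {c : ℝ} (hR : IsBody R) (hRl : ∀ x ∈ R, l x ≤ c) {n : ℕ}
    {Φ : Set (Fin 2 → ℝ) → (Fin n → (Fin 2 → ℝ)) → ℝ} (hΦ : Fun Φ) {z : Fin n → (Fin 2 → ℝ)}
    {F : Finset (Fin 2 → ℝ)} (hFc : 3 ≤ F.card) (hF : ∀ x ∈ F, c < l x)
    (hcap : ∀ x ∈ convexHull ℝ (R ∪ (F : Set (Fin 2 → ℝ))), l x ≤ c → x ∈ R)
    (hind : ∀ s ∈ F, s ∉ convexHull ℝ (R ∪
      ((F.erase s : Finset (Fin 2 → ℝ)) : Set (Fin 2 → ℝ)))) :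
    ∃ G : Finset (Fin 2 → ℝ), G.card < F.card ∧ G.Nonempty ∧ (∀ x ∈ G, c < l x) ∧
      (∀ x ∈ convexHull ℝ (R ∪ (G : Set (Fin 2 → ℝ))), l x ≤ c → x ∈ R) ∧
      vol (convexHull ℝ (R ∪ (G : Set (Fin 2 → ℝ)))) =
        vol (convexHull ℝ (R ∪ (F : Set (Fin 2 → ℝ)))) ∧
      Φ (convexHull ℝ (R ∪ (F : Set (Fin 2 → ℝ)))) z ≤
        Φ (convexHull ℝ (R ∪ (G : Set (Fin 2 → ℝ)))) z := by
  classical
  obtain ⟨hRc, hRk, hRi⟩ := hR
  have hRn : R.Nonempty := hRi.mono interior_subset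
  obtain ⟨f, ⟨s1, hs1, hf1⟩, ⟨s2, hs2, hf2⟩, ⟨s3, hs3, hf3⟩, hfR⟩ :=
    h1 R F l c hRk hRc hRn hRl hF hFc hind
  have hfc : Continuous f := f.continuous_of_finiteDimensional
  have hhull : ∀ A : Set (Fin 2 → ℝ), f '' convexHull ℝ A = convexHull ℝ (f '' A) :=
    fun A => f.toAffineMap.image_convexHull A
  have m1 : ![1, 0] ∈ F.image f := by
    rw [← hf1]
    exact Finset.mem_image_of_mem f hs1
  have m2 : ![-1, 0] ∈ F.image f := by
    rw [← hf2]
    exact Finset.mem_image_of_mem f hs2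
  have m3 : ∃ s ∈ F.image f, 0 < s 1 := ⟨f s3, Finset.mem_image_of_mem f hs3, hf3⟩
  have hR' : ∀ x ∈ f '' R, x 1 < 0 := by
    rintro _ ⟨x, hx, rfl⟩
    exact hfR x hx
  have hind' : ∀ s ∈ F.image f, s ∉ convexHull ℝ (f '' R ∪
      (((F.image f).erase s : Finset (Fin 2 → ℝ)) : Set (Fin 2 → ℝ))) := by
    intro s' hs' hmem
    obtain ⟨s, hs, rfl⟩ := Finset.mem_image.1 hs'
    refine hind s hs ?_
    have h5 : (((F.image f).erase (f s) : Finset (Fin 2 → ℝ)) : Set (Fin 2 → ℝ)) =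
        f '' ((F.erase s : Finset (Fin 2 → ℝ)) : Set (Fin 2 → ℝ)) := by
      rw [← Finset.coe_image, Finset.image_erase f.injective]
    rw [h5, ← image_union, ← hhull] at hmem
    obtain ⟨x, hx, hxs⟩ := hmem
    rwa [f.injective hxs] at hx
  have hR'k : IsCompact (f '' R) := hRk.image hfc
  have hR'c : Convex ℝ (f '' R) := hRc.affine_image f.toAffineMap
  have hR'n : (f '' R).Nonempty := hRn.image f
  obtain ⟨t1, ht1, he1, hw1⟩ := h2 (f '' R) (F.image f) hR'k hR'c hR'n hR' m1 m2 hind' m3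
  obtain ⟨t2, ht2, he2, hw2⟩ := h3 (f '' R) (F.image f) hR'k hR'c hR'n hR' m1 m2 hind' m3
  have hne : (![-1, 0] : Fin 2 → ℝ) ≠ ![1, 0] := by
    intro h
    have h6 := congrFun h 0
    simp at h6
    linarith
  have hFn : F.Nonempty := ⟨s1, hs1⟩
  have hPk : IsCompact (convexHull ℝ (R ∪ (F : Set (Fin 2 → ℝ)))) :=
    Cap_compact hRk hRc hRn F hFn
  obtain ⟨P, hP⟩ : ∃ P : Set (Fin 2 → ℝ), P = convexHull ℝ (R ∪ (F : Set (Fin 2 → ℝ))) :=
    ⟨_, rfl⟩
  have hfPk : IsCompact (f '' P) := by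
    rw [hP]
    exact hPk.image hfc
  -- the transported functional
  have hΨ := thm_funmap (Fin 2 → ℝ) (Fin 2 → ℝ) n Φ f.symm hΦ
  have hmov := hΨ.mov (f '' P) hfPk.measurableSet hfPk.isBounded (fun i => f (z i)) ![1, 0] bb
    Cap_bb_cont.measurable Cap_bb_inv (by
      obtain ⟨C, hC⟩ := hfPk.exists_bound_of_continuousOn Cap_bb_cont.continuousOn
      exact ⟨C, fun x hx => hC x hx⟩) (fun _ => 0)
  have hval : ∀ t : ℝ, (fun t : ℝ => Φ (f.symm '' (mv bb ![1, 0] t '' (f '' P)))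
      (fun i => f.symm (f (z i) + (t * 0) • ![1, 0]))) t =
      Φ (f.symm '' (mv bb ![1, 0] t '' (f '' P))) z := by
    intro t
    show Φ _ _ = Φ _ _
    congr 1
    funext i
    simp
  have hv0 : Φ (f.symm '' (mv bb ![1, 0] 0 '' (f '' P))) z = Φ P z := by
    have h7 : mv bb ![1, 0] 0 = id := by
      funext x
      simp [mv]
    rw [h7, image_id, image_image]
    simp
  have hvol : ∀ t : ℝ, vol (f.symm '' (mv bb ![1, 0] t '' (f '' P))) = vol P := by
    intro t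
    obtain ⟨k, hk⟩ := Cap_vol f.symm
    have h8 : vol P = vol (f.symm '' (f '' P)) := by
      rw [image_image]
      simp
    rw [hk, Mov_vol thm_pres hfPk.measurableSet Cap_bb_cont.measurable Cap_bb_inv t, ← hk, ← h8]
  have hmax : Φ P z ≤ Φ (f.symm '' (mv bb ![1, 0] t1 '' (f '' P))) z ∨
      Φ P z ≤ Φ (f.symm '' (mv bb ![1, 0] t2 '' (f '' P))) z := by
    by_contra hcon
    push Not at hcon
    obtain ⟨c1, c2⟩ := hcon
    have h9 := (hmov.convex_lt (Φ P z)).ordConnected.out (x := t2) (y := t1)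
      ⟨mem_univ _, by
        have := hval t2
        show (fun t : ℝ => Φ (f.symm '' (mv bb ![1, 0] t '' (f '' P)))
          (fun i => f.symm (f (z i) + (t * 0) • ![1, 0]))) t2 < Φ P z
        rw [this]
        exact c2⟩ ⟨mem_univ _, by
        have := hval t1
        show (fun t : ℝ => Φ (f.symm '' (mv bb ![1, 0] t '' (f '' P)))
          (fun i => f.symm (f (z i) + (t * 0) • ![1, 0]))) t1 < Φ P z
        rw [this]
        exact c1⟩ ⟨ht2, ht1⟩
    have h10 : (fun t : ℝ => Φ (f.symm '' (mv bb ![1, 0] t '' (f '' P)))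
          (fun i => f.symm (f (z i) + (t * 0) • ![1, 0]))) 0 < Φ P z := h9.2
    rw [hval 0, hv0] at h10
    exact lt_irrefl _ h10
  rcases hmax with hm | hm
  · obtain ⟨G, g1, g2, g3, g4, g5⟩ := Cap_key hRn hRl hF hcap f hfR t1 ![1, 0] ![-1, 0] m1 m2
      (by simp) (by simp) hne he1 hw1
    rw [← hP] at g5 ⊢
    refine ⟨G, g1, g2, g3, g4, ?_, ?_⟩
    · rw [g5]
      exact hvol t1
    · rw [g5]
      exact hm
  · obtain ⟨G, g1, g2, g3, g4, g5⟩ := Cap_key hRn hRl hF hcap f hfR t2 ![-1, 0] ![1, 0] m2 m1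
      (by simp) (by simp) hne.symm he2 hw2
    rw [← hP] at g5 ⊢
    refine ⟨G, g1, g2, g3, g4, ?_, ?_⟩
    · rw [g5]
      exact hvol t2
    · rw [g5]
      exact hm

theorem thm_cap (h1 : St_diagR) (h2 : St_endR) (h3 : St_endR2) : St_cap := by
  classical
  intro R l c hR hRl n Φ hΦ z _
  have main : ∀ m : ℕ, ∀ F : Finset (Fin 2 → ℝ), F.card ≤ m → F.Nonempty → (∀ x ∈ F, c < l x) →
      (∀ x ∈ convexHull ℝ (R ∪ (F : Set (Fin 2 → ℝ))), l x ≤ c → x ∈ R) →
      ∃ v v' : Fin 2 → ℝ, c < l v ∧ c < l v' ∧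
        (∀ x ∈ convexHull ℝ (R ∪ {v, v'}), l x ≤ c → x ∈ R) ∧
        vol (convexHull ℝ (R ∪ {v, v'})) = vol (convexHull ℝ (R ∪ (F : Set (Fin 2 → ℝ)))) ∧
        Φ (convexHull ℝ (R ∪ (F : Set (Fin 2 → ℝ)))) z ≤ Φ (convexHull ℝ (R ∪ {v, v'})) z := by
    intro m
    induction m with
    | zero =>
      intro F hc hne
      exact absurd (Finset.card_pos.2 hne) (by omega)
    | succ m ih =>
      intro F hc hne hF hcap
      by_cases hc2 : F.card ≤ 2
      · obtain ⟨v, v', hv⟩ : ∃ v v' : Fin 2 → ℝ, F = {v, v'} := by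
          have hpos := Finset.card_pos.2 hne
          have h12 : F.card = 1 ∨ F.card = 2 := by omega
          rcases h12 with h | h
          · obtain ⟨v, hv⟩ := Finset.card_eq_one.1 h
            exact ⟨v, v, by rw [hv]; simp⟩
          · obtain ⟨v, v', -, hv⟩ := Finset.card_eq_two.1 h
            exact ⟨v, v', hv⟩
        have hvc : (F : Set (Fin 2 → ℝ)) = {v, v'} := by
          rw [hv]
          simp
        rw [hvc] at hcap ⊢
        refine ⟨v, v', hF v (by rw [hv]; simp), hF v' (by rw [hv]; simp), hcap, rfl, le_rfl⟩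
      · by_cases hind : ∃ s ∈ F, s ∈ convexHull ℝ (R ∪
          ((F.erase s : Finset (Fin 2 → ℝ)) : Set (Fin 2 → ℝ)))
        · obtain ⟨s, hs, hss⟩ := hind
          have h4 := Cap_hull hss
          have h5 : (F.erase s).card = F.card - 1 := Finset.card_erase_of_mem hs
          have h6 := ih (F.erase s) (by omega) (Finset.card_pos.1 (by omega))
            (fun x hx => hF x (Finset.mem_of_mem_erase hx)) (by
              rw [h4]
              exact hcap)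
          rw [h4] at h6
          exact h6
        · push Not at hind
          obtain ⟨G, g1, g2, g3, g4, g5, g6⟩ :=
            Cap_step (z := z) h1 h2 h3 hR hRl hΦ (by omega) hF hcap hind
          obtain ⟨v, v', e1, e2, e3, e4, e5⟩ := ih G (by omega) g2 g3 g4
          exact ⟨v, v', e1, e2, e3, e4.trans g5, g6.trans e5⟩
  intro F hne hF hcap
  exact main F.card F le_rfl hne hF hcap

end Pool.Agent.SYJ
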