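import Pool.Agent.SYL.Defs

/-! # Sylvester problem, free sums of planar bodies: definitions and module statements

Chord movements `mv`, functionals of a set with `n` marked points which are convex along every
chord movement (`Fun`), good bodies (`Good`), the free sum written with the gauge (`fs`), the
push of a functional to a summand (`push`). -/

set_option autoImplicit false

namespace Pool.Agent.SYJ

open MeasureTheory Set Pool.Agent.SYL

noncomputable section

/-- chord movement in the direction `u` with speed `β` at the time `t` -/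
def mv {E : Type} [AddCommGroup E] [Module ℝ E] (β : E → ℝ) (u : E) (t : ℝ) (x : E) : E :=
  x + (t * β x) • u

/-- vertex sets of full-dimensional simplices -/
def Simp {E : Type} [AddCommGroup E] [Module ℝ E] (V : Finset E) : Prop :=
  V.card ≤ Module.finrank ℝ E + 1 ∧ affineSpan ℝ (V : Set E) = ⊤

/-- functionals of a set with `n` marked points: convex along chord movements (`mov`), and a weak
continuity from inside (`cont`) -/
structure Fun {E : Type} [NormedAddCommGroup E] [NormedSpace ℝ E] [MeasurableSpace E] {n : ℕ}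
    (Φ : Set E → (Fin n → E) → ℝ) : Prop where
  mov : ∀ K : Set E, MeasurableSet K → Bornology.IsBounded K →
    ∀ (z : Fin n → E) (u : E) (β : E → ℝ), Measurable β → (∀ (x : E) (s : ℝ), β (x + s • u) = β x) →
    (∃ C, ∀ x ∈ K, |β x| ≤ C) → ∀ b : Fin n → ℝ,
    ConvexOn ℝ univ (fun t : ℝ => Φ (mv β u t '' K) (fun i => z i + (t * b i) • u))
  cont : ∀ (K : Set E) (P : ℕ → Set E), IsCompact K → Convex ℝ K → (interior K).Nonempty →
    Monotone P → (∀ m, IsCompact (P m) ∧ Convex ℝ (P m) ∧ P m ⊆ K) → interior K ⊆ ⋃ m, P m →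
    ∀ z : Fin n → E, (∀ i m, z i ∈ P m) → ∀ M : ℝ, (∀ m, Φ (P m) z ≤ M) → Φ K z ≤ M

/-- bodies on which every functional is at most its supremum over simplices with marked vertices -/
def Good (E : Type) [NormedAddCommGroup E] [NormedSpace ℝ E] [MeasurableSpace E]
    (K : Set E) : Prop :=
  IsCompact K ∧ Convex ℝ K ∧ (interior K).Nonempty ∧
  ∀ (n : ℕ) (Φ : Set E → (Fin n → E) → ℝ), Fun Φ → ∀ M : ℝ,
    (∀ V : Finset E, Simp V → ∀ v : Fin n → E, (∀ i, v i ∈ V) →
      Φ (convexHull ℝ (V : Set E)) v ≤ M) →
    ∀ z : Fin n → E, (∀ i, z i ∈ K) → Φ K z ≤ M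

/-- gauge of `B` seen from `q`, at the point `y` -/
def gg {E : Type} [AddCommGroup E] [Module ℝ E] (B : Set E) (q y : E) : ℝ :=
  gauge ((fun b => b - q) '' B) (y - q)

/-- free sum of `A` and `B` glued at `p ∈ A` and `q ∈ B`, by fibres over `B` -/
def fs {E F : Type} [AddCommGroup E] [Module ℝ E] [AddCommGroup F] [Module ℝ F]
    (A : Set E) (p : E) (B : Set F) (q : F) : Set (E × F) :=
  {z | z.2 ∈ B ∧ ∃ a ∈ A, z.1 = (1 - gg B q z.2) • a + gg B q z.2 • p}

/-- free sum as a convex hull -/
def hs {E F : Type} [AddCommGroup E] [Module ℝ E] [AddCommGroup F] [Module ℝ F]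
    (A : Set E) (p : E) (B : Set F) (q : F) : Set (E × F) :=
  convexHull ℝ ((fun a => (a, q)) '' A ∪ (fun b => (p, b)) '' B)

/-- a functional on the free sum as a functional of the first summand; the marked point `0` is the
gluing point, the marked point `i` of the sum is `(z (i+1), q)` or `(z 0, y)` with `c i = some y` -/
def push {E F : Type} [AddCommGroup E] [Module ℝ E] [AddCommGroup F] [Module ℝ F] {n : ℕ}
    (Φ : Set (E × F) → (Fin n → E × F) → ℝ) (B : Set F) (q : F) (c : Fin n → Option F) :
    Set E → (Fin (n + 1) → E) → ℝ :=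
  fun A z => Φ (fs A (z 0) B q)
    (fun i => match c i with
      | none => (z i.succ, q)
      | some y => (z 0, y))

end

end Pool.Agent.SYJ
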