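import Pool.Agent.SYJ.Defs
import Pool.Agent.SYJ.Cls

/-! # Equality case: definitions

`FunS`: functionals which are moreover strictly convex along non-affine movements and continuous;
`SGood`: good bodies which are strictly below the bound unless they are simplices; `Corner`. -/

set_option autoImplicit false

namespace Pool.Agent.SYJ

open MeasureTheory Set Filter Topology Pool.Agent.SYL

noncomputable section

/-- functionals of a set with `n` marked points: `Fun`, strictness along movements whose speed is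
continuous and not affine on the interior, continuity under convergence of compact convex sets -/
structure FunS {E : Type} [NormedAddCommGroup E] [NormedSpace ℝ E] [MeasurableSpace E] {n : ℕ}
    (Φ : Set E → (Fin n → E) → ℝ) : Prop where
  fn : Fun Φ
  strict : ∀ K : Set E, IsCompact K → Convex ℝ K → (interior K).Nonempty →
    ∀ z : Fin n → E, (∀ i, z i ∈ K) → ∀ (u : E) (β : E → ℝ), u ≠ 0 → Measurable β →
    (∀ (x : E) (s : ℝ), β (x + s • u) = β x) → (∃ C, ∀ x ∈ K, |β x| ≤ C) →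
    ContinuousOn β (interior K) →
    ¬ (ConvexOn ℝ (interior K) β ∧ ConcaveOn ℝ (interior K) β) →
    ∀ (b : Fin n → ℝ) (t₁ t₂ : ℝ), t₁ < 0 → 0 < t₂ →
    Φ K z < max (Φ (mv β u t₁ '' K) (fun i => z i + (t₁ * b i) • u))
      (Φ (mv β u t₂ '' K) (fun i => z i + (t₂ * b i) • u))
  lim : ∀ (K : Set E) (P : ℕ → Set E), IsCompact K → Convex ℝ K → (interior K).Nonempty →
    (∀ m, IsCompact (P m) ∧ Convex ℝ (P m)) → (∃ R : ℝ, ∀ m, ∀ x ∈ P m, ‖x‖ ≤ R) →
    (∀ x ∈ interior K, ∀ᶠ m in atTop, x ∈ P m) → (∀ x, x ∉ K → ∀ᶠ m in atTop, x ∉ P m) →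
    ∀ z : Fin n → E, (∀ i, z i ∈ K) → (∀ i m, z i ∈ P m) →
    Tendsto (fun m => Φ (P m) z) atTop (𝓝 (Φ K z))

/-- bound on simplices with marked vertices -/
def Bd {E : Type} [NormedAddCommGroup E] [NormedSpace ℝ E] {n : ℕ}
    (Φ : Set E → (Fin n → E) → ℝ) (M : ℝ) : Prop :=
  ∀ V : Finset E, Simp V → ∀ v : Fin n → E, (∀ i, v i ∈ V) →
    Φ (convexHull ℝ (V : Set E)) v ≤ M

/-- good bodies with strict inequality unless they are simplices -/
def SGood (E : Type) [NormedAddCommGroup E] [NormedSpace ℝ E] [MeasurableSpace E]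
    (K : Set E) : Prop :=
  Good E K ∧ ((¬ ∃ V : Finset E, Simp V ∧ K = convexHull ℝ (V : Set E)) →
    ∀ (n : ℕ) (Φ : Set E → (Fin n → E) → ℝ), FunS Φ → ∀ M : ℝ, Bd Φ M →
      ∀ z : Fin n → E, (∀ i, z i ∈ K) → Φ K z < M)

/-- `v` is a corner of the planar set `K`: two independent supporting functionals -/
def Corner (K : Set (Fin 2 → ℝ)) (v : Fin 2 → ℝ) : Prop :=
  v ∈ K ∧ ∃ f₁ f₂ : (Fin 2 → ℝ) →ₗ[ℝ] ℝ, LinearIndependent ℝ ![f₁, f₂] ∧
    ∀ x ∈ K, f₁ x ≤ f₁ v ∧ f₂ x ≤ f₂ v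

/-- speed of the planar shear -/
def bb (x : Fin 2 → ℝ) : ℝ := max (x 1) 0

end

end Pool.Agent.SYJ
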