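import Pool.Agent.SYJ.Defs

/-! # Sylvester problem, free sums of planar bodies: module statements

Every module proves one or two of these propositions, taking earlier ones as hypotheses. -/

set_option autoImplicit false

namespace Pool.Agent.SYJ

open MeasureTheory Set Pool.Agent.SYL

/-- B1. Marked points may be moved to a set whose convex hull contains them. Induction over the
points: by `Fun.mov` with `β = 0`, `b = Pi.single i 1` the function `x ↦ Φ K (update z i x)` is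
convex on `E`, so its sublevel set is convex. -/
def St_extr : Prop := ∀ (E : Type) [NormedAddCommGroup E] [NormedSpace ℝ E] [MeasurableSpace E]
  (n : ℕ) (Φ : Set E → (Fin n → E) → ℝ), Fun Φ → ∀ K : Set E, MeasurableSet K →
  Bornology.IsBounded K → ∀ (S : Set E) (M : ℝ),
  (∀ z : Fin n → E, (∀ i, z i ∈ S) → Φ K z ≤ M) →
  ∀ z : Fin n → E, (∀ i, z i ∈ convexHull ℝ S) → Φ K z ≤ M

/-- B2. Transport of functionals along an affine isomorphism. -/
def St_funmap : Prop := ∀ (E E' : Type) [NormedAddCommGroup E] [NormedSpace ℝ E]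
  [FiniteDimensional ℝ E] [MeasurableSpace E] [BorelSpace E]
  [NormedAddCommGroup E'] [NormedSpace ℝ E'] [FiniteDimensional ℝ E'] [MeasurableSpace E']
  [BorelSpace E'] (n : ℕ) (Φ : Set E' → (Fin n → E') → ℝ) (f : E ≃ᵃ[ℝ] E'), Fun Φ →
  Fun (fun (K : Set E) (z : Fin n → E) => Φ (f '' K) (fun i => f (z i)))

/-- B3. Good bodies are invariant under affine isomorphisms. -/
def St_goodmap : Prop := ∀ (E E' : Type) [NormedAddCommGroup E] [NormedSpace ℝ E]
  [FiniteDimensional ℝ E] [MeasurableSpace E] [BorelSpace E]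
  [NormedAddCommGroup E'] [NormedSpace ℝ E'] [FiniteDimensional ℝ E'] [MeasurableSpace E']
  [BorelSpace E'] (f : E ≃ᵃ[ℝ] E') (K : Set E), Good E K → Good E' (f '' K)

/-- B4. Simplices are good. -/
def St_simp : Prop := ∀ (E : Type) [NormedAddCommGroup E] [NormedSpace ℝ E]
  [FiniteDimensional ℝ E] [MeasurableSpace E] [BorelSpace E] (V : Finset E), Simp V →
  Good E (convexHull ℝ (V : Set E))

/-- M1. Chord movements preserve Lebesgue measure. -/
def St_pres : Prop := ∀ (d : ℕ) (u : Fin d → ℝ) (β : (Fin d → ℝ) → ℝ), Measurable β →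
  (∀ (x : Fin d → ℝ) (s : ℝ), β (x + s • u) = β x) → ∀ t : ℝ,
  MeasurePreserving (mv β u t) volume volume

/-- M2. `V` is convex in `t` when every point moves along `u` with its own constant speed. -/
def St_Vconv : Prop := ∀ (d : ℕ) (x : Fin (d + 1) → (Fin d → ℝ)) (u : Fin d → ℝ)
  (c : Fin (d + 1) → ℝ), ConvexOn ℝ univ (fun t : ℝ => V (fun i => x i + (t * c i) • u))

/-- M3. The Sylvester functional is convex along chord movements. -/
def St_mov : Prop := ∀ (d : ℕ) (K : Set (Fin d → ℝ)), MeasurableSet K → Bornology.IsBounded K →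
  ∀ (u : Fin d → ℝ) (β : (Fin d → ℝ) → ℝ), Measurable β →
  (∀ (x : Fin d → ℝ) (s : ℝ), β (x + s • u) = β x) → (∃ C, ∀ x ∈ K, |β x| ≤ C) →
  ConvexOn ℝ univ (fun t : ℝ => Sylv d (mv β u t '' K))

/-- C1. Weak continuity of the Sylvester functional from inside. -/
def St_cont : Prop := ∀ (d : ℕ) (K : Set (Fin d → ℝ)) (P : ℕ → Set (Fin d → ℝ)), IsCompact K →
  Convex ℝ K → (interior K).Nonempty → Monotone P →
  (∀ m, IsCompact (P m) ∧ Convex ℝ (P m) ∧ P m ⊆ K) → interior K ⊆ ⋃ m, P m →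
  ∀ M : ℝ, (∀ m, Sylv d (P m) ≤ M) → Sylv d K ≤ M

/-- G1. The gauge of a compact convex set seen from a point of it. -/
def St_gauge : Prop := ∀ (F : Type) [NormedAddCommGroup F] [NormedSpace ℝ F]
  [FiniteDimensional ℝ F] [MeasurableSpace F] [BorelSpace F] (B : Set F) (q : F), IsCompact B →
  Convex ℝ B → q ∈ B →
  (∀ y ∈ B, 0 ≤ gg B q y ∧ gg B q y ≤ 1) ∧ gg B q q = 0 ∧
  (∀ y ∈ B, ∃ b ∈ B, y - q = gg B q y • (b - q)) ∧
  (∀ y : F, ∀ b ∈ B, ∀ l : ℝ, 0 ≤ l → y - q = l • (b - q) → gg B q y ≤ l) ∧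
  Measurable (B.indicator (gg B q))

/-- G2. The two descriptions of a free sum of compact convex sets agree. -/
def St_hull : Prop := ∀ (E F : Type) [NormedAddCommGroup E] [NormedSpace ℝ E]
  [FiniteDimensional ℝ E] [MeasurableSpace E] [BorelSpace E]
  [NormedAddCommGroup F] [NormedSpace ℝ F] [FiniteDimensional ℝ F] [MeasurableSpace F]
  [BorelSpace F] (A : Set E) (p : E) (B : Set F) (q : F), IsCompact A → Convex ℝ A → p ∈ A →
  IsCompact B → Convex ℝ B → q ∈ B → fs A p B q = hs A p B q ∧ IsCompact (hs A p B q)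

/-- G3. Interior of a free sum: it is not empty, and its points come from interior points of `A`. -/
def St_int : Prop := ∀ (E F : Type) [NormedAddCommGroup E] [NormedSpace ℝ E]
  [FiniteDimensional ℝ E] [MeasurableSpace E] [BorelSpace E]
  [NormedAddCommGroup F] [NormedSpace ℝ F] [FiniteDimensional ℝ F] [MeasurableSpace F]
  [BorelSpace F] (A : Set E) (p : E) (B : Set F) (q : F), IsCompact A → Convex ℝ A → p ∈ A →
  (interior A).Nonempty → IsCompact B → Convex ℝ B → q ∈ B → (interior B).Nonempty →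
  (interior (hs A p B q)).Nonempty ∧
  ∀ z ∈ interior (hs A p B q), z.2 ∈ B ∧ ∃ a ∈ interior A,
    z.1 = (1 - gg B q z.2) • a + gg B q z.2 • p

/-- P1. The push of a functional is a functional. -/
def St_push : Prop := ∀ (E F : Type) [NormedAddCommGroup E] [NormedSpace ℝ E]
  [FiniteDimensional ℝ E] [MeasurableSpace E] [BorelSpace E]
  [NormedAddCommGroup F] [NormedSpace ℝ F] [FiniteDimensional ℝ F] [MeasurableSpace F]
  [BorelSpace F] (n : ℕ) (Φ : Set (E × F) → (Fin n → E × F) → ℝ) (B : Set F) (q : F)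
  (c : Fin n → Option F), Fun Φ → IsCompact B → Convex ℝ B → q ∈ B → (interior B).Nonempty →
  (∀ i y, c i = some y → y ∈ B) → Fun (push Φ B q c)

/-- S1. The free sum of two simplices at vertices is a simplex, and its vertices. -/
def St_simpsum : Prop := ∀ (E F : Type) [NormedAddCommGroup E] [NormedSpace ℝ E]
  [FiniteDimensional ℝ E] [NormedAddCommGroup F] [NormedSpace ℝ F] [FiniteDimensional ℝ F]
  (V : Finset E) (W : Finset F) (p : E) (q : F), Simp V → Simp W → p ∈ V → q ∈ W →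
  ∃ U : Finset (E × F), Simp U ∧ (∀ v ∈ V, (v, q) ∈ U) ∧ (∀ w ∈ W, (p, w) ∈ U) ∧
    convexHull ℝ (U : Set (E × F)) = hs (convexHull ℝ (V : Set E)) p (convexHull ℝ (W : Set F)) q

/-- S2. The free sum of good bodies is good. -/
def St_sum : Prop := ∀ (E F : Type) [NormedAddCommGroup E] [NormedSpace ℝ E]
  [FiniteDimensional ℝ E] [MeasurableSpace E] [BorelSpace E]
  [NormedAddCommGroup F] [NormedSpace ℝ F] [FiniteDimensional ℝ F] [MeasurableSpace F]
  [BorelSpace F] (A : Set E) (p : E) (B : Set F) (q : F), Good E A → p ∈ A → Good F B → q ∈ B →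
  Good (E × F) (hs A p B q)

/-- L1. The end of the shear. `S` is finite, contains `(1,0)` and `(-1,0)`, no point of `S` is in the
convex hull of the others, and `S` has points above and below the axis. -/
def St_end : Prop := ∀ S : Finset (Fin 2 → ℝ), ![1, 0] ∈ S → ![-1, 0] ∈ S →
  (∀ s ∈ S, s ∉ convexHull ℝ ((S.erase s : Finset (Fin 2 → ℝ)) : Set (Fin 2 → ℝ))) →
  (∃ s ∈ S, 0 < s 1) → (∃ s ∈ S, s 1 < 0) →
  ∃ t : ℝ, 0 ≤ t ∧
    mv (fun x => max (x 1) 0) ![1, 0] t '' convexHull ℝ (S : Set (Fin 2 → ℝ)) =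
      convexHull ℝ (mv (fun x => max (x 1) 0) ![1, 0] t '' (S : Set (Fin 2 → ℝ))) ∧
    ![1, 0] ∈ convexHull ℝ
      ((mv (fun x => max (x 1) 0) ![1, 0] t '' (S : Set (Fin 2 → ℝ))) \ {![1, 0]})

/-- L2. The same at the other end (apply L1 to the mirror image). -/
def St_end2 : Prop := ∀ S : Finset (Fin 2 → ℝ), ![1, 0] ∈ S → ![-1, 0] ∈ S →
  (∀ s ∈ S, s ∉ convexHull ℝ ((S.erase s : Finset (Fin 2 → ℝ)) : Set (Fin 2 → ℝ))) →
  (∃ s ∈ S, 0 < s 1) → (∃ s ∈ S, s 1 < 0) →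
  ∃ t : ℝ, t ≤ 0 ∧
    mv (fun x => max (x 1) 0) ![1, 0] t '' convexHull ℝ (S : Set (Fin 2 → ℝ)) =
      convexHull ℝ (mv (fun x => max (x 1) 0) ![1, 0] t '' (S : Set (Fin 2 → ℝ))) ∧
    ![-1, 0] ∈ convexHull ℝ
      ((mv (fun x => max (x 1) 0) ![1, 0] t '' (S : Set (Fin 2 → ℝ))) \ {![-1, 0]})

/-- L3. Crossing diagonals, normalised (Radon). -/
def St_diag : Prop := ∀ S : Finset (Fin 2 → ℝ), 4 ≤ S.card →
  (∀ s ∈ S, s ∉ convexHull ℝ ((S.erase s : Finset (Fin 2 → ℝ)) : Set (Fin 2 → ℝ))) →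
  ∃ f : (Fin 2 → ℝ) ≃ᵃ[ℝ] (Fin 2 → ℝ),
    (∃ s ∈ S, f s = ![1, 0]) ∧ (∃ s ∈ S, f s = ![-1, 0]) ∧
    (∃ s ∈ S, 0 < f s 1) ∧ (∃ s ∈ S, f s 1 < 0)

/-- L4. Polygons are good. -/
def St_poly : Prop := ∀ S : Finset (Fin 2 → ℝ), affineSpan ℝ (S : Set (Fin 2 → ℝ)) = ⊤ →
  Good (Fin 2 → ℝ) (convexHull ℝ (S : Set (Fin 2 → ℝ)))

/-- L5. Planar bodies are good. -/
def St_planar : Prop := ∀ K : Set (Fin 2 → ℝ), IsBody K → Good (Fin 2 → ℝ) K

/-- F1. Vertex sets and `IsSimplex`. -/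
def St_IsSimplex : Prop := ∀ (d : ℕ),
  (∀ T : Set (Fin d → ℝ), IsSimplex T → ∃ V : Finset (Fin d → ℝ), Simp V ∧
    T = convexHull ℝ (V : Set (Fin d → ℝ))) ∧
  (∀ V : Finset (Fin d → ℝ), Simp V → IsSimplex (convexHull ℝ (V : Set (Fin d → ℝ))))

/-- F2. All simplices have the same value. -/
def St_same : Prop := ∀ (d : ℕ) (T T' : Set (Fin d → ℝ)), IsSimplex T → IsSimplex T' →
  Sylv d T = Sylv d T'

end Pool.Agent.SYJ
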