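import Pool.Agent.SYJ.DefsE
import Pool.Agent.SYJ.St

/-! # Equality case: module statements -/

set_option autoImplicit false

namespace Pool.Agent.SYJ

open MeasureTheory Set Filter Topology Pool.Agent.SYL

/-- EB1. Strict form of `St_extr` (sublevel sets `< M` of a convex function are convex). -/
def St_extrS : Prop := ∀ (E : Type) [NormedAddCommGroup E] [NormedSpace ℝ E] [MeasurableSpace E]
  (n : ℕ) (Φ : Set E → (Fin n → E) → ℝ), Fun Φ → ∀ K : Set E, MeasurableSet K →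
  Bornology.IsBounded K → ∀ (S : Set E) (M : ℝ),
  (∀ z : Fin n → E, (∀ i, z i ∈ S) → Φ K z < M) →
  ∀ z : Fin n → E, (∀ i, z i ∈ convexHull ℝ S) → Φ K z < M

/-- EB2. Transport of strict functionals along an affine isomorphism (copy `Base.thm_funmap`;
`ConvexOn.comp_affineMap`). -/
def St_funmapS : Prop := ∀ (E E' : Type) [NormedAddCommGroup E] [NormedSpace ℝ E]
  [FiniteDimensional ℝ E] [MeasurableSpace E] [BorelSpace E]
  [NormedAddCommGroup E'] [NormedSpace ℝ E'] [FiniteDimensional ℝ E'] [MeasurableSpace E']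
  [BorelSpace E'] (n : ℕ) (Φ : Set E' → (Fin n → E') → ℝ) (f : E ≃ᵃ[ℝ] E'), FunS Φ →
  FunS (fun (K : Set E) (z : Fin n → E) => Φ (f '' K) (fun i => f (z i)))

/-- EB3. `SGood` is invariant under affine isomorphisms. -/
def St_sgoodmap : Prop := ∀ (E E' : Type) [NormedAddCommGroup E] [NormedSpace ℝ E]
  [FiniteDimensional ℝ E] [MeasurableSpace E] [BorelSpace E]
  [NormedAddCommGroup E'] [NormedSpace ℝ E'] [FiniteDimensional ℝ E'] [MeasurableSpace E']
  [BorelSpace E'] (f : E ≃ᵃ[ℝ] E') (K : Set E), SGood E K → SGood E' (f '' K)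

/-- EM1. There are `y, z` in the interior and `a + b = 1`, `a, b ≥ 0` with
`β (a y + b z) ≠ a β y + b β z`; `z - y` is not parallel to `u` (else the three values agree). Take
`x 0 = a y + b z`, `x 1 = y`, `x 2 = z`, `x i = y + ε v i` with `z - y, u, v 3, …, v d` a basis.
The determinant of `x` is 0, after the movement by `β (x i) u` it is
`± ε^(d-2) (β (x 0) - a β y - b β z) det(basis) ≠ 0`. -/
def St_point : Prop := ∀ (d : ℕ) (U : Set (Fin d → ℝ)), IsOpen U → Convex ℝ U →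
  ∀ (u : Fin d → ℝ) (β : (Fin d → ℝ) → ℝ), u ≠ 0 →
  (∀ (x : Fin d → ℝ) (s : ℝ), β (x + s • u) = β x) →
  ¬ (ConvexOn ℝ U β ∧ ConcaveOn ℝ U β) →
  ∃ x : Fin (d + 1) → (Fin d → ℝ), (∀ i, x i ∈ U) ∧ dt x = 0 ∧
    dt (fun i => x i + β (x i) • u) ≠ 0

/-- EM2. Strictness for the Sylvester functional. `D x t = dt (x i + t β(x i) u) = a x + t b x`.
With `l t₁ + (1-l) t₂ = 0`: `|D x 0| ≤ l |D x t₁| + (1-l) |D x t₂|`, strictly where
`D x t₁ * D x t₂ < 0`, in particular near the point of EM1 (continuity on the interior), so the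
integrals over `K^(d+1)` satisfy the strict inequality; the volume does not change. -/
def St_sstrict : Prop := ∀ (d : ℕ) (K : Set (Fin d → ℝ)), IsCompact K → Convex ℝ K →
  (interior K).Nonempty → ∀ (u : Fin d → ℝ) (β : (Fin d → ℝ) → ℝ), u ≠ 0 → Measurable β →
  (∀ (x : Fin d → ℝ) (s : ℝ), β (x + s • u) = β x) → (∃ C, ∀ x ∈ K, |β x| ≤ C) →
  ContinuousOn β (interior K) → ¬ (ConvexOn ℝ (interior K) β ∧ ConcaveOn ℝ (interior K) β) →
  ∀ t₁ t₂ : ℝ, t₁ < 0 → 0 < t₂ →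
  Sylv d K < max (Sylv d (mv β u t₁ '' K)) (Sylv d (mv β u t₂ '' K))

/-- EC1. Continuity of `vol` and `Sylv` (dominated convergence; the frontier of `K` is null). -/
def St_slim : Prop := ∀ (d : ℕ) (K : Set (Fin d → ℝ)) (P : ℕ → Set (Fin d → ℝ)), IsCompact K →
  Convex ℝ K → (interior K).Nonempty → (∀ m, IsCompact (P m) ∧ Convex ℝ (P m)) →
  (∃ R : ℝ, ∀ m, ∀ x ∈ P m, ‖x‖ ≤ R) → (∀ x ∈ interior K, ∀ᶠ m in atTop, x ∈ P m) →
  (∀ x, x ∉ K → ∀ᶠ m in atTop, x ∉ P m) →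
  Tendsto (fun m => vol (P m)) atTop (𝓝 (vol K)) ∧
  Tendsto (fun m => Sylv d (P m)) atTop (𝓝 (Sylv d K))

/-- EG1. More on the gauge. Convexity from `St_gauge`; continuity: convex on an open set of a finite
dimensional space; last part: `q = l y₁ + m y₂` inside a segment of `B`, `c` interior,
`yᵢ' = (1-ε) yᵢ + ε c`; concavity on the interior would give
`ε ≥ gg (l y₁' + m y₂') ≥ l gg y₁' ≥ l ‖y₁' - q‖ / sup ‖b - q‖`. -/
def St_gcont : Prop := ∀ (F : Type) [NormedAddCommGroup F] [NormedSpace ℝ F]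
  [FiniteDimensional ℝ F] [MeasurableSpace F] [BorelSpace F] (B : Set F) (q : F), IsCompact B →
  Convex ℝ B → q ∈ B →
  ConvexOn ℝ B (gg B q) ∧ ContinuousOn (gg B q) (interior B) ∧ (∀ y ∈ interior B, gg B q y < 1) ∧
  ((interior B).Nonempty → q ∉ extremePoints ℝ B → ¬ ConcaveOn ℝ (interior B) (gg B q))

/-- EG2. Interior of a free sum, both directions (with `St_int`). -/
def St_int2 : Prop := ∀ (E F : Type) [NormedAddCommGroup E] [NormedSpace ℝ E]
  [FiniteDimensional ℝ E] [MeasurableSpace E] [BorelSpace E]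
  [NormedAddCommGroup F] [NormedSpace ℝ F] [FiniteDimensional ℝ F] [MeasurableSpace F]
  [BorelSpace F] (A : Set E) (p : E) (B : Set F) (q : F), IsCompact A → Convex ℝ A → p ∈ A →
  IsCompact B → Convex ℝ B → q ∈ B →
  (∀ z ∈ interior (hs A p B q), z.2 ∈ interior B) ∧
  (∀ y ∈ interior B, ∀ a ∈ interior A,
    ((1 - gg B q y) • a + gg B q y • p, y) ∈ interior (hs A p B q))

/-- EP1. The push of a strict functional is a strict functional. Strictness: the speed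
`γ (x,y) = (1-g) β ((x - g p)/(1-g)) + g b₀` of `thm_push` is continuous on the interior of the free
sum (there `y ∈ int B`, `g < 1`, the argument is in `int A`), and if it were convex and concave there,
then, at a fixed `y ∈ int B`, so would be `β` on `int A`. Limits: `(x,y)` is in the free sum of
`P m` iff `y ∈ B` and `(x - g p)/(1-g) ∈ P m` (`g < 1`) or `x = p` (`g = 1`). -/
def St_pushS : Prop := ∀ (E F : Type) [NormedAddCommGroup E] [NormedSpace ℝ E]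
  [FiniteDimensional ℝ E] [MeasurableSpace E] [BorelSpace E]
  [NormedAddCommGroup F] [NormedSpace ℝ F] [FiniteDimensional ℝ F] [MeasurableSpace F]
  [BorelSpace F] (n : ℕ) (Φ : Set (E × F) → (Fin n → E × F) → ℝ) (B : Set F) (q : F)
  (c : Fin n → Option F), FunS Φ → IsCompact B → Convex ℝ B → q ∈ B → (interior B).Nonempty →
  (∀ i y, c i = some y → y ∈ B) → FunS (push Φ B q c)

/-- ES0. The bound on simplices passes to the push (from the proof of `thm_sum`). -/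
def St_bound : Prop := ∀ (E F : Type) [NormedAddCommGroup E] [NormedSpace ℝ E]
  [FiniteDimensional ℝ E] [MeasurableSpace E] [BorelSpace E]
  [NormedAddCommGroup F] [NormedSpace ℝ F] [FiniteDimensional ℝ F] [MeasurableSpace F]
  [BorelSpace F] (n : ℕ) (Φ : Set (E × F) → (Fin n → E × F) → ℝ) (B : Set F) (q : F)
  (c : Fin n → Option F) (M : ℝ), Fun Φ → Good F B → q ∈ B → (∀ i y, c i = some y → y ∈ B) →
  Bd Φ M → Bd (push Φ B q c) M

/-- ES1. A free sum of two simplices glued at a vertex of the first one is a simplex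
(`(p, q)` is in the hull of `{p} × W`: the vertices are `(V - p) × {q} ∪ {p} × W`). -/
def St_simp2 : Prop := ∀ (E F : Type) [NormedAddCommGroup E] [NormedSpace ℝ E]
  [FiniteDimensional ℝ E] [NormedAddCommGroup F] [NormedSpace ℝ F] [FiniteDimensional ℝ F]
  (V : Finset E) (W : Finset F) (p : E) (q : F), Simp V → Simp W → p ∈ V →
  q ∈ convexHull ℝ (W : Set F) →
  ∃ U : Finset (E × F), Simp U ∧
    convexHull ℝ (U : Set (E × F)) = hs (convexHull ℝ (V : Set E)) p (convexHull ℝ (W : Set F)) q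

/-- ES2. The free sum of strictly good bodies is strictly good. -/
def St_sumS : Prop := ∀ (E F : Type) [NormedAddCommGroup E] [NormedSpace ℝ E]
  [FiniteDimensional ℝ E] [MeasurableSpace E] [BorelSpace E]
  [NormedAddCommGroup F] [NormedSpace ℝ F] [FiniteDimensional ℝ F] [MeasurableSpace F]
  [BorelSpace F] (A : Set E) (p : E) (B : Set F) (q : F), SGood E A → p ∈ A → SGood F B → q ∈ B →
  SGood (E × F) (hs A p B q)

/-- EL1. Small shears of a planar body with corners `(1,0)`, `(-1,0)` are convex: there are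
`s₁ < s₂` with `x 0 ≤ 1 + s (x 1)` on `K` for `s ∈ [s₁, s₂]`, and `r₁ < r₂` with
`x 0 ≥ -1 + r (x 1)`; for `|t| ≤ min (s₂ - s₁) (r₂ - r₁)` the moved upper half and the lower half
have a common supporting line at each of the two points, so a segment between them meets the axis in
`[-1,1]`. -/
def St_small : Prop := ∀ K : Set (Fin 2 → ℝ), IsCompact K → Convex ℝ K → Corner K ![1, 0] →
  Corner K ![-1, 0] → (∃ x ∈ K, 0 < x 1) → (∃ x ∈ K, x 1 < 0) →
  ∃ t₀ : ℝ, 0 < t₀ ∧ ∀ t : ℝ, |t| ≤ t₀ → Convex ℝ (mv bb ![1, 0] t '' K)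

/-- EL2. Two corners, normalised: strict inequality. `bb` is continuous and not concave on the
interior (a point of the interior above, one below, and the point of the segment on the axis). -/
def St_two : Prop := ∀ K : Set (Fin 2 → ℝ), IsBody K → Corner K ![1, 0] → Corner K ![-1, 0] →
  (∃ x ∈ K, 0 < x 1) → (∃ x ∈ K, x 1 < 0) →
  ∀ (n : ℕ) (Φ : Set (Fin 2 → ℝ) → (Fin n → (Fin 2 → ℝ)) → ℝ), FunS Φ → ∀ M : ℝ, Bd Φ M →
  ∀ z : Fin n → (Fin 2 → ℝ), (∀ i, z i ∈ K) → Φ K z < M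

/-- EL3. Four corners: strict inequality. Corners are extreme, so the four points are convexly
independent; `St_diag` normalises two crossing diagonals; `St_funmapS`, `St_two`. -/
def St_four : Prop := ∀ K : Set (Fin 2 → ℝ), IsBody K → ∀ v : Fin 4 → (Fin 2 → ℝ),
  Function.Injective v → (∀ i, Corner K (v i)) →
  ∀ (n : ℕ) (Φ : Set (Fin 2 → ℝ) → (Fin n → (Fin 2 → ℝ)) → ℝ), FunS Φ → ∀ M : ℝ, Bd Φ M →
  ∀ z : Fin n → (Fin 2 → ℝ), (∀ i, z i ∈ K) → Φ K z < M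

/-- EL4. `w` outside a compact convex nonempty `R` is a corner of the hull of `R ∪ {w}`: separate
strictly by `f`, and perturb `f` by a small multiple of an independent functional. -/
def St_cornerhull : Prop := ∀ (R : Set (Fin 2 → ℝ)) (w : Fin 2 → ℝ), IsCompact R → Convex ℝ R →
  R.Nonempty → w ∉ R → Corner (convexHull ℝ (R ∪ {w})) w

/-- EK1. End of the shear with a convex part below (as `St_end`). -/
def St_endR : Prop := ∀ (R : Set (Fin 2 → ℝ)) (F : Finset (Fin 2 → ℝ)), IsCompact R → Convex ℝ R →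
  R.Nonempty → (∀ x ∈ R, x 1 < 0) → ![1, 0] ∈ F → ![-1, 0] ∈ F →
  (∀ s ∈ F, s ∉ convexHull ℝ (R ∪ ((F.erase s : Finset (Fin 2 → ℝ)) : Set (Fin 2 → ℝ)))) →
  (∃ s ∈ F, 0 < s 1) →
  ∃ t : ℝ, 0 ≤ t ∧
    mv bb ![1, 0] t '' convexHull ℝ (R ∪ (F : Set (Fin 2 → ℝ))) =
      convexHull ℝ (R ∪ mv bb ![1, 0] t '' (F : Set (Fin 2 → ℝ))) ∧
    ![1, 0] ∈ convexHull ℝ (R ∪ (mv bb ![1, 0] t '' (F : Set (Fin 2 → ℝ))) \ {![1, 0]})

/-- EK2. The other end. -/
def St_endR2 : Prop := ∀ (R : Set (Fin 2 → ℝ)) (F : Finset (Fin 2 → ℝ)), IsCompact R →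
  Convex ℝ R → R.Nonempty → (∀ x ∈ R, x 1 < 0) → ![1, 0] ∈ F → ![-1, 0] ∈ F →
  (∀ s ∈ F, s ∉ convexHull ℝ (R ∪ ((F.erase s : Finset (Fin 2 → ℝ)) : Set (Fin 2 → ℝ)))) →
  (∃ s ∈ F, 0 < s 1) →
  ∃ t : ℝ, t ≤ 0 ∧
    mv bb ![1, 0] t '' convexHull ℝ (R ∪ (F : Set (Fin 2 → ℝ))) =
      convexHull ℝ (R ∪ mv bb ![1, 0] t '' (F : Set (Fin 2 → ℝ))) ∧
    ![-1, 0] ∈ convexHull ℝ (R ∪ (mv bb ![1, 0] t '' (F : Set (Fin 2 → ℝ))) \ {![-1, 0]})

/-- EK3. Normalisation in a cap. Radon for `a ∈ R` and three points of `F` gives crossing segments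
`[a, w₃]` and `[w₁, w₂]`; if `R` met the line `w₁ w₂`, then inside `[w₁, w₂]` (impossible by `l`)
or outside (then `w₁` or `w₂` is in the hull of the rest). -/
def St_diagR : Prop := ∀ (R : Set (Fin 2 → ℝ)) (F : Finset (Fin 2 → ℝ))
  (l : (Fin 2 → ℝ) →ₗ[ℝ] ℝ) (c : ℝ), IsCompact R → Convex ℝ R → R.Nonempty →
  (∀ x ∈ R, l x ≤ c) → (∀ x ∈ F, c < l x) → 3 ≤ F.card →
  (∀ s ∈ F, s ∉ convexHull ℝ (R ∪ ((F.erase s : Finset (Fin 2 → ℝ)) : Set (Fin 2 → ℝ)))) →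
  ∃ f : (Fin 2 → ℝ) ≃ᵃ[ℝ] (Fin 2 → ℝ), (∃ s ∈ F, f s = ![1, 0]) ∧ (∃ s ∈ F, f s = ![-1, 0]) ∧
    (∃ s ∈ F, 0 < f s 1) ∧ ∀ x ∈ R, f x 1 < 0

/-- EK4. Reduction of a cap to at most two points; the volume is constant, the value does not
decrease, nothing changes in `{l ≤ c}`. Induction on `F.card`; in the step: if some `s` is in the
hull of the rest, drop it; else `St_diagR`, `St_endR`, `St_endR2` in the coordinates `f`
(`Base_mv_map`), `Fun.mov` with `b = 0` (the marked points are in `R`, where the speed is 0). For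
`x` in the moved body with `l x ≤ c` and `f x 1 > 0` the segment to a point of `R` meets the axis in
a point of the old body with `l ≤ c`, that is in a point of `R`: impossible. -/
def St_cap : Prop := ∀ (R : Set (Fin 2 → ℝ)) (l : (Fin 2 → ℝ) →ₗ[ℝ] ℝ) (c : ℝ), IsBody R →
  (∀ x ∈ R, l x ≤ c) → ∀ (n : ℕ) (Φ : Set (Fin 2 → ℝ) → (Fin n → (Fin 2 → ℝ)) → ℝ), Fun Φ →
  ∀ z : Fin n → (Fin 2 → ℝ), (∀ i, z i ∈ R) → ∀ F : Finset (Fin 2 → ℝ), F.Nonempty →
  (∀ x ∈ F, c < l x) →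
  (∀ x ∈ convexHull ℝ (R ∪ (F : Set (Fin 2 → ℝ))), l x ≤ c → x ∈ R) →
  ∃ v v' : Fin 2 → ℝ, c < l v ∧ c < l v' ∧
    (∀ x ∈ convexHull ℝ (R ∪ {v, v'}), l x ≤ c → x ∈ R) ∧
    vol (convexHull ℝ (R ∪ {v, v'})) = vol (convexHull ℝ (R ∪ (F : Set (Fin 2 → ℝ)))) ∧
    Φ (convexHull ℝ (R ∪ (F : Set (Fin 2 → ℝ)))) z ≤ Φ (convexHull ℝ (R ∪ {v, v'})) z

/-- EK5. Bounded volume bounds the added point (many disjoint homothetic copies of a ball of `R` lie
in the hull of `R ∪ {v}`; or a triangle with a fixed base in `R`). -/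
def St_bddvol : Prop := ∀ (R : Set (Fin 2 → ℝ)) (A : ℝ), IsBody R →
  ∃ ρ : ℝ, ∀ v : Fin 2 → ℝ, vol (convexHull ℝ (R ∪ {v})) ≤ A → ‖v‖ ≤ ρ

/-- EK6. Convergence of hulls. -/
def St_hullconv : Prop := ∀ (R : Set (Fin 2 → ℝ)) (v v' : ℕ → (Fin 2 → ℝ)) (w w' : Fin 2 → ℝ),
  IsBody R → Tendsto v atTop (𝓝 w) → Tendsto v' atTop (𝓝 w') →
  (∃ ρ : ℝ, ∀ m, ∀ x ∈ convexHull ℝ (R ∪ {v m, v' m}), ‖x‖ ≤ ρ) ∧
  (∀ x ∈ interior (convexHull ℝ (R ∪ {w, w'})),
    ∀ᶠ m in atTop, x ∈ convexHull ℝ (R ∪ {v m, v' m})) ∧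
  (∀ x, x ∉ convexHull ℝ (R ∪ {w, w'}) →
    ∀ᶠ m in atTop, x ∉ convexHull ℝ (R ∪ {v m, v' m}))

/-- EK7. A cap can be replaced by one with a corner. `R = K ∩ {l ≤ c}`, dense sequence of
`K ∩ {l > c}`, `St_cap`, bounded by `St_bddvol`, subsequence, `St_hullconv`, `FunS.lim`,
`St_slim` for the volume: the limit `K'` has the volume of `K`, so it is not `R`, and the point of
the two with the larger `l` is a corner (`St_cornerhull`). -/
def St_caplim : Prop := ∀ (K : Set (Fin 2 → ℝ)) (l : (Fin 2 → ℝ) →ₗ[ℝ] ℝ) (c : ℝ), IsBody K →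
  (interior {x | x ∈ K ∧ l x ≤ c}).Nonempty → (∃ x ∈ K, c < l x) →
  ∀ (n : ℕ) (Φ : Set (Fin 2 → ℝ) → (Fin n → (Fin 2 → ℝ)) → ℝ), FunS Φ →
  ∀ z : Fin n → (Fin 2 → ℝ), (∀ i, z i ∈ K ∧ l (z i) ≤ c) →
  ∃ K' : Set (Fin 2 → ℝ), IsBody K' ∧ (∀ x, l x ≤ c → (x ∈ K' ↔ x ∈ K)) ∧ Φ K z ≤ Φ K' z ∧
    ∃ v, c < l v ∧ Corner K' v

/-- EK8. Four disjoint small caps away from finitely many points (`SYB.Geo_cap` at four extreme
points). -/
def St_caps4 : Prop := ∀ K : Set (Fin 2 → ℝ), IsBody K → (extremePoints ℝ K).Infinite →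
  ∀ Z : Finset (Fin 2 → ℝ), (∀ z ∈ Z, z ∈ K) →
  ∃ (l : Fin 4 → ((Fin 2 → ℝ) →ₗ[ℝ] ℝ)) (c : Fin 4 → ℝ),
    (∀ j, ∃ x ∈ K, c j < l j x) ∧
    (∀ j k, j ≠ k → ∀ x ∈ K, ¬ (c j ≤ l j x ∧ c k ≤ l k x)) ∧
    (∀ z ∈ Z, ∀ j, l j z < c j) ∧ (interior {x | x ∈ K ∧ ∀ j, l j x ≤ c j}).Nonempty

/-- EK9. The four caps one after another. Invariants after `j` steps, for the body `K_j`:
disjointness of the caps in `K_j`; corners in the caps `< j`; points in the caps `≥ j`; same points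
as `K` where all `l i x ≤ c i`. New `x` in two caps `j`, `k`: segment to a point of `K_j` in cap `k`
crosses `l j = c j` in a point of `K_j`. Corners persist: supporting is a local property. -/
def St_iter : Prop := ∀ K : Set (Fin 2 → ℝ), IsBody K →
  ∀ (l : Fin 4 → ((Fin 2 → ℝ) →ₗ[ℝ] ℝ)) (c : Fin 4 → ℝ),
    (∀ j, ∃ x ∈ K, c j < l j x) →
    (∀ j k, j ≠ k → ∀ x ∈ K, ¬ (c j ≤ l j x ∧ c k ≤ l k x)) →
    (interior {x | x ∈ K ∧ ∀ j, l j x ≤ c j}).Nonempty →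
  ∀ (n : ℕ) (Φ : Set (Fin 2 → ℝ) → (Fin n → (Fin 2 → ℝ)) → ℝ), FunS Φ →
  ∀ z : Fin n → (Fin 2 → ℝ), (∀ i, z i ∈ K ∧ ∀ j, l j (z i) ≤ c j) →
  ∃ K' : Set (Fin 2 → ℝ), IsBody K' ∧ (∀ i, z i ∈ K') ∧ Φ K z ≤ Φ K' z ∧
    ∃ v : Fin 4 → (Fin 2 → ℝ), Function.Injective v ∧ ∀ i, Corner K' (v i)

/-- EL5. Planar bodies are strictly good. Finitely many extreme points: `K` is their hull
(Krein-Milman), at most three: simplex; at least four: corners by `St_cornerhull`, `St_four`.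
Infinitely many: `St_caps4`, `St_iter`, `St_four`. -/
def St_planarS : Prop := ∀ K : Set (Fin 2 → ℝ), IsBody K → SGood (Fin 2 → ℝ) K

end Pool.Agent.SYJ
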